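/-
ROW AlT. A unit satisfying a Laurent polynomial equation over `𝔽_p` is torsion (Mathlib only).
PROOF. Choose `K : ℕ` with `k + K ≥ 0` for all `k ∈ s`. `D` is a `ZMod p`-algebra (`ZMod.algebra` from
`CharP D p`: `CharP` follows from `(p : D) = 0`, `p` prime, `D` nontrivial: `CharP.of_prime…`/
`CharP.charP_of_prime_of_cast_eq_zero`-type, or use `ZMod.castHom`/`ZMod.lift` to get a ring hom
`ZMod p →+* D` and `RingHom.toAlgebra`). The polynomial `q = ∑ k ∈ s, C (c k : ZMod p) * X ^ (k + K).toNat` is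
nonzero (distinct exponents, some coefficient `≠ 0`) and `aeval u q = u^K * ∑ c_k u^k = 0`. So `u` is integral
over the field `ZMod p`, `Algebra.adjoin (ZMod p) {u}` is a finite-dimensional `ZMod p`-module
(`IsIntegral.fg_adjoin_singleton`), hence a finite set, which contains all powers of `u`. So `u^i = u^j` for
some `i < j` (`Finite.exists_ne_map_eq_of_infinite`) and `u^(j-i) = 1`.
-/
import Mathlib

set_option autoImplicit false

namespace Pool.Agent.H28.IP

theorem AlT_pow {D : Type} [CommRing D] [IsDomain D] (u : Dˣ) {i j : ℕ} (hij : i < j)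
    (h : (u : D) ^ i = (u : D) ^ j) : ∃ N : ℕ, 1 ≤ N ∧ (u : D) ^ N = 1 := by
  refine ⟨j - i, by omega, ?_⟩
  have h1 : (u : D) ^ i * (u : D) ^ (j - i) = (u : D) ^ i * 1 := by
    rw [← pow_add, mul_one, h]
    congr 1
    omega
  exact mul_left_cancel₀ (pow_ne_zero _ u.ne_zero) h1

theorem alg_tor {D : Type} [CommRing D] [IsDomain D] {p : ℕ} (hp : p.Prime) (hpD : (p : D) = 0)
    (u : Dˣ) (s : Finset ℤ) (c : ℤ → ℤ) (hc : ∃ k ∈ s, ¬ (p : ℤ) ∣ c k)
    (h : ∑ k ∈ s, (c k : D) * ((u ^ k : Dˣ) : D) = 0) : ∃ N : ℕ, 1 ≤ N ∧ (u : D) ^ N = 1 := by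
  classical
  haveI : Fact p.Prime := ⟨hp⟩
  haveI : CharP D p := by
    obtain ⟨q, hq⟩ := CharP.exists D
    have h1 : q ∣ p := (CharP.cast_eq_zero_iff D q p).1 hpD
    rcases (Nat.dvd_prime hp).1 h1 with h2 | h2
    · subst h2
      have h3 : ((1 : ℕ) : D) = 0 := (CharP.cast_eq_zero_iff D 1 1).2 (dvd_refl 1)
      rw [Nat.cast_one] at h3
      exact absurd h3 one_ne_zero
    · rw [← h2]
      exact hq
  letI : Algebra (ZMod p) D := ZMod.algebra D p
  obtain ⟨K, hK⟩ : ∃ K : ℕ, ∀ k ∈ s, 0 ≤ k + (K : ℤ) := by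
    refine ⟨(∑ k ∈ s, |k|).toNat, fun k hk => ?_⟩
    have h1 : |k| ≤ ∑ k ∈ s, |k| := Finset.single_le_sum (fun i _ => abs_nonneg i) hk
    have h2 := neg_abs_le k
    omega
  let q : Polynomial (ZMod p) :=
    ∑ k ∈ s, Polynomial.C ((c k : ℤ) : ZMod p) * Polynomial.X ^ (k + (K : ℤ)).toNat
  have hq0 : q ≠ 0 := by
    obtain ⟨k0, hk0, hc0⟩ := hc
    intro hq
    have h1 : q.coeff (k0 + (K : ℤ)).toNat = ((c k0 : ℤ) : ZMod p) := by
      simp only [q, Polynomial.finset_sum_coeff, Polynomial.coeff_C_mul_X_pow]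
      rw [Finset.sum_eq_single k0]
      · simp
      · intro k hk hne
        rw [if_neg]
        intro h2
        apply hne
        have h3 := hK k hk
        have h4 := hK k0 hk0
        omega
      · intro h2
        exact absurd hk0 h2
    rw [hq, Polynomial.coeff_zero] at h1
    exact hc0 ((ZMod.intCast_zmod_eq_zero_iff_dvd (c k0) p).1 h1.symm)
  have haev : Polynomial.aeval (u : D) q = 0 := by
    simp only [q, map_sum, map_mul, map_pow, Polynomial.aeval_X, Polynomial.aeval_C, map_intCast]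
    have h2 : ∀ k ∈ s, ((c k : ℤ) : D) * (u : D) ^ (k + (K : ℤ)).toNat =
        (u : D) ^ K * ((c k : D) * ((u ^ k : Dˣ) : D)) := by
      intro k hk
      have h1 : (u : D) ^ (k + (K : ℤ)).toNat = ((u ^ (k + (K : ℤ)) : Dˣ) : D) := by
        rw [← Units.val_pow_eq_pow_val, ← zpow_natCast, Int.toNat_of_nonneg (hK k hk)]
      rw [h1, zpow_add, Units.val_mul, zpow_natCast, Units.val_pow_eq_pow_val]
      ring
    rw [Finset.sum_congr rfl h2, ← Finset.mul_sum, h, mul_zero]
  have halg : IsAlgebraic (ZMod p) (u : D) := ⟨q, hq0, haev⟩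
  have hint : IsIntegral (ZMod p) (u : D) := isAlgebraic_iff_isIntegral.1 halg
  have hfg := hint.fg_adjoin_singleton
  haveI : Module.Finite (ZMod p) (Algebra.adjoin (ZMod p) {(u : D)}) := Module.Finite.iff_fg.2 hfg
  haveI : Finite (Algebra.adjoin (ZMod p) {(u : D)}) := Module.finite_of_finite (ZMod p)
  obtain ⟨i, j, hij, he⟩ := Finite.exists_ne_map_eq_of_infinite (fun n : ℕ =>
    (⟨(u : D) ^ n, Subalgebra.pow_mem _ (Algebra.self_mem_adjoin_singleton _ _) n⟩ :
      Algebra.adjoin (ZMod p) {(u : D)}))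
  have he' : (u : D) ^ i = (u : D) ^ j := congrArg Subtype.val he
  rcases lt_or_gt_of_ne hij with hlt | hlt
  · exact AlT_pow u hlt he'
  · exact AlT_pow u hlt he'.symm

end Pool.Agent.H28.IP
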