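import Pool.Agent.H28.IP.Defs

/-! HNN extensions attached to a homomorphism onto `ℤ` (for the Bieri–Strebel lemma). -/

set_option autoImplicit false

namespace Pool.Agent.H28.IP

variable {G : Type} [Group G]

/-- `t S t⁻¹`. -/
def TT (S : Subgroup G) (t : G) : Subgroup G := S.map (MulAut.conj t).toMonoidHom

/-- Conjugation by `t` from `S` to `t S t⁻¹`, inside `H`. -/
noncomputable def hphi (H S : Subgroup G) (t : G) (hS : S ≤ H) (hT : TT S t ≤ H) :
    S.subgroupOf H ≃* (TT S t).subgroupOf H :=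
  (Subgroup.subgroupOfEquivOfLe hS).trans
    ((S.equivMapOfInjective (MulAut.conj t).toMonoidHom (MulAut.conj t).injective).trans
      (Subgroup.subgroupOfEquivOfLe hT).symm)

theorem hphi_apply (H S : Subgroup G) (t : G) (hS : S ≤ H) (hT : TT S t ≤ H)
    (a : S.subgroupOf H) : ((hphi H S t hS hT a : H) : G) = t * ((a : H) : G) * t⁻¹ := rfl

/-- The HNN extension of `H` with `t s t⁻¹ = φ s`. -/
abbrev HN (H S : Subgroup G) (t : G) (hS : S ≤ H) (hT : TT S t ≤ H) : Type :=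
  HNNExtension H (S.subgroupOf H) ((TT S t).subgroupOf H) (hphi H S t hS hT)

/-- The natural homomorphism to `G`. -/
noncomputable def hpi (H S : Subgroup G) (t : G) (hS : S ≤ H) (hT : TT S t ≤ H) :
    HN H S t hS hT →* G :=
  HNNExtension.lift H.subtype t (by
    intro a
    show t * ((a : H) : G) = ((hphi H S t hS hT a : H) : G) * t
    rw [hphi_apply]
    group)

variable {n : ℕ}

/-- `t ^ j * b_i * t ^ (-j)` with `b_i = g_i * t ^ (-e_i)`. -/
def bj (g : Fin n → G) (e : Fin n → ℤ) (t : G) (i : Fin n) (j : ℤ) : G :=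
  t ^ j * (g i * t ^ (-e i)) * t ^ (-j)

/-- The subgroup generated by the `b_{i,j}`, `0 ≤ j ≤ m`. -/
def HH (g : Fin n → G) (e : Fin n → ℤ) (t : G) (m : ℕ) : Subgroup G :=
  Subgroup.closure {x | ∃ (i : Fin n) (j : ℕ), j ≤ m ∧ x = bj g e t i j}

/-- The subgroup generated by the `b_{i,j}`, `0 ≤ j < m`. -/
def SS (g : Fin n → G) (e : Fin n → ℤ) (t : G) (m : ℕ) : Subgroup G :=
  Subgroup.closure {x | ∃ (i : Fin n) (j : ℕ), j < m ∧ x = bj g e t i j}

theorem bj_mem (g : Fin n → G) (e : Fin n → ℤ) (t : G) {m : ℕ} (i : Fin n) {j : ℕ} (h : j ≤ m) :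
    bj g e t i j ∈ HH g e t m := Subgroup.subset_closure ⟨i, j, h, rfl⟩

theorem SS_le (g : Fin n → G) (e : Fin n → ℤ) (t : G) (m : ℕ) : SS g e t m ≤ HH g e t m :=
  Subgroup.closure_mono (fun _ ⟨i, j, h, hx⟩ => ⟨i, j, h.le, hx⟩)

theorem bj_conj (g : Fin n → G) (e : Fin n → ℤ) (t : G) (i : Fin n) (j : ℤ) :
    t * bj g e t i j * t⁻¹ = bj g e t i (j + 1) := by
  unfold bj
  rw [zpow_add_one, neg_add, zpow_add, zpow_neg_one]
  rw [← (Commute.refl t).zpow_right j |>.eq]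
  simp only [mul_assoc]

theorem TS_le (g : Fin n → G) (e : Fin n → ℤ) (t : G) (m : ℕ) :
    TT (SS g e t m) t ≤ HH g e t m := by
  unfold TT SS
  rw [MonoidHom.map_closure, Subgroup.closure_le]
  rintro _ ⟨x, ⟨i, j, h, rfl⟩, rfl⟩
  show t * bj g e t i j * t⁻¹ ∈ HH g e t m
  rw [bj_conj]
  exact_mod_cast bj_mem g e t i (j := j + 1) h

/-- The HNN extension `E_m`. -/
abbrev Em (g : Fin n → G) (e : Fin n → ℤ) (t : G) (m : ℕ) : Type :=
  HN (HH g e t m) (SS g e t m) t (SS_le g e t m) (TS_le g e t m)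

/-- The inclusion of `H_m` in `E_m`. -/
noncomputable def oE (g : Fin n → G) (e : Fin n → ℤ) (t : G) (m : ℕ) :
    HH g e t m →* Em g e t m := HNNExtension.of

/-- The stable letter of `E_m`. -/
noncomputable def tE (g : Fin n → G) (e : Fin n → ℤ) (t : G) (m : ℕ) : Em g e t m :=
  HNNExtension.t

/-- The natural homomorphism `E_m → G`. -/
noncomputable def pE (g : Fin n → G) (e : Fin n → ℤ) (t : G) (m : ℕ) : Em g e t m →* G :=
  hpi (HH g e t m) (SS g e t m) t (SS_le g e t m) (TS_le g e t m)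

theorem pE_o (g : Fin n → G) (e : Fin n → ℤ) (t : G) (m : ℕ) (h : HH g e t m) :
    pE g e t m (oE g e t m h) = h := by
  unfold pE oE hpi
  rw [HNNExtension.lift_of]
  rfl

theorem pE_t (g : Fin n → G) (e : Fin n → ℤ) (t : G) (m : ℕ) :
    pE g e t m (tE g e t m) = t := by
  unfold pE tE hpi
  rw [HNNExtension.lift_t]

/-- The lift of `g_i` to `E_m`. -/
noncomputable def gE (g : Fin n → G) (e : Fin n → ℤ) (t : G) (m : ℕ) (i : Fin n) : Em g e t m :=
  oE g e t m ⟨bj g e t i (0 : ℕ), bj_mem g e t i (Nat.zero_le m)⟩ * tE g e t m ^ (e i)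

end Pool.Agent.H28.IP
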