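/-
ROW BrA. Britton's lemma: in a metabelian group the HNN extension is ascending or descending.
PROOF. Suppose `h ∈ H`, `h ∉ S` and `k ∈ H`, `k ∉ TT S t`. In `E = HN H S t hS hT` (stable letter `t`, `of`) put
`u = t * of h * t⁻¹ * of h⁻¹`, `v = t⁻¹ * of k * t * of k⁻¹`. Their images under `hpi` are commutators of `G`, so
they commute (Metab.comm), and by injectivity `u * v * u⁻¹ * v⁻¹ = 1`. But
`u v u⁻¹ v⁻¹ = t h · t⁻¹ h⁻¹ · t⁻¹ k · t (k⁻¹ h) · t h⁻¹ · t⁻¹ k · t⁻¹ k⁻¹ · t 1`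
is the product of the `HNNExtension.NormalWord.ReducedWord` with head `1` and list
`[(1, h), (-1, h⁻¹), (-1, k), (1, k⁻¹ h), (1, h⁻¹), (-1, k), (-1, k⁻¹), (1, 1)]`; the chain condition
(`a.2 ∈ toSubgroup A B a.1 → a.1 = b.1`, `toSubgroup A B 1 = A = S.subgroupOf H`,
`toSubgroup A B (-1) = B = (TT S t).subgroupOf H`) holds since `h, h⁻¹ ∉ A` and `k, k⁻¹ ∉ B` at the places
where the sign changes (`(1,h),(-1,_)`; `(-1,k),(1,_)`; `(1,h⁻¹),(-1,_)`; `(-1,k⁻¹),(1,_)`). By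
`HNNExtension.ReducedWord.toList_eq_nil_of_mem_of_range` (the product `1` lies in the range of `of`) the
list would be empty. Contradiction.
-/
import Pool.Agent.H28.IP.BDefs

set_option autoImplicit false

namespace Pool.Agent.H28.IP

theorem BrA_prod {E : Type} [Group E] (t h k : E) :
    (t * h * t⁻¹ * h⁻¹) * (t⁻¹ * k * t * k⁻¹) * (t * h * t⁻¹ * h⁻¹)⁻¹ * (t⁻¹ * k * t * k⁻¹)⁻¹ =
      (t * h) * ((t⁻¹ * h⁻¹) * ((t⁻¹ * k) * ((t * (k⁻¹ * h)) * ((t * h⁻¹) * ((t⁻¹ * k) *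
        ((t⁻¹ * k⁻¹) * (t * 1))))))) := by
  group

theorem britton {G : Type} [Group G] [Metab G] {H S : Subgroup G} {t : G} {hS : S ≤ H}
    {hT : TT S t ≤ H} (hinj : Function.Injective (hpi H S t hS hT)) : H ≤ S ∨ H ≤ TT S t := by
  by_contra hcon
  rw [not_or, SetLike.not_le_iff_exists, SetLike.not_le_iff_exists] at hcon
  obtain ⟨⟨h0, hh, hhS⟩, ⟨k0, hk, hkT⟩⟩ := hcon
  obtain ⟨h, hhe⟩ : ∃ h : H, (h : G) = h0 := ⟨⟨h0, hh⟩, rfl⟩
  obtain ⟨k, hke⟩ : ∃ k : H, (k : G) = k0 := ⟨⟨k0, hk⟩, rfl⟩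
  have hA : h ∉ S.subgroupOf H := by
    rw [Subgroup.mem_subgroupOf, hhe]
    exact hhS
  have hB : k ∉ (TT S t).subgroupOf H := by
    rw [Subgroup.mem_subgroupOf, hke]
    exact hkT
  have hA' : h⁻¹ ∉ S.subgroupOf H := fun hc => hA (inv_mem_iff.1 hc)
  have hB' : k⁻¹ ∉ (TT S t).subgroupOf H := fun hc => hB (inv_mem_iff.1 hc)
  have hneg : (-1 : ℤˣ) ≠ 1 := by decide
  obtain ⟨w, hw1, hw2⟩ : ∃ w : HNNExtension.NormalWord.ReducedWord H (S.subgroupOf H)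
      ((TT S t).subgroupOf H), w.head = 1 ∧ w.toList = [(1, h), (-1, h⁻¹), (-1, k), (1, k⁻¹ * h),
        (1, h⁻¹), (-1, k), (-1, k⁻¹), (1, 1)] := by
    refine ⟨⟨1, [(1, h), (-1, h⁻¹), (-1, k), (1, k⁻¹ * h),
        (1, h⁻¹), (-1, k), (-1, k⁻¹), (1, 1)], ?_⟩, rfl, rfl⟩
    refine List.IsChain.cons_cons (fun hc => absurd hc hA) ?_
    refine List.IsChain.cons_cons (fun _ => rfl) ?_
    refine List.IsChain.cons_cons (fun hc => absurd hc hB) ?_
    refine List.IsChain.cons_cons (fun _ => rfl) ?_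
    refine List.IsChain.cons_cons (fun hc => absurd hc hA') ?_
    refine List.IsChain.cons_cons (fun _ => rfl) ?_
    refine List.IsChain.cons_cons (fun hc => absurd hc hB') ?_
    exact List.IsChain.singleton _
  obtain ⟨o, ho⟩ : ∃ o : H →* HN H S t hS hT, o = HNNExtension.of := ⟨_, rfl⟩
  obtain ⟨T, hTe⟩ : ∃ T : HN H S t hS hT, T = HNNExtension.t := ⟨_, rfl⟩
  have hprod : w.prod (hphi H S t hS hT) = (T * o h * T⁻¹ * (o h)⁻¹) * (T⁻¹ * o k * T * (o k)⁻¹) *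
      (T * o h * T⁻¹ * (o h)⁻¹)⁻¹ * (T⁻¹ * o k * T * (o k)⁻¹)⁻¹ := by
    rw [BrA_prod, HNNExtension.NormalWord.ReducedWord.prod, hw1, hw2, ← ho]
    rw [← hTe]
    simp only [List.map_cons, List.map_nil, List.prod_cons, List.prod_nil, map_one, one_mul,
      Units.val_one, Units.val_neg, zpow_one, zpow_neg, map_inv, map_mul, mul_one]
  have himg : ∀ g : HN H S t hS hT, ∀ g' : HN H S t hS hT,
      hpi H S t hS hT (g * g' * g⁻¹ * g'⁻¹) ∈ commutator G := by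
    intro g g'
    rw [map_mul, map_mul, map_mul, map_inv, map_inv, commutator_def]
    exact Subgroup.commutator_mem_commutator (Subgroup.mem_top _) (Subgroup.mem_top _)
  have himg2 : hpi H S t hS hT (T⁻¹ * o k * T * (o k)⁻¹) ∈ commutator G := by
    have := himg T⁻¹ (o k)
    rwa [inv_inv] at this
  have hone : (T * o h * T⁻¹ * (o h)⁻¹) * (T⁻¹ * o k * T * (o k)⁻¹) *
      (T * o h * T⁻¹ * (o h)⁻¹)⁻¹ * (T⁻¹ * o k * T * (o k)⁻¹)⁻¹ = 1 := by
    apply hinj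
    rw [map_one, map_mul, map_mul, map_mul _ (T * o h * T⁻¹ * (o h)⁻¹), map_inv, map_inv,
      Metab.comm _ (himg T (o h)) _ himg2]
    group
  have hnil := HNNExtension.ReducedWord.toList_eq_nil_of_mem_of_range (hphi H S t hS hT) w (by
    rw [hprod, hone]
    exact one_mem _)
  rw [hw2] at hnil
  exact absurd hnil (by simp)

end Pool.Agent.H28.IP
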