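/-
ROW BrB. Rewriting in the HNN extensions `E_m`. Write `o = oE`, `τ = tE`, `b_j = bj g e t i j`.
PROOFS.
* claimC: induction on `j`: `τ^(j+1) o(b_0) τ^(-(j+1)) = τ (τ^j o(b_0) τ^(-j)) τ⁻¹ = τ o(b_j) τ⁻¹ = o(b_{j+1})` because
  for `s ∈ SS` (here `b_j`, `j < m`) `HNNExtension.t_mul_of` / `equiv_eq_conj` gives
  `τ * o s = o (hphi s) * τ` and `hphi s = t s t⁻¹` (hphi_apply, bj_conj; equality in the subtype `HH`).
* claimD: `ε w = toAdd (FreeGroup.lift (fun i => Multiplicative.ofAdd (e i)) w) : ℤ` is the exponent of `w`.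
  Prove by induction on the word representing `w` (`FreeGroup.induction_on` is for products; better:
  `w = mk L`, induction on the list `L`) the statement: there is `N` such that for all `m` and all
  integers `M` with `N ≤ M ≤ m - N`: `τ^M * lift (gE) w * τ^(-(M + ε w)) ∈ range o`. Empty word: `N = 0`,
  `1`. Word `x_i w'` : `N = N' + |e i|`: `τ^M gE_i lift(w') τ^(-(M + e_i + ε w')) =
  (τ^M o(b_0) τ^(-M)) * (τ^(M + e_i) lift(w') τ^(-(M + e_i + ε w')))`; the first factor is in the range by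
  claimC (`0 ≤ M ≤ m`), the second by induction (`N' ≤ M + e_i ≤ m - N'`). Word `x_i⁻¹ w'`: `gE_i⁻¹ = τ^(-e_i) o(b_0)⁻¹`,
  `τ^M τ^(-e_i) o(b_0)⁻¹ lift(w') τ^(…) = (τ^(M-e_i) o(b_0) τ^(-(M-e_i)))⁻¹ * (τ^(M-e_i) lift(w') τ^(-(M - e_i + ε w')))`,
  same bounds (`0 ≤ M - e_i ≤ m`).
-/
import Pool.Agent.H28.IP.BDefs

set_option autoImplicit false

namespace Pool.Agent.H28.IP

variable {G : Type} [Group G] {n : ℕ} (g : Fin n → G) (e : Fin n → ℤ) (t : G)

theorem BrB_step (m : ℕ) (i : Fin n) (j : ℕ) (h : j < m) :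
    tE g e t m * oE g e t m ⟨bj g e t i j, bj_mem g e t i h.le⟩ =
      oE g e t m ⟨bj g e t i ((j + 1 : ℕ) : ℤ), bj_mem g e t i h⟩ * tE g e t m := by
  have hS : (⟨bj g e t i j, bj_mem g e t i h.le⟩ : HH g e t m) ∈
      (SS g e t m).subgroupOf (HH g e t m) := by
    rw [Subgroup.mem_subgroupOf]
    exact Subgroup.subset_closure ⟨i, j, h, rfl⟩
  have key := HNNExtension.t_mul_of (φ := hphi (HH g e t m) (SS g e t m) t (SS_le g e t m)
    (TS_le g e t m)) ⟨⟨bj g e t i j, bj_mem g e t i h.le⟩, hS⟩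
  have e1 : ((hphi (HH g e t m) (SS g e t m) t (SS_le g e t m) (TS_le g e t m)
      ⟨⟨bj g e t i j, bj_mem g e t i h.le⟩, hS⟩ : (TT (SS g e t m) t).subgroupOf (HH g e t m)) :
      HH g e t m) = ⟨bj g e t i ((j + 1 : ℕ) : ℤ), bj_mem g e t i h⟩ := by
    apply Subtype.ext
    rw [hphi_apply]
    show t * bj g e t i j * t⁻¹ = bj g e t i ((j + 1 : ℕ) : ℤ)
    rw [bj_conj]
    push_cast
    rfl
  rw [e1] at key
  exact key

theorem claimC (m : ℕ) (i : Fin n) (j : ℕ) (h : j ≤ m) :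
    tE g e t m ^ (j : ℤ) * oE g e t m ⟨bj g e t i (0 : ℕ), bj_mem g e t i (Nat.zero_le m)⟩ *
      tE g e t m ^ (-(j : ℤ)) = oE g e t m ⟨bj g e t i j, bj_mem g e t i h⟩ := by
  induction j with
  | zero => simp
  | succ j ih =>
    have h1 := ih (by omega)
    have h2 := BrB_step g e t m i j (by omega)
    have e1 : tE g e t m ^ ((j + 1 : ℕ) : ℤ) * oE g e t m ⟨bj g e t i (0 : ℕ), bj_mem g e t i (Nat.zero_le m)⟩ *
      tE g e t m ^ (-((j + 1 : ℕ) : ℤ)) = tE g e t m * (tE g e t m ^ (j : ℤ) *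
        oE g e t m ⟨bj g e t i (0 : ℕ), bj_mem g e t i (Nat.zero_le m)⟩ *
          tE g e t m ^ (-(j : ℤ))) * (tE g e t m)⁻¹ := by
      have e2 : tE g e t m ^ ((j + 1 : ℕ) : ℤ) = tE g e t m * tE g e t m ^ (j : ℤ) := by
        rw [Nat.cast_succ, add_comm (j : ℤ) 1, zpow_add, zpow_one]
      have e3 : tE g e t m ^ (-((j + 1 : ℕ) : ℤ)) = tE g e t m ^ (-(j : ℤ)) * (tE g e t m)⁻¹ := by
        rw [Nat.cast_succ, neg_add, zpow_add, zpow_neg_one]
      rw [e2, e3]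
      simp only [mul_assoc]
    rw [e1, h1, h2, mul_inv_cancel_right]

/-- the property of claimD -/
def BrB_P (w : FreeGroup (Fin n)) : Prop := ∃ N : ℕ, ∀ (m : ℕ) (M : ℤ), (N : ℤ) ≤ M →
    M ≤ (m : ℤ) - N → ∃ h : HH g e t m, tE g e t m ^ M * FreeGroup.lift (gE g e t m) w *
      tE g e t m ^ (-(M + Multiplicative.toAdd
        (FreeGroup.lift (fun i => Multiplicative.ofAdd (e i)) w))) = oE g e t m h

theorem BrB_inv (w : FreeGroup (Fin n)) (hw : BrB_P g e t w) : BrB_P g e t w⁻¹ := by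
  obtain ⟨N, hN⟩ := hw
  obtain ⟨ε, hε⟩ : ∃ ε : ℤ, ε = Multiplicative.toAdd
        (FreeGroup.lift (fun i => Multiplicative.ofAdd (e i)) w) := ⟨_, rfl⟩
  refine ⟨N + ε.natAbs, fun m M h1 h2 => ?_⟩
  push_cast at h1 h2
  have ha : |ε| = (ε.natAbs : ℤ) := by simp
  have hb := abs_le.1 (le_refl |ε|)
  obtain ⟨h, hh⟩ := hN m (M - ε) (by linarith [hb.1, hb.2]) (by linarith [hb.1, hb.2])
  refine ⟨h⁻¹, ?_⟩
  rw [map_inv (oE g e t m), ← hh, map_inv, map_inv, toAdd_inv, ← hε, mul_inv_rev, mul_inv_rev,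
    ← zpow_neg, ← zpow_neg, neg_neg, ← mul_assoc]
  have e1 : M - ε + ε = M := by ring
  have e2 : M + -ε = M - ε := by ring
  rw [e1, e2]

theorem BrB_mul (x y : FreeGroup (Fin n)) (hx : BrB_P g e t x) (hy : BrB_P g e t y) :
    BrB_P g e t (x * y) := by
  obtain ⟨N₁, h₁⟩ := hx
  obtain ⟨N₂, h₂⟩ := hy
  obtain ⟨ε, hε⟩ : ∃ ε : ℤ, ε = Multiplicative.toAdd
        (FreeGroup.lift (fun i => Multiplicative.ofAdd (e i)) x) := ⟨_, rfl⟩
  obtain ⟨δ, hδ⟩ : ∃ δ : ℤ, δ = Multiplicative.toAdd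
        (FreeGroup.lift (fun i => Multiplicative.ofAdd (e i)) y) := ⟨_, rfl⟩
  refine ⟨N₁ + N₂ + ε.natAbs, fun m M h1 h2 => ?_⟩
  push_cast at h1 h2
  have ha : |ε| = (ε.natAbs : ℤ) := by simp
  have hb := abs_le.1 (le_refl |ε|)
  have hn1 : (0 : ℤ) ≤ N₁ := Int.natCast_nonneg _
  have hn2 : (0 : ℤ) ≤ N₂ := Int.natCast_nonneg _
  have hn3 : (0 : ℤ) ≤ |ε| := abs_nonneg _
  obtain ⟨a, ha'⟩ := h₁ m M (by linarith [hb.1, hb.2]) (by linarith [hb.1, hb.2])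
  obtain ⟨b, hb'⟩ := h₂ m (M + ε) (by linarith [hb.1, hb.2]) (by linarith [hb.1, hb.2])
  refine ⟨a * b, ?_⟩
  rw [map_mul (oE g e t m), ← ha', ← hb', map_mul, map_mul, toAdd_mul, ← hε, ← hδ]
  have e1 : tE g e t m ^ (-(M + ε)) * tE g e t m ^ (M + ε) = 1 := by
    rw [← zpow_add, neg_add_cancel, zpow_zero]
  have e2 : -(M + (ε + δ)) = -(M + ε + δ) := by ring
  rw [e2]
  calc tE g e t m ^ M * (FreeGroup.lift (gE g e t m) x * FreeGroup.lift (gE g e t m) y) *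
        tE g e t m ^ (-(M + ε + δ)) = tE g e t m ^ M * FreeGroup.lift (gE g e t m) x * 1 *
        (FreeGroup.lift (gE g e t m) y * tE g e t m ^ (-(M + ε + δ))) := by
        rw [mul_one]; simp only [mul_assoc]
    _ = tE g e t m ^ M * FreeGroup.lift (gE g e t m) x * (tE g e t m ^ (-(M + ε)) *
        tE g e t m ^ (M + ε)) *
        (FreeGroup.lift (gE g e t m) y * tE g e t m ^ (-(M + ε + δ))) := by rw [e1]
    _ = _ := by simp only [mul_assoc]

theorem claimD (w : FreeGroup (Fin n)) : ∃ N : ℕ, ∀ (m : ℕ) (M : ℤ), (N : ℤ) ≤ M →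
    M ≤ (m : ℤ) - N → ∃ h : HH g e t m, tE g e t m ^ M * FreeGroup.lift (gE g e t m) w *
      tE g e t m ^ (-(M + Multiplicative.toAdd
        (FreeGroup.lift (fun i => Multiplicative.ofAdd (e i)) w))) = oE g e t m h := by
  induction w using FreeGroup.induction_on with
  | C1 =>
    refine ⟨0, fun m M _ _ => ⟨1, ?_⟩⟩
    simp
  | of i =>
    refine ⟨0, fun m M h1 h2 => ?_⟩
    obtain ⟨j, rfl⟩ : ∃ j : ℕ, M = (j : ℤ) := ⟨M.toNat, by rw [Int.toNat_of_nonneg (by simpa using h1)]⟩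
    have hj : j ≤ m := by
      have := h2
      simp only [Nat.cast_zero, sub_zero] at this
      exact_mod_cast this
    refine ⟨⟨bj g e t i j, bj_mem g e t i hj⟩, ?_⟩
    rw [← claimC g e t m i j hj]
    show tE g e t m ^ (j : ℤ) * FreeGroup.lift (gE g e t m) (FreeGroup.of i) *
      tE g e t m ^ (-((j : ℤ) + Multiplicative.toAdd
      (FreeGroup.lift (fun i => Multiplicative.ofAdd (e i)) (FreeGroup.of i)))) = _
    rw [FreeGroup.lift_apply_of, FreeGroup.lift_apply_of]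
    show tE g e t m ^ (j : ℤ) * (oE g e t m ⟨bj g e t i (0 : ℕ), bj_mem g e t i (Nat.zero_le m)⟩ *
      tE g e t m ^ (e i)) * tE g e t m ^ (-((j : ℤ) + e i)) = _
    rw [neg_add, add_comm (-(j : ℤ)), zpow_add, ← mul_assoc, ← mul_assoc, zpow_neg _ (e i),
      mul_inv_cancel_right]
  | inv_of i ih =>
    exact BrB_inv g e t _ ih
  | mul x y hx hy => exact BrB_mul g e t x y hx hy

end Pool.Agent.H28.IP
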