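/-
ROW BrC. For large `m` the natural homomorphism `E_m → G` is injective (`G` finitely presented).
Notation: `φ = FreeGroup.lift g`, `ψ_m = FreeGroup.lift (gE g e t m)`, `ε w` the exponent of `w` (as in
claimD). `pE (ψ_m w) = φ w` (check on generators: `pE (gE i) = bj … 0 * t ^ e_i = g i`), and `χ (φ w) = ε w`.
PROOF. (1) If `φ w = 1` (so `ε w = 0`), `N` from claimD for `w`, `m ≥ 2N`: with `M = N`,
`τ^N ψ_m(w) τ^(-N) = o(h)`, applying `pE` (pE_o, pE_t): `h = t^N * 1 * t^(-N) = 1`, so `ψ_m w = 1`.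
(2) Choose `w₀` with `φ w₀ = t`; `ε w₀ = 1`; for `m ≥ 2N`: `τ^N ψ_m(w₀) τ^(-(N+1)) = o(h)`, `h = 1`, so
`ψ_m w₀ = τ`. (3) Let `m₀` be the maximum of the `2N` for `w₀` and the finitely many relators `r ∈ R`. For
`m ≥ m₀` the kernel of `φ`, the normal closure of `R`, is contained in the kernel of `ψ_m`, so there is
`Ψ : G →* E_m` with `Ψ (φ w) = ψ_m w` (`MonoidHom.liftOfSurjective`/`QuotientGroup.kerLift`… or
`MonoidHom.liftOfRightInverse φ _ _ ⟨ψ_m, hker⟩`). (4) `Ψ (pE x) = x` for all `x ∈ E_m`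
(`HNNExtension.hom_ext` for `Ψ ∘ pE` and the identity): `Ψ t = ψ_m w₀ = τ`;
`Ψ (g_i t^(-e_i)) = gE_i τ^(-e_i) = o(b_{i,0})`, so `Ψ (b_{i,j}) = τ^j o(b_{i,0}) τ^(-j) = o(b_{i,j})` for `j ≤ m`
(claimC); `Ψ ∘ (subtype of HH)` and `o` are homomorphisms on `HH = closure {b_{i,j}}` agreeing on the
generators (`Subgroup.closure_induction` or `MonoidHom.eqOn_closure` for the subgroup of the elements of
`HH` where they agree). So `pE` is injective.
-/
import Pool.Agent.H28.IP.BrB

set_option autoImplicit false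

namespace Pool.Agent.H28.IP

theorem BrC_comp {G : Type} [Group G] {n : ℕ} (g : Fin n → G) (e : Fin n → ℤ) (t : G) (m : ℕ)
    (w : FreeGroup (Fin n)) :
    pE g e t m (FreeGroup.lift (gE g e t m) w) = FreeGroup.lift g w := by
  have h : (pE g e t m).comp (FreeGroup.lift (gE g e t m)) = FreeGroup.lift g := by
    refine FreeGroup.ext_hom _ _ fun i => ?_
    simp only [MonoidHom.comp_apply, FreeGroup.lift_apply_of]
    unfold gE
    rw [map_mul, map_zpow, pE_o, pE_t]
    show bj g e t i ((0 : ℕ) : ℤ) * t ^ (e i) = g i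
    unfold bj
    simp
  exact DFunLike.congr_fun h w

theorem BrC_chi {G : Type} [Group G] {n : ℕ} (g : Fin n → G) (e : Fin n → ℤ)
    (χ : G →* Multiplicative ℤ) (hχ : ∀ i, χ (g i) = Multiplicative.ofAdd (e i))
    (w : FreeGroup (Fin n)) :
    χ (FreeGroup.lift g w) = FreeGroup.lift (fun i => Multiplicative.ofAdd (e i)) w := by
  have h : χ.comp (FreeGroup.lift g) = FreeGroup.lift (fun i => Multiplicative.ofAdd (e i)) := by
    refine FreeGroup.ext_hom _ _ fun i => ?_
    simp only [MonoidHom.comp_apply, FreeGroup.lift_apply_of]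
    exact hχ i
  exact DFunLike.congr_fun h w

theorem BrC_key {G : Type} [Group G] {n : ℕ} (g : Fin n → G) (e : Fin n → ℤ) (t : G)
    (w : FreeGroup (Fin n)) (k : ℤ) (h1 : FreeGroup.lift g w = t ^ k)
    (h2 : Multiplicative.toAdd (FreeGroup.lift (fun i => Multiplicative.ofAdd (e i)) w) = k) :
    ∀ᶠ m in Filter.atTop, FreeGroup.lift (gE g e t m) w = tE g e t m ^ k := by
  obtain ⟨N, hN⟩ := claimD g e t w
  filter_upwards [Filter.eventually_ge_atTop (2 * N)] with m hm
  obtain ⟨h, hh⟩ := hN m N le_rfl (by omega)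
  rw [h2] at hh
  have h3 := congrArg (pE g e t m) hh
  rw [map_mul, map_mul, map_zpow, map_zpow, pE_t, pE_o, BrC_comp, h1, ← zpow_add, ← zpow_add] at h3
  have h4 : (N : ℤ) + k + -(N + k) = 0 := by ring
  rw [h4, zpow_zero] at h3
  have h5 : h = 1 := Subtype.ext h3.symm
  rw [h5, map_one] at hh
  have h6 := eq_inv_of_mul_eq_one_left hh
  rw [← zpow_neg, neg_neg, zpow_add] at h6
  exact mul_left_cancel h6

theorem pE_inj {G : Type} [Group G] {n : ℕ} (g : Fin n → G) (e : Fin n → ℤ) (t : G)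
    (hsurj : Function.Surjective (FreeGroup.lift g)) {R : Set (FreeGroup (Fin n))} (hR : R.Finite)
    (hker : Subgroup.normalClosure R = (FreeGroup.lift g).ker) (χ : G →* Multiplicative ℤ)
    (hχ : ∀ i, χ (g i) = Multiplicative.ofAdd (e i)) (ht : χ t = Multiplicative.ofAdd 1) :
    ∃ m₀ : ℕ, ∀ m, m₀ ≤ m → Function.Injective (pE g e t m) := by
  obtain ⟨w₀, hw₀⟩ := hsurj t
  have e1 : ∀ᶠ m in Filter.atTop, FreeGroup.lift (gE g e t m) w₀ = tE g e t m ^ (1 : ℤ) := by
    refine BrC_key g e t w₀ 1 (by rw [hw₀, zpow_one]) ?_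
    rw [← BrC_chi g e χ hχ, hw₀, ht]
    rfl
  have e2 : ∀ᶠ m in Filter.atTop, ∀ r ∈ R, FreeGroup.lift (gE g e t m) r = 1 := by
    refine (Filter.eventually_all_finite hR).2 fun r hr => ?_
    have h1 : FreeGroup.lift g r = 1 := by
      have : r ∈ (FreeGroup.lift g).ker := hker ▸ Subgroup.subset_normalClosure hr
      exact this
    have h2 := BrC_key g e t r 0 (by rw [h1, zpow_zero]) (by
      rw [← BrC_chi g e χ hχ, h1, map_one]
      rfl)
    simpa using h2
  obtain ⟨m₀, hm₀⟩ := Filter.eventually_atTop.1 (e1.and e2)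
  refine ⟨m₀, fun m hm => ?_⟩
  obtain ⟨f1, f2⟩ := hm₀ m hm
  rw [zpow_one] at f1
  have hle : (FreeGroup.lift g).ker ≤ (FreeGroup.lift (gE g e t m)).ker := by
    rw [← hker]
    exact Subgroup.normalClosure_le_normal fun r hr => f2 r hr
  obtain ⟨Ψ, hΨ⟩ : ∃ Ψ : G →* Em g e t m, ∀ w, Ψ (FreeGroup.lift g w) =
      FreeGroup.lift (gE g e t m) w := by
    refine ⟨(FreeGroup.lift g).liftOfSurjective hsurj ⟨FreeGroup.lift (gE g e t m), hle⟩, ?_⟩
    intro w
    exact MonoidHom.liftOfRightInverse_comp_apply _ _ _ _ _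
  have hΨt : Ψ t = tE g e t m := by
    have h := hΨ w₀
    rwa [hw₀, f1] at h
  have hΨg : ∀ i, Ψ (g i) = gE g e t m i := by
    intro i
    have := hΨ (FreeGroup.of i)
    rwa [FreeGroup.lift_apply_of, FreeGroup.lift_apply_of] at this
  have key : ∀ (x : G) (hx : x ∈ HH g e t m), Ψ x = oE g e t m ⟨x, hx⟩ := by
    intro x hx
    refine Subgroup.closure_induction
      (p := fun x hx => Ψ x = oE g e t m ⟨x, hx⟩) ?_ ?_ ?_ ?_ hx
    · rintro _ ⟨i, j, hj, rfl⟩
      rw [← claimC g e t m i j hj]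
      show Ψ (t ^ (j : ℤ) * (g i * t ^ (-e i)) * t ^ (-(j : ℤ))) = _
      rw [map_mul, map_mul, map_mul, map_zpow, map_zpow, map_zpow, hΨt, hΨg]
      unfold gE
      rw [mul_assoc (oE _ _ _ _ _) (tE _ _ _ _ ^ (e i)), ← zpow_add, add_neg_cancel, zpow_zero,
        mul_one]
    · rw [map_one]
      exact (map_one (oE g e t m)).symm
    · intro x y hx hy h1 h2
      rw [map_mul, h1, h2, ← map_mul]
      rfl
    · intro x hx h1
      rw [map_inv, h1, ← map_inv]
      rfl
  have hid : Ψ.comp (pE g e t m) = MonoidHom.id (Em g e t m) := by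
    refine HNNExtension.hom_ext ?_ ?_
    · ext h
      show Ψ (pE g e t m (oE g e t m h)) = oE g e t m h
      rw [pE_o]
      exact key h h.2
    · show Ψ (pE g e t m (tE g e t m)) = tE g e t m
      rw [pE_t, hΨt]
  intro x y hxy
  have hx := DFunLike.congr_fun hid x
  have hy := DFunLike.congr_fun hid y
  simp only [MonoidHom.comp_apply, MonoidHom.id_apply] at hx hy
  rw [← hx, ← hy, hxy]

end Pool.Agent.H28.IP
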