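/-
ROW BrD. The Bieri–Strebel lemma.
PROOF. `Group.IsFinitelyPresented G` (Mathlib, `out`) gives `n`, a surjective `φ : FreeGroup (Fin n) →* G` whose
kernel is the normal closure of a finite set `R`. Let `g i = φ (of i)` (so `φ = FreeGroup.lift g`),
`e i = toAdd (χ (g i))`. By pE_inj choose `m` with `pE g e t m` injective. `pE` is `hpi` for
`H = HH g e t m`, `S = SS g e t m`; by britton `H ≤ S` or `H ≤ TT S t`. `H` is finitely generated (closure
of a finite set), `H ≤ χ.ker` (`χ (bj …) = 1`: `χ (g i * t ^ (-e i)) = 1`).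
General fact (U): let `U` be a subgroup of `G` with `bj g e t i 0 ∈ U` for all `i` and `t U t⁻¹ ⊆ U`,
`t⁻¹ U t ⊆ U`. Then `χ.ker ≤ U`: the set `{x | x * t ^ (-toAdd (χ x)) ∈ U}` is a subgroup containing the `g i`
(so it is everything, closure of the range of `g`).
Case `H ≤ S`: for `x ∈ H`, `t x t⁻¹ ∈ TT S t ≤ H` (TS_le). `U = {x | ∃ n : ℕ, t^n x t^(-n) ∈ H}` is a subgroup
(take the maximum of the two `n`, `t H t⁻¹ ⊆ H`) satisfying (U). So the first alternative.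
Case `H ≤ TT S t`: for `x ∈ H`, `t⁻¹ x t ∈ S ≤ H`; `U = {x | ∃ n : ℕ, t^(-n) x t^n ∈ H}`; second alternative.
-/
import Pool.Agent.H28.IP.BrA
import Pool.Agent.H28.IP.BrC

set_option autoImplicit false

namespace Pool.Agent.H28.IP

theorem BrD_pow {G : Type} [Group G] {s : G} {H : Subgroup G} (hs : ∀ h ∈ H, s * h * s⁻¹ ∈ H)
    (n : ℕ) : ∀ h ∈ H, s ^ n * h * (s ^ n)⁻¹ ∈ H := by
  induction n with
  | zero => intro h hh; simpa using hh
  | succ n ih =>
    intro h hh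
    have h1 := ih _ (hs h hh)
    have h2 : s ^ (n + 1) * h * (s ^ (n + 1))⁻¹ = s ^ n * (s * h * s⁻¹) * (s ^ n)⁻¹ := by
      rw [pow_succ]; group
    rw [h2]; exact h1

theorem BrD_U {G : Type} [Group G] {s : G} {H : Subgroup G} (hs : ∀ h ∈ H, s * h * s⁻¹ ∈ H) :
    ∃ U : Subgroup G, (∀ x, x ∈ U ↔ ∃ n : ℕ, s ^ n * x * (s ^ n)⁻¹ ∈ H) ∧
      (∀ u ∈ U, s * u * s⁻¹ ∈ U) ∧ (∀ u ∈ U, s⁻¹ * u * s ∈ U) := by
  have key : ∀ (a b : ℕ) (x : G), s ^ a * x * (s ^ a)⁻¹ ∈ H →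
      s ^ (b + a) * x * (s ^ (b + a))⁻¹ ∈ H := by
    intro a b x hx
    have h1 := BrD_pow hs b _ hx
    have h2 : s ^ (b + a) * x * (s ^ (b + a))⁻¹ = s ^ b * (s ^ a * x * (s ^ a)⁻¹) * (s ^ b)⁻¹ := by
      rw [pow_add]; group
    rw [h2]; exact h1
  let U : Subgroup G :=
    { carrier := {x | ∃ n : ℕ, s ^ n * x * (s ^ n)⁻¹ ∈ H}
      mul_mem' := by
        rintro x y ⟨a, ha⟩ ⟨b, hb⟩
        refine ⟨a + b, ?_⟩
        have h1 := key a b x ha
        have h2 := key b a y hb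
        have h3 : s ^ (a + b) * (x * y) * (s ^ (a + b))⁻¹ =
            (s ^ (b + a) * x * (s ^ (b + a))⁻¹) * (s ^ (a + b) * y * (s ^ (a + b))⁻¹) := by
          rw [add_comm b a]; group
        rw [h3]; exact H.mul_mem h1 h2
      one_mem' := ⟨0, by simpa using H.one_mem⟩
      inv_mem' := by
        rintro x ⟨a, ha⟩
        refine ⟨a, ?_⟩
        have h3 : s ^ a * x⁻¹ * (s ^ a)⁻¹ = (s ^ a * x * (s ^ a)⁻¹)⁻¹ := by group
        rw [h3]; exact H.inv_mem ha }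
  refine ⟨U, fun x => Iff.rfl, ?_, ?_⟩
  · rintro u ⟨a, ha⟩
    refine ⟨a, ?_⟩
    have h1 := hs _ ha
    have h2 : s ^ a * (s * u * s⁻¹) * (s ^ a)⁻¹ = s * (s ^ a * u * (s ^ a)⁻¹) * s⁻¹ := by
      have h3 : s ^ a * s = s * s ^ a := (pow_succ s a).symm.trans (pow_succ' s a)
      calc s ^ a * (s * u * s⁻¹) * (s ^ a)⁻¹ = (s ^ a * s) * u * (s ^ a * s)⁻¹ := by group
        _ = (s * s ^ a) * u * (s * s ^ a)⁻¹ := by rw [h3]
        _ = s * (s ^ a * u * (s ^ a)⁻¹) * s⁻¹ := by group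
    show s ^ a * (s * u * s⁻¹) * (s ^ a)⁻¹ ∈ H
    rw [h2]; exact h1
  · rintro u ⟨a, ha⟩
    refine ⟨a + 1, ?_⟩
    have h2 : s ^ (a + 1) * (s⁻¹ * u * s) * (s ^ (a + 1))⁻¹ = s ^ a * u * (s ^ a)⁻¹ := by
      rw [pow_succ]; group
    show s ^ (a + 1) * (s⁻¹ * u * s) * (s ^ (a + 1))⁻¹ ∈ H
    rw [h2]; exact ha

theorem BrD_ker {G : Type} [Group G] {n : ℕ} (g : Fin n → G) (e : Fin n → ℤ) (t : G)
    (hsurj : Function.Surjective (FreeGroup.lift g)) (χ : G →* Multiplicative ℤ)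
    (hχ : ∀ i, χ (g i) = Multiplicative.ofAdd (e i)) (ht : χ t = Multiplicative.ofAdd 1)
    (U : Subgroup G) (h0 : ∀ i, bj g e t i 0 ∈ U) (h1 : ∀ u ∈ U, t * u * t⁻¹ ∈ U)
    (h2 : ∀ u ∈ U, t⁻¹ * u * t ∈ U) : χ.ker ≤ U := by
  have hz : ∀ (j : ℤ), ∀ u ∈ U, t ^ j * u * t ^ (-j) ∈ U := by
    intro j u hu
    rcases Int.eq_nat_or_neg j with ⟨k, rfl | rfl⟩
    · have := BrD_pow h1 k u hu
      simpa [zpow_neg] using this
    · have h2' : ∀ u ∈ U, t⁻¹ * u * t⁻¹⁻¹ ∈ U := by simpa using h2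
      have := BrD_pow h2' k u hu
      simpa [zpow_neg] using this
  let V : Subgroup G :=
    { carrier := {x | x * t ^ (-Multiplicative.toAdd (χ x)) ∈ U}
      mul_mem' := by
        intro x y hx hy
        have h3 := hz (Multiplicative.toAdd (χ x)) _ hy
        have h4 := U.mul_mem hx h3
        show x * y * t ^ (-Multiplicative.toAdd (χ (x * y))) ∈ U
        have h5 : x * y * t ^ (-Multiplicative.toAdd (χ (x * y))) =
            x * t ^ (-Multiplicative.toAdd (χ x)) * (t ^ (Multiplicative.toAdd (χ x)) *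
              (y * t ^ (-Multiplicative.toAdd (χ y))) * t ^ (-Multiplicative.toAdd (χ x))) := by
          rw [map_mul, toAdd_mul, neg_add_rev, zpow_add]
          group
        rw [h5]; exact h4
      one_mem' := by
        show (1 : G) * t ^ (-Multiplicative.toAdd (χ 1)) ∈ U
        rw [map_one, toAdd_one, neg_zero, zpow_zero, one_mul]
        exact U.one_mem
      inv_mem' := by
        intro x hx
        have hx' : x * t ^ (-Multiplicative.toAdd (χ x)) ∈ U := hx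
        have h3 := hz (-Multiplicative.toAdd (χ x)) _ (U.inv_mem hx')
        show x⁻¹ * t ^ (-Multiplicative.toAdd (χ x⁻¹)) ∈ U
        have h5 : x⁻¹ * t ^ (-Multiplicative.toAdd (χ x⁻¹)) =
            t ^ (-Multiplicative.toAdd (χ x)) * (x * t ^ (-Multiplicative.toAdd (χ x)))⁻¹ *
              t ^ (-(-Multiplicative.toAdd (χ x))) := by
          rw [map_inv, toAdd_inv]
          group
        rw [h5]; exact h3 }
  have hgV : ∀ i, g i ∈ V := by
    intro i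
    show g i * t ^ (-Multiplicative.toAdd (χ (g i))) ∈ U
    have := h0 i
    unfold bj at this
    rw [hχ, toAdd_ofAdd]
    simpa using this
  have htop : ∀ x : G, x ∈ V := by
    intro x
    obtain ⟨w, rfl⟩ := hsurj x
    have : (FreeGroup.lift g).range ≤ V := by
      rw [FreeGroup.range_lift_eq_closure, Subgroup.closure_le]
      rintro _ ⟨i, rfl⟩
      exact hgV i
    exact this ⟨w, rfl⟩
  intro x hx
  have h3 : x * t ^ (-Multiplicative.toAdd (χ x)) ∈ U := htop x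
  rw [MonoidHom.mem_ker] at hx
  rw [hx, toAdd_one, neg_zero, zpow_zero, mul_one] at h3
  exact h3

theorem bieri_strebel {G : Type} [Group G] [Metab G] [Group.IsFinitelyPresented G]
    (χ : G →* Multiplicative ℤ) {t : G} (ht : χ t = Multiplicative.ofAdd 1) :
    ∃ H : Subgroup G, H.FG ∧ H ≤ χ.ker ∧
      (((∀ h ∈ H, t * h * t⁻¹ ∈ H) ∧ ∀ k ∈ χ.ker, ∃ n : ℕ, t ^ n * k * (t ^ n)⁻¹ ∈ H) ∨
        ((∀ h ∈ H, t⁻¹ * h * t ∈ H) ∧ ∀ k ∈ χ.ker, ∃ n : ℕ, (t ^ n)⁻¹ * k * t ^ n ∈ H)) := by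
  obtain ⟨n, φ, hφ, R, hR, hRk⟩ := (inferInstance : Group.IsFinitelyPresented G).out
  obtain ⟨g, hg⟩ : ∃ g : Fin n → G, FreeGroup.lift g = φ :=
    ⟨fun i => φ (FreeGroup.of i), by ext i; simp⟩
  subst hg
  obtain ⟨e, hχ⟩ : ∃ e : Fin n → ℤ, ∀ i, χ (g i) = Multiplicative.ofAdd (e i) :=
    ⟨fun i => Multiplicative.toAdd (χ (g i)), fun i => rfl⟩
  obtain ⟨m, hm⟩ := pE_inj g e t hφ hR hRk χ hχ ht
  have hinj := hm m le_rfl
  have hb := britton hinj
  have h0 : ∀ i, bj g e t i 0 ∈ HH g e t m := fun i => by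
    have := bj_mem g e t i (Nat.zero_le m)
    simpa using this
  refine ⟨HH g e t m, ?_, ?_, ?_⟩
  · rw [Subgroup.fg_iff]
    refine ⟨_, rfl, ?_⟩
    refine (Set.finite_range (fun p : Fin n × Fin (m + 1) => bj g e t p.1 ((p.2 : ℕ) : ℤ))).subset ?_
    rintro x ⟨i, j, hj, rfl⟩
    exact ⟨(i, ⟨j, by omega⟩), rfl⟩
  · unfold HH
    rw [Subgroup.closure_le]
    rintro x ⟨i, j, hj, rfl⟩
    show bj g e t i j ∈ χ.ker
    rw [MonoidHom.mem_ker]
    unfold bj
    simp only [map_mul, map_zpow, hχ, ht]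
    rw [← ofAdd_zsmul, ← ofAdd_zsmul, ← ofAdd_zsmul, ← ofAdd_add, ← ofAdd_add, ← ofAdd_add]
    rw [← ofAdd_zero]
    congr 1
    simp
  · rcases hb with hb | hb
    · left
      have hs : ∀ h ∈ HH g e t m, t * h * t⁻¹ ∈ HH g e t m := by
        intro h hh
        apply TS_le g e t m
        exact ⟨h, hb hh, rfl⟩
      refine ⟨hs, ?_⟩
      obtain ⟨U, hU, hU1, hU2⟩ := BrD_U hs
      intro k hk
      rw [← hU]
      exact BrD_ker g e t hφ χ hχ ht U (fun i => (hU _).2 ⟨0, by simpa using h0 i⟩) hU1 hU2 hk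
    · right
      have hs : ∀ h ∈ HH g e t m, t⁻¹ * h * t ∈ HH g e t m := by
        intro h hh
        obtain ⟨y, hy, hyx⟩ := hb hh
        have hyx' : t * y * t⁻¹ = h := hyx
        apply SS_le g e t m
        have h3 : t⁻¹ * h * t = y := by rw [← hyx']; group
        rw [h3]; exact hy
      refine ⟨hs, ?_⟩
      have hs' : ∀ h ∈ HH g e t m, t⁻¹ * h * t⁻¹⁻¹ ∈ HH g e t m := by simpa using hs
      obtain ⟨U, hU, hU1, hU2⟩ := BrD_U hs'
      intro k hk
      have hk' : k ∈ U := by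
        refine BrD_ker g e t hφ χ hχ ht U (fun i => (hU _).2 ⟨0, by simpa using h0 i⟩) ?_ ?_ hk
        · simpa using hU2
        · simpa using hU1
      obtain ⟨a, ha⟩ := (hU k).1 hk'
      refine ⟨a, ?_⟩
      simpa using ha

end Pool.Agent.H28.IP
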