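import Mathlib

/-! Isomorphism problem for 2-generator finitely presented metabelian groups: definitions. -/

set_option autoImplicit false

namespace Pool.Agent.H28.IP

/-! ## Words and presentations -/

/-- A word: `(i, true)` is the letter `x_i`, `(i, false)` its inverse. -/
abbrev Word := List (ℕ × Bool)

/-- A finite presentation: number of generators and list of relators. -/
abbrev Pres := ℕ × List Word

/-- Delete the letters with index `≥ n`. -/
def toFin (n : ℕ) (w : Word) : List (Fin n × Bool) :=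
  w.filterMap fun l => if h : l.1 < n then some (⟨l.1, h⟩, l.2) else none

/-- The group defined by a finite presentation. -/
abbrev Grp (P : Pres) : Type :=
  PresentedGroup {r : FreeGroup (Fin P.1) | ∃ w ∈ P.2, r = FreeGroup.mk (toFin P.1 w)}

/-- The relators, over the free group on `ℕ`. -/
def relN (P : Pres) : Set (FreeGroup ℕ) :=
  {r | (∃ w ∈ P.2, r = FreeGroup.mk w) ∨ ∃ i, P.1 ≤ i ∧ r = FreeGroup.of i}

/-- The same group, as a quotient of the free group on `ℕ`. -/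
abbrev GN (P : Pres) : Type := PresentedGroup (relN P)

/-- `w = 1` in the group of `P`. -/
def InN (P : Pres) (w : Word) : Prop := FreeGroup.mk w ∈ Subgroup.normalClosure (relN P)

/-- The group `G` is generated by `a` and `b`. -/
def Gen2 {G : Type} [Group G] (a b : G) : Prop := Subgroup.closure {a, b} = ⊤

/-- `a` and `b` are independent modulo the derived subgroup. -/
def AbFree {G : Type} [Group G] (a b : G) : Prop :=
  ∀ i j : ℤ, a ^ i * b ^ j ∈ commutator G → i = 0 ∧ j = 0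

/-- Metabelian groups. -/
class Metab (G : Type) [Group G] : Prop where
  comm : ∀ x ∈ commutator G, ∀ y ∈ commutator G, x * y = y * x

instance instCG {G : Type} [Group G] [Metab G] : CommGroup (commutator G) :=
  { (inferInstance : Group (commutator G)) with
    mul_comm := fun x y => Subtype.ext (Metab.comm x.1 x.2 y.1 y.2) }

/-! ## Laurent polynomials in two variables -/

/-- Laurent polynomials in two variables over `ℤ`. -/
abbrev Lam := AddMonoidAlgebra ℤ (ℤ × ℤ)

/-- The monomial `x ^ z.1 * y ^ z.2`. -/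
noncomputable def mo (z : ℤ × ℤ) : Lam := AddMonoidAlgebra.single z 1

/-- The homomorphism `(i, j) ↦ x ^ i * y ^ j`. -/
def mon {R : Type} [CommRing R] (x y : Rˣ) : Multiplicative (ℤ × ℤ) →* R where
  toFun z := ((x ^ (Multiplicative.toAdd z).1 * y ^ (Multiplicative.toAdd z).2 : Rˣ) : R)
  map_one' := by simp
  map_mul' := fun z w => by
    simp only [toAdd_mul, Prod.fst_add, Prod.snd_add, zpow_add, ← Units.val_mul]
    congr 1
    exact mul_mul_mul_comm _ _ _ _

/-- Evaluation at two units. -/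
noncomputable def evr {R : Type} [CommRing R] (x y : Rˣ) : Lam →+* R :=
  AddMonoidAlgebra.liftNCRingHom (Int.castRingHom R) (mon x y) (fun _ _ => Commute.all _ _)

/-- Linear substitution of exponents: `m = (m₁, m₂, m₃, m₄)` sends `x` to `x ^ m₁ * y ^ m₂` and `y` to
`x ^ m₃ * y ^ m₄`. -/
def actz (m : ℤ × ℤ × ℤ × ℤ) (z : ℤ × ℤ) : ℤ × ℤ :=
  (m.1 * z.1 + m.2.2.1 * z.2, m.2.1 * z.1 + m.2.2.2 * z.2)

/-- The determinant. -/
def dt (m : ℤ × ℤ × ℤ × ℤ) : ℤ := m.1 * m.2.2.2 - m.2.1 * m.2.2.1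

/-- `actz m` as an additive homomorphism. -/
def actH (m : ℤ × ℤ × ℤ × ℤ) : ℤ × ℤ →+ ℤ × ℤ where
  toFun := actz m
  map_zero' := by simp [actz]
  map_add' := fun z w => by
    ext <;> simp only [actz, Prod.fst_add, Prod.snd_add] <;> ring

/-- The action on Laurent polynomials. -/
noncomputable def act (m : ℤ × ℤ × ℤ × ℤ) : Lam →+* Lam :=
  AddMonoidAlgebra.mapDomainRingHom ℤ (actH m)

/-! ## The derived subgroup as a module -/

section ev

variable {G : Type} [Group G]

/-- The conjugate of `[a, b]` by `a ^ i * b ^ j`. -/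
def cz (a b : G) (z : ℤ × ℤ) : G :=
  (a ^ z.1 * b ^ z.2) * (a * b * a⁻¹ * b⁻¹) * (a ^ z.1 * b ^ z.2)⁻¹

theorem cz_mem (a b : G) (z : ℤ × ℤ) : cz a b z ∈ commutator G :=
  (inferInstance : (commutator G).Normal).conj_mem _
    (Subgroup.commutator_mem_commutator (Subgroup.mem_top a) (Subgroup.mem_top b)) _

/-- `f ↦` the product of the conjugates of `[a, b]` with exponents the coefficients of `f`. -/
noncomputable def EV [Metab G] (a b : G) : Lam →+ Additive (commutator G) :=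
  (Finsupp.liftAddHom fun z => (zmultiplesHom (Additive (commutator G)))
    (Additive.ofMul ⟨cz a b z, cz_mem a b z⟩)).comp AddMonoidAlgebra.coeffAddEquiv.toAddMonoidHom

/-- The same, as an element of `G`. -/
noncomputable def ev [Metab G] (a b : G) (f : Lam) : G := ((EV a b f).toMul : commutator G)

/-- The annihilator of `[a, b]` (`mem_Ann`: `f ∈ Ann a b ↔ ev a b f = 1`). -/
noncomputable def Ann [Metab G] (a b : G) : Ideal Lam := Ideal.span {f | ev a b f = 1}

end ev

/-! ## The groups `Gam` -/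

section gam

variable {R : Type} [CommRing R]

/-- `(x ^ k - 1) / (x - 1)`. -/
def geo (x : Rˣ) : ℤ → R
  | Int.ofNat n => ∑ i ∈ Finset.range n, ((x ^ i : Rˣ) : R)
  | Int.negSucc n => - ∑ i ∈ Finset.range (n + 1), ((x⁻¹ ^ (i + 1) : Rˣ) : R)

theorem geo_zero (x : Rˣ) : geo x 0 = 0 := by
  show ∑ i ∈ Finset.range 0, ((x ^ i : Rˣ) : R) = 0
  simp

theorem geo_succ (x : Rˣ) (k : ℤ) : geo x (k + 1) = geo x k + ((x ^ k : Rˣ) : R) := by
  rcases k with n | n
  · show geo x (Int.ofNat (n + 1)) = geo x (Int.ofNat n) + ((x ^ (n : ℤ) : Rˣ) : R)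
    simp only [geo, Finset.sum_range_succ, zpow_natCast]
  · rcases n with _ | n
    · show geo x 0 = geo x (Int.negSucc 0) + _
      rw [geo_zero]
      simp [geo]
    · have h : (Int.negSucc (n + 1) + 1 : ℤ) = Int.negSucc n := by
        rw [Int.negSucc_eq, Int.negSucc_eq]; push_cast; ring
      rw [h]
      simp only [geo, Finset.sum_range_succ _ (n + 1), zpow_negSucc, inv_pow]
      ring

theorem geo_one (x : Rˣ) : geo x 1 = 1 := by
  have := geo_succ x 0
  simpa [geo_zero] using this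

theorem geo_add (x : Rˣ) (k l : ℤ) : geo x (k + l) = geo x k + ((x ^ k : Rˣ) : R) * geo x l := by
  induction l using Int.induction_on with
  | zero => simp [geo_zero]
  | succ i ih =>
    rw [← add_assoc, geo_succ, ih, geo_succ, zpow_add, Units.val_mul]
    ring
  | pred i ih =>
    have h1 := geo_succ x (k + (-(i : ℤ) - 1))
    have h2 := geo_succ x (-(i : ℤ) - 1)
    have e1 : k + (-(i : ℤ) - 1) + 1 = k + -(i : ℤ) := by ring
    have e2 : -(i : ℤ) - 1 + 1 = -(i : ℤ) := by ring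
    rw [e1, ih, zpow_add, Units.val_mul] at h1
    rw [e2] at h2
    rw [h2] at h1
    linear_combination -h1

/-- The group `ℤ² × R` with the multiplication of a metabelian group on two generators with
`[a, b] = (0, 0, 1)`. -/
@[ext] structure Gam (x y : Rˣ) where
  i : ℤ
  j : ℤ
  r : R

variable {x y : Rˣ}

instance : Mul (Gam x y) :=
  ⟨fun g h => ⟨g.i + h.i, g.j + h.j,
    g.r + ((x ^ g.i * y ^ g.j : Rˣ) : R) * h.r - ((x ^ g.i : Rˣ) : R) * geo y g.j * geo x h.i⟩⟩

instance : One (Gam x y) := ⟨⟨0, 0, 0⟩⟩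

instance : Inv (Gam x y) :=
  ⟨fun g => ⟨-g.i, -g.j, -(((x ^ (-g.i) * y ^ (-g.j) : Rˣ) : R) *
    (g.r - ((x ^ g.i : Rˣ) : R) * geo y g.j * geo x (-g.i)))⟩⟩

theorem mul_i (g h : Gam x y) : (g * h).i = g.i + h.i := rfl
theorem mul_j (g h : Gam x y) : (g * h).j = g.j + h.j := rfl
theorem mul_r (g h : Gam x y) : (g * h).r = g.r + ((x ^ g.i * y ^ g.j : Rˣ) : R) * h.r -
    ((x ^ g.i : Rˣ) : R) * geo y g.j * geo x h.i := rfl
theorem one_i : (1 : Gam x y).i = 0 := rfl
theorem one_j : (1 : Gam x y).j = 0 := rfl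
theorem one_r : (1 : Gam x y).r = 0 := rfl
theorem inv_i (g : Gam x y) : (g⁻¹).i = -g.i := rfl
theorem inv_j (g : Gam x y) : (g⁻¹).j = -g.j := rfl
theorem inv_r (g : Gam x y) : (g⁻¹).r = -(((x ^ (-g.i) * y ^ (-g.j) : Rˣ) : R) *
    (g.r - ((x ^ g.i : Rˣ) : R) * geo y g.j * geo x (-g.i))) := rfl

instance instGam : Group (Gam x y) where
  mul_assoc a b c := by
    ext
    · simp only [mul_i]; ring
    · simp only [mul_j]; ring
    · simp only [mul_r, mul_i, mul_j, geo_add, zpow_add, Units.val_mul]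
      ring
  one_mul a := by
    ext
    · simp only [mul_i, one_i]; ring
    · simp only [mul_j, one_j]; ring
    · simp only [mul_r, one_i, one_j, one_r, geo_zero, zpow_zero]
      simp
  mul_one a := by
    ext
    · simp only [mul_i, one_i]; ring
    · simp only [mul_j, one_j]; ring
    · simp only [mul_r, one_i, one_r, geo_zero]
      simp
  inv_mul_cancel a := by
    have h1 := geo_add y (-a.j) a.j
    rw [neg_add_cancel, geo_zero] at h1
    have h2 := geo_add x a.i (-a.i)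
    rw [add_neg_cancel, geo_zero] at h2
    have e1 : ((x ^ (-a.i) : Rˣ) : R) * ((x ^ a.i : Rˣ) : R) = 1 := by
      rw [← Units.val_mul, ← zpow_add, neg_add_cancel, zpow_zero, Units.val_one]
    ext
    · simp only [mul_i, one_i, inv_i]; ring
    · simp only [mul_j, one_j, inv_j]; ring
    · simp only [mul_r, inv_i, inv_j, inv_r, one_r, Units.val_mul]
      linear_combination ((x ^ (-a.i) : Rˣ) : R) * geo x a.i * h1 +
        (-((y ^ (-a.j) : Rˣ) : R)) * geo y a.j * ((x ^ (-a.i) : Rˣ) : R) * h2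

/-- the two generators -/
def al : Gam x y := ⟨1, 0, 0⟩

/-- the two generators -/
def be : Gam x y := ⟨0, 1, 0⟩

end gam

/-- The unit `x` of `Lam`. -/
noncomputable def XL : Lamˣ where
  val := mo (1, 0)
  inv := mo (-1, 0)
  val_inv := by rw [mo, mo, AddMonoidAlgebra.single_mul_single]; rfl
  inv_val := by rw [mo, mo, AddMonoidAlgebra.single_mul_single]; rfl

/-- The unit `y` of `Lam`. -/
noncomputable def YL : Lamˣ where
  val := mo (0, 1)
  inv := mo (0, -1)
  val_inv := by rw [mo, mo, AddMonoidAlgebra.single_mul_single]; rfl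
  inv_val := by rw [mo, mo, AddMonoidAlgebra.single_mul_single]; rfl

/-- The class of `x` in `Lam ⧸ J`. -/
noncomputable def XJ (J : Ideal Lam) : (Lam ⧸ J)ˣ := Units.map (Ideal.Quotient.mk J).toMonoidHom XL

/-- The class of `y` in `Lam ⧸ J`. -/
noncomputable def YJ (J : Ideal Lam) : (Lam ⧸ J)ˣ := Units.map (Ideal.Quotient.mk J).toMonoidHom YL

/-- The 2-generator metabelian group with annihilator `J`. -/
abbrev GJ (J : Ideal Lam) : Type := Gam (XJ J) (YJ J)

/-- `f` has three non-collinear exponents whose coefficients are not divisible by `p`. -/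
def NC3 (p : ℕ) (f : Lam) : Prop :=
  ∃ z₁ z₂ z₃ : ℤ × ℤ, ¬ (p : ℤ) ∣ f.coeff z₁ ∧ ¬ (p : ℤ) ∣ f.coeff z₂ ∧ ¬ (p : ℤ) ∣ f.coeff z₃ ∧
    (z₂.1 - z₁.1) * (z₃.2 - z₁.2) ≠ (z₂.2 - z₁.2) * (z₃.1 - z₁.1)

/-- Finite Prüfer rank. -/
def FinRank (G : Type) [Group G] : Prop :=
  ∃ r : ℕ, ∀ H : Subgroup G, H.FG → ∃ S : Finset G, S.card ≤ r ∧ Subgroup.closure (S : Set G) = H

/-! ## Recursively enumerable predicates -/

/-- `p a ↔ ∃ n, R (a, n)` with `R` primitive recursive. -/
def Re {α : Type} [Primcodable α] (p : α → Prop) : Prop :=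
  ∃ R : α × ℕ → Prop, PrimrecPred R ∧ ∀ a, p a ↔ ∃ n, R (a, n)

/-- Substitution of the words `W` in the word `w`. -/
def subst (W : List Word) (w : Word) : Word :=
  w.flatMap fun l => cond l.2 (W.getD l.1 []) (FreeGroup.invRev (W.getD l.1 []))

/-- The class of a word. -/
def cl (P : Pres) (w : Word) : GN P := PresentedGroup.mk (relN P) (FreeGroup.mk w)

/-- The integer of a pair of natural numbers. -/
def vz (u : ℕ × ℕ) : ℤ := (u.1 : ℤ) - u.2

/-- Signed lists of monomials. -/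
abbrev NL := List ((ℕ × ℕ) × (ℕ × ℕ) × Bool)

/-- The Laurent polynomial of a list. -/
noncomputable def pol (L : NL) : Lam :=
  (L.map fun e => cond e.2.2 (mo (vz e.1, vz e.2.1)) (-mo (vz e.1, vz e.2.1))).sum

/-- The word `x_k ^ (vz u)`. -/
def zp (k : ℕ) (u : ℕ × ℕ) : Word := List.replicate u.1 (k, true) ++ List.replicate u.2 (k, false)

/-- The word `x_0 x_1 x_0⁻¹ x_1⁻¹`. -/
def cw : Word := [(0, true), (1, true), (0, false), (1, false)]

/-- The word of a signed monomial. -/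
def wz (e : (ℕ × ℕ) × (ℕ × ℕ) × Bool) : Word :=
  (zp 0 e.1 ++ zp 1 e.2.1) ++ (cond e.2.2 cw (FreeGroup.invRev cw) ++
    FreeGroup.invRev (zp 0 e.1 ++ zp 1 e.2.1))

/-- The word of a list. -/
def wl (L : NL) : Word := L.flatMap wz

/-- Sum of pairs. -/
def addp (u v : ℕ × ℕ) : ℕ × ℕ := (u.1 + v.1, u.2 + v.2)

/-- Difference of pairs. -/
def subp (u v : ℕ × ℕ) : ℕ × ℕ := (u.1 + v.2, u.2 + v.1)

/-- Product of pairs. -/
def mulp (u v : ℕ × ℕ) : ℕ × ℕ := (u.1 * v.1 + u.2 * v.2, u.1 * v.2 + u.2 * v.1)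

/-- Integer matrices as quadruples of pairs. -/
abbrev MP := (ℕ × ℕ) × (ℕ × ℕ) × (ℕ × ℕ) × (ℕ × ℕ)

/-- The value of a quadruple. -/
def vm (m : MP) : ℤ × ℤ × ℤ × ℤ := (vz m.1, vz m.2.1, vz m.2.2.1, vz m.2.2.2)

/-- The action on lists. -/
def actl (m : MP) (L : NL) : NL :=
  L.map fun e => (addp (mulp m.1 e.1) (mulp m.2.2.1 e.2.1),
    addp (mulp m.2.1 e.1) (mulp m.2.2.2 e.2.1), e.2.2)

/-- A bound for the exponents. -/
def mx (L : NL) : ℕ := (L.map fun e => e.1.1 + e.1.2 + e.2.1.1 + e.2.1.2).sum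

/-- The numbers `-K, …, K` as pairs. -/
def ints (K : ℕ) : List (ℕ × ℕ) := (List.range (K + 1)).flatMap fun n => [(n, 0), (0, n)]

/-- All matrices with entries of absolute value at most `K`. -/
def box (K : ℕ) : List MP :=
  (ints K).flatMap fun a => (ints K).flatMap fun b => (ints K).flatMap fun c =>
    (ints K).map fun d => (a, b, c, d)

/-- The list of the constant `p`. -/
def cst (p : ℕ) : NL := List.replicate p ((0, 0), (0, 0), true)

/-- The ideal generated by the polynomials of the lists. -/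
noncomputable def idl (Js : List NL) : Ideal Lam := Ideal.span {f | ∃ L ∈ Js, f = pol L}

/-- The metabelian law. -/
def law (u₁ u₂ u₃ u₄ : FreeGroup ℕ) : FreeGroup ℕ :=
  (u₁ * u₂ * u₁⁻¹ * u₂⁻¹) * (u₃ * u₄ * u₃⁻¹ * u₄⁻¹) * (u₁ * u₂ * u₁⁻¹ * u₂⁻¹)⁻¹ *
    (u₃ * u₄ * u₃⁻¹ * u₄⁻¹)⁻¹

/-- The relators of the metabelian group on `x_0, x_1` with `pol L ∈ Ann` for `L ∈ Js`. -/
def relJ (Js : List NL) : Set (FreeGroup ℕ) :=
  {r | (∃ u₁ u₂ u₃ u₄, r = law u₁ u₂ u₃ u₄) ∨ (∃ L ∈ Js, r = FreeGroup.mk (wl L)) ∨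
    ∃ i, 2 ≤ i ∧ r = FreeGroup.of i}

/-- `w = 1` in that group. -/
def InJ (Js : List NL) (w : Word) : Prop := FreeGroup.mk w ∈ Subgroup.normalClosure (relJ Js)

/-- `x_0 ↦ a`, `x_1 ↦ b`, `x_i ↦ 1` for `i ≥ 2`. -/
def fab {G : Type} [Group G] (a b : G) (i : ℕ) : G := if i = 0 then a else if i = 1 then b else 1

/-- `A, B` generate the group of `P`, the generator `i` being `W_i(A, B)`. -/
def GenW (P : Pres) (A B : Word) (W : List Word) : Prop :=
  W.length = P.1 ∧ ∀ i < P.1, InN P (FreeGroup.invRev [(i, true)] ++ subst [A, B] (W.getD i []))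

/-- The generators `x_i ↦ W_i` define a homomorphism to the group of `Js` with `A ↦ x_0`, `B ↦ x_1`. -/
def HomM (P : Pres) (Js : List NL) (A B : Word) (W : List Word) : Prop :=
  InJ Js (FreeGroup.invRev [(0, true)] ++ subst W A) ∧
    InJ Js (FreeGroup.invRev [(1, true)] ++ subst W B) ∧ ∀ r ∈ P.2, InJ Js (subst W r)

/-! ### Finite quotients -/

/-- The action of a letter given by tables. -/
def stp (T : List (List ℕ × List ℕ)) (l : ℕ × Bool) (s : ℕ) : ℕ :=
  cond l.2 ((T.getD l.1 ([], [])).1.getD s s) ((T.getD l.1 ([], [])).2.getD s s)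

/-- The action of a word. -/
def actw (T : List (List ℕ × List ℕ)) (w : Word) (s : ℕ) : ℕ := w.foldr (stp T) s

/-- The tables `T` define a permutation representation on `{0, …, k - 1}` of the group of `P`. -/
def IsRep (P : Pres) (k : ℕ) (T : List (List ℕ × List ℕ)) : Prop :=
  T.length = P.1 ∧ (∀ i < P.1, ∀ s < k, stp T (i, true) s < k ∧ stp T (i, false) s < k ∧
    stp T (i, false) (stp T (i, true) s) = s ∧ stp T (i, true) (stp T (i, false) s) = s) ∧
    ∀ r ∈ P.2, ∀ s < k, actw T r s = s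

/-- `w ≠ 1` in a finite quotient of the group of `P`. -/
def FQ (P : Pres) (w : Word) : Prop :=
  ∃ (k : ℕ) (T : List (List ℕ × List ℕ)), IsRep P k T ∧ ∃ s < k, actw T w s ≠ s

/-! ### The certificate of non-isomorphism -/

/-- The matrix `m` does not carry the annihilator of `(A₂, B₂)` to that of `(A₁, B₁)`. -/
def NIm (P₁ : Pres) (A₁ B₁ : Word) (P₂ : Pres) (A₂ B₂ : Word) (m : MP) : Prop :=
  ∃ N : NL, (InN P₂ (subst [A₂, B₂] (wl N)) ∧ FQ P₁ (subst [A₁, B₁] (wl (actl m N)))) ∨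
    (FQ P₂ (subst [A₂, B₂] (wl N)) ∧ InN P₁ (subst [A₁, B₁] (wl (actl m N))))

/-- The certificate: `P₁` has the large quotient given by `p` and `L`. -/
def NI (P₁ P₂ : Pres) : Prop :=
  ∃ (A₁ B₁ : Word) (W₁ : List Word) (A₂ B₂ : Word) (W₂ : List Word) (p : ℕ) (L : NL),
    GenW P₁ A₁ B₁ W₁ ∧ GenW P₂ A₂ B₂ W₂ ∧ p.Prime ∧ NC3 p (pol L) ∧
    HomM P₁ [L, cst p] A₁ B₁ W₁ ∧
    ((∃ u v : ℕ × ℕ, (vz u ≠ 0 ∨ vz v ≠ 0) ∧
        cl P₂ (subst [A₂, B₂] (zp 0 u ++ zp 1 v)) ∈ commutator (GN P₂)) ∨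
      ∃ M : NL, InN P₂ (subst [A₂, B₂] (wl M)) ∧ (∃ z : ℤ × ℤ, ¬ (p : ℤ) ∣ (pol M).coeff z) ∧
        ∀ m ∈ box (8 * mx L * mx M), (dt (vm m) = 1 ∨ dt (vm m) = -1) →
          NIm P₁ A₁ B₁ P₂ A₂ B₂ m)

end Pool.Agent.H28.IP
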