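/-
ROW EvA. The derived subgroup as a module: basics.
PROOFS. `EV a b` is `Finsupp.liftAddHom … ∘ coeffAddEquiv`; `EV a b (mo z) = Additive.ofMul ⟨cz a b z, _⟩`
(`mo z = AddMonoidAlgebra.single z 1`, `Finsupp.liftAddHom_apply_single` after
`AddMonoidAlgebra.coeffAddEquiv` of a single is `Finsupp.single`, `zmultiplesHom_apply`, `one_smul`).
`ev` is the coercion to `G` of `toMul` of `EV`: ev_add etc. from `map_add`, `toMul_add`.
* lam_ind: `AddMonoidAlgebra.induction_linear`; `single z n = n • mo z` for an integer `n`: for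
  `n : ℕ` by induction, negative `n` by `hneg` (or `Int.induction_on`).
* ev_map: lam_ind; for `mo z`: `θ (cz a b z) = cz (θ a) (θ b) z` (`map_mul`, `map_zpow`, `map_inv`).
* ev_conj: for fixed `i, j` by lam_ind: additivity: conjugation is multiplicative; for `mo z`:
  `(a^i b^j) (a^k b^l) c (a^k b^l)⁻¹ (a^i b^j)⁻¹` with `c = [a, b]`; `a^i b^j a^k b^l = d a^(i+k) b^(j+l)` with
  `d ∈ commutator G` (the quotient by the commutator subgroup is commutative: `Abelianization.of` of
  both sides agree, `Abelianization.ker_of`/`QuotientGroup.eq`), and conjugation by `d` fixes the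
  element `cz a b (i+k, j+l)` of the commutator subgroup (Metab.comm).
* mem_Ann: `{f | ev a b f = 1}` is closed under addition, contains `0`, and closed under multiplication
  by any `g`: for fixed `f` with `ev a b f = 1` show `ev a b (g * f) = 1` by lam_ind on `g` (`mo z * f`:
  ev_conj). So it is the carrier of an ideal `I`, and `Ideal.span I = I` (`Ideal.span_eq`).
-/
import Pool.Agent.H28.IP.Defs

set_option autoImplicit false

namespace Pool.Agent.H28.IP

theorem lam_ind {p : Lam → Prop} (h0 : p 0) (hadd : ∀ f g, p f → p g → p (f + g))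
    (hneg : ∀ f, p f → p (-f)) (hmo : ∀ z, p (mo z)) (f : Lam) : p f := by
  induction f using AddMonoidAlgebra.induction_linear with
  | zero => exact h0
  | add f g hf hg => exact hadd f g hf hg
  | single z n =>
    have hnat : ∀ k : ℕ, p (AddMonoidAlgebra.single z (k : ℤ)) := by
      intro k
      induction k with
      | zero => rw [Nat.cast_zero, AddMonoidAlgebra.single_zero]; exact h0
      | succ k ih =>
        rw [Nat.cast_succ, AddMonoidAlgebra.single_add]
        exact hadd _ _ ih (hmo z)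
    rcases Int.eq_nat_or_neg n with ⟨k, rfl | rfl⟩
    · exact hnat k
    · rw [AddMonoidAlgebra.single_neg]
      exact hneg _ (hnat k)

theorem mo_add (z w : ℤ × ℤ) : mo (z + w) = mo z * mo w := by
  rw [mo, mo, mo, AddMonoidAlgebra.single_mul_single, one_mul]

theorem mo_zero : mo 0 = 1 := rfl

variable {G H : Type} [Group G] [Group H] [Metab G] [Metab H]

theorem ev_zero (a b : G) : ev a b 0 = 1 := by
  unfold ev; rw [map_zero]; rfl

theorem ev_add (a b : G) (f g : Lam) : ev a b (f + g) = ev a b f * ev a b g := by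
  unfold ev; rw [map_add]; rfl

theorem ev_neg (a b : G) (f : Lam) : ev a b (-f) = (ev a b f)⁻¹ := by
  unfold ev; rw [map_neg]; rfl

theorem ev_sub (a b : G) (f g : Lam) : ev a b (f - g) = ev a b f * (ev a b g)⁻¹ := by
  rw [sub_eq_add_neg, ev_add, ev_neg]

theorem EvA_EV (a b : G) (z : ℤ × ℤ) :
    EV a b (mo z) = Additive.ofMul ⟨cz a b z, cz_mem a b z⟩ := by
  have h : EV a b (mo z) = (Finsupp.liftAddHom fun z => (zmultiplesHom (Additive (commutator G)))
    (Additive.ofMul ⟨cz a b z, cz_mem a b z⟩)) (Finsupp.single z (1 : ℤ)) := rfl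
  rw [h, Finsupp.liftAddHom_apply_single, zmultiplesHom_apply, one_smul]

theorem ev_mo (a b : G) (z : ℤ × ℤ) : ev a b (mo z) = cz a b z := by
  unfold ev; rw [EvA_EV]; rfl

theorem ev_one (a b : G) : ev a b 1 = a * b * a⁻¹ * b⁻¹ := by
  rw [← mo_zero, ev_mo]
  unfold cz
  simp

theorem ev_mem (a b : G) (f : Lam) : ev a b f ∈ commutator G :=
  ((EV a b f).toMul : commutator G).2

theorem ev_map (θ : G →* H) (a b : G) (f : Lam) : θ (ev a b f) = ev (θ a) (θ b) f := by
  induction f using lam_ind with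
  | h0 => rw [ev_zero, ev_zero, map_one]
  | hadd f g hf hg => rw [ev_add, ev_add, map_mul, hf, hg]
  | hneg f hf => rw [ev_neg, ev_neg, map_inv, hf]
  | hmo z =>
    rw [ev_mo, ev_mo]
    unfold cz
    simp only [map_mul, map_inv, map_zpow]

/-- conjugation by an element of the derived subgroup does not change the elements of it -/
theorem EvA_fix {d c : G} (hd : d ∈ commutator G) (hc : c ∈ commutator G) : d * c * d⁻¹ = c := by
  rw [Metab.comm d hd c hc, mul_inv_cancel_right]

theorem EvA_cz (a b : G) (i j : ℤ) (z : ℤ × ℤ) :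
    (a ^ i * b ^ j) * cz a b z * (a ^ i * b ^ j)⁻¹ = cz a b ((i, j) + z) := by
  obtain ⟨k, l⟩ := z
  set u := a ^ i * b ^ j * (a ^ k * b ^ l) with hu
  set v := a ^ (i + k) * b ^ (j + l) with hv
  have hd : u * v⁻¹ ∈ commutator G := by
    rw [← Abelianization.ker_of, MonoidHom.mem_ker, map_mul, map_inv, mul_inv_eq_one]
    rw [hu, hv]
    simp only [map_mul, map_zpow, zpow_add]
    exact mul_mul_mul_comm _ _ _ _
  have e1 : (a ^ i * b ^ j) * cz a b (k, l) * (a ^ i * b ^ j)⁻¹ =
      (u * v⁻¹) * cz a b (i + k, j + l) * (u * v⁻¹)⁻¹ := by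
    have e2 : cz a b (i + k, j + l) = v * (a * b * a⁻¹ * b⁻¹) * v⁻¹ := rfl
    have e3 : cz a b (k, l) = (a ^ k * b ^ l) * (a * b * a⁻¹ * b⁻¹) * (a ^ k * b ^ l)⁻¹ := rfl
    rw [e2, e3, hu]
    group
  rw [e1, EvA_fix hd (cz_mem a b _)]
  rfl

theorem ev_conj (a b : G) (i j : ℤ) (f : Lam) :
    (a ^ i * b ^ j) * ev a b f * (a ^ i * b ^ j)⁻¹ = ev a b (mo (i, j) * f) := by
  induction f using lam_ind with
  | h0 => rw [mul_zero, ev_zero, mul_one, mul_inv_cancel]
  | hadd f g hf hg =>
    rw [mul_add, ev_add, ev_add, ← hf, ← hg]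
    group
  | hneg f hf =>
    rw [mul_neg, ev_neg, ev_neg, ← hf]
    group
  | hmo z => rw [← mo_add, ev_mo, ev_mo, EvA_cz]

theorem EvA_mul {a b : G} {f : Lam} (hf : ev a b f = 1) (g : Lam) : ev a b (g * f) = 1 := by
  induction g using lam_ind with
  | h0 => rw [zero_mul, ev_zero]
  | hadd g h hg hh => rw [add_mul, ev_add, hg, hh, mul_one]
  | hneg g hg => rw [neg_mul, ev_neg, hg, inv_one]
  | hmo z =>
    obtain ⟨i, j⟩ := z
    rw [← ev_conj, hf, mul_one, mul_inv_cancel]

theorem mem_Ann {a b : G} {f : Lam} : f ∈ Ann a b ↔ ev a b f = 1 := by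
  constructor
  · intro h
    unfold Ann at h
    induction h using Submodule.span_induction with
    | mem x hx => exact hx
    | zero => exact ev_zero a b
    | add x y _ _ hx hy => rw [ev_add, hx, hy, mul_one]
    | smul r x _ hx => rw [smul_eq_mul]; exact EvA_mul hx r
  · intro h
    exact Ideal.subset_span h

end Pool.Agent.H28.IP
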