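/-
ROW EvB. PROOFS.
* ab_comm: in `G ⧸ commutator G` everything commutes: `x * y * (y * x)⁻¹ ∈ commutator G`.
* nf: the set of `g` which are of the form `ev a b f * (a ^ i * b ^ j)` contains `a`, `b`, `a⁻¹`, `b⁻¹`, `1` and
  is closed under right multiplication by `a^{±1}`, `b^{±1}`: let `D = {ev a b f | f}`, a subgroup
  (ev_add, ev_neg), normalised by `a` and `b` (ev_conj with `(i, j) = (±1, 0), (0, ±1)`), hence normal as
  `Gen2 a b`; it contains `[a, b]` (ev_one). In `G ⧸ D` the images of `a, b` commute and generate, so it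
  is commutative and every element is `a^i b^j` mod `D` (`Subgroup.mem_closure_pair` in a commutative
  group, or closure induction). Hence `commutator G ≤ D` (ev_surj), and every `g` is `d * (a^i * b^j)`
  with `d ∈ D` (nf).
* conj_cong: `g = d * (a^i * b^j)` with `d ∈ commutator G`; `g (ev f) g⁻¹ = d (ev (mo (i,j) * f)) d⁻¹ =
  ev (mo (i,j) * f)` by ev_conj and Metab.comm (ev_mem).
-/
import Pool.Agent.H28.IP.EvA

set_option autoImplicit false

namespace Pool.Agent.H28.IP

variable {G : Type} [Group G] [Metab G]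

/-- the subgroup of the values of `ev` -/
noncomputable def EvB_D (a b : G) : Subgroup G where
  carrier := {g | ∃ f, ev a b f = g}
  one_mem' := ⟨0, ev_zero a b⟩
  mul_mem' := by
    rintro _ _ ⟨f, rfl⟩ ⟨g, rfl⟩
    exact ⟨f + g, ev_add a b f g⟩
  inv_mem' := by
    rintro _ ⟨f, rfl⟩
    exact ⟨-f, ev_neg a b f⟩

theorem EvB_norm {a b : G} (hg : Gen2 a b) : (EvB_D a b).Normal := by
  constructor
  rintro _ ⟨f, rfl⟩ g
  have hmem : g ∈ Subgroup.closure {a, b} := by
    rw [hg]
    exact Subgroup.mem_top g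
  induction hmem using Subgroup.closure_induction'' generalizing f with
  | mem x hx =>
    rcases hx with rfl | rfl
    · refine ⟨mo (1, 0) * f, ?_⟩
      rw [← ev_conj]
      simp
    · refine ⟨mo (0, 1) * f, ?_⟩
      rw [← ev_conj]
      simp
  | inv_mem x hx =>
    rcases hx with rfl | rfl
    · refine ⟨mo (-1, 0) * f, ?_⟩
      rw [← ev_conj]
      simp
    · refine ⟨mo (0, -1) * f, ?_⟩
      rw [← ev_conj]
      simp
  | one => exact ⟨f, by simp⟩
  | mul x y _ _ hx hy =>
    obtain ⟨f', hf'⟩ := hy f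
    obtain ⟨f'', hf''⟩ := hx f'
    refine ⟨f'', ?_⟩
    rw [hf'', hf']
    group

theorem EvB_top {Q : Type} [Group Q] {a b : Q} (hg : Subgroup.closure {a, b} = ⊤)
    (hab : a * b = b * a) (x y : Q) : x * y = y * x := by
  have h1 : Subgroup.closure {a, b} ≤ Subgroup.centralizer {a, b} := by
    rw [Subgroup.closure_le]
    intro z hz
    rw [SetLike.mem_coe, Subgroup.mem_centralizer_iff]
    intro w hw
    rcases hz with rfl | rfl <;> rcases hw with rfl | rfl
    · rfl
    · exact hab.symm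
    · exact hab
    · rfl
  have h2 : Subgroup.closure {a, b} ≤ Subgroup.center Q := by
    rw [Subgroup.closure_le]
    intro z hz
    rw [SetLike.mem_coe, Subgroup.mem_center_iff]
    intro g
    have h3 : g ∈ Subgroup.centralizer {a, b} := h1 (by
      rw [hg]
      exact Subgroup.mem_top g)
    exact (Subgroup.mem_centralizer_iff.1 h3 z hz).symm
  have h4 : y ∈ Subgroup.center Q := h2 (by
    rw [hg]
    exact Subgroup.mem_top y)
  exact Subgroup.mem_center_iff.1 h4 x

theorem EvB_nf {Q : Type} [Group Q] {a b : Q} (hg : Subgroup.closure {a, b} = ⊤)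
    (hab : a * b = b * a) (x : Q) : ∃ i j : ℤ, x = a ^ i * b ^ j := by
  have hc : Commute a b := hab
  have hmem : x ∈ Subgroup.closure {a, b} := by
    rw [hg]
    exact Subgroup.mem_top x
  induction hmem using Subgroup.closure_induction'' with
  | mem x hx =>
    rcases hx with rfl | rfl
    · exact ⟨1, 0, by simp⟩
    · exact ⟨0, 1, by simp⟩
  | inv_mem x hx =>
    rcases hx with rfl | rfl
    · exact ⟨-1, 0, by simp⟩
    · exact ⟨0, -1, by simp⟩
  | one => exact ⟨0, 0, by simp⟩
  | mul x y _ _ hx hy =>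
    obtain ⟨i, j, rfl⟩ := hx
    obtain ⟨k, l, rfl⟩ := hy
    refine ⟨i + k, j + l, ?_⟩
    rw [zpow_add, zpow_add, (hc.zpow_zpow k j).symm.mul_mul_mul_comm]

theorem EvB_gen {a b : G} (hg : Gen2 a b) [(EvB_D a b).Normal] :
    Subgroup.closure {(a : G ⧸ EvB_D a b), (b : G ⧸ EvB_D a b)} = ⊤ := by
  have h1 : (Subgroup.closure {a, b}).map (QuotientGroup.mk' (EvB_D a b)) = ⊤ := by
    rw [hg]
    exact Subgroup.map_top_of_surjective _ (QuotientGroup.mk'_surjective _)
  rw [MonoidHom.map_closure, Set.image_pair] at h1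
  exact h1

theorem EvB_comm {a b : G} [(EvB_D a b).Normal] :
    (a : G ⧸ EvB_D a b) * (b : G ⧸ EvB_D a b) = (b : G ⧸ EvB_D a b) * (a : G ⧸ EvB_D a b) := by
  rw [← QuotientGroup.mk_mul, ← QuotientGroup.mk_mul, QuotientGroup.eq_iff_div_mem]
  refine ⟨1, ?_⟩
  rw [ev_one, div_eq_mul_inv, mul_inv_rev]
  group

open scoped commutatorElement in
theorem ev_surj {a b : G} (hg : Gen2 a b) {g : G} (h : g ∈ commutator G) : ∃ f, ev a b f = g := by
  have := EvB_norm hg
  have h1 : commutator G ≤ EvB_D a b := by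
    rw [commutator_def, Subgroup.commutator_le]
    intro x _ y _
    have h2 := EvB_top (EvB_gen hg) EvB_comm (x : G ⧸ EvB_D a b) (y : G ⧸ EvB_D a b)
    rw [← QuotientGroup.mk_mul, ← QuotientGroup.mk_mul, QuotientGroup.eq_iff_div_mem] at h2
    have h3 : ⁅x, y⁆ = x * y / (y * x) := by
      rw [commutatorElement_def, div_eq_mul_inv, mul_inv_rev]
      group
    rw [h3]
    exact h2
  exact h1 h

theorem nf {a b : G} (hg : Gen2 a b) (g : G) : ∃ (f : Lam) (i j : ℤ), g = ev a b f * (a ^ i * b ^ j) := by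
  have := EvB_norm hg
  obtain ⟨i, j, h⟩ := EvB_nf (EvB_gen hg) EvB_comm (g : G ⧸ EvB_D a b)
  have h1 : ((g : G) : G ⧸ EvB_D a b) = ((a ^ i * b ^ j : G) : G ⧸ EvB_D a b) := by
    rw [h]
    simp
  rw [QuotientGroup.eq_iff_div_mem] at h1
  obtain ⟨f, hf⟩ := h1
  refine ⟨f, i, j, ?_⟩
  rw [hf, div_eq_mul_inv, inv_mul_cancel_right]

theorem conj_cong {a b g : G} {i j : ℤ} (h : g * (a ^ i * b ^ j)⁻¹ ∈ commutator G) (f : Lam) :
    g * ev a b f * g⁻¹ = ev a b (mo (i, j) * f) := by
  have h1 := EvA_fix h (ev_mem a b (mo (i, j) * f))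
  rw [← ev_conj] at h1
  rw [← ev_conj, ← h1]
  group

end Pool.Agent.H28.IP
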