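/-
ROW Chi. Homomorphisms to `ℤ`.
PROOF. By nf (row EvB; only the part: every `g` is `d * (a^i * b^j)` with `d ∈ commutator G`) choose for each
`g` integers `i(g), j(g)` with `g * (a^i * b^j)⁻¹ ∈ commutator G`. Put `χ g = ofAdd (c * i(g) + d * j(g))`. It is
well defined in the sense: if `g * (a^i * b^j)⁻¹ ∈ commutator G` for another pair `(i, j)` then
`a^(i - i(g)) b^(j - j(g)) ∈ commutator G` (work in `Abelianization G`), so `c * i + d * j` is the same by the
hypothesis. Hence `χ` is multiplicative and `χ a = ofAdd c`, `χ b = ofAdd d`.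
-/
import Pool.Agent.H28.IP.EvB

set_option autoImplicit false

namespace Pool.Agent.H28.IP

theorem exists_chi {G : Type} [Group G] [Metab G] {a b : G} (hg : Gen2 a b) (c d : ℤ)
    (h : ∀ i j : ℤ, a ^ i * b ^ j ∈ commutator G → c * i + d * j = 0) :
    ∃ χ : G →* Multiplicative ℤ, χ a = Multiplicative.ofAdd c ∧ χ b = Multiplicative.ofAdd d := by
  classical
  let q : G →* Abelianization G := Abelianization.of
  have hq : ∀ g : G, q g = 1 ↔ g ∈ commutator G := by
    intro g
    have : g ∈ q.ker ↔ g ∈ commutator G := by rw [Abelianization.ker_of]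
    rwa [MonoidHom.mem_ker] at this
  have hex : ∀ g : G, ∃ i j : ℤ, q g = q a ^ i * q b ^ j := by
    intro g
    obtain ⟨f, i, j, hf⟩ := nf hg g
    refine ⟨i, j, ?_⟩
    have h1 : q (ev a b f) = 1 := by
      rw [hq]
      exact ((EV a b f).toMul : commutator G).2
    rw [hf, map_mul, h1, one_mul, map_mul, map_zpow, map_zpow]
  choose i j hij using hex
  have huniq : ∀ (k l k' l' : ℤ), q a ^ k * q b ^ l = q a ^ k' * q b ^ l' →
      c * k + d * l = c * k' + d * l' := by
    intro k l k' l' e
    have h1 : q (a ^ (k - k') * b ^ (l - l')) = 1 := by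
      rw [map_mul, map_zpow, map_zpow, zpow_sub, zpow_sub]
      calc q a ^ k * (q a ^ k')⁻¹ * (q b ^ l * (q b ^ l')⁻¹)
          = (q a ^ k * q b ^ l) * (q a ^ k' * q b ^ l')⁻¹ := by
            rw [mul_inv]; exact mul_mul_mul_comm _ _ _ _
        _ = 1 := by rw [e, mul_inv_cancel]
    have h2 := h _ _ ((hq _).mp h1)
    linear_combination h2
  refine ⟨{ toFun := fun g => Multiplicative.ofAdd (c * i g + d * j g)
            map_one' := ?_
            map_mul' := ?_ }, ?_, ?_⟩
  · have := huniq (i 1) (j 1) 0 0 (by rw [← hij 1]; simp)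
    rw [this]
    simp
  · intro x y
    have := huniq (i (x * y)) (j (x * y)) (i x + i y) (j x + j y) (by
      rw [← hij (x * y), map_mul, hij x, hij y, zpow_add, zpow_add]
      exact mul_mul_mul_comm _ _ _ _)
    rw [this, ← ofAdd_add]
    congr 1
    ring
  · have := huniq (i a) (j a) 1 0 (by rw [← hij a]; simp)
    show Multiplicative.ofAdd (c * i a + d * j a) = _
    rw [this]
    simp
  · have := huniq (i b) (j b) 0 1 (by rw [← hij b]; simp)
    show Multiplicative.ofAdd (c * i b + d * j b) = _
    rw [this]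
    simp

end Pool.Agent.H28.IP
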