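/-
ROW AnP. The annihilator is not contained in `p Lam` (for a finitely presented group).
PROOF. Suppose every `f` with `ev a b f = 1` has all coefficients divisible by `p`. By AbFree and exists_chi
(`c = 1`, `d = 0`) there is `χ` with `χ a = ofAdd 1`, `χ b = ofAdd 0 = 1`. bieri_strebel with `t = a` gives `H`.
Every `h ∈ χ.ker` is `ev f * b^j` (nf: `h = ev f * (a^i b^j)`, `χ h = ofAdd i`, so `i = 0`). `H` is generated by a
finite set; let `M : ℕ` bound `|z.1|` for all `z` in the supports of the `f`'s of the generators (finitely many).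
Claim: every `h ∈ H` is `ev f * b^j` with `|z.1| ≤ M` on the support of `f` (closure induction; conjugation by
`b^k` multiplies `f` by `mo (0, k)` (ev_conj with `i = 0`), which does not change the first coordinates of
the support; product `(ev f b^k)(ev f' b^l) = ev (f + mo (0,k) f') b^(k+l)`, inverse
`ev (-(mo (0,-k) f)) b^(-k)`).
First alternative: `ev 1 ∈ commutator G ≤ χ.ker`, so `a^n (ev 1) a^(-n) = ev (mo (n, 0)) ∈ H` for some `n`, and then
`ev (mo (n', 0)) ∈ H` for all `n' ≥ n`. Take `n' = max n (M + 1)`: `ev (mo (n', 0)) = ev f * b^j` with the bound.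
Then `b^j ∈ commutator G`, so `j = 0` (AbFree), and `ev (mo (n',0) - f) = 1`, but the coefficient of
`mo (n', 0) - f` at `(n', 0)` is `1 - 0 = 1`, not divisible by `p`. Second alternative: the same with
`(-n', 0)`.
-/
import Pool.Agent.H28.IP.BrD
import Pool.Agent.H28.IP.Chi

set_option autoImplicit false

namespace Pool.Agent.H28.IP

theorem ann_not_p {G : Type} [Group G] [Metab G] [Group.IsFinitelyPresented G] {a b : G}
    (hg : Gen2 a b) (hf : AbFree a b) {p : ℕ} (hp : p.Prime) :
    ∃ f : Lam, ev a b f = 1 ∧ ∃ z, ¬ (p : ℤ) ∣ f.coeff z := by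
  classical
  by_contra hcon
  push Not at hcon
  obtain ⟨χ, hχa, hχb⟩ := exists_chi hg 1 0 (fun i j h => by
    obtain ⟨h1, h2⟩ := hf i j h
    simp [h1, h2])
  have hcomm : ∀ x ∈ commutator G, χ x = 1 := fun x hx =>
    (Abelianization.commutator_subset_ker χ) hx
  obtain ⟨H, HFG, Hker, halt⟩ := bieri_strebel χ hχa
  -- elements of the kernel
  have hker : ∀ h : G, χ h = 1 → ∃ (f : Lam) (j : ℤ), h = ev a b f * b ^ j := by
    intro h hh
    obtain ⟨f, i, j, rfl⟩ := nf hg h
    rw [map_mul, map_mul, map_zpow, map_zpow, hχa, hχb, hcomm _ (ev_mem a b f)] at hh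
    have hi : i = 0 := by
      have h2 := congrArg Multiplicative.toAdd hh
      simpa using h2
    subst hi
    exact ⟨f, j, by simp⟩
  -- the bounded elements
  have hconjb : ∀ (k : ℤ) (f : Lam), b ^ k * ev a b f * (b ^ k)⁻¹ = ev a b (mo (0, k) * f) := by
    intro k f
    have := ev_conj a b 0 k f
    simpa using this
  have hmob : ∀ (k : ℤ) (f : Lam) (z : ℤ × ℤ), (mo (0, k) * f).coeff z = f.coeff (z.1, z.2 - k) := by
    intro k f z
    rw [mo, AddMonoidAlgebra.coeff_single_mul_apply, one_mul]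
    congr 1
    ext <;> simp <;> ring
  let B : ℕ → G → Prop := fun M g => ∃ (f : Lam) (j : ℤ), g = ev a b f * b ^ j ∧
    ∀ z, f.coeff z ≠ 0 → z.1.natAbs ≤ M
  have hBmul : ∀ M g h, B M g → B M h → B M (g * h) := by
    rintro M _ _ ⟨f, j, rfl, hfz⟩ ⟨f', j', rfl, hfz'⟩
    refine ⟨f + mo (0, j) * f', j + j', ?_, ?_⟩
    · rw [ev_add, ← hconjb, zpow_add]
      group
    · intro z hz
      by_contra hlt
      have h1 : f.coeff z = 0 := by
        by_contra h; exact hlt (hfz z h)
      have h2 : f'.coeff (z.1, z.2 - j) = 0 := by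
        by_contra h; exact hlt (hfz' (z.1, z.2 - j) h)
      apply hz
      rw [AddMonoidAlgebra.coeff_add, Finsupp.add_apply, h1, hmob, h2, add_zero]
  have hBinv : ∀ M g, B M g → B M g⁻¹ := by
    rintro M _ ⟨f, j, rfl, hfz⟩
    refine ⟨-(mo (0, -j) * f), -j, ?_, ?_⟩
    · rw [ev_neg, ← hconjb]
      group
    · intro z hz
      by_contra hlt
      have h1 : f.coeff (z.1, z.2 - (-j)) = 0 := by
        by_contra h; exact hlt (hfz (z.1, z.2 - (-j)) h)
      apply hz
      rw [AddMonoidAlgebra.coeff_neg, Finsupp.neg_apply, hmob, h1, neg_zero]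
  have hBone : ∀ M, B M 1 := fun M => ⟨0, 0, by simp [ev_zero], by intro z hz; simp at hz⟩
  obtain ⟨S, hS⟩ := HFG
  have hSk : ∀ s ∈ S, ∃ M, B M s := by
    intro s hs
    have : s ∈ H := by rw [← hS]; exact Subgroup.subset_closure hs
    obtain ⟨f, j, hh⟩ := hker s (Hker this)
    refine ⟨f.coeff.support.sup (fun z => z.1.natAbs), f, j, hh, fun z hz => ?_⟩
    exact Finset.le_sup (f := fun z : ℤ × ℤ => z.1.natAbs) (Finsupp.mem_support_iff.2 hz)
  have hSk' : ∃ M, ∀ s ∈ S, B M s := by
    choose! Mf hMf using hSk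
    refine ⟨S.sup Mf, fun s hs => ?_⟩
    obtain ⟨f, j, hh, hz⟩ := hMf s hs
    exact ⟨f, j, hh, fun z h => (hz z h).trans (Finset.le_sup hs)⟩
  obtain ⟨M, hM⟩ := hSk'
  have hB : ∀ h ∈ H, B M h := by
    intro h hh
    rw [← hS] at hh
    induction hh using Subgroup.closure_induction with
    | mem x hx => exact hM x hx
    | one => exact hBone M
    | mul x y _ _ hx hy => exact hBmul M x y hx hy
    | inv x _ hx => exact hBinv M x hx
  -- the contradiction
  have key : ∀ n : ℤ, M < n.natAbs → ev a b (mo (n, 0)) ∈ H → False := by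
    intro n hn hmem
    obtain ⟨f, j, hh, hz⟩ := hB _ hmem
    have hj : j = 0 := by
      have h1 : a ^ (0 : ℤ) * b ^ j ∈ commutator G := by
        have : a ^ (0 : ℤ) * b ^ j = (ev a b f)⁻¹ * ev a b (mo (n, 0)) := by rw [hh]; group
        rw [this]
        exact mul_mem (inv_mem (ev_mem a b f)) (ev_mem a b _)
      exact (hf 0 j h1).2
    subst hj
    have h1 : ev a b (mo (n, 0) - f) = 1 := by
      rw [ev_sub, hh]; simp
    have h2 := hcon _ h1 (n, 0)
    rw [AddMonoidAlgebra.coeff_sub, Finsupp.sub_apply] at h2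
    have h3 : f.coeff (n, 0) = 0 := by
      by_contra h
      exact absurd (hz _ h) (by simpa using hn)
    rw [h3, sub_zero] at h2
    have h4 : (mo (n, 0)).coeff (n, 0) = 1 := by simp [mo]
    rw [h4] at h2
    have := Int.natAbs_dvd_natAbs.2 h2
    simp at this
    exact hp.one_lt.ne' this
  have hconja : ∀ (k : ℤ), a ^ k * ev a b 1 * (a ^ k)⁻¹ = ev a b (mo (k, 0)) := by
    intro k
    have := ev_conj a b k 0 1
    simpa using this
  have h1k : ev a b 1 ∈ χ.ker := hcomm _ (ev_mem a b 1)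
  rcases halt with ⟨hcl, hex⟩ | ⟨hcl, hex⟩
  · obtain ⟨n, hn⟩ := hex _ h1k
    have hfor : ∀ k : ℕ, a ^ (n + k) * ev a b 1 * (a ^ (n + k))⁻¹ ∈ H := by
      intro k
      induction k with
      | zero => exact hn
      | succ k ih =>
        have := hcl _ ih
        have e : a ^ (n + (k + 1)) * ev a b 1 * (a ^ (n + (k + 1)))⁻¹ =
            a * (a ^ (n + k) * ev a b 1 * (a ^ (n + k))⁻¹) * a⁻¹ := by
          rw [← add_assoc, pow_succ']; group
        rw [e]; exact this
    have h2 := hfor (M + 1)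
    have h3 := hconja ((n + (M + 1) : ℕ) : ℤ)
    rw [zpow_natCast] at h3
    rw [h3] at h2
    exact key _ (by omega) h2
  · obtain ⟨n, hn⟩ := hex _ h1k
    have hfor : ∀ k : ℕ, (a ^ (n + k))⁻¹ * ev a b 1 * a ^ (n + k) ∈ H := by
      intro k
      induction k with
      | zero => exact hn
      | succ k ih =>
        have := hcl _ ih
        have e : (a ^ (n + (k + 1)))⁻¹ * ev a b 1 * a ^ (n + (k + 1)) =
            a⁻¹ * ((a ^ (n + k))⁻¹ * ev a b 1 * a ^ (n + k)) * a := by
          rw [← add_assoc, pow_succ]; group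
        rw [e]; exact this
    have h2 := hfor (M + 1)
    have h3 := hconja (-((n + (M + 1) : ℕ) : ℤ))
    rw [zpow_neg, zpow_natCast, inv_inv] at h3
    rw [h3] at h2
    exact key _ (by omega) h2

end Pool.Agent.H28.IP
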