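/-
ROW Bez. Gauss' lemma: elimination (Mathlib only). `K = FractionRing R`. Obtain a normalized gcd structure by
`Classical.choice`: `letI := UniqueFactorizationMonoid.toNormalizedGCDMonoid R` (`Nonempty (NormalizedGCDMonoid R)`).
PROOFS.
* dvd_of_map: `F` prime with positive degree is primitive (`IsPrimitive`: if `C r ∣ F` then, `F` being
  irreducible and of positive degree, `C r` is a unit). If `F ∣ G` in `K[X]` then `F ∣ G` in `R[X]`: `G = 0` is
  clear; otherwise `G = C G.content * G.primPart`, `C G.content` is a unit in `K[X]`, so `F ∣ G.primPart` in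
  `K[X]`, and `IsPrimitive.dvd_iff_fraction_map_dvd_fraction_map` (GaussLemma.lean).
* bez: `F.map` is irreducible in `K[X]` (`IsPrimitive.irreducible_iff_irreducible_map_fraction_map`), does
  not divide `G.map` by dvd_of_map, so `u' F + v' G = 1` in `K[X]` (`Irreducible.coprime_iff_not_dvd`).
  Multiply by a common denominator of the coefficients of `u'`, `v'`
  (`IsLocalization.integerNormalization`-lemmas or `Polynomial.isLocalization`): `u F + v G = C d` after
  `Polynomial.map_injective` (`IsFractionRing.injective`).
-/
import Mathlib

set_option autoImplicit false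

namespace Pool.Agent.H28.IP

open Polynomial

variable {R : Type} [CommRing R] [IsDomain R] [UniqueFactorizationMonoid R]

theorem dvd_of_map {F G : R[X]} (hF : Prime F) (hdeg : 0 < F.natDegree)
    (h : F.map (algebraMap R (FractionRing R)) ∣ G.map (algebraMap R (FractionRing R))) : F ∣ G := by
  have : Nonempty (NormalizedGCDMonoid R) := inferInstance
  have hp : F.IsPrimitive := hF.irreducible.isPrimitive hdeg.ne'
  exact hp.dvd_of_fraction_map_dvd_fraction_map h

theorem bez {F G : R[X]} (hF : Prime F) (hdeg : 0 < F.natDegree) (hG : ¬ F ∣ G) :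
    ∃ (u v : R[X]) (d : R), d ≠ 0 ∧ u * F + v * G = C d := by
  have : Nonempty (NormalizedGCDMonoid R) := inferInstance
  have hp : F.IsPrimitive := hF.irreducible.isPrimitive hdeg.ne'
  have hirr : Irreducible (F.map (algebraMap R (FractionRing R))) :=
    hp.irreducible_iff_irreducible_map_fraction_map.1 hF.irreducible
  have hnd : ¬ F.map (algebraMap R (FractionRing R)) ∣ G.map (algebraMap R (FractionRing R)) :=
    fun h => hG (dvd_of_map hF hdeg h)
  obtain ⟨u', v', h⟩ := (Irreducible.coprime_iff_not_dvd hirr).2 hnd
  obtain ⟨c, hc, hcu⟩ := IsLocalization.integerNormalization_spec (nonZeroDivisors R) u'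
  obtain ⟨e, he, hev⟩ := IsLocalization.integerNormalization_spec (nonZeroDivisors R) v'
  rw [Algebra.smul_def, Polynomial.algebraMap_apply] at hcu hev
  refine ⟨C e * IsLocalization.integerNormalization (nonZeroDivisors R) u',
    C c * IsLocalization.integerNormalization (nonZeroDivisors R) v', c * e,
    mul_ne_zero (nonZeroDivisors.ne_zero hc) (nonZeroDivisors.ne_zero he), ?_⟩
  apply Polynomial.map_injective _ (IsFractionRing.injective R (FractionRing R))
  simp only [Polynomial.map_add, Polynomial.map_mul, map_C, hcu, hev, map_mul]
  linear_combination C (algebraMap R (FractionRing R) c) * C (algebraMap R (FractionRing R) e) * h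

end Pool.Agent.H28.IP
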