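/-
ROW ChB. PROOFS.
* act_mo: `AddMonoidAlgebra.mapDomainRingHom` of `single z 1` is `single (actz m z) 1`.
* change_ev: let `c' = a' b' a'⁻¹ b'⁻¹`; it lies in `commutator G`, so `c' = ev a b ε` (ev_surj hg). For every `z`:
  `a'^i b'^j` (`z = (i,j)`) is congruent mod `commutator G` to `a^(m₁i+m₃j) b^(m₂i+m₄j)`, so by conj_cong
  `cz a' b' z = (a'^i b'^j) c' (a'^i b'^j)⁻¹ = ev a b (mo (actz m z) * ε)`. By lam_ind
  `ev a' b' f = ev a b (act m f * ε)` for all `f` (∗). By ev_surj hg' there is `δ` with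
  `ev a' b' δ = a b a⁻¹ b⁻¹ = ev a b 1`, so by (∗) `act m δ * ε - 1 ∈ Ann a b` (mem_Ann, ev_sub).
  `ev a' b' f = 1 ↔ act m f * ε ∈ Ann a b ↔ act m f ∈ Ann a b`: `→` multiply by `act m δ`:
  `act m f = act m f * (1 - act m δ * ε) + act m δ * (act m f * ε)`; `←` ideal.
-/
import Pool.Agent.H28.IP.EvB

set_option autoImplicit false

namespace Pool.Agent.H28.IP

theorem act_mo (m : ℤ × ℤ × ℤ × ℤ) (z : ℤ × ℤ) : act m (mo z) = mo (actz m z) := by
  unfold act mo
  rw [AddMonoidAlgebra.mapDomainRingHom_apply, AddMonoidAlgebra.mapDomain_single]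
  rfl

variable {G : Type} [Group G] [Metab G]

theorem ChB_mem (x : G) : x ∈ commutator G ↔ Abelianization.of x = 1 := by
  rw [← MonoidHom.mem_ker, Abelianization.ker_of]

theorem ChB_of {x y : G} (h : x * y⁻¹ ∈ commutator G) :
    Abelianization.of x = Abelianization.of y := by
  rw [ChB_mem, map_mul, map_inv] at h
  exact mul_inv_eq_one.1 h

theorem ChB_cong {a b a' b' : G} {m : ℤ × ℤ × ℤ × ℤ}
    (ha : a' * (a ^ m.1 * b ^ m.2.1)⁻¹ ∈ commutator G)
    (hb : b' * (a ^ m.2.2.1 * b ^ m.2.2.2)⁻¹ ∈ commutator G) (z : ℤ × ℤ) :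
    (a' ^ z.1 * b' ^ z.2) * (a ^ (actz m z).1 * b ^ (actz m z).2)⁻¹ ∈ commutator G := by
  have h1 := ChB_of ha
  have h2 := ChB_of hb
  rw [ChB_mem, map_mul, map_inv, mul_inv_eq_one]
  rw [map_mul, map_zpow, map_zpow] at h1 h2
  rw [map_mul, map_mul, map_zpow, map_zpow, map_zpow, map_zpow, h1, h2]
  simp only [actz]
  rw [mul_zpow, mul_zpow, zpow_add, zpow_add, zpow_mul, zpow_mul, zpow_mul, zpow_mul]
  exact mul_mul_mul_comm _ _ _ _

theorem change_ev {a b a' b' : G} (hg : Gen2 a b) (hg' : Gen2 a' b') {m : ℤ × ℤ × ℤ × ℤ}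
    (ha : a' * (a ^ m.1 * b ^ m.2.1)⁻¹ ∈ commutator G)
    (hb : b' * (a ^ m.2.2.1 * b ^ m.2.2.2)⁻¹ ∈ commutator G) (f : Lam) :
    ev a' b' f = 1 ↔ ev a b (act m f) = 1 := by
  have hc1 : a' * b' * a'⁻¹ * b'⁻¹ ∈ commutator G :=
    Subgroup.commutator_mem_commutator (Subgroup.mem_top a') (Subgroup.mem_top b')
  have hc2 : a * b * a⁻¹ * b⁻¹ ∈ commutator G :=
    Subgroup.commutator_mem_commutator (Subgroup.mem_top a) (Subgroup.mem_top b)
  obtain ⟨ε, hε⟩ := ev_surj hg hc1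
  obtain ⟨δ, hδ⟩ := ev_surj hg' hc2
  have key : ∀ g : Lam, ev a' b' g = ev a b (act m g * ε) := by
    intro g
    refine lam_ind (p := fun g => ev a' b' g = ev a b (act m g * ε)) ?_ ?_ ?_ ?_ g
    · show ev a' b' 0 = ev a b (act m 0 * ε)
      rw [ev_zero, map_zero, zero_mul, ev_zero]
    · intro f g hf hg
      show ev a' b' (f + g) = ev a b (act m (f + g) * ε)
      rw [ev_add, map_add, add_mul, ev_add, hf, hg]
    · intro f hf
      show ev a' b' (-f) = ev a b (act m (-f) * ε)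
      rw [ev_neg, map_neg, neg_mul, ev_neg, hf]
    · intro z
      show ev a' b' (mo z) = ev a b (act m (mo z) * ε)
      rw [ev_mo, act_mo]
      have h1 := conj_cong (ChB_cong ha hb z) ε
      rw [hε] at h1
      exact h1
  have hA : act m δ * ε - 1 ∈ Ann a b := by
    rw [mem_Ann, ev_sub, ev_one, ← key, hδ, mul_inv_cancel]
  rw [key, ← mem_Ann, ← mem_Ann]
  constructor
  · intro h
    have e : act m f = -(act m f * (act m δ * ε - 1)) + act m δ * (act m f * ε) := by ring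
    rw [e]
    exact Ideal.add_mem _ (neg_mem (Ideal.mul_mem_left _ _ hA)) (Ideal.mul_mem_left _ _ h)
  · intro h
    exact Ideal.mul_mem_right _ _ h

end Pool.Agent.H28.IP
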