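/-
ROW RdA. Reduction modulo `p`. PROOFS.
* red_coeff: `AddMonoidAlgebra.mapRingHom`/`mapRangeRingHom` of the cast `ℤ → ZMod p` acts on coefficients.
* red_zero: `(c : ZMod p) = 0 ↔ (p : ℤ) ∣ c` (`ZMod.intCast_zmod_eq_zero_iff_dvd` /
  `ZMod.intCast_eq_zero_iff_dvd`); if all coefficients are divisible by `p` then `f = p * g`.
* red_surj: lift the coefficients.
* red_span: `g ∈ span {f, p}` iff `g = u f + v p` (`Ideal.mem_span_pair`); `→` apply `red`; `←` lift the
  factor by red_surj and use red_zero.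
-/
import Pool.Agent.H28.IP.Defs

set_option autoImplicit false

namespace Pool.Agent.H28.IP

/-- Reduction modulo `p`. -/
noncomputable def red (p : ℕ) : Lam →+* AddMonoidAlgebra (ZMod p) (ℤ × ℤ) :=
  AddMonoidAlgebra.mapRingHom (ℤ × ℤ) (Int.castRingHom (ZMod p))

theorem red_coeff (p : ℕ) (f : Lam) (z : ℤ × ℤ) : (red p f).coeff z = (f.coeff z : ZMod p) := by
  unfold red
  rw [AddMonoidAlgebra.coeff_mapRingHom, eq_intCast]

theorem red_mo (p : ℕ) (z : ℤ × ℤ) : red p (mo z) = AddMonoidAlgebra.single z 1 := by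
  unfold red mo
  rw [AddMonoidAlgebra.mapRingHom_single, map_one]

theorem RdA_cast (p : ℕ) : (p : Lam) = AddMonoidAlgebra.single 0 (p : ℤ) := by
  rw [← nsmul_one, AddMonoidAlgebra.one_def, AddMonoidAlgebra.smul_single, nsmul_one]

theorem RdA_coeff_mul (p : ℕ) (g : Lam) (z : ℤ × ℤ) :
    ((p : Lam) * g).coeff z = (p : ℤ) * g.coeff z := by
  have h1 : (p : Lam) * g = p • g := by rw [nsmul_eq_mul]
  rw [h1, AddMonoidAlgebra.coeff_smul_apply, nsmul_eq_mul]

theorem red_zero {p : ℕ} {f : Lam} : red p f = 0 ↔ ∃ g, f = (p : Lam) * g := by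
  constructor
  · intro h
    have h1 : ∀ z, ((p : ℤ)) ∣ f.coeff z := by
      intro z
      have h2 := red_coeff p f z
      rw [h, AddMonoidAlgebra.coeff_zero, Finsupp.zero_apply] at h2
      exact (ZMod.intCast_zmod_eq_zero_iff_dvd _ _).1 h2.symm
    choose c hc using h1
    by_cases hp : p = 0
    · refine ⟨0, ?_⟩
      ext z
      rw [hc z, hp]
      simp
    refine ⟨AddMonoidAlgebra.ofCoeff (f.coeff.mapRange (fun n => n / (p : ℤ)) (by simp)), ?_⟩
    ext z
    rw [RdA_coeff_mul, AddMonoidAlgebra.coeff_ofCoeff, Finsupp.mapRange_apply, hc z,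
      Int.mul_ediv_cancel_left _ (by exact_mod_cast hp)]
  · rintro ⟨g, rfl⟩
    rw [map_mul, map_natCast]
    have h1 : ((p : ℕ) : AddMonoidAlgebra (ZMod p) (ℤ × ℤ)) = 0 := by
      rw [← nsmul_one, AddMonoidAlgebra.one_def, AddMonoidAlgebra.smul_single, nsmul_one,
        ZMod.natCast_self, AddMonoidAlgebra.single_zero]
    rw [h1, zero_mul]

theorem red_ne {p : ℕ} {f : Lam} : red p f ≠ 0 ↔ ∃ z, ¬ (p : ℤ) ∣ f.coeff z := by
  rw [← not_iff_not, not_not]
  push Not
  constructor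
  · intro h z
    have h2 := red_coeff p f z
    rw [h, AddMonoidAlgebra.coeff_zero, Finsupp.zero_apply] at h2
    exact (ZMod.intCast_zmod_eq_zero_iff_dvd _ _).1 h2.symm
  · intro h
    ext z
    rw [red_coeff, AddMonoidAlgebra.coeff_zero, Finsupp.zero_apply]
    exact (ZMod.intCast_zmod_eq_zero_iff_dvd _ _).2 (h z)

theorem red_surj (p : ℕ) : Function.Surjective (red p) := by
  intro g
  refine ⟨AddMonoidAlgebra.ofCoeff (g.coeff.mapRange (fun c => (c.cast : ℤ)) (by simp)), ?_⟩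
  ext z
  rw [red_coeff, AddMonoidAlgebra.coeff_ofCoeff, Finsupp.mapRange_apply]
  exact ZMod.intCast_zmod_cast _

theorem red_span {p : ℕ} {f g : Lam} :
    g ∈ Ideal.span {f, (p : Lam)} ↔ ∃ h, red p g = red p f * h := by
  rw [Ideal.mem_span_pair]
  constructor
  · rintro ⟨u, v, h⟩
    refine ⟨red p u, ?_⟩
    have h1 : red p ((p : Lam)) = 0 := red_zero.2 ⟨1, by rw [mul_one]⟩
    rw [← h, map_add, map_mul, map_mul, h1, mul_zero, add_zero, mul_comm]
  · rintro ⟨h, hh⟩
    obtain ⟨u, rfl⟩ := red_surj p h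
    have h1 : red p (g - f * u) = 0 := by rw [map_sub, map_mul, hh, sub_self]
    obtain ⟨v, hv⟩ := red_zero.1 h1
    refine ⟨u, v, ?_⟩
    rw [mul_comm u f, mul_comm v, ← hv]
    ring

end Pool.Agent.H28.IP
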