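/-
ROW WiA. Widths of supports are superadditive (Mathlib only).
PROOF. Let `ℓ z = c * z.1 + d * z.2`. Consider the total order on `ℤ × ℤ` given by the key
`κ z = (ℓ z, z.1, z.2)` in the lexicographic order (`toLex`), which is injective and compatible with
addition: `κ z ≤ κ z'`, `κ w ≤ κ w'` imply `κ (z + w) ≤ κ (z' + w')` with equality only if `z = z'`, `w = w'`
(`κ` is additive, `ℤ ×ₗ ℤ ×ₗ ℤ` is an ordered group). Let `zf`, `zg` be the elements of the supports of `f`, `g`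
with maximal key (`Finset.exists_max_image`). Then `(f * g).coeff (zf + zg) = f.coeff zf * g.coeff zg ≠ 0`
(`AddMonoidAlgebra.coeff_mul_add_of_uniqueAdd` in Algebra/MonoidAlgebra/NoZeroDivisors.lean, or
`AddMonoidAlgebra.coeff_mul`), so `w₁ = zf + zg ∈ supp (f g)`, `ℓ w₁ = ℓ zf + ℓ zg ≥ ℓ z₁ + ℓ zg`. Similarly with
minimal keys `zf'`, `zg'`: `w₂ = zf' + zg'`, `ℓ w₂ = ℓ zf' + ℓ zg' ≤ ℓ z₂ + ℓ zg'`, and `ℓ zg ≥ ℓ zg'`.
-/
import Mathlib

set_option autoImplicit false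

namespace Pool.Agent.H28.IP

private theorem WiA_max {Γ : Type} [AddCommGroup Γ] [LinearOrder Γ] [IsOrderedAddMonoid Γ]
    (κ : ℤ × ℤ → Γ) (hadd : ∀ z w, κ (z + w) = κ z + κ w) (hinj : Function.Injective κ)
    {k : Type} [Field k] {f g : AddMonoidAlgebra k (ℤ × ℤ)} (hf : f.coeff.support.Nonempty)
    (hg : g.coeff.support.Nonempty) :
    ∃ zf ∈ f.coeff.support, ∃ zg ∈ g.coeff.support, zf + zg ∈ (f * g).coeff.support ∧
      (∀ z ∈ f.coeff.support, κ z ≤ κ zf) ∧ ∀ z ∈ g.coeff.support, κ z ≤ κ zg := by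
  obtain ⟨zf, hzf, mf⟩ := Finset.exists_max_image f.coeff.support κ hf
  obtain ⟨zg, hzg, mg⟩ := Finset.exists_max_image g.coeff.support κ hg
  refine ⟨zf, hzf, zg, hzg, ?_, mf, mg⟩
  have hU : UniqueAdd f.coeff.support g.coeff.support zf zg := by
    intro a b ha hb hab
    have h1 : κ a + κ b = κ zf + κ zg := by rw [← hadd, ← hadd, hab]
    have h2 : κ a = κ zf := by
      rcases (mf a ha).lt_or_eq with h | h
      · exact absurd h1 (add_lt_add_of_lt_of_le h (mg b hb)).ne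
      · exact h
    have h3 : κ b = κ zg := by
      rw [h2] at h1
      exact add_left_cancel h1
    exact ⟨hinj h2, hinj h3⟩
  rw [Finsupp.mem_support_iff] at hzf hzg ⊢
  rw [AddMonoidAlgebra.coeff_mul_add_of_uniqueAdd hU]
  exact mul_ne_zero hzf hzg

/-- the key -/
private def WiA_key (c d : ℤ) (z : ℤ × ℤ) : ℤ ×ₗ (ℤ ×ₗ ℤ) :=
  toLex (c * z.1 + d * z.2, toLex (z.1, z.2))

private theorem WiA_key_add (c d : ℤ) (z w : ℤ × ℤ) :
    WiA_key c d (z + w) = WiA_key c d z + WiA_key c d w := by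
  have h : c * (z + w).1 + d * (z + w).2 = (c * z.1 + d * z.2) + (c * w.1 + d * w.2) := by
    rw [Prod.fst_add, Prod.snd_add]
    ring
  unfold WiA_key
  rw [h]
  rfl

private theorem WiA_key_inj (c d : ℤ) : Function.Injective (WiA_key c d) := by
  intro z w h
  unfold WiA_key at h
  have h1 := toLex.injective h
  have h2 := toLex.injective (Prod.mk.inj h1).2
  exact Prod.ext (Prod.mk.inj h2).1 (Prod.mk.inj h2).2

private theorem WiA_key_le {c d : ℤ} {z w : ℤ × ℤ} (h : WiA_key c d z ≤ WiA_key c d w) :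
    c * z.1 + d * z.2 ≤ c * w.1 + d * w.2 :=
  (Prod.Lex.toLex_le_toLex'.1 h).1

theorem width {k : Type} [Field k] {f g : AddMonoidAlgebra k (ℤ × ℤ)} (hg : g ≠ 0) (c d : ℤ)
    {z₁ z₂ : ℤ × ℤ} (h₁ : z₁ ∈ f.coeff.support) (h₂ : z₂ ∈ f.coeff.support) :
    ∃ w₁ ∈ (f * g).coeff.support, ∃ w₂ ∈ (f * g).coeff.support,
      (c * z₁.1 + d * z₁.2) - (c * z₂.1 + d * z₂.2) ≤
        (c * w₁.1 + d * w₁.2) - (c * w₂.1 + d * w₂.2) := by
  have hf' : f.coeff.support.Nonempty := ⟨z₁, h₁⟩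
  have hg' : g.coeff.support.Nonempty := by
    rw [Finsupp.support_nonempty_iff, ne_eq, AddMonoidAlgebra.coeff_eq_zero]
    exact hg
  obtain ⟨zf, hzf, zg, hzg, hm, mf, mg⟩ := WiA_max (WiA_key c d) (WiA_key_add c d)
    (WiA_key_inj c d) hf' hg'
  obtain ⟨yf, hyf, yg, hyg, hm', mf', mg'⟩ := WiA_max (fun z => WiA_key c d (-z))
    (fun z w => by rw [neg_add, WiA_key_add]) ((WiA_key_inj c d).comp neg_injective) hf' hg'
  refine ⟨zf + zg, hm, yf + yg, hm', ?_⟩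
  have e1 := WiA_key_le (mf z₁ h₁)
  have e2 := WiA_key_le (mf' z₂ h₂)
  have e3 := WiA_key_le (mg yg hyg)
  simp only [Prod.fst_neg, Prod.snd_neg, Prod.fst_add, Prod.snd_add] at e1 e2 e3 ⊢
  linarith

end Pool.Agent.H28.IP
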