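/-
ROW BoxA. The bound for the matrix.
PROOF. Let `f̄ = red p f`, `h̄ = red p h`. By red_span `red p (act m h) = f̄ * g`. `red p (act m h)` has
coefficient `h̄.coeff z` at `actz m z` and every exponent of its support is `actz m z` with `z ∈ supp h̄`
(`actz m` is injective as `dt m ≠ 0`: `AddMonoidAlgebra.mapDomain`, `Finsupp.mapDomain_apply`; act_mo; or prove by
lam_ind that the support of `act m h`… ), it is `≠ 0` because `h̄ ≠ 0` (red_ne). So `g ≠ 0`.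
Put `ℓ₁ (X, Y) = m₄ X - m₃ Y`, `ℓ₂ (X, Y) = -m₂ X + m₁ Y`; `ℓ₁ (actz m z) = dt m * z.1`, `ℓ₂ (actz m z) = dt m * z.2`.
For `w₁, w₂` in the support of `red p (act m h)`: `|ℓ_k w₁ - ℓ_k w₂| ≤ 2H`. By `width` (row WiA), for `z, z'` in the
support of `f̄`: `|ℓ_k z - ℓ_k z'| ≤ 2H` (apply it to `(z, z')` and `(z', z)`). Let `z₁, z₂, z₃` be the points of NC3
(they are in the support of `f̄`: red_coeff), `u = z₂ - z₁`, `v = z₃ - z₁`, `D = u₁ v₂ - u₂ v₁ ≠ 0`, and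
`|u_k|, |v_k| ≤ 2F`. `m₄ D = (m₄ u₁ - m₃ u₂) v₂ - (m₄ v₁ - m₃ v₂) u₂`, so `|m₄| ≤ |m₄ D| ≤ 2H·2F + 2H·2F = 8FH`.
`m₃ D = (m₄ u₁ - m₃ u₂) v₁ - (m₄ v₁ - m₃ v₂) u₁`, `-m₂ D = (-m₂ u₁ + m₁ u₂) v₂ - (-m₂ v₁ + m₁ v₂) u₂`,
`-m₁ D = (-m₂ u₁ + m₁ u₂) v₁ - (-m₂ v₁ + m₁ v₂) u₁`: the same bounds.
-/
import Pool.Agent.H28.IP.WiA
import Pool.Agent.H28.IP.RdA
import Pool.Agent.H28.IP.ChB

set_option autoImplicit false

namespace Pool.Agent.H28.IP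

theorem BoxA_act (m : ℤ × ℤ × ℤ × ℤ) (h : Lam) :
    (act m h).coeff = Finsupp.mapDomain (actz m) h.coeff := rfl

theorem BoxA_l1 (m : ℤ × ℤ × ℤ × ℤ) (z : ℤ × ℤ) :
    m.2.2.2 * (actz m z).1 + -m.2.2.1 * (actz m z).2 = dt m * z.1 := by
  simp only [actz, dt]
  ring

theorem BoxA_l2 (m : ℤ × ℤ × ℤ × ℤ) (z : ℤ × ℤ) :
    -m.2.1 * (actz m z).1 + m.1 * (actz m z).2 = dt m * z.2 := by
  simp only [actz, dt]
  ring

theorem BoxA_inj {m : ℤ × ℤ × ℤ × ℤ} (hm : dt m = 1 ∨ dt m = -1) :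
    Function.Injective (actz m) := by
  have hd : dt m ≠ 0 := by
    rcases hm with h | h <;> rw [h] <;> norm_num
  intro z w hzw
  have h1 := BoxA_l1 m z
  have h2 := BoxA_l2 m z
  rw [hzw] at h1 h2
  rw [BoxA_l1] at h1
  rw [BoxA_l2] at h2
  exact Prod.ext (mul_left_cancel₀ hd h1).symm (mul_left_cancel₀ hd h2).symm

/-- the algebra -/
theorem BoxA_alg {a A B D x y : ℤ} {F H : ℕ} (hD : D ≠ 0) (h : a * D = A * x - B * y)
    (hA : |A| ≤ 2 * (H : ℤ)) (hB : |B| ≤ 2 * (H : ℤ)) (hx : |x| ≤ 2 * (F : ℤ))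
    (hy : |y| ≤ 2 * (F : ℤ)) : |a| ≤ ((8 * F * H : ℕ) : ℤ) := by
  have h1 : |a| ≤ |a * D| := by
    rw [abs_mul]
    exact le_mul_of_one_le_right (abs_nonneg _) (Int.one_le_abs hD)
  have hH : (0 : ℤ) ≤ 2 * (H : ℤ) := by positivity
  have h2 : |A * x| ≤ 2 * (H : ℤ) * (2 * (F : ℤ)) := by
    rw [abs_mul]
    exact mul_le_mul hA hx (abs_nonneg _) hH
  have h3 : |B * y| ≤ 2 * (H : ℤ) * (2 * (F : ℤ)) := by
    rw [abs_mul]
    exact mul_le_mul hB hy (abs_nonneg _) hH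
  have h4 : |A * x - B * y| ≤ |A * x| + |B * y| := abs_sub _ _
  rw [h] at h1
  push_cast
  nlinarith

theorem box_bound {p : ℕ} (hp : p.Prime) {f h : Lam} {m : ℤ × ℤ × ℤ × ℤ} {F H : ℕ}
    (hF : ∀ z ∈ f.coeff.support, |z.1| ≤ (F : ℤ) ∧ |z.2| ≤ (F : ℤ))
    (hH : ∀ z ∈ h.coeff.support, |z.1| ≤ (H : ℤ) ∧ |z.2| ≤ (H : ℤ)) (hnc : NC3 p f)
    (hh : ∃ z, ¬ (p : ℤ) ∣ h.coeff z) (hm : dt m = 1 ∨ dt m = -1)
    (hmem : act m h ∈ Ideal.span {f, (p : Lam)}) :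
    (|m.1| ≤ ((8 * F * H : ℕ) : ℤ) ∧ |m.2.1| ≤ ((8 * F * H : ℕ) : ℤ)) ∧
      |m.2.2.1| ≤ ((8 * F * H : ℕ) : ℤ) ∧ |m.2.2.2| ≤ ((8 * F * H : ℕ) : ℤ) := by
  have : Fact p.Prime := ⟨hp⟩
  have hinj := BoxA_inj hm
  obtain ⟨g, hg⟩ := red_span.1 hmem
  have hne : red p (act m h) ≠ 0 := by
    rw [red_ne]
    obtain ⟨z, hz⟩ := hh
    refine ⟨actz m z, ?_⟩
    rw [BoxA_act, Finsupp.mapDomain_apply hinj]
    exact hz
  have hg0 : g ≠ 0 := by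
    rintro rfl
    rw [mul_zero] at hg
    exact hne hg
  have hsupp : ∀ w ∈ (red p f * g).coeff.support, ∃ z ∈ h.coeff.support, actz m z = w := by
    intro w hw
    rw [← hg, Finsupp.mem_support_iff, red_coeff] at hw
    have h1 : (act m h).coeff w ≠ 0 := by
      intro h0
      rw [h0] at hw
      exact hw (by simp)
    rw [BoxA_act] at h1
    have h2 := Finsupp.mapDomain_support (Finsupp.mem_support_iff.2 h1)
    rw [Finset.mem_image] at h2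
    exact h2
  have habs : ∀ x : ℤ, |dt m * x| = |x| := by
    intro x
    rcases hm with h | h <;> rw [h, abs_mul] <;> simp
  -- widths
  have W1 : ∀ z ∈ (red p f).coeff.support, ∀ z' ∈ (red p f).coeff.support,
      (m.2.2.2 * z.1 + -m.2.2.1 * z.2) - (m.2.2.2 * z'.1 + -m.2.2.1 * z'.2) ≤ 2 * (H : ℤ) := by
    intro z hz z' hz'
    obtain ⟨w1, hw1, w2, hw2, hle⟩ := width hg0 m.2.2.2 (-m.2.2.1) hz hz'
    obtain ⟨y1, hy1, rfl⟩ := hsupp w1 hw1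
    obtain ⟨y2, hy2, rfl⟩ := hsupp w2 hw2
    rw [BoxA_l1, BoxA_l1] at hle
    have e1 := habs (y1.1 - y2.1)
    rw [mul_sub] at e1
    have e2 := le_abs_self (dt m * y1.1 - dt m * y2.1)
    have e3 : |y1.1 - y2.1| ≤ |y1.1| + |y2.1| := abs_sub _ _
    have e4 := (hH y1 hy1).1
    have e5 := (hH y2 hy2).1
    linarith
  have W2 : ∀ z ∈ (red p f).coeff.support, ∀ z' ∈ (red p f).coeff.support,
      (-m.2.1 * z.1 + m.1 * z.2) - (-m.2.1 * z'.1 + m.1 * z'.2) ≤ 2 * (H : ℤ) := by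
    intro z hz z' hz'
    obtain ⟨w1, hw1, w2, hw2, hle⟩ := width hg0 (-m.2.1) m.1 hz hz'
    obtain ⟨y1, hy1, rfl⟩ := hsupp w1 hw1
    obtain ⟨y2, hy2, rfl⟩ := hsupp w2 hw2
    rw [BoxA_l2, BoxA_l2] at hle
    have e1 := habs (y1.2 - y2.2)
    rw [mul_sub] at e1
    have e2 := le_abs_self (dt m * y1.2 - dt m * y2.2)
    have e3 : |y1.2 - y2.2| ≤ |y1.2| + |y2.2| := abs_sub _ _
    have e4 := (hH y1 hy1).2
    have e5 := (hH y2 hy2).2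
    linarith
  obtain ⟨z1, z2, z3, n1, n2, n3, hD⟩ := hnc
  have hmem' : ∀ z : ℤ × ℤ, ¬ (p : ℤ) ∣ f.coeff z →
      z ∈ (red p f).coeff.support ∧ z ∈ f.coeff.support := by
    intro z hz
    constructor
    · rw [Finsupp.mem_support_iff, red_coeff]
      intro h0
      exact hz ((ZMod.intCast_zmod_eq_zero_iff_dvd _ _).1 h0)
    · rw [Finsupp.mem_support_iff]
      intro h0
      rw [h0] at hz
      exact hz (dvd_zero _)
  obtain ⟨r1, s1⟩ := hmem' z1 n1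
  obtain ⟨r2, s2⟩ := hmem' z2 n2
  obtain ⟨r3, s3⟩ := hmem' z3 n3
  have hD' : (z2.1 - z1.1) * (z3.2 - z1.2) - (z2.2 - z1.2) * (z3.1 - z1.1) ≠ 0 := sub_ne_zero.2 hD
  have bd : ∀ a b : ℤ, |a| ≤ (F : ℤ) → |b| ≤ (F : ℤ) → |a - b| ≤ 2 * (F : ℤ) := by
    intro a b ha hb
    have := abs_sub a b
    linarith
  have u1 := bd _ _ (hF z2 s2).1 (hF z1 s1).1
  have u2 := bd _ _ (hF z2 s2).2 (hF z1 s1).2
  have v1 := bd _ _ (hF z3 s3).1 (hF z1 s1).1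
  have v2 := bd _ _ (hF z3 s3).2 (hF z1 s1).2
  have A1 : |m.2.2.2 * (z2.1 - z1.1) - m.2.2.1 * (z2.2 - z1.2)| ≤ 2 * (H : ℤ) := by
    have a := W1 z2 r2 z1 r1
    have b := W1 z1 r1 z2 r2
    rw [abs_le]
    constructor <;> linarith
  have B1 : |m.2.2.2 * (z3.1 - z1.1) - m.2.2.1 * (z3.2 - z1.2)| ≤ 2 * (H : ℤ) := by
    have a := W1 z3 r3 z1 r1
    have b := W1 z1 r1 z3 r3
    rw [abs_le]
    constructor <;> linarith
  have A2 : |-m.2.1 * (z2.1 - z1.1) + m.1 * (z2.2 - z1.2)| ≤ 2 * (H : ℤ) := by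
    have a := W2 z2 r2 z1 r1
    have b := W2 z1 r1 z2 r2
    rw [abs_le]
    constructor <;> linarith
  have B2 : |-m.2.1 * (z3.1 - z1.1) + m.1 * (z3.2 - z1.2)| ≤ 2 * (H : ℤ) := by
    have a := W2 z3 r3 z1 r1
    have b := W2 z1 r1 z3 r3
    rw [abs_le]
    constructor <;> linarith
  have C1 : |-m.1| ≤ ((8 * F * H : ℕ) : ℤ) := by
    refine BoxA_alg hD' ?_ A2 B2 v1 u1
    ring
  have C2 : |-m.2.1| ≤ ((8 * F * H : ℕ) : ℤ) := by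
    refine BoxA_alg hD' ?_ A2 B2 v2 u2
    ring
  rw [abs_neg] at C1 C2
  refine ⟨⟨C1, C2⟩, ?_, ?_⟩
  · refine BoxA_alg hD' ?_ A1 B1 v1 u1
    ring
  · refine BoxA_alg hD' ?_ A1 B1 v2 u2
    ring

end Pool.Agent.H28.IP
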