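/-
ROW ChA. Change of generators modulo the derived subgroup. Write `x ≡ y` for `x * y⁻¹ ∈ commutator G`
(equality in the commutative group `Abelianization G`).
PROOF. By nf (row EvB) `a' ≡ a^m₁ b^m₂`, `b' ≡ a^m₃ b^m₄` and `a ≡ a'^n₁ b'^n₂`, `b ≡ a'^n₃ b'^n₄`.
Substituting: `a ≡ a^(m₁n₁+m₃n₂) b^(m₂n₁+m₄n₂)`, so by AbFree `m₁n₁+m₃n₂ = 1`, `m₂n₁+m₄n₂ = 0`, similarly
`m₁n₃+m₃n₄ = 0`, `m₂n₃+m₄n₄ = 1`. Hence `dt m * (n₁n₄ - n₂n₃) = 1` and `dt m = ±1` (`Int.eq_one_or_neg_one_of_mul_eq_one`-type).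
`AbFree a' b'`: if `a'^i b'^j ∈ commutator G` then `a^(m₁i+m₃j) b^(m₂i+m₄j) ∈ commutator G`, so
`m₁i+m₃j = 0 = m₂i+m₄j` and `dt m * i = 0 = dt m * j`. (Work in `Abelianization G`, a `CommGroup`,
with `Abelianization.of`, kernel `commutator G`.)
-/
import Pool.Agent.H28.IP.EvB

set_option autoImplicit false

namespace Pool.Agent.H28.IP

variable {G : Type} [Group G] [Metab G]

private theorem ChA_comb {A : Type} [CommGroup A] (x y : A) (p q r s i j : ℤ) :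
    (x ^ p * y ^ q) ^ i * (x ^ r * y ^ s) ^ j = x ^ (p * i + r * j) * y ^ (q * i + s * j) := by
  rw [mul_zpow, mul_zpow, ← zpow_mul, ← zpow_mul, ← zpow_mul, ← zpow_mul, zpow_add, zpow_add]
  exact mul_mul_mul_comm _ _ _ _

private theorem ChA_mem (g : G) : Abelianization.of g = 1 ↔ g ∈ commutator G := by
  rw [← Abelianization.ker_of, MonoidHom.mem_ker]

private theorem ChA_nf {a b : G} (hg : Gen2 a b) (g : G) : ∃ i j : ℤ,
    Abelianization.of g = Abelianization.of a ^ i * Abelianization.of b ^ j := by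
  obtain ⟨f, i, j, h⟩ := nf hg g
  refine ⟨i, j, ?_⟩
  rw [h, map_mul, (ChA_mem _).2 (ev_mem a b f), one_mul, map_mul, map_zpow, map_zpow]

theorem change {a b a' b' : G} (hg : Gen2 a b) (hg' : Gen2 a' b') (hf : AbFree a b) :
    AbFree a' b' ∧ ∃ m : ℤ × ℤ × ℤ × ℤ, (dt m = 1 ∨ dt m = -1) ∧
      a' * (a ^ m.1 * b ^ m.2.1)⁻¹ ∈ commutator G ∧
      b' * (a ^ m.2.2.1 * b ^ m.2.2.2)⁻¹ ∈ commutator G := by
  obtain ⟨m1, m2, ha'⟩ := ChA_nf hg a'
  obtain ⟨m3, m4, hb'⟩ := ChA_nf hg b'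
  obtain ⟨n1, n2, ha⟩ := ChA_nf hg' a
  obtain ⟨n3, n4, hb⟩ := ChA_nf hg' b
  have hfree : ∀ i j : ℤ, Abelianization.of a ^ i * Abelianization.of b ^ j = 1 →
      i = 0 ∧ j = 0 := by
    intro i j h
    apply hf i j
    rw [← ChA_mem, map_mul, map_zpow, map_zpow, h]
  rw [ha', hb', ChA_comb] at ha hb
  obtain ⟨e1, e2⟩ := hfree (m1 * n1 + m3 * n2 - 1) (m2 * n1 + m4 * n2) (by
    rw [zpow_sub_one, mul_assoc, mul_comm (Abelianization.of a)⁻¹, ← mul_assoc, ← ha,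
      mul_inv_cancel])
  obtain ⟨e3, e4⟩ := hfree (m1 * n3 + m3 * n4) (m2 * n3 + m4 * n4 - 1) (by
    rw [zpow_sub_one, ← mul_assoc, ← hb, mul_inv_cancel])
  have hdet : (m1 * m4 - m2 * m3) * (n1 * n4 - n2 * n3) = 1 := by
    have f1 : m1 * n1 + m3 * n2 = 1 := by linarith
    have f4 : m2 * n3 + m4 * n4 = 1 := by linarith
    calc (m1 * m4 - m2 * m3) * (n1 * n4 - n2 * n3)
        = (m1 * n1 + m3 * n2) * (m2 * n3 + m4 * n4) -
          (m2 * n1 + m4 * n2) * (m1 * n3 + m3 * n4) := by ring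
      _ = 1 := by rw [f1, f4, e2, e3]; ring
  have hd : (m1 * m4 - m2 * m3) = 1 ∨ (m1 * m4 - m2 * m3) = -1 :=
    Int.eq_one_or_neg_one_of_mul_eq_one hdet
  refine ⟨?_, (m1, m2, m3, m4), hd, ?_, ?_⟩
  · intro i j h
    rw [← ChA_mem, map_mul, map_zpow, map_zpow, ha', hb', ChA_comb] at h
    obtain ⟨g1, g2⟩ := hfree _ _ h
    have hne : (m1 * m4 - m2 * m3) ≠ 0 := by
      rcases hd with h | h <;> rw [h] <;> norm_num
    constructor
    · have : (m1 * m4 - m2 * m3) * i = 0 := by linear_combination m4 * g1 - m3 * g2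
      exact (mul_eq_zero.1 this).resolve_left hne
    · have : (m1 * m4 - m2 * m3) * j = 0 := by linear_combination m1 * g2 - m2 * g1
      exact (mul_eq_zero.1 this).resolve_left hne
  · rw [← ChA_mem, map_mul, map_inv, map_mul, map_zpow, map_zpow, ha']
    exact mul_inv_cancel _
  · rw [← ChA_mem, map_mul, map_inv, map_mul, map_zpow, map_zpow, hb']
    exact mul_inv_cancel _

end Pool.Agent.H28.IP
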