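/-
ROW CmF. The commutation formula. Write `E f = ev a b f`, `X = mo (1,0)`, `Y = mo (0,1)`;
`((XL ^ k : Lamˣ) : Lam) = mo (k, 0)`, `((YL ^ k : Lamˣ) : Lam) = mo (0, k)` for `k : ℤ` (pow_XL, pow_YL:
integer induction).
PROOF. (1) `b^j * a * b^(-j) * a⁻¹ = E (-(geo YL j))`: integer induction on `j`. `j = 0`: geo_zero.
Step: with `F j = b^j a b^(-j) a⁻¹`: `F (j+1) = b^j (b a b⁻¹ a⁻¹) b^(-j) · F j` because
`b^(j+1) a b^(-j-1) a⁻¹ = b^j (b a b⁻¹ a⁻¹) b^(-j) · b^j a b^(-j) a⁻¹` (group), and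
`b a b⁻¹ a⁻¹ = (a b a⁻¹ b⁻¹)⁻¹ = E (-1)`, so (ev_conj with `i = 0`) `F (j+1) = E (-(mo (0,j))) E (-(geo YL j))
= E (-(geo YL (j+1)))` (geo_succ). The downward step: solve the same identity for `F j`.
(2) `b^j * a^k * b^(-j) * a^(-k) = E (-(geo YL j * geo XL k))`: integer induction on `k`:
`b^j a^(k+1) b^(-j) a^(-k-1) = (b^j a^k b^(-j) a^(-k)) · a^k (b^j a b^(-j) a⁻¹) a^(-k)` and
`a^k E(f) a^(-k) = E (mo (k,0) * f)` (ev_conj with `j = 0`), `geo XL (k+1) = geo XL k + mo (k,0)`.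
(3) `(a^i b^j) (a^k b^l) = a^i (b^j a^k b^(-j) a^(-k)) a^(-i) · a^(i+k) b^(j+l)` and
`a^i E(f) a^(-i) = E (mo (i,0) * f)`.
-/
import Pool.Agent.H28.IP.EvA

set_option autoImplicit false

namespace Pool.Agent.H28.IP

theorem pow_XL (k : ℤ) : ((XL ^ k : Lamˣ) : Lam) = mo (k, 0) := by
  induction k using Int.induction_on with
  | zero => rw [zpow_zero, Units.val_one]; exact mo_zero.symm
  | succ i ih =>
    have h1 : (((i : ℤ) + 1, (0 : ℤ)) : ℤ × ℤ) = ((i : ℤ), 0) + (1, 0) := by simp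
    have h2 : ((XL : Lamˣ) : Lam) = mo (1, 0) := rfl
    rw [zpow_add_one, Units.val_mul, ih, h1, mo_add, h2]
  | pred i ih =>
    have h1 : ((-(i : ℤ) - 1, (0 : ℤ)) : ℤ × ℤ) = (-(i : ℤ), 0) + (-1, 0) := by simp [sub_eq_add_neg]
    have h2 : ((XL⁻¹ : Lamˣ) : Lam) = mo (-1, 0) := rfl
    rw [zpow_sub_one, Units.val_mul, ih, h1, mo_add, h2]

theorem pow_YL (k : ℤ) : ((YL ^ k : Lamˣ) : Lam) = mo (0, k) := by
  induction k using Int.induction_on with
  | zero => rw [zpow_zero, Units.val_one]; exact mo_zero.symm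
  | succ i ih =>
    have h1 : (((0 : ℤ), (i : ℤ) + 1) : ℤ × ℤ) = (0, (i : ℤ)) + (0, 1) := by simp
    have h2 : ((YL : Lamˣ) : Lam) = mo (0, 1) := rfl
    rw [zpow_add_one, Units.val_mul, ih, h1, mo_add, h2]
  | pred i ih =>
    have h1 : (((0 : ℤ), -(i : ℤ) - 1) : ℤ × ℤ) = (0, -(i : ℤ)) + (0, -1) := by simp [sub_eq_add_neg]
    have h2 : ((YL⁻¹ : Lamˣ) : Lam) = mo (0, -1) := rfl
    rw [zpow_sub_one, Units.val_mul, ih, h1, mo_add, h2]

private theorem CmF_rec {G : Type} [Group G] {F H c : ℤ → G} (h0 : F 0 = H 0)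
    (hF : ∀ j, F (j + 1) = F j * c j) (hH : ∀ j, H (j + 1) = H j * c j) (j : ℤ) : F j = H j := by
  induction j using Int.induction_on with
  | zero => exact h0
  | succ i ih => rw [hF, hH, ih]
  | pred i ih =>
    have h1 := hF (-(i : ℤ) - 1)
    have h2 := hH (-(i : ℤ) - 1)
    rw [sub_add_cancel] at h1 h2
    rw [ih, h2] at h1
    exact (mul_right_cancel h1).symm

variable {G : Type} [Group G] [Metab G]

private theorem CmF_conjb (a b : G) (j : ℤ) (f : Lam) :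
    b ^ j * ev a b f * (b ^ j)⁻¹ = ev a b (mo (0, j) * f) := by
  have := ev_conj a b 0 j f
  rwa [zpow_zero, one_mul] at this

private theorem CmF_conja (a b : G) (i : ℤ) (f : Lam) :
    a ^ i * ev a b f * (a ^ i)⁻¹ = ev a b (mo (i, 0) * f) := by
  have := ev_conj a b i 0 f
  rwa [zpow_zero, mul_one] at this

private theorem CmF_cc (a b : G) (f g : Lam) : ev a b f * ev a b g = ev a b g * ev a b f :=
  Metab.comm _ (ev_mem a b f) _ (ev_mem a b g)

private theorem CmF_one (a b : G) (j : ℤ) :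
    b ^ j * a * (b ^ j)⁻¹ * a⁻¹ = ev a b (-(geo YL j)) := by
  refine CmF_rec (F := fun j => b ^ j * a * (b ^ j)⁻¹ * a⁻¹) (H := fun j => ev a b (-(geo YL j)))
    (c := fun j => (b ^ j * a * (b ^ j)⁻¹ * a⁻¹)⁻¹ * ev a b (mo (0, j) * (-1)) *
      (b ^ j * a * (b ^ j)⁻¹ * a⁻¹)) ?_ ?_ ?_ j
  · simp only [geo_zero, neg_zero, ev_zero]
    group
  · intro j
    rw [← CmF_conjb, ev_neg, ev_one, zpow_add_one]
    group
  · intro j
    have h1 : (b ^ j * a * (b ^ j)⁻¹ * a⁻¹) ∈ commutator G := by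
      have := Subgroup.commutator_mem_commutator (Subgroup.mem_top (b ^ j)) (Subgroup.mem_top a)
      rwa [commutatorElement_def] at this
    have h2 := Metab.comm _ (ev_mem a b (mo (0, j) * (-1))) _ h1
    rw [mul_assoc (_⁻¹), h2, inv_mul_cancel_left, ← ev_add, geo_succ, pow_YL]
    congr 1
    ring

private theorem CmF_two (a b : G) (j k : ℤ) :
    b ^ j * a ^ k * (b ^ j)⁻¹ * (a ^ k)⁻¹ = ev a b (-(geo YL j * geo XL k)) := by
  refine CmF_rec (F := fun k => b ^ j * a ^ k * (b ^ j)⁻¹ * (a ^ k)⁻¹)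
    (H := fun k => ev a b (-(geo YL j * geo XL k)))
    (c := fun k => ev a b (mo (k, 0) * -(geo YL j))) ?_ ?_ ?_ k
  · simp only [geo_zero, mul_zero, neg_zero, ev_zero, zpow_zero]
    group
  · intro k
    rw [← CmF_conja, ← CmF_one, zpow_add_one]
    group
  · intro k
    rw [← ev_add, geo_succ, pow_XL]
    congr 1
    ring

theorem comm_formula {G : Type} [Group G] [Metab G] (a b : G) (i j k l : ℤ) :
    (a ^ i * b ^ j) * (a ^ k * b ^ l) =
      ev a b (-(mo (i, 0) * geo YL j * geo XL k)) * (a ^ (i + k) * b ^ (j + l)) := by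
  have h1 : ev a b (-(mo (i, 0) * geo YL j * geo XL k)) =
      a ^ i * (b ^ j * a ^ k * (b ^ j)⁻¹ * (a ^ k)⁻¹) * (a ^ i)⁻¹ := by
    rw [CmF_two, CmF_conja]
    congr 1
    ring
  rw [h1, zpow_add, zpow_add]
  group

end Pool.Agent.H28.IP
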