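/-
ROW Cmf. Common factor of an ideal of polynomials over a UFD. `K = FractionRing R`.
PROOF. let `J' = J.map (mapRingHom (algebraMap R K))`. If `J' = ⊤` then clearing denominators in an
  expression `1 = ∑ (…)` gives `C d ∈ J` with `d ≠ 0` (`IsLocalization.mem_map_algebraMap_iff` for the
  localization `R[X] → K[X]` at the nonzero constants, `Polynomial.isLocalization`): contradiction to `h0`.
  `J' ≠ ⊥`. `J' = (g)` (PID), `g` not a unit, `≠ 0`; let `π` be an irreducible factor of `g`; clearing
  denominators and dividing by the content gives a primitive `F ∈ R[X]` associated to `π` in `K[X]`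
  (`IsLocalization.integerNormalization`, `primPart`); `F` is irreducible in `R[X]` (same iff) hence prime,
  of degree `natDegree π > 0`. For `G ∈ J`: `F ∣ G` in `K[X]`, so `F ∣ G` by dvd_of_map.
(dvd_of_map is in row Bez.)
-/
import Pool.Agent.H28.IP.Bez

set_option autoImplicit false

namespace Pool.Agent.H28.IP

open Polynomial

variable {R : Type} [CommRing R] [IsDomain R] [UniqueFactorizationMonoid R]

theorem Cmf_dvd {J : Ideal R[X]} {H : R[X]} (hH : H ∈ J) (h0 : H ≠ 0)
    (hmin : ∀ G ∈ J, G ≠ 0 → H.degree ≤ G.degree) {G : R[X]} (hG : G ∈ J) :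
    H.map (algebraMap R (FractionRing R)) ∣ G.map (algebraMap R (FractionRing R)) := by
  have hinj : Function.Injective (algebraMap R (FractionRing R)) := IsFractionRing.injective _ _
  have hH' : H.map (algebraMap R (FractionRing R)) ≠ 0 := by
    rwa [Ne, Polynomial.map_eq_zero_iff hinj]
  obtain ⟨b, hb, hq⟩ := IsLocalization.integerNormalization_spec (nonZeroDivisors R)
    (G.map (algebraMap R (FractionRing R)) / H.map (algebraMap R (FractionRing R)))
  have hb0 : b ≠ 0 := nonZeroDivisors.ne_zero hb
  obtain ⟨q, hqq⟩ : ∃ q, q = IsLocalization.integerNormalization (nonZeroDivisors R)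
    (G.map (algebraMap R (FractionRing R)) / H.map (algebraMap R (FractionRing R))) := ⟨_, rfl⟩
  rw [← hqq] at hq
  have hr : C b * G - H * q ∈ J := J.sub_mem (J.mul_mem_left _ hG) (J.mul_mem_right _ hH)
  have hmap : (C b * G - H * q).map (algebraMap R (FractionRing R)) =
      C (algebraMap R (FractionRing R) b) *
      (G.map (algebraMap R (FractionRing R)) % H.map (algebraMap R (FractionRing R))) := by
    have := EuclideanDomain.div_add_mod (G.map (algebraMap R (FractionRing R)))
      (H.map (algebraMap R (FractionRing R)))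
    rw [Polynomial.map_sub, Polynomial.map_mul, Polynomial.map_mul, map_C, hq, Algebra.smul_def,
      Polynomial.algebraMap_apply]
    linear_combination (-1 : (FractionRing R)[X]) * C (algebraMap R (FractionRing R) b) * this
  have hdeg : (C b * G - H * q).degree < H.degree := by
    rw [← Polynomial.degree_map_eq_of_injective hinj, hmap]
    rw [Polynomial.degree_C_mul (by rw [Ne, map_eq_zero_iff _ hinj]; exact hb0)]
    rw [← Polynomial.degree_map_eq_of_injective hinj H]
    exact EuclideanDomain.mod_lt _ hH'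
  have hz : C b * G - H * q = 0 := by
    by_contra hne
    exact absurd (hmin _ hr hne) (not_le.2 hdeg)
  rw [hz, Polynomial.map_zero] at hmap
  have hc : C (algebraMap R (FractionRing R) b) ≠ 0 := by
    rw [Ne, C_eq_zero, map_eq_zero_iff _ hinj]
    exact hb0
  have hm := (mul_eq_zero.1 hmap.symm).resolve_left hc
  exact (EuclideanDomain.mod_eq_zero).1 hm

theorem common_factor {J : Ideal R[X]} (hJ : J ≠ ⊥) (h0 : ∀ d : R, C d ∈ J → d = 0) :
    ∃ F : R[X], Prime F ∧ 0 < F.natDegree ∧ ∀ G ∈ J, F ∣ G := by
  classical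
  have hinj : Function.Injective (algebraMap R (FractionRing R)) := IsFractionRing.injective _ _
  letI : NormalizedGCDMonoid R := Classical.choice inferInstance
  obtain ⟨G₀, hG₀, hG₀'⟩ := Submodule.exists_mem_ne_zero_of_ne_bot hJ
  have hex : ∃ k : ℕ, ∃ G ∈ J, G ≠ 0 ∧ G.natDegree = k := ⟨_, G₀, hG₀, hG₀', rfl⟩
  obtain ⟨H, hH, hH0, hHk⟩ := Nat.find_spec hex
  have hmin : ∀ G ∈ J, G ≠ 0 → H.degree ≤ G.degree := by
    intro G hG hG0
    rw [Polynomial.degree_eq_natDegree hH0, Polynomial.degree_eq_natDegree hG0, hHk]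
    exact_mod_cast Nat.find_min' hex ⟨G, hG, hG0, rfl⟩
  have hHdeg : 0 < H.natDegree := by
    rcases Nat.eq_zero_or_pos H.natDegree with h | h
    · exfalso
      rw [Polynomial.eq_C_of_natDegree_eq_zero h] at hH hH0
      exact hH0 (by rw [h0 _ hH, C_0])
    · exact h
  have hPdvd : ∀ G ∈ J, H.primPart ∣ G := by
    intro G hG
    refine (Polynomial.isPrimitive_primPart H).dvd_of_fraction_map_dvd_fraction_map
      (K := FractionRing R) ?_
    refine dvd_trans ?_ (Cmf_dvd hH hH0 hmin hG)
    conv_rhs => rw [H.eq_C_content_mul_primPart]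
    rw [Polynomial.map_mul]
    exact dvd_mul_left _ _
  have hPdeg : 0 < H.primPart.natDegree := by rwa [Polynomial.natDegree_primPart]
  have hPu : ¬ IsUnit H.primPart := fun hu => by
    rw [Polynomial.natDegree_eq_zero_of_isUnit hu] at hPdeg
    exact lt_irrefl _ hPdeg
  obtain ⟨F, hF, hFP⟩ := WfDvdMonoid.exists_irreducible_factor hPu
    (Polynomial.isPrimitive_primPart H).ne_zero
  refine ⟨F, hF.prime, ?_, fun G hG => hFP.trans (hPdvd G hG)⟩
  rcases Nat.eq_zero_or_pos F.natDegree with h | h
  · exfalso
    rw [Polynomial.eq_C_of_natDegree_eq_zero h] at hFP hF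
    exact hF.not_isUnit (((Polynomial.isPrimitive_primPart H) _ hFP).map C)
  · exact h

end Pool.Agent.H28.IP
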