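/-
ROW DfA. A finitely generated subgroup of `G' ⟨b₀⟩` meets `G'` in a finite set modulo `P`.
Notation: `b₀ = a^u * b^v`, `E f = ev a b f`, `π = Ideal.Quotient.mk P : Lam → D = Lam ⧸ P`, `β = π (mo (u, v))`, so
`β ^ n = 1` (`mo (n u, n v) = mo (u, v) ^ n`).
PROOF. `b₀ ^ k * E f * b₀ ^ (-k) = E (mo (k u, k v) * f)` for `k : ℤ` (ev_conj, induction on `k`). Let `S` be a finite
generating set of `H`; for `s ∈ S` write `s = E (f_s) * b₀ ^ (k_s)`. Let `V ≤ D` be the additive subgroup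
generated by the finite set `{β ^ q * π (f_s) | s ∈ S, 0 ≤ q < n}`; it is finite: finitely generated and killed
by `p ≥ 1` (`(p : Lam) ∈ P`; `AddCommGroup.finite_of_fg_torsion`). `β * V ⊆ V`, so `β^k V ⊆ V` for all `k : ℤ`
(`β ^ (-1) = β ^ (n-1)`).
(1) every `h ∈ H` is `E f * b₀ ^ k` with `π f ∈ V` (closure induction: product
`(E f b₀^k)(E f' b₀^l) = E (f + mo (k u, k v) f') b₀^(k+l)`; inverse `(E f b₀^k)⁻¹ = E (-(mo (-k u, -k v) f)) b₀^(-k)`).
(2) Let `K = {k : ℤ | ∃ g, E g = b₀ ^ k}`, an additive subgroup of `ℤ`, so `K = k₀ ℤ` (`Int.subgroup_cyclic`,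
`AddSubgroup` of `ℤ` is `zmultiples`); let `E g₀ = b₀ ^ k₀`. If `E g = b₀ ^ (k₀ l)` then
`E (g - l • g₀) = 1` so `g - l • g₀ ∈ Ann a b ≤ P` and `π g = l • π g₀`. So
`C = {π g | ∃ k, E g = b₀ ^ k} ⊆ {l • π g₀ | l : ℤ}`, finite (`p • π g₀ = 0`).
(3) If `E g ∈ H` then by (1) `E g = E f * b₀ ^ k`, `π f ∈ V`, so `E (g - f) = b₀ ^ k` and `π g ∈ V + C`. The set
`V + C` is finite.
-/
import Pool.Agent.H28.IP.EvB

set_option autoImplicit false

namespace Pool.Agent.H28.IP

theorem DfA_conj {G : Type} [Group G] [Metab G] (a b : G) (u v k : ℤ) (f : Lam) :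
    (a ^ u * b ^ v) ^ k * ev a b f * ((a ^ u * b ^ v) ^ k)⁻¹ = ev a b (mo (k * u, k * v) * f) := by
  induction k using Int.induction_on generalizing f with
  | zero =>
    have : (((0 : ℤ) * u, (0 : ℤ) * v) : ℤ × ℤ) = 0 := by ext <;> simp
    rw [this, mo_zero, one_mul]
    simp
  | succ i ih =>
    have e : ((((i : ℤ) + 1) * u, ((i : ℤ) + 1) * v) : ℤ × ℤ) =
        ((i : ℤ) * u, (i : ℤ) * v) + (u, v) := by ext <;> simp <;> ring
    rw [e, mo_add, mul_assoc (mo _) (mo _) f, ← ih, ← ev_conj, zpow_add_one]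
    group
  | pred i ih =>
    have e : (((-(i : ℤ) - 1) * u, (-(i : ℤ) - 1) * v) : ℤ × ℤ) =
        (-(i : ℤ) * u, -(i : ℤ) * v) + (-u, -v) := by ext <;> simp <;> ring
    have h1 : (a ^ u * b ^ v)⁻¹ * ev a b f * (a ^ u * b ^ v) = ev a b (mo (-u, -v) * f) := by
      have h2 := ev_conj a b u v (mo (-u, -v) * f)
      have e2 : mo (u, v) * (mo (-u, -v) * f) = f := by
        rw [← mul_assoc, ← mo_add]
        have : ((u, v) + (-u, -v) : ℤ × ℤ) = 0 := by ext <;> simp
        rw [this, mo_zero, one_mul]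
      rw [e2] at h2
      rw [← h2]
      group
    rw [e, mo_add, mul_assoc (mo _) (mo _) f, ← ih, ← h1, zpow_sub_one]
    generalize a ^ u * b ^ v = c
    generalize ev a b f = w
    rw [mul_inv_rev, inv_inv]
    simp only [mul_assoc]

theorem DfA_fin {D : Type} [CommRing D] {p : ℕ} (hp : 1 ≤ p) (hpD : (p : D) = 0) {T : Set D}
    (hT : T.Finite) : (Submodule.span ℤ T : Set D).Finite := by
  have hfin : Module.Finite ℤ (Submodule.span ℤ T) := Module.Finite.span_of_finite ℤ hT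
  have hfg : AddGroup.FG (Submodule.span ℤ T) := Module.Finite.iff_addGroup_fg.mp hfin
  have htor : IsAddTorsion (Submodule.span ℤ T) := by
    intro x
    rw [isOfFinAddOrder_iff_nsmul_eq_zero]
    refine ⟨p, hp, ?_⟩
    apply Subtype.ext
    simp [hpD]
  have := AddCommGroup.finite_of_fg_isAddTorsion (Submodule.span ℤ T) htor
  exact Set.toFinite _

theorem meet_fin {G : Type} [Group G] [Metab G] {a b : G} {P : Ideal Lam} (hP : Ann a b ≤ P) {p : ℕ}
    (hp : 1 ≤ p) (hpP : (p : Lam) ∈ P) {u v : ℤ} {n : ℕ} (hn : 1 ≤ n)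
    (huv : mo (n * u, n * v) - 1 ∈ P) {H : Subgroup G} (hH : H.FG)
    (hHb : ∀ h ∈ H, ∃ (f : Lam) (k : ℤ), h = ev a b f * (a ^ u * b ^ v) ^ k) :
    (Ideal.Quotient.mk P '' {f | ev a b f ∈ H}).Finite := by
  classical
  have hpD : (p : Lam ⧸ P) = 0 := by
    have := Ideal.Quotient.eq_zero_iff_mem.mpr hpP
    simpa using this
  obtain ⟨S, hS⟩ := hH
  have hSH : ∀ s ∈ S, s ∈ H := fun s hs => hS ▸ Subgroup.subset_closure hs
  -- the character of exponents
  let χ : ℤ → Lam ⧸ P := fun k => Ideal.Quotient.mk P (mo (k * u, k * v))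
  have χadd : ∀ k l, χ (k + l) = χ k * χ l := by
    intro k l
    show Ideal.Quotient.mk P _ = _ * _
    rw [← map_mul, ← mo_add]
    congr 2
    ext <;> simp <;> ring
  have χ0 : χ 0 = 1 := by
    show Ideal.Quotient.mk P _ = 1
    have : (((0 : ℤ) * u, (0 : ℤ) * v) : ℤ × ℤ) = 0 := by ext <;> simp
    rw [this, mo_zero, map_one]
  have χn : χ n = 1 := by
    show Ideal.Quotient.mk P _ = 1
    rw [← map_one (Ideal.Quotient.mk P)]
    exact (Ideal.Quotient.eq).mpr huv
  have χnn : χ (-n) = 1 := by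
    have h1 := χadd n (-n)
    rw [add_neg_cancel, χ0, χn, one_mul] at h1
    exact h1.symm
  have χnq : ∀ q : ℤ, χ (n * q) = 1 := by
    intro q
    induction q using Int.induction_on with
    | zero => rw [mul_zero, χ0]
    | succ i ih => rw [mul_add, mul_one, χadd, ih, χn, one_mul]
    | pred i ih => rw [mul_sub, mul_one, sub_eq_add_neg, χadd, ih, χnn, one_mul]
  have χmod : ∀ k : ℤ, χ k = χ (k % n) := by
    intro k
    have h1 := χadd (k % n) (n * (k / n))
    rw [Int.emod_add_mul_ediv, χnq, mul_one] at h1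
    exact h1
  choose! F K hFK using fun s (hs : s ∈ S) => hHb s (hSH s hs)
  let T : Set (Lam ⧸ P) := {x | ∃ s ∈ S, ∃ k : ℤ, x = χ k * Ideal.Quotient.mk P (F s)}
  have hT : T.Finite := by
    have h1 : T ⊆ (fun z : G × ℕ => χ z.2 * Ideal.Quotient.mk P (F z.1)) ''
        ((S ×ˢ Finset.range n : Finset (G × ℕ)) : Set (G × ℕ)) := by
      rintro x ⟨s, hs, k, rfl⟩
      have hn0 : (0 : ℤ) < n := by exact_mod_cast hn
      have h2 := Int.emod_nonneg k hn0.ne'
      have h3 := Int.emod_lt_of_pos k hn0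
      refine ⟨(s, (k % n).toNat), ?_, ?_⟩
      · simp only [Finset.coe_product, Set.mem_prod, Finset.mem_coe, Finset.mem_range]
        exact ⟨hs, by omega⟩
      · show χ ((k % n).toNat : ℤ) * _ = _
        rw [Int.toNat_of_nonneg h2, ← χmod]
    exact ((Finset.finite_toSet _).image _).subset h1
  let V : Submodule ℤ (Lam ⧸ P) := Submodule.span ℤ T
  have hV : (V : Set (Lam ⧸ P)).Finite := DfA_fin hp hpD hT
  have hVχ : ∀ (k : ℤ) (x : Lam ⧸ P), x ∈ V → χ k * x ∈ V := by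
    intro k x hx
    induction hx using Submodule.span_induction with
    | mem y hy =>
      obtain ⟨s, hs, l, rfl⟩ := hy
      refine Submodule.subset_span ⟨s, hs, k + l, ?_⟩
      rw [χadd, mul_assoc]
    | zero => rw [mul_zero]; exact V.zero_mem
    | add y z _ _ hy hz => rw [mul_add]; exact V.add_mem hy hz
    | smul c y _ hy => rw [mul_smul_comm]; exact V.smul_mem c hy
  have h1 : ∀ h ∈ H, ∃ (f : Lam) (k : ℤ), h = ev a b f * (a ^ u * b ^ v) ^ k ∧
      Ideal.Quotient.mk P f ∈ V := by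
    intro h hh
    rw [← hS] at hh
    induction hh using Subgroup.closure_induction with
    | mem s hs =>
      refine ⟨F s, K s, hFK s hs, Submodule.subset_span ⟨s, hs, 0, ?_⟩⟩
      rw [χ0, one_mul]
    | one =>
      refine ⟨0, 0, ?_, ?_⟩
      · rw [ev_zero]; simp
      · rw [map_zero]; exact V.zero_mem
    | mul x y _ _ hx hy =>
      obtain ⟨f, k, rfl, hf⟩ := hx
      obtain ⟨f', l, rfl, hf'⟩ := hy
      refine ⟨f + mo (k * u, k * v) * f', k + l, ?_, ?_⟩
      · rw [ev_add, ← DfA_conj, zpow_add]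
        group
      · rw [map_add, map_mul]
        exact V.add_mem hf (hVχ k _ hf')
    | inv x _ hx =>
      obtain ⟨f, k, rfl, hf⟩ := hx
      refine ⟨mo (-k * u, -k * v) * (-f), -k, ?_, ?_⟩
      · rw [← DfA_conj, ev_neg, zpow_neg]
        group
      · have h5 : Ideal.Quotient.mk P (mo (-k * u, -k * v) * (-f)) =
            -(χ (-k) * Ideal.Quotient.mk P f) := by
          rw [mul_neg, map_neg, map_mul]
        rw [h5]
        exact V.neg_mem (hVχ (-k) _ hf)
  -- powers of `b₀` in the derived subgroup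
  let KK : AddSubgroup ℤ :=
    { carrier := {k | ∃ g : Lam, ev a b g = (a ^ u * b ^ v) ^ k}
      zero_mem' := ⟨0, by rw [ev_zero, zpow_zero]⟩
      add_mem' := by
        rintro k l ⟨g, hg⟩ ⟨g', hg'⟩
        exact ⟨g + g', by rw [ev_add, hg, hg', zpow_add]⟩
      neg_mem' := by
        rintro k ⟨g, hg⟩
        exact ⟨-g, by rw [ev_neg, hg, zpow_neg]⟩ }
  obtain ⟨k0, hk0⟩ := Int.subgroup_cyclic KK
  have hk0m : k0 ∈ KK := by rw [hk0]; exact AddSubgroup.subset_closure rfl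
  obtain ⟨g0, hg0⟩ := hk0m
  have hz : ∀ l : ℤ, ev a b (l • g0) = (ev a b g0) ^ l := by
    intro l
    induction l using Int.induction_on with
    | zero => rw [zero_smul, ev_zero, zpow_zero]
    | succ i ih => rw [add_smul, one_smul, ev_add, ih, zpow_add_one]
    | pred i ih => rw [sub_smul, one_smul, ev_sub, ih, zpow_sub_one]
  let C : Submodule ℤ (Lam ⧸ P) := Submodule.span ℤ {Ideal.Quotient.mk P g0}
  have hC : (C : Set (Lam ⧸ P)).Finite := DfA_fin hp hpD (Set.finite_singleton _)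
  have h2 : ∀ (g : Lam) (k : ℤ), ev a b g = (a ^ u * b ^ v) ^ k → Ideal.Quotient.mk P g ∈ C := by
    intro g k hg
    have hk : k ∈ KK := ⟨g, hg⟩
    rw [hk0, AddSubgroup.mem_closure_singleton] at hk
    obtain ⟨l, rfl⟩ := hk
    have h3 : ev a b (g - l • g0) = 1 := by
      rw [ev_sub, hz, hg, hg0, smul_eq_mul, mul_comm l k0, zpow_mul, mul_inv_cancel]
    have h4 : g - l • g0 ∈ P := hP (mem_Ann.mpr h3)
    have h5 : Ideal.Quotient.mk P g = Ideal.Quotient.mk P (l • g0) := (Ideal.Quotient.eq).mpr h4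
    rw [h5, map_zsmul]
    exact C.smul_mem l (Submodule.subset_span rfl)
  refine (hV.add hC).subset ?_
  rintro _ ⟨g, hg, rfl⟩
  obtain ⟨f, k, hf, hfV⟩ := h1 _ hg
  have h3 : ev a b (-f + g) = (a ^ u * b ^ v) ^ k := by
    rw [ev_add, ev_neg, hf]
    group
  refine ⟨Ideal.Quotient.mk P f, hfV, Ideal.Quotient.mk P (-f + g), h2 _ k h3, ?_⟩
  simp

end Pool.Agent.H28.IP
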