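/-
ROW DfB. Arithmetic of `ℤ²` (Mathlib only).
PROOF. Let `d = gcd z.1 z.2 ≥ 1` (`Int.gcd`), `z = (d u, d v)`, `gcd u v = 1`, Bezout `r u + s v = 1`
(`Int.isCoprime_iff_gcd_eq_one`). If `v i - u j = 0` then `(i, j) = (r i + s j) • (u, v)`:
`u (r i + s j) = r u i + s u j = r u i + s v i = i` and `v (r i + s j) = r v i + s v j = r u j + s v j = j`.
-/
import Mathlib

set_option autoImplicit false

namespace Pool.Agent.H28.IP

theorem prim_vec {z : ℤ × ℤ} (hz : z ≠ 0) : ∃ (d : ℕ) (u v r s : ℤ), 1 ≤ d ∧ z.1 = d * u ∧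
    z.2 = d * v ∧ r * u + s * v = 1 ∧ ∀ i j : ℤ, v * i - u * j = 0 → ∃ k : ℤ, i = k * u ∧ j = k * v := by
  obtain ⟨a, b⟩ := z
  have hpos : 0 < Int.gcd a b := by
    rcases Nat.eq_zero_or_pos (Int.gcd a b) with h | h
    · exfalso
      rw [Int.gcd_eq_zero_iff] at h
      exact hz (Prod.ext h.1 h.2)
    · exact h
  obtain ⟨u, hu⟩ : ((Int.gcd a b : ℕ) : ℤ) ∣ a := Int.gcd_dvd_left ..
  obtain ⟨v, hv⟩ : ((Int.gcd a b : ℕ) : ℤ) ∣ b := Int.gcd_dvd_right ..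
  have hd0 : ((Int.gcd a b : ℕ) : ℤ) ≠ 0 := by exact_mod_cast hpos.ne'
  have hbez := Int.gcd_eq_gcd_ab a b
  refine ⟨Int.gcd a b, u, v, Int.gcdA a b, Int.gcdB a b, hpos, hu, hv, ?_, ?_⟩
  · apply mul_left_cancel₀ hd0
    calc ((Int.gcd a b : ℕ) : ℤ) * (Int.gcdA a b * u + Int.gcdB a b * v)
        = (((Int.gcd a b : ℕ) : ℤ) * u) * Int.gcdA a b + (((Int.gcd a b : ℕ) : ℤ) * v) * Int.gcdB a b := by ring
      _ = a * Int.gcdA a b + b * Int.gcdB a b := by rw [← hu, ← hv]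
      _ = ((Int.gcd a b : ℕ) : ℤ) := hbez.symm
      _ = ((Int.gcd a b : ℕ) : ℤ) * 1 := by ring
  · intro i j hij
    have h1 : Int.gcdA a b * u + Int.gcdB a b * v = 1 := by
      apply mul_left_cancel₀ hd0
      calc ((Int.gcd a b : ℕ) : ℤ) * (Int.gcdA a b * u + Int.gcdB a b * v)
          = (((Int.gcd a b : ℕ) : ℤ) * u) * Int.gcdA a b + (((Int.gcd a b : ℕ) : ℤ) * v) * Int.gcdB a b := by ring
        _ = a * Int.gcdA a b + b * Int.gcdB a b := by rw [← hu, ← hv]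
        _ = ((Int.gcd a b : ℕ) : ℤ) := hbez.symm
        _ = ((Int.gcd a b : ℕ) : ℤ) * 1 := by ring
    refine ⟨Int.gcdA a b * i + Int.gcdB a b * j, ?_, ?_⟩
    · linear_combination (-i) * h1 + Int.gcdB a b * hij
    · linear_combination (-j) * h1 - Int.gcdA a b * hij

end Pool.Agent.H28.IP
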