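/-
ROW FiT. A quotient of `Lam` in which `x, y` are torsion and some `p ≥ 1` vanishes is finite.
PROOF. Let `π = Ideal.Quotient.mk J`. Every `f` is a finite sum of `c • mo z` (`lam_ind`). In `Lam ⧸ J`:
`π (mo (i, j)) = π (mo (i % n, j % n))` (`mo (n, 0)`, `mo (0, n)` map to `1`, so do their integer powers
`mo (n k, 0)`, `mo (0, n k)`; mo_add) and `(p : ℤ) • = 0`. So `Lam ⧸ J` is, as an additive group, generated by the
finite set `{π (mo (i, j)) | 0 ≤ i, j < n}` and killed by `p ≥ 1`, hence finite (`AddGroup.FG` and torsion: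
`AddCommGroup.finite_of_fg_torsion`; or: the map `(Fin n → Fin n → Fin p) → Lam ⧸ J` is surjective).
-/
import Pool.Agent.H28.IP.EvA

set_option autoImplicit false

namespace Pool.Agent.H28.IP

theorem fin_of_tor {J : Ideal Lam} {n p : ℕ} (hn : 1 ≤ n) (hp : 1 ≤ p) (h1 : mo (n, 0) - 1 ∈ J)
    (h2 : mo (0, n) - 1 ∈ J) (h3 : (p : Lam) ∈ J) : Finite (Lam ⧸ J) := by
  have e1 : Ideal.Quotient.mk J (mo (n, 0)) = 1 := by
    have h := Ideal.Quotient.eq.2 h1
    rwa [map_one] at h
  have e2 : Ideal.Quotient.mk J (mo (0, n)) = 1 := by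
    have h := Ideal.Quotient.eq.2 h2
    rwa [map_one] at h
  have k1 : ∀ k : ℤ, Ideal.Quotient.mk J (mo (n * k, 0)) = 1 := by
    intro k
    induction k with
    | zero => rw [mul_zero]; exact map_one _
    | succ k ih =>
      have h : (((n : ℤ) * (k + 1), 0) : ℤ × ℤ) = ((n : ℤ) * k, 0) + ((n : ℤ), 0) := by
        ext <;> simp [mul_add]
      rw [h, mo_add, map_mul, ih, e1, one_mul]
    | pred k ih =>
      have h : (((n : ℤ) * (-k), 0) : ℤ × ℤ) = ((n : ℤ) * (-k - 1), 0) + ((n : ℤ), 0) := by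
        ext
        · simp only [Prod.fst_add]; ring
        · simp
      rw [h, mo_add, map_mul, e1, mul_one] at ih
      exact ih
  have k2 : ∀ k : ℤ, Ideal.Quotient.mk J (mo (0, n * k)) = 1 := by
    intro k
    induction k with
    | zero => rw [mul_zero]; exact map_one _
    | succ k ih =>
      have h : ((0, (n : ℤ) * (k + 1)) : ℤ × ℤ) = (0, (n : ℤ) * k) + (0, (n : ℤ)) := by
        ext <;> simp [mul_add]
      rw [h, mo_add, map_mul, ih, e2, one_mul]
    | pred k ih =>
      have h : ((0, (n : ℤ) * (-k)) : ℤ × ℤ) = (0, (n : ℤ) * (-k - 1)) + (0, (n : ℤ)) := by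
        ext
        · simp
        · simp only [Prod.snd_add]; ring
      rw [h, mo_add, map_mul, e2, mul_one] at ih
      exact ih
  have hn0 : (0 : ℤ) < n := by exact_mod_cast hn
  have red : ∀ i j : ℤ, Ideal.Quotient.mk J (mo (i, j)) =
      Ideal.Quotient.mk J (mo (i % n, j % n)) := by
    intro i j
    have h : ((i, j) : ℤ × ℤ) = (i % n, j % n) + ((n : ℤ) * (i / n), 0) + (0, (n : ℤ) * (j / n)) := by
      ext
      · simp only [Prod.fst_add, add_zero]
        exact (Int.emod_add_mul_ediv i n).symm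
      · simp only [Prod.snd_add, add_zero]
        exact (Int.emod_add_mul_ediv j n).symm
    conv_lhs => rw [h, mo_add, mo_add, map_mul, map_mul, k1, k2, mul_one, mul_one]
  have hfg : AddGroup.FG (Lam ⧸ J) := by
    refine AddGroup.fg_iff.2 ⟨Set.range fun q : Fin n × Fin n =>
      Ideal.Quotient.mk J (mo (((q.1 : ℕ) : ℤ), ((q.2 : ℕ) : ℤ))), ?_, Set.finite_range _⟩
    rw [eq_top_iff]
    rintro q -
    obtain ⟨f, rfl⟩ := Ideal.Quotient.mk_surjective q
    induction f using lam_ind with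
    | h0 => rw [map_zero]; exact zero_mem _
    | hadd f g hf hg => rw [map_add]; exact add_mem hf hg
    | hneg f hf => rw [map_neg]; exact neg_mem hf
    | hmo z =>
      obtain ⟨i, j⟩ := z
      rw [red]
      refine AddSubgroup.subset_closure ⟨(⟨(i % n).toNat, ?_⟩, ⟨(j % n).toNat, ?_⟩), ?_⟩
      · have h := Int.emod_lt_of_pos i hn0
        have h' := Int.emod_nonneg i hn0.ne'
        omega
      · have h := Int.emod_lt_of_pos j hn0
        have h' := Int.emod_nonneg j hn0.ne'
        omega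
      · simp only [Int.toNat_of_nonneg (Int.emod_nonneg i hn0.ne'),
          Int.toNat_of_nonneg (Int.emod_nonneg j hn0.ne')]
  refine AddCommGroup.finite_of_fg_isAddTorsion (Lam ⧸ J) fun q => ?_
  rw [isOfFinAddOrder_iff_nsmul_eq_zero]
  refine ⟨p, hp, ?_⟩
  obtain ⟨f, rfl⟩ := Ideal.Quotient.mk_surjective q
  rw [nsmul_eq_mul, ← map_natCast (Ideal.Quotient.mk J), ← map_mul, Ideal.Quotient.eq_zero_iff_mem]
  exact J.mul_mem_right _ h3

end Pool.Agent.H28.IP
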