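/-
ROW DfD. The exponents `w` with `mo w - 1 ∈ P` lie on a line.
PROOF. Let `K = {w : ℤ × ℤ | mo w - 1 ∈ P}`; it is closed under addition and negation (mo_add, mo_zero:
`mo (w + w') - 1 = mo w * (mo w' - 1) + (mo w - 1)`, `mo (-w) - 1 = -mo (-w) * (mo w - 1)`), so under integer
combinations. Suppose `D = v i - u j ≠ 0`. `j • (d u, d v) - (d v) • (i, j) = (-(d D), 0)` and
`-i • (d u, d v) + (d u) • (i, j) = (0, -(d D))`. So with `n = |d D| ≥ 1`: `(n, 0), (0, n) ∈ K` and `Lam ⧸ P` is finite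
by fin_of_tor (row FiT). Contradiction.
-/
import Pool.Agent.H28.IP.FiT

set_option autoImplicit false

namespace Pool.Agent.H28.IP

/-- The exponents with `mo w - 1 ∈ P`. -/
def DfD_K (P : Ideal Lam) : AddSubgroup (ℤ × ℤ) where
  carrier := {w | mo w - 1 ∈ P}
  zero_mem' := by
    show mo 0 - 1 ∈ P
    rw [mo_zero, sub_self]
    exact P.zero_mem
  add_mem' := by
    intro a b ha hb
    have ha' : mo a - 1 ∈ P := ha
    have hb' : mo b - 1 ∈ P := hb
    show mo (a + b) - 1 ∈ P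
    have e : mo (a + b) - 1 = mo a * (mo b - 1) + (mo a - 1) := by
      rw [mo_add]
      ring
    rw [e]
    exact P.add_mem (P.mul_mem_left _ hb') ha'
  neg_mem' := by
    intro a ha
    have ha' : mo a - 1 ∈ P := ha
    show mo (-a) - 1 ∈ P
    have h1 : mo (-a) * mo a = 1 := by
      rw [← mo_add, neg_add_cancel, mo_zero]
    have e : mo (-a) - 1 = -mo (-a) * (mo a - 1) := by
      linear_combination h1
    rw [e]
    exact P.mul_mem_left _ ha'

theorem DfD_mem {P : Ideal Lam} {w : ℤ × ℤ} : w ∈ DfD_K P ↔ mo w - 1 ∈ P := Iff.rfl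

theorem tor_line {P : Ideal Lam} {p : ℕ} (hp : 1 ≤ p) (hpP : (p : Lam) ∈ P)
    (hinf : Infinite (Lam ⧸ P)) {d : ℕ} (hd : 1 ≤ d) {u v i j : ℤ}
    (h : mo (d * u, d * v) - 1 ∈ P) (hw : mo (i, j) - 1 ∈ P) : v * i - u * j = 0 := by
  by_contra hD
  have k1 : ((d * u, d * v) : ℤ × ℤ) ∈ DfD_K P := h
  have k2 : ((i, j) : ℤ × ℤ) ∈ DfD_K P := hw
  have a1 : ((d * (v * i - u * j), 0) : ℤ × ℤ) ∈ DfD_K P := by
    have := (DfD_K P).sub_mem ((DfD_K P).zsmul_mem k2 (d * v)) ((DfD_K P).zsmul_mem k1 j)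
    convert this using 1
    ext
    · simp only [Prod.smul_mk, smul_eq_mul, Prod.mk_sub_mk]
      ring
    · simp only [Prod.smul_mk, smul_eq_mul, Prod.mk_sub_mk]
      ring
  have a2 : ((0, d * (v * i - u * j)) : ℤ × ℤ) ∈ DfD_K P := by
    have := (DfD_K P).sub_mem ((DfD_K P).zsmul_mem k1 i) ((DfD_K P).zsmul_mem k2 (d * u))
    convert this using 1
    ext
    · simp only [Prod.smul_mk, smul_eq_mul, Prod.mk_sub_mk]
      ring
    · simp only [Prod.smul_mk, smul_eq_mul, Prod.mk_sub_mk]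
      ring
  set D : ℤ := d * (v * i - u * j) with hDD
  have hD0 : D ≠ 0 := mul_ne_zero (by exact_mod_cast (by omega : d ≠ 0)) hD
  have hn : 1 ≤ D.natAbs := Nat.one_le_iff_ne_zero.mpr (Int.natAbs_ne_zero.mpr hD0)
  have b1 : (((D.natAbs : ℤ), 0) : ℤ × ℤ) ∈ DfD_K P := by
    rcases Int.natAbs_eq D with hh | hh
    · rw [← hh]
      exact a1
    · have hh' : (D.natAbs : ℤ) = -D := by omega
      rw [hh']
      have := (DfD_K P).neg_mem a1
      rwa [Prod.neg_mk, neg_zero] at this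
  have b2 : ((0, (D.natAbs : ℤ)) : ℤ × ℤ) ∈ DfD_K P := by
    rcases Int.natAbs_eq D with hh | hh
    · rw [← hh]
      exact a2
    · have hh' : (D.natAbs : ℤ) = -D := by omega
      rw [hh']
      have := (DfD_K P).neg_mem a2
      rwa [Prod.neg_mk, neg_zero] at this
  have hfin : Finite (Lam ⧸ P) := fin_of_tor hn hp (DfD_mem.1 b1) (DfD_mem.1 b2) hpP
  exact not_finite_iff_infinite.mpr hinf hfin

end Pool.Agent.H28.IP
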