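/-
ROW DfC. Tameness at primes of characteristic `p`: if `G` is finitely presented then `x, y` are
multiplicatively independent modulo every prime `P ⊇ Ann a b` with `p ∈ P` and `Lam ⧸ P` infinite.
PROOF. Let `D = Lam ⧸ P`, `π` the projection, suppose `mo z - 1 ∈ P`, `z ≠ 0`. Let `d, u, v, r, s` be as in prim_vec
(`z = (d u, d v)`). (1) If `mo (i, j) - 1 ∈ P` then `v i - u j = 0`: tor_line (row DfD).
(2) If `a^i b^j ∈ commutator G` then `mo (i, j) - 1 ∈ Ann a b ≤ P` (ev_conj with `f = 1` and Metab.comm: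
`ev a b (mo (i,j)) = ev a b 1`), so `v i - u j = 0`. By exists_chi (row Chi, `c = v`, `d = -u`) there is
`χ : G →* Multiplicative ℤ` with `χ a = ofAdd v`, `χ b = ofAdd (-u)`. Let `t = a^s * b^(-r)`: `χ t = ofAdd (v s + u r) = ofAdd 1`.
(3) bieri_strebel gives `H`. Every `h ∈ χ.ker` is `ev f * (a^i * b^j)` (nf), `χ = 1` on `commutator G` (commutative
target), so `v i - u j = 0`, `i = k u`, `j = k v`, and `a^(k u) b^(k v) * ((a^u b^v)^k)⁻¹ ∈ commutator G` is an
`ev f'` (ev_surj): so `h = ev f'' * (a^u b^v)^k`. So meet_fin (row DfA, `n = d`) applies to `H`: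
`F = π '' {f | ev a b f ∈ H}` is finite. `F` is an additive subgroup of `D`.
(4) First alternative of bieri_strebel: with `ω = π (mo (s, -r))`: `t (ev f) t⁻¹ = ev (mo (s,-r) * f)` (ev_conj), so
`ω F ⊆ F`; multiplication by `ω` is injective on `D` (`ω` is a unit: `mo (s,-r) * mo (-s, r) = 1`), `F` finite, so
`ω F = F` (`Set.eq_of_subset_of_ncard_le` / `Finite.injective_iff_surjective`). For every `f`: `ev f ∈ χ.ker`, so for
some `n`, `t^n (ev f) t^(-n) ∈ H`, i.e. `ω^n π f ∈ F = ω^n F`, so `π f ∈ F`. Hence `D = F` is finite: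
contradiction. Second alternative: the same with `ω⁻¹`.
-/
import Pool.Agent.H28.IP.BrD
import Pool.Agent.H28.IP.Chi
import Pool.Agent.H28.IP.DfD
import Pool.Agent.H28.IP.DfA
import Pool.Agent.H28.IP.DfB

set_option autoImplicit false

namespace Pool.Agent.H28.IP

theorem DfC_back {D : Type} [CommRing D] {ω ω' : D} (hω : ω * ω' = 1) {F : Set D} (hF : F.Finite)
    (h : ∀ x ∈ F, ω * x ∈ F) : ∀ (n : ℕ) (x : D), ω ^ n * x ∈ F → x ∈ F := by
  have hinj : Function.Injective (fun x : D => ω * x) := by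
    intro x y hxy
    have h1 : ω * x = ω * y := hxy
    calc x = (ω * ω') * x := by rw [hω, one_mul]
      _ = ω' * (ω * x) := by ring
      _ = ω' * (ω * y) := by rw [h1]
      _ = (ω * ω') * y := by ring
      _ = y := by rw [hω, one_mul]
  have hsub : (fun x : D => ω * x) '' F ⊆ F := by
    rintro _ ⟨x, hx, rfl⟩
    exact h x hx
  have heq : (fun x : D => ω * x) '' F = F := by
    refine Set.eq_of_subset_of_ncard_le hsub ?_ hF
    rw [Set.ncard_image_of_injective F hinj]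
  have hone : ∀ x, ω * x ∈ F → x ∈ F := by
    intro x hx
    rw [← heq] at hx
    obtain ⟨y, hy, hyx⟩ := hx
    have := hinj hyx
    rwa [← this]
  intro n
  induction n with
  | zero => intro x hx; rwa [pow_zero, one_mul] at hx
  | succ n ih =>
    intro x hx
    refine hone x (ih (ω * x) ?_)
    rw [pow_succ, mul_assoc] at hx
    exact hx

theorem DfC_alt {G : Type} [Group G] [Metab G] {a b : G} {P : Ideal Lam} {H : Subgroup G}
    (hF : (Ideal.Quotient.mk P '' {f | ev a b f ∈ H}).Finite) (hinf : Infinite (Lam ⧸ P)) {τ : G}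
    {w w' : Lam} (hw : w * w' = 1) (hτ : ∀ f, τ * ev a b f * τ⁻¹ = ev a b (w * f))
    (hA : ∀ h ∈ H, τ * h * τ⁻¹ ∈ H) (hB : ∀ f : Lam, ∃ n : ℕ, τ ^ n * ev a b f * (τ ^ n)⁻¹ ∈ H) :
    False := by
  have hω : Ideal.Quotient.mk P w * Ideal.Quotient.mk P w' = 1 := by
    rw [← map_mul, hw, map_one]
  have hτn : ∀ (n : ℕ) (f : Lam), τ ^ n * ev a b f * (τ ^ n)⁻¹ = ev a b (w ^ n * f) := by
    intro n
    induction n with
    | zero => intro f; simp
    | succ n ih =>
      intro f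
      have e : τ ^ (n + 1) * ev a b f * (τ ^ (n + 1))⁻¹ =
          τ ^ n * (τ * ev a b f * τ⁻¹) * (τ ^ n)⁻¹ := by
        rw [pow_succ]; group
      rw [e, hτ, ih, pow_succ, mul_assoc]
  have hmaps : ∀ x ∈ Ideal.Quotient.mk P '' {f | ev a b f ∈ H},
      Ideal.Quotient.mk P w * x ∈ Ideal.Quotient.mk P '' {f | ev a b f ∈ H} := by
    rintro _ ⟨f, hf, rfl⟩
    refine ⟨w * f, ?_, map_mul _ _ _⟩
    show ev a b (w * f) ∈ H
    rw [← hτ]
    exact hA _ hf
  have hback := DfC_back hω hF hmaps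
  have hall : ∀ x : Lam ⧸ P, x ∈ Ideal.Quotient.mk P '' {f | ev a b f ∈ H} := by
    intro x
    obtain ⟨f, rfl⟩ := Ideal.Quotient.mk_surjective x
    obtain ⟨n, hn⟩ := hB f
    rw [hτn] at hn
    refine hback n _ ⟨w ^ n * f, hn, ?_⟩
    rw [map_mul, map_pow]
  have hu : Ideal.Quotient.mk P '' {f | ev a b f ∈ H} = Set.univ :=
    Set.eq_univ_of_forall hall
  rw [hu] at hF
  exact Set.infinite_univ hF

theorem DfC_com {G : Type} [Group G] [Metab G] {a b : G} {P : Ideal Lam} (hP : Ann a b ≤ P)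
    (i j : ℤ) (h : a ^ i * b ^ j ∈ commutator G) : mo (i, j) - 1 ∈ P := by
  refine hP (mem_Ann.2 ?_)
  rw [ev_sub]
  have h1 := ev_conj a b i j 1
  rw [mul_one] at h1
  rw [← h1]
  have h2 := Metab.comm _ h _ (ev_mem a b 1)
  rw [h2]
  group

theorem DfC_pow {G : Type} [Group G] (a b : G) (u v k : ℤ) :
    a ^ (k * u) * b ^ (k * v) * ((a ^ u * b ^ v) ^ k)⁻¹ ∈ commutator G := by
  rw [← Abelianization.ker_of, MonoidHom.mem_ker]
  rw [map_mul, map_mul, map_inv, map_zpow, map_zpow, map_zpow, map_mul, map_zpow, map_zpow,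
    mul_zpow, mul_comm k u, mul_comm k v, zpow_mul, zpow_mul]
  exact mul_inv_cancel _

theorem tame_prime {G : Type} [Group G] [Metab G] [Group.IsFinitelyPresented G] {a b : G}
    (hg : Gen2 a b) {P : Ideal Lam} (hP : Ann a b ≤ P) {p : ℕ} (hp : 1 ≤ p)
    (hpP : (p : Lam) ∈ P) (hinf : Infinite (Lam ⧸ P)) {z : ℤ × ℤ} (hz : z ≠ 0) :
    mo z - 1 ∉ P := by
  intro hz0
  obtain ⟨d, u, v, r, s, hd, hzu, hzv, hrs, hline⟩ := prim_vec hz
  have hzz : z = ((d : ℤ) * u, (d : ℤ) * v) := Prod.ext hzu hzv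
  have hduv : mo ((d : ℤ) * u, (d : ℤ) * v) - 1 ∈ P := by rw [← hzz]; exact hz0
  have htor : ∀ i j : ℤ, mo (i, j) - 1 ∈ P → v * i - u * j = 0 :=
    fun i j hij => tor_line hp hpP hinf hd hduv hij
  have hcom : ∀ i j : ℤ, a ^ i * b ^ j ∈ commutator G → v * i + (-u) * j = 0 := by
    intro i j hij
    have := htor i j (DfC_com hP i j hij)
    linarith
  obtain ⟨χ, hχa, hχb⟩ := exists_chi hg v (-u) hcom
  have hχ : ∀ i j : ℤ, χ (a ^ i * b ^ j) = Multiplicative.ofAdd (v * i - u * j) := by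
    intro i j
    rw [map_mul, map_zpow, map_zpow, hχa, hχb, ← ofAdd_zsmul, ← ofAdd_zsmul, ← ofAdd_add,
      smul_eq_mul, smul_eq_mul]
    have : i * v + j * (-u) = v * i - u * j := by ring
    rw [this]
  have ht : χ (a ^ s * b ^ (-r)) = Multiplicative.ofAdd 1 := by
    rw [hχ]
    have : v * s - u * (-r) = 1 := by linarith
    rw [this]
  obtain ⟨H, hfg, hker, halt⟩ := bieri_strebel χ ht
  have hck : ∀ g ∈ commutator G, g ∈ χ.ker := fun g hg' =>
    Abelianization.commutator_subset_ker χ hg'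
  have hH : ∀ h ∈ H, ∃ (f : Lam) (k : ℤ), h = ev a b f * (a ^ u * b ^ v) ^ k := by
    intro h hh
    obtain ⟨f, i, j, hf⟩ := nf hg h
    have h1 : χ h = 1 := hker hh
    have h2 : χ (ev a b f) = 1 := hck _ (ev_mem a b f)
    rw [hf, map_mul, h2, one_mul, hχ] at h1
    have h3 : v * i - u * j = 0 := by
      have h4 : Multiplicative.ofAdd (v * i - u * j) = Multiplicative.ofAdd (0 : ℤ) := h1
      exact Multiplicative.ofAdd.injective h4
    obtain ⟨k, hi, hj⟩ := hline i j h3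
    obtain ⟨f', hf'⟩ := ev_surj hg (DfC_pow a b u v k)
    refine ⟨f + f', k, ?_⟩
    rw [ev_add, hf', hf, hi, hj]
    group
  have hfin := meet_fin hP hp hpP hd hduv hfg hH
  have hconj : ∀ f, (a ^ s * b ^ (-r)) * ev a b f * (a ^ s * b ^ (-r))⁻¹ =
      ev a b (mo (s, -r) * f) := fun f => ev_conj a b s (-r) f
  have hmm : mo (s, -r) * mo (-s, r) = 1 := by
    rw [← mo_add]
    have : ((s, -r) : ℤ × ℤ) + (-s, r) = 0 := by
      ext <;> simp
    rw [this, mo_zero]
  rcases halt with ⟨hA, hB⟩ | ⟨hA, hB⟩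
  · exact DfC_alt hfin hinf hmm hconj hA (fun f => hB _ (hck _ (ev_mem a b f)))
  · have hmm' : mo (-s, r) * mo (s, -r) = 1 := by rw [mul_comm]; exact hmm
    refine DfC_alt (τ := (a ^ s * b ^ (-r))⁻¹) hfin hinf hmm' (fun f => ?_) (fun h hh => ?_)
      (fun f => ?_)
    · have h1 := hconj (mo (-s, r) * f)
      rw [← mul_assoc (mo (s, -r)), hmm, one_mul] at h1
      rw [← h1]
      group
    · rw [inv_inv]
      exact hA h hh
    · obtain ⟨n, hn⟩ := hB _ (hck _ (ev_mem a b f))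
      refine ⟨n, ?_⟩
      rw [inv_pow, inv_inv]
      exact hn

end Pool.Agent.H28.IP
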