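/-
ROW Emb. Polynomials in two variables inside Laurent polynomials (Mathlib only).
PROOFS.
* emb_CC, emb_X, emb_Y: `eval₂_C`, `eval₂_X`.
* emb_mon: `emb (C (C c * X ^ i) * X ^ j) = single (i, j) c` (`AddMonoidAlgebra.single_mul_single`,
  `single_pow`).
* emb_coeff: both sides are additive in `G`; check on monomials (`Polynomial.induction_on'` twice), emb_mon.
* emb_inj: emb_coeff.
* emb_exists: induction on `g` (`AddMonoidAlgebra.induction_linear`): `0`; sums: take the sums of the
  exponents, `single (s + s', t + t') * (g + g') = single (s', t') * emb G + single (s, t) * emb G'` and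
  `single (s, t) 1` (natural exponents) is `emb` of a monomial; `single z c`: `s = (-z.1).toNat`,
  `t = (-z.2).toNat`.
* emb_C: for `d : k[X]`: `emb (C d) = eval₂ … (single (1,0) 1) d` (`eval₂_C`).
-/
import Mathlib

set_option autoImplicit false

namespace Pool.Agent.H28.IP

open Polynomial

/-- `k[X][Y] → k[ℤ²]`, `X ↦ x`, `Y ↦ y`. -/
noncomputable def emb (k : Type) [CommRing k] : k[X][X] →+* AddMonoidAlgebra k (ℤ × ℤ) :=
  eval₂RingHom (eval₂RingHom (AddMonoidAlgebra.singleZeroRingHom : k →+* AddMonoidAlgebra k (ℤ × ℤ))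
    (AddMonoidAlgebra.single (1, 0) 1)) (AddMonoidAlgebra.single (0, 1) 1)

variable {k : Type} [CommRing k]

theorem emb_mon (c : k) (i j : ℕ) :
    emb k (C (C c * X ^ i) * X ^ j) = AddMonoidAlgebra.single ((i : ℤ), (j : ℤ)) c := by
  have h : emb k (C (C c * X ^ i) * X ^ j) =
      (AddMonoidAlgebra.single (0 : ℤ × ℤ) c * AddMonoidAlgebra.single ((1 : ℤ), (0 : ℤ)) 1 ^ i) *
        AddMonoidAlgebra.single ((0 : ℤ), (1 : ℤ)) 1 ^ j := by
    simp only [emb, coe_eval₂RingHom, eval₂_mul, eval₂_C, eval₂_X_pow]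
    rfl
  rw [h, AddMonoidAlgebra.single_pow, AddMonoidAlgebra.single_pow,
    AddMonoidAlgebra.single_mul_single, AddMonoidAlgebra.single_mul_single]
  simp

theorem Emb_mm (c : k) (i j : ℕ) :
    (monomial j (monomial i c) : k[X][X]) = C (C c * X ^ i) * X ^ j := by
  rw [C_mul_X_pow_eq_monomial, C_mul_X_pow_eq_monomial]

theorem emb_coeff (G : k[X][X]) (i j : ℕ) :
    (emb k G).coeff ((i : ℤ), (j : ℤ)) = (G.coeff j).coeff i := by
  induction G using Polynomial.induction_on' with
  | add p q hp hq =>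
    rw [map_add, AddMonoidAlgebra.coeff_add, Finsupp.add_apply, hp, hq, coeff_add, coeff_add]
  | monomial n a =>
    induction a using Polynomial.induction_on' with
    | add p q hp hq =>
      rw [map_add (monomial n), map_add, AddMonoidAlgebra.coeff_add, Finsupp.add_apply, hp, hq,
        coeff_add, coeff_add]
    | monomial m c =>
      rw [Emb_mm, emb_mon, AddMonoidAlgebra.coeff_single, ← Emb_mm, coeff_monomial,
        Finsupp.single_apply]
      by_cases h1 : n = j
      · subst h1
        rw [if_pos rfl, coeff_monomial]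
        by_cases h2 : m = i
        · subst h2
          rw [if_pos rfl, if_pos rfl]
        · rw [if_neg h2, if_neg]
          intro h
          rw [Prod.mk.injEq] at h
          exact h2 (by exact_mod_cast h.1)
      · rw [if_neg h1, coeff_zero, if_neg]
        intro h
        rw [Prod.mk.injEq] at h
        exact h1 (by exact_mod_cast h.2)

theorem emb_inj : Function.Injective (emb k) := by
  intro G H h
  ext j i
  rw [← emb_coeff, ← emb_coeff, h]

theorem emb_exists (g : AddMonoidAlgebra k (ℤ × ℤ)) : ∃ (s t : ℕ) (G : k[X][X]),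
    AddMonoidAlgebra.single ((s : ℤ), (t : ℤ)) 1 * g = emb k G := by
  induction g using AddMonoidAlgebra.induction_linear with
  | zero => exact ⟨0, 0, 0, by rw [mul_zero, map_zero]⟩
  | add x y hx hy =>
    obtain ⟨s, t, G, hG⟩ := hx
    obtain ⟨s', t', H, hH⟩ := hy
    have e : (AddMonoidAlgebra.single (((s + s' : ℕ) : ℤ), ((t + t' : ℕ) : ℤ)) (1 : k)) =
        AddMonoidAlgebra.single ((s : ℤ), (t : ℤ)) 1 *
          AddMonoidAlgebra.single ((s' : ℤ), (t' : ℤ)) 1 := by
      rw [AddMonoidAlgebra.single_mul_single]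
      simp
    refine ⟨s + s', t + t', C (C 1 * X ^ s') * X ^ t' * G + C (C 1 * X ^ s) * X ^ t * H, ?_⟩
    rw [map_add, map_mul (emb k) (C (C 1 * X ^ s') * X ^ t') G,
      map_mul (emb k) (C (C 1 * X ^ s) * X ^ t) H, emb_mon, emb_mon, ← hG, ← hH, e]
    ring
  | single z c =>
    refine ⟨(-z.1).toNat, (-z.2).toNat,
      C (C c * X ^ (((-z.1).toNat : ℤ) + z.1).toNat) * X ^ (((-z.2).toNat : ℤ) + z.2).toNat, ?_⟩
    rw [emb_mon, AddMonoidAlgebra.single_mul_single, one_mul]
    congr 1
    ext
    · simp only [Prod.fst_add]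
      omega
    · simp only [Prod.snd_add]
      omega

theorem emb_C (d : k[X]) : emb k (C d) = d.sum fun i c => AddMonoidAlgebra.single ((i : ℤ), 0) c := by
  simp only [emb, coe_eval₂RingHom, eval₂_C]
  rw [eval₂_eq_sum]
  congr 1
  funext i c
  rw [AddMonoidAlgebra.single_pow]
  have e : (AddMonoidAlgebra.singleZeroRingHom : k →+* AddMonoidAlgebra k (ℤ × ℤ)) c =
    AddMonoidAlgebra.single (0 : ℤ × ℤ) c := rfl
  rw [e, AddMonoidAlgebra.single_mul_single]
  simp

end Pool.Agent.H28.IP
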