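/-
ROW MxF. `Lam` is Noetherian and its simple quotients are finite.
PROOFS. `Lam` is a finitely generated commutative ring: `Algebra.FiniteType ℤ Lam` (Mathlib:
`AddMonoidAlgebra.finiteType_of_fg`, with `AddMonoid.FG (ℤ × ℤ)`; RingTheory/FiniteType.lean), so
`IsNoetherianRing Lam` (`Algebra.FiniteType.isNoetherianRing ℤ Lam`).
* max_fin: `K = Lam ⧸ M` is a field, of finite type over `ℤ`, `ℤ` is a Jacobson ring, so `Module.Finite ℤ K`
  (`finite_of_finite_type_of_isJacobsonRing`). If `K` has characteristic 0, then `ℤ → K` is injective and `K`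
  integral over `ℤ`, so `ℤ` would be a field (`isField_of_isIntegral_of_isField'`): contradiction. So `K` has
  characteristic `p > 0`, it is a finite module over `ZMod p` (or: every element of `K` is killed by `p` and
  `K` is a finitely generated abelian group, so finite: `AddCommGroup`/`Module.finite_of_fg_torsion`),
  hence finite.
-/
import Pool.Agent.H28.IP.Defs

set_option autoImplicit false

namespace Pool.Agent.H28.IP

theorem mxF_jac : IsJacobsonRing ℤ := by
  rw [isJacobsonRing_iff_prime_eq]
  intro P hP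
  by_cases h : P = ⊥
  · subst h
    rw [eq_bot_iff]
    intro x hx
    rw [Ideal.mem_jacobson_bot] at hx
    rw [Ideal.mem_bot]
    rcases Int.isUnit_iff.1 (hx x) with h1 | h1
    · have : x * x = 0 := by linarith
      simpa using this
    · exfalso
      have := mul_self_nonneg x
      linarith
  · have : P.IsMaximal := hP.isMaximal h
    exact Ideal.jacobson_eq_self_of_isMaximal

theorem mxF_ft : Algebra.FiniteType ℤ Lam := by
  have h1 : AddGroup.FG (ℤ × ℤ) := Module.Finite.iff_addGroup_fg.mp inferInstance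
  have h2 : AddMonoid.FG (ℤ × ℤ) := AddGroup.fg_iff_addMonoid_fg.mp h1
  exact AddMonoidAlgebra.finiteType_of_fg ℤ (ℤ × ℤ)

instance lam_noeth : IsNoetherianRing Lam := by
  have := mxF_ft
  exact Algebra.FiniteType.isNoetherianRing ℤ Lam

theorem max_fin (M : Ideal Lam) [M.IsMaximal] : Finite (Lam ⧸ M) := by
  have := mxF_ft
  have hJ := mxF_jac
  let hF : Field (Lam ⧸ M) := Ideal.Quotient.field M
  have h1 : Algebra.FiniteType ℤ (Lam ⧸ M) :=
    Algebra.FiniteType.of_surjective (Ideal.Quotient.mkₐ ℤ M) (Ideal.Quotient.mkₐ_surjective ℤ M)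
  have h2 : Module.Finite ℤ (Lam ⧸ M) := finite_of_finite_type_of_isJacobsonRing ℤ (Lam ⧸ M)
  by_cases h : Function.Injective (algebraMap ℤ (Lam ⧸ M))
  · exfalso
    have h3 : IsField ℤ := isField_of_isIntegral_of_isField h (Field.toIsField (Lam ⧸ M))
    exact Int.not_isField h3
  · have h4 : ∃ n : ℤ, n ≠ 0 ∧ algebraMap ℤ (Lam ⧸ M) n = 0 := by
      by_contra hc
      push Not at hc
      exact h ((injective_iff_map_eq_zero _).mpr fun a ha => by
        by_contra h0
        exact hc a h0 ha)
    obtain ⟨n, hn, h5⟩ := h4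
    refine Module.finite_of_fg_torsion (Lam ⧸ M) ?_
    intro x
    refine ⟨⟨n, mem_nonZeroDivisors_of_ne_zero hn⟩, ?_⟩
    change n • x = 0
    rw [← algebraMap_smul (Lam ⧸ M) n x, h5, zero_smul]

end Pool.Agent.H28.IP
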