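/-
ROW ExP. PROOFS.
* exists_prime: by lam_noeth there is a maximal element `P` of `{K | J ≤ K ∧ Infinite (Lam ⧸ K)}`
  (`set_has_maximal_iff_noetherian`). `P` is prime: `P ≠ ⊤` since `Lam ⧸ ⊤` is finite. Let `x y ∈ P`, `x, y ∉ P`.
  `P₁ = P ⊔ span {x}` and `P₂ = {g | g * x ∈ P}` (an ideal, contains `P` and `y`) are strictly larger than `P`, so
  `Lam ⧸ P₁`, `Lam ⧸ P₂` are finite. The map `Lam ⧸ P₂ → Lam ⧸ P`, `g ↦ g x`, has image the kernel of
  `Lam ⧸ P → Lam ⧸ P₁`, so the kernel is finite and the quotient is finite, so `Lam ⧸ P` is finite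
  (`Finite.of_finite_quot_finite`-type lemma for additive groups: a group with a finite subgroup with finite
  quotient is finite; or: `AddSubgroup` card). Contradiction.
* fin_mul: finiteness of `Lam ⧸ (I ⊔ span {r s})` from that of `Lam ⧸ (I ⊔ span {r})`, `Lam ⧸ (I ⊔ span {s})`: the map
  `Lam ⧸ (I ⊔ span {s}) → Lam ⧸ (I ⊔ span {r s})`, `g ↦ r g` has image the kernel of the projection to
  `Lam ⧸ (I ⊔ span {r})`; same argument.
* fin_nat: from fin_mul by induction on the factorisation of `n` (`Nat.recOnMul` or strong induction with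
  `Nat.minFac`); `n = 1`: `span {1} = ⊤`.
-/
import Pool.Agent.H28.IP.MxF

set_option autoImplicit false

namespace Pool.Agent.H28.IP

theorem exP_fin {R : Type} [CommRing R] {P P₁ P₂ : Ideal R} (x : R) (h1 : P₁ ≤ P ⊔ Ideal.span {x})
    (h2 : ∀ g ∈ P₂, g * x ∈ P) (f1 : Finite (R ⧸ P₁)) (f2 : Finite (R ⧸ P₂)) : Finite (R ⧸ P) := by
  refine Finite.of_surjective (fun z : (R ⧸ P₁) × (R ⧸ P₂) =>
    Ideal.Quotient.mk P (Quotient.out z.1 + Quotient.out z.2 * x)) ?_
  intro m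
  obtain ⟨r, rfl⟩ := Ideal.Quotient.mk_surjective m
  have e1 : r - Quotient.out (Ideal.Quotient.mk P₁ r) ∈ P₁ := by
    rw [← Ideal.Quotient.eq]
    exact (Quotient.out_eq (Ideal.Quotient.mk P₁ r)).symm
  obtain ⟨p, hp, q, hq, e2⟩ := Submodule.mem_sup.1 (h1 e1)
  obtain ⟨g, rfl⟩ := Ideal.mem_span_singleton'.1 hq
  have e3 : g - Quotient.out (Ideal.Quotient.mk P₂ g) ∈ P₂ := by
    rw [← Ideal.Quotient.eq]
    exact (Quotient.out_eq (Ideal.Quotient.mk P₂ g)).symm
  refine ⟨(Ideal.Quotient.mk P₁ r, Ideal.Quotient.mk P₂ g), ?_⟩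
  refine (Ideal.Quotient.eq.2 ?_).symm
  have e4 : r - (Quotient.out (Ideal.Quotient.mk P₁ r) +
      Quotient.out (Ideal.Quotient.mk P₂ g) * x) =
      p + (g - Quotient.out (Ideal.Quotient.mk P₂ g)) * x := by
    linear_combination -e2
  show r - (Quotient.out (Ideal.Quotient.mk P₁ r) +
      Quotient.out (Ideal.Quotient.mk P₂ g) * x) ∈ P
  rw [e4]
  exact add_mem hp (h2 _ e3)

theorem exists_prime {J : Ideal Lam} (h : Infinite (Lam ⧸ J)) :
    ∃ P : Ideal Lam, P.IsPrime ∧ J ≤ P ∧ Infinite (Lam ⧸ P) := by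
  have : IsNoetherianRing Lam := lam_noeth
  obtain ⟨P, ⟨hJ, hP⟩, hmax⟩ := set_has_maximal_iff_noetherian.2
    (inferInstance : IsNoetherian Lam Lam) {K : Ideal Lam | J ≤ K ∧ Infinite (Lam ⧸ K)}
    ⟨J, le_rfl, h⟩
  have hfin : ∀ K : Ideal Lam, P < K → Finite (Lam ⧸ K) := fun K hK => by
    by_contra hc
    exact hmax K ⟨hJ.trans hK.le, not_finite_iff_infinite.1 hc⟩ hK
  refine ⟨P, ⟨?_, ?_⟩, hJ, hP⟩
  · intro ht
    rw [ht] at hP
    have := Ideal.Quotient.subsingleton_iff.2 (rfl : (⊤ : Ideal Lam) = ⊤)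
    exact not_finite (Lam ⧸ (⊤ : Ideal Lam))
  · intro y x hxy
    by_contra hc
    rw [not_or] at hc
    obtain ⟨hy, hx⟩ := hc
    have f1 : Finite (Lam ⧸ (P ⊔ Ideal.span {x})) := by
      refine hfin _ (lt_of_le_of_ne le_sup_left fun e => hx ?_)
      rw [e]
      exact Ideal.mem_sup_right (Ideal.mem_span_singleton_self x)
    have f2 : Finite (Lam ⧸ (Submodule.comap (LinearMap.mulRight Lam x) P : Ideal Lam)) := by
      refine hfin _ (lt_of_le_of_ne ?_ fun e => hy ?_)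
      · intro g hg
        exact Ideal.mul_mem_right x P hg
      · rw [e]
        exact hxy
    have := exP_fin (P := P) x le_rfl (fun g hg => hg) f1 f2
    exact not_finite (Lam ⧸ P)

theorem fin_mul {I : Ideal Lam} {r s : Lam} (hr : Finite (Lam ⧸ (I ⊔ Ideal.span {r})))
    (hs : Finite (Lam ⧸ (I ⊔ Ideal.span {s}))) : Finite (Lam ⧸ (I ⊔ Ideal.span {r * s})) := by
  refine exP_fin r (sup_le_sup_right le_sup_left _) (fun g hg => ?_) hr hs
  obtain ⟨p, hp, q, hq, rfl⟩ := Submodule.mem_sup.1 hg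
  obtain ⟨t, rfl⟩ := Ideal.mem_span_singleton'.1 hq
  have e : (p + t * s) * r = p * r + t * (r * s) := by ring
  rw [e]
  exact add_mem (Ideal.mem_sup_left (I.mul_mem_right r hp))
    (Ideal.mem_sup_right (Ideal.mem_span_singleton'.2 ⟨t, rfl⟩))

theorem fin_nat {I : Ideal Lam} (h : ∀ p : ℕ, p.Prime → Finite (Lam ⧸ (I ⊔ Ideal.span {(p : Lam)})))
    {n : ℕ} (hn : n ≠ 0) : Finite (Lam ⧸ (I ⊔ Ideal.span {(n : Lam)})) := by
  induction n using Nat.recOnMul with
  | zero => exact absurd rfl hn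
  | one =>
    have e : I ⊔ Ideal.span {((1 : ℕ) : Lam)} = ⊤ := by
      rw [Nat.cast_one, Ideal.span_singleton_one, sup_top_eq]
    rw [e]
    have := Ideal.Quotient.subsingleton_iff.2 (rfl : (⊤ : Ideal Lam) = ⊤)
    infer_instance
  | prime p hp => exact h p hp
  | mul a b ha hb =>
    rw [Nat.cast_mul]
    exact fin_mul (ha (left_ne_zero_of_mul hn)) (hb (right_ne_zero_of_mul hn))

end Pool.Agent.H28.IP
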