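/-
ROW FaC. Common factor of an ideal of `Lam` modulo which `x` is not algebraic.
PROOF. Let `J = I.comap (emb ℤ)` (`emb ℤ : ℤ[X][Y] →+* AddMonoidAlgebra ℤ (ℤ × ℤ) = Lam`). `C d ∈ J → d = 0` by `h0`
(`emb_C`: `aeval (mo (1,0)) d = emb ℤ (C d)`). There is `0 ≠ g ∈ I`; by emb_exists `mo (s,t) * g = emb G`,
`0 ≠ G ∈ J`: `J ≠ ⊥`. By common_factor (row Cmf, `R = ℤ[X]`) there is a prime `F` of positive `Y`-degree dividing all
`G ∈ J`. Let `f = emb F`. For every `g ∈ I` there is `h` with `g = f * h` (`mo (s,t) * g = emb G = emb F * emb G'`, so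
`g = f * (mo (-s,-t) * emb G')`).
Two points: otherwise (`f ≠ 0`, emb_inj; every exponent of the support of `emb F` is `(i, j)` with
`i, j` natural: from emb_mon and `F = ∑ …`, or prove it by induction) `F = C (C c * X^i) * Y^j` (emb_coeff), `j ≥ 1`, and
`F` prime is associated to `Y` (`Y = X : ℤ[X][X]` divides `F`, `Polynomial.prime_X`). Let `G ∈ J`, `G ≠ 0` have minimal
natDegree. `F ∣ G`, so `G = Y * G'`, `emb G' = mo (0,-1) * emb G ∈ I`, so `G' ∈ J`, `G' ≠ 0` of smaller degree: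
contradiction.
-/
import Pool.Agent.H28.IP.Cmf
import Pool.Agent.H28.IP.Emb
import Pool.Agent.H28.IP.EvA

set_option autoImplicit false

namespace Pool.Agent.H28.IP

theorem FaC_aeval (d : Polynomial ℤ) :
    Polynomial.aeval (mo (1, 0)) d = emb ℤ (Polynomial.C d) := by
  rw [emb_C, Polynomial.aeval_def, Polynomial.eval₂_eq_sum]
  apply Finset.sum_congr rfl
  intro i _
  show (algebraMap ℤ Lam) (d.coeff i) * mo (1, 0) ^ i = AddMonoidAlgebra.single ((i : ℤ), 0) (d.coeff i)
  rw [mo, AddMonoidAlgebra.single_pow]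
  have h1 : (algebraMap ℤ Lam) (d.coeff i) = AddMonoidAlgebra.single 0 (d.coeff i) := rfl
  rw [h1, AddMonoidAlgebra.single_mul_single]
  simp

theorem FaC_cancel (s t : ℕ) (g h : Lam)
    (e : AddMonoidAlgebra.single ((s : ℤ), (t : ℤ)) (1 : ℤ) * g = h) :
    g = AddMonoidAlgebra.single (-(s : ℤ), -(t : ℤ)) (1 : ℤ) * h := by
  rw [← e, ← mul_assoc, AddMonoidAlgebra.single_mul_single]
  have h1 : ((-(s : ℤ), -(t : ℤ)) + ((s : ℤ), (t : ℤ)) : ℤ × ℤ) = 0 := by
    ext <;> simp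
  rw [h1, mul_one, ← AddMonoidAlgebra.one_def, one_mul]

theorem common_f {I : Ideal Lam} (hI : I ≠ ⊥)
    (h0 : ∀ d : Polynomial ℤ, d ≠ 0 → Polynomial.aeval (mo (1, 0)) d ∉ I) :
    ∃ f : Lam, I ≤ Ideal.span {f} ∧ ∃ z₁ z₂ : ℤ × ℤ, z₁ ≠ z₂ ∧ f.coeff z₁ ≠ 0 ∧ f.coeff z₂ ≠ 0 := by
  classical
  have hmem : ∀ G : Polynomial (Polynomial ℤ), G ∈ I.comap (emb ℤ) ↔ emb ℤ G ∈ I := fun G => Iff.rfl
  have hJ0 : ∀ d : Polynomial ℤ, Polynomial.C d ∈ I.comap (emb ℤ) → d = 0 := by
    intro d hd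
    by_contra hne
    apply h0 d hne
    rw [FaC_aeval]
    exact hd
  have hJ : I.comap (emb ℤ) ≠ ⊥ := by
    obtain ⟨g, hg, hg0⟩ := Submodule.exists_mem_ne_zero_of_ne_bot hI
    obtain ⟨s, t, G, hG⟩ := emb_exists g
    intro hb
    have hGJ : G ∈ I.comap (emb ℤ) := by
      rw [hmem, ← hG]
      exact I.mul_mem_left _ hg
    rw [hb, Ideal.mem_bot] at hGJ
    apply hg0
    rw [FaC_cancel s t g _ hG, hGJ, map_zero, mul_zero]
  obtain ⟨F, hF, hdeg, hdvd⟩ := common_factor hJ hJ0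
  refine ⟨emb ℤ F, ?_, ?_⟩
  · intro g hg
    obtain ⟨s, t, G, hG⟩ := emb_exists g
    have hGJ : G ∈ I.comap (emb ℤ) := by
      rw [hmem, ← hG]
      exact I.mul_mem_left _ hg
    obtain ⟨G', rfl⟩ := hdvd G hGJ
    rw [Ideal.mem_span_singleton]
    refine ⟨AddMonoidAlgebra.single (-(s : ℤ), -(t : ℤ)) (1 : ℤ) * emb ℤ G', ?_⟩
    rw [FaC_cancel s t g _ hG, map_mul]
    ring
  · by_contra hno
    push Not at hno
    have hF0 : F ≠ 0 := hF.ne_zero
    have hlc : F.coeff F.natDegree ≠ 0 := Polynomial.leadingCoeff_ne_zero.2 hF0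
    obtain ⟨i, hi⟩ : ∃ i, (F.coeff F.natDegree).coeff i ≠ 0 := by
      by_contra hc
      push Not at hc
      exact hlc (Polynomial.ext (by simpa using hc))
    have hX : (Polynomial.X : Polynomial (Polynomial ℤ)) ∣ F := by
      rw [Polynomial.X_dvd_iff]
      ext i'
      rw [Polynomial.coeff_zero]
      by_contra hc
      apply hc
      rw [← emb_coeff]
      refine hno ((i : ℤ), (F.natDegree : ℤ)) ((i' : ℤ), ((0 : ℕ) : ℤ)) ?_ ?_
      · intro he
        have := congrArg Prod.snd he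
        simp only at this
        omega
      · rw [emb_coeff]; exact hi
    -- minimal degree
    have key : ∀ n : ℕ, ∀ G : Polynomial (Polynomial ℤ), G ∈ I.comap (emb ℤ) → G.natDegree ≤ n →
        G = 0 := by
      intro n
      induction n with
      | zero =>
        intro G hG hd
        obtain ⟨G', rfl⟩ := hX.trans (hdvd G hG)
        by_contra hne
        have hG' : G' ≠ 0 := fun h => hne (by rw [h, mul_zero])
        rw [Polynomial.natDegree_X_mul hG'] at hd
        omega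
      | succ n ih =>
        intro G hG hd
        obtain ⟨G', rfl⟩ := hX.trans (hdvd G hG)
        by_contra hne
        have hG' : G' ≠ 0 := fun h => hne (by rw [h, mul_zero])
        rw [Polynomial.natDegree_X_mul hG'] at hd
        apply hG'
        apply ih G' _ (by omega)
        rw [hmem] at hG ⊢
        have h1 : emb ℤ (Polynomial.X : Polynomial (Polynomial ℤ)) =
            AddMonoidAlgebra.single (((0 : ℕ) : ℤ), ((1 : ℕ) : ℤ)) 1 := by
          rw [← emb_mon]
          simp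
        rw [map_mul, h1] at hG
        rw [FaC_cancel 0 1 (emb ℤ G') _ rfl]
        exact I.mul_mem_left _ hG
    apply hJ
    rw [eq_bot_iff]
    intro G hG
    rw [Ideal.mem_bot]
    exact key G.natDegree G hG le_rfl

end Pool.Agent.H28.IP
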