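/-
ROW FaE. If `Lam ⧸ (I + p)` is finite for all primes `p` then `x` is algebraic modulo `I`.
PROOF. Suppose `aeval (mo (1,0)) d ∉ I` for all `d ≠ 0`. (1) `I ≠ ⊥`: otherwise `Lam ⧸ (⊥ ⊔ span {2})` is finite, so
`mo (i,0) - mo (j,0) ∈ span {2}` for some naturals `i ≠ j`, but its coefficient at `(i, 0)` is `1`. (2) Let `f, z₁, z₂`
be as in common_f (row FaC). Let `p` be a prime larger than `|f.coeff z₁|` and `|f.coeff z₂|`
(`Nat.exists_infinite_primes`), so `z₁, z₂` are in the support of `red p f` (red_coeff). As `Lam ⧸ (I ⊔ span {p})` is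
finite there are naturals `i < j` with `mo (i,0) - mo (j,0) ∈ I ⊔ span {p}`; multiply by `mo (-i, 0)`:
`mo (N, 0) - 1 ∈ I ⊔ span {p}`, `N = j - i ≥ 1`. So `red p (mo (N,0) - 1) = red p f * h` for some `h`
(`Submodule.mem_sup`, `I ≤ span {f}`, red of a multiple of `p` is `0`); the left side `single (N,0) 1 - 1` is `≠ 0`, so
`h ≠ 0`. Its support is contained in `{(N,0), (0,0)}`. By `width` (row WiA, `c = 0`, `d = 1`) applied to `(z₁, z₂)` and
to `(z₂, z₁)`: `z₁.2 = z₂.2`. In the same way with `mo (0, N')` (`c = 1`, `d = 0`): `z₁.1 = z₂.1`. Contradiction.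
-/
import Pool.Agent.H28.IP.WiA
import Pool.Agent.H28.IP.RdA
import Pool.Agent.H28.IP.FaC

set_option autoImplicit false

namespace Pool.Agent.H28.IP

theorem FaE_mo_mul (z w : ℤ × ℤ) : mo z * mo w = mo (z + w) := by
  rw [mo, mo, mo, AddMonoidAlgebra.single_mul_single, mul_one]

theorem FaE_mo_zero : mo (0, 0) = 1 := rfl

theorem FaE_pow (J : Ideal Lam) (hfin : Finite (Lam ⧸ J)) (u : ℤ × ℤ) :
    ∃ N : ℕ, 1 ≤ N ∧ mo ((N : ℤ) * u.1, (N : ℤ) * u.2) - 1 ∈ J := by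
  have h1 : ¬ Function.Injective (fun n : ℕ => Ideal.Quotient.mk J (mo ((n : ℤ) * u.1, (n : ℤ) * u.2))) :=
    not_injective_infinite_finite _
  rw [Function.not_injective_iff] at h1
  obtain ⟨i, j, hij, hne⟩ := h1
  have key : ∀ i j : ℕ, i < j → Ideal.Quotient.mk J (mo ((i : ℤ) * u.1, (i : ℤ) * u.2)) =
      Ideal.Quotient.mk J (mo ((j : ℤ) * u.1, (j : ℤ) * u.2)) →
      ∃ N : ℕ, 1 ≤ N ∧ mo ((N : ℤ) * u.1, (N : ℤ) * u.2) - 1 ∈ J := by
    intro i j hlt he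
    refine ⟨j - i, by omega, ?_⟩
    have h2 := (Ideal.Quotient.eq.1 he.symm)
    have h3 := J.mul_mem_left (mo (-((i : ℤ) * u.1), -((i : ℤ) * u.2))) h2
    rw [mul_sub, FaE_mo_mul, FaE_mo_mul] at h3
    have e1 : ((-((i : ℤ) * u.1), -((i : ℤ) * u.2)) + ((i : ℤ) * u.1, (i : ℤ) * u.2) : ℤ × ℤ) = (0, 0) := by
      ext
      · show -((i : ℤ) * u.1) + (i : ℤ) * u.1 = 0; ring
      · show -((i : ℤ) * u.2) + (i : ℤ) * u.2 = 0; ring
    have e2 : ((-((i : ℤ) * u.1), -((i : ℤ) * u.2)) + ((j : ℤ) * u.1, (j : ℤ) * u.2) : ℤ × ℤ) =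
        (((j - i : ℕ) : ℤ) * u.1, ((j - i : ℕ) : ℤ) * u.2) := by
      rw [Nat.cast_sub hlt.le]
      ext
      · show -((i : ℤ) * u.1) + (j : ℤ) * u.1 = _; ring
      · show -((i : ℤ) * u.2) + (j : ℤ) * u.2 = _; ring
    rw [e1, e2, FaE_mo_zero] at h3
    exact h3
  rcases lt_or_gt_of_ne hne with h | h
  · exact key i j h hij
  · exact key j i h hij.symm

theorem FaE_red (p N : ℕ) (u : ℤ × ℤ) : red p (mo ((N : ℤ) * u.1, (N : ℤ) * u.2) - 1) =
    AddMonoidAlgebra.single ((N : ℤ) * u.1, (N : ℤ) * u.2) 1 - AddMonoidAlgebra.single (0, 0) 1 := by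
  rw [map_sub, red_mo, ← FaE_mo_zero, red_mo]

/-- the two exponents of `x^N - 1` -/
theorem FaE_supp {k : Type} [Field k] (z : ℤ × ℤ) {w : ℤ × ℤ}
    (h : w ∈ (AddMonoidAlgebra.single z (1 : k) - AddMonoidAlgebra.single (0, 0) 1 :
      AddMonoidAlgebra k (ℤ × ℤ)).coeff.support) : w = z ∨ w = (0, 0) := by
  classical
  by_contra hn
  push Not at hn
  rw [Finsupp.mem_support_iff] at h
  apply h
  show (Finsupp.single z (1 : k) - Finsupp.single ((0, 0) : ℤ × ℤ) (1 : k)) w = 0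
  rw [Finsupp.sub_apply, Finsupp.single_apply, Finsupp.single_apply, if_neg (fun h => hn.1 h.symm),
    if_neg (fun h => hn.2 h.symm), sub_zero]

theorem FaE_ne {k : Type} [Field k] {z : ℤ × ℤ} (hz : z ≠ (0, 0)) :
    (AddMonoidAlgebra.single z (1 : k) - AddMonoidAlgebra.single (0, 0) 1 :
      AddMonoidAlgebra k (ℤ × ℤ)) ≠ 0 := by
  classical
  intro h
  have h1 : (Finsupp.single z (1 : k) - Finsupp.single ((0, 0) : ℤ × ℤ) (1 : k)) z = 0 := by
    have := congrArg (fun f : AddMonoidAlgebra k (ℤ × ℤ) => f.coeff z) h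
    exact this
  rw [Finsupp.sub_apply, Finsupp.single_apply, Finsupp.single_apply, if_pos rfl,
    if_neg (fun h => hz h.symm), sub_zero] at h1
  exact one_ne_zero h1

/-- the key step: a factor of `x^N - 1` modulo `p` -/
theorem FaE_fac {I : Ideal Lam} {p : ℕ} (hp : p.Prime)
    (hfin : Finite (Lam ⧸ (I ⊔ Ideal.span {(p : Lam)}))) {f : Lam} (hI : I ≤ Ideal.span {f})
    (u : ℤ × ℤ) (hu : u ≠ (0, 0)) :
    ∃ (z : ℤ × ℤ) (h : AddMonoidAlgebra (ZMod p) (ℤ × ℤ)), h ≠ 0 ∧ (∃ N : ℤ, z = (N * u.1, N * u.2)) ∧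
      red p f * h = AddMonoidAlgebra.single z 1 - AddMonoidAlgebra.single (0, 0) 1 := by
  have : Fact p.Prime := ⟨hp⟩
  obtain ⟨N, hN, hm⟩ := FaE_pow _ hfin u
  obtain ⟨a, ha, b, hb, hab⟩ := Submodule.mem_sup.1 hm
  obtain ⟨c, hc⟩ := Ideal.mem_span_singleton'.1 (hI ha)
  obtain ⟨e, he⟩ := Ideal.mem_span_singleton'.1 hb
  have hz : (((N : ℤ) * u.1, (N : ℤ) * u.2) : ℤ × ℤ) ≠ (0, 0) := by
    intro h
    apply hu
    have h1 := congrArg Prod.fst h
    have h2 := congrArg Prod.snd h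
    have hN' : (N : ℤ) ≠ 0 := by omega
    simp only [mul_eq_zero, hN', false_or] at h1 h2
    ext
    · exact h1
    · exact h2
  have hr := FaE_red p N u
  have hb0 : red p b = 0 := red_zero.2 ⟨e, by rw [← he, mul_comm]⟩
  have hrr : red p f * red p c = AddMonoidAlgebra.single ((N : ℤ) * u.1, (N : ℤ) * u.2) 1 -
      AddMonoidAlgebra.single (0, 0) 1 := by
    rw [← hr, ← hab, map_add, hb0, add_zero, ← hc, map_mul, mul_comm]
  refine ⟨((N : ℤ) * u.1, (N : ℤ) * u.2), red p c, ?_, ⟨N, rfl⟩, hrr⟩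
  intro h0
  rw [h0, mul_zero] at hrr
  exact FaE_ne (k := ZMod p) hz hrr.symm

theorem elim_x {I : Ideal Lam}
    (hfin : ∀ p : ℕ, p.Prime → Finite (Lam ⧸ (I ⊔ Ideal.span {(p : Lam)}))) :
    ∃ d : Polynomial ℤ, d ≠ 0 ∧ Polynomial.aeval (mo (1, 0)) d ∈ I := by
  by_contra hcon
  push Not at hcon
  have hI : I ≠ ⊥ := by
    intro h
    have : Fact (2 : ℕ).Prime := ⟨Nat.prime_two⟩
    obtain ⟨z, q, hq, ⟨N, hz⟩, he⟩ := FaE_fac (f := 0) Nat.prime_two (hfin 2 Nat.prime_two)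
      (by rw [h]; exact bot_le) (1, 0) (by decide)
    rw [map_zero, zero_mul] at he
    by_cases hz0 : z = (0, 0)
    · obtain ⟨N', hN', hm⟩ := FaE_pow _ (hfin 2 Nat.prime_two) ((1, 0) : ℤ × ℤ)
      rw [h, bot_sup_eq] at hm
      obtain ⟨e, he'⟩ := Ideal.mem_span_singleton'.1 hm
      have h1 : red 2 (mo ((N' : ℤ) * ((1, 0) : ℤ × ℤ).1, (N' : ℤ) * ((1, 0) : ℤ × ℤ).2) - 1) = 0 :=
        red_zero.2 ⟨e, he'.symm.trans (mul_comm e _)⟩
      have h2 := FaE_red 2 N' ((1, 0) : ℤ × ℤ)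
      have h3 := h2.symm.trans h1
      have hz' : (((N' : ℤ) * ((1, 0) : ℤ × ℤ).1, (N' : ℤ) * ((1, 0) : ℤ × ℤ).2) : ℤ × ℤ) ≠ (0, 0) := by
        intro h4
        have h5 := congrArg Prod.fst h4
        simp only [mul_one] at h5
        omega
      exact FaE_ne (k := ZMod 2) hz' h3
    · exact FaE_ne (k := ZMod 2) hz0 he.symm
  obtain ⟨f, hf, z₁, z₂, hne, c1, c2⟩ := common_f hI hcon
  obtain ⟨p, hpge, hp⟩ := Nat.exists_infinite_primes ((f.coeff z₁).natAbs + (f.coeff z₂).natAbs + 1)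
  have : Fact p.Prime := ⟨hp⟩
  have hcoef : ∀ z, f.coeff z ≠ 0 → (f.coeff z).natAbs < p → z ∈ (red p f).coeff.support := by
    intro z hz hlt
    rw [Finsupp.mem_support_iff, red_coeff]
    intro h0
    rw [ZMod.intCast_zmod_eq_zero_iff_dvd] at h0
    have h1 := Int.natAbs_dvd_natAbs.2 h0
    rw [Int.natAbs_natCast] at h1
    have h2 := Nat.le_of_dvd (Int.natAbs_pos.2 hz) h1
    omega
  have s1 := hcoef z₁ c1 (by omega)
  have s2 := hcoef z₂ c2 (by omega)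
  apply hne
  obtain ⟨x, h, h0, ⟨N, hx⟩, hx2⟩ := FaE_fac hp (hfin p hp) hf (1, 0) (by decide)
  obtain ⟨y, g, g0, ⟨M, hy⟩, hy2⟩ := FaE_fac hp (hfin p hp) hf (0, 1) (by decide)
  have A : ∀ w ∈ (red p f * h).coeff.support, w.2 = 0 := by
    intro w hw
    rw [hx2] at hw
    rcases FaE_supp x hw with h | h
    · rw [h, hx]; simp
    · rw [h]
  have B : ∀ w ∈ (red p f * g).coeff.support, w.1 = 0 := by
    intro w hw
    rw [hy2] at hw
    rcases FaE_supp y hw with h | h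
    · rw [h, hy]; simp
    · rw [h]
  have A' : ∀ a b : ℤ × ℤ, a ∈ (red p f).coeff.support → b ∈ (red p f).coeff.support → a.2 ≤ b.2 := by
    intro a b ha hb
    obtain ⟨w1, hw1, w2, hw2, hle⟩ := width h0 0 1 ha hb
    rw [A w1 hw1, A w2 hw2] at hle
    linarith
  have B' : ∀ a b : ℤ × ℤ, a ∈ (red p f).coeff.support → b ∈ (red p f).coeff.support → a.1 ≤ b.1 := by
    intro a b ha hb
    obtain ⟨w1, hw1, w2, hw2, hle⟩ := width g0 1 0 ha hb
    rw [B w1 hw1, B w2 hw2] at hle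
    linarith
  ext
  · exact le_antisymm (B' _ _ s1 s2) (B' _ _ s2 s1)
  · exact le_antisymm (A' _ _ s1 s2) (A' _ _ s2 s1)

end Pool.Agent.H28.IP
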