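/-
ROW FaD. The same for `y`.
PROOF. Let `σ = act (0, 1, 1, 0) : Lam →+* Lam`, `σ (mo (i, j)) = mo (j, i)` (act_mo), `σ ∘ σ = id` (lam_ind). Let
`I' = I.comap σ`. `Lam ⧸ (I' ⊔ span {p})` is finite: `σ` induces a bijection to `Lam ⧸ (I ⊔ span {p})`
(`I' ⊔ span {p} = (I ⊔ span {p}).comap σ`, `σ` bijective: `Ideal.quotientMap`/injection into a finite set).
Apply elim_x to `I'`: `aeval (mo (1,0)) d ∈ I'`, i.e. `σ (aeval (mo (1,0)) d) = aeval (mo (0,1)) d ∈ I`
(`Polynomial.map_aeval_eq_aeval_map`-type / `Polynomial.hom_eval₂`).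
-/
import Pool.Agent.H28.IP.FaE
import Pool.Agent.H28.IP.ChB

set_option autoImplicit false

namespace Pool.Agent.H28.IP

/-- exchange of the two variables -/
noncomputable def FaD_s : Lam →+* Lam := act (0, 1, 1, 0)

theorem FaD_mo (z : ℤ × ℤ) : FaD_s (mo z) = mo (z.2, z.1) := by
  rw [FaD_s, act_mo]
  simp [actz]

theorem FaD_ss (f : Lam) : FaD_s (FaD_s f) = f := by
  refine lam_ind (p := fun f => FaD_s (FaD_s f) = f) ?_ ?_ ?_ ?_ f
  · simp
  · intro f g hf hg
    rw [map_add, map_add, hf, hg]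
  · intro f hf
    rw [map_neg, map_neg, hf]
  · intro z
    rw [FaD_mo, FaD_mo]

theorem elim_y {I : Ideal Lam}
    (hfin : ∀ p : ℕ, p.Prime → Finite (Lam ⧸ (I ⊔ Ideal.span {(p : Lam)}))) :
    ∃ d : Polynomial ℤ, d ≠ 0 ∧ Polynomial.aeval (mo (0, 1)) d ∈ I := by
  have hfin' : ∀ p : ℕ, p.Prime → Finite (Lam ⧸ (I.comap FaD_s ⊔ Ideal.span {(p : Lam)})) := by
    intro p hp
    have h1 : I.comap FaD_s ⊔ Ideal.span {(p : Lam)} ≤ (I ⊔ Ideal.span {(p : Lam)}).comap FaD_s := by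
      refine sup_le (Ideal.comap_mono le_sup_left) ?_
      rw [Ideal.span_singleton_le_iff_mem, Ideal.mem_comap, map_natCast]
      exact Ideal.mem_sup_right (Ideal.mem_span_singleton_self _)
    have h2 : (I ⊔ Ideal.span {(p : Lam)}).comap FaD_s ≤ I.comap FaD_s ⊔ Ideal.span {(p : Lam)} := by
      intro f hf
      obtain ⟨i, hi, g, hg, h3⟩ := Submodule.mem_sup.1 (Ideal.mem_comap.1 hf)
      obtain ⟨c, rfl⟩ := Ideal.mem_span_singleton'.1 hg
      have h4 : f = FaD_s i + FaD_s c * (p : Lam) := by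
        rw [← FaD_ss f, ← h3, map_add, map_mul, map_natCast]
      rw [h4]
      refine Ideal.add_mem _ (Ideal.mem_sup_left ?_)
        (Ideal.mul_mem_left _ _ (Ideal.mem_sup_right (Ideal.mem_span_singleton_self _)))
      rw [Ideal.mem_comap, FaD_ss]
      exact hi
    haveI := hfin p hp
    exact Finite.of_injective _ (Ideal.quotientMap_injective' (H := h1) h2)
  obtain ⟨d, hd, h⟩ := elim_x hfin'
  refine ⟨d, hd, ?_⟩
  rw [Ideal.mem_comap, Polynomial.aeval_def, Polynomial.hom_eval₂, FaD_mo] at h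
  rw [Polynomial.aeval_def]
  rwa [show FaD_s.comp (algebraMap ℤ Lam) = algebraMap ℤ Lam from RingHom.ext_int _ _] at h

end Pool.Agent.H28.IP
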