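/-
ROW FbA. If `x, y` are algebraic modulo `I` then `Lam ⧸ I` has finite rank as an abelian group.
PROOF. `π = Ideal.Quotient.mk I`. (0) We may assume `d.coeff 0 ≠ 0`: `d = X^k * d'` with `d'.coeff 0 ≠ 0`
(`Polynomial.exists_eq_pow_rootMultiplicity_mul_and_not_dvd` or `divX` induction), `mo (k,0)` is a unit. Same
for `e` (for `y`). Let `a = natDegree d`, `b = natDegree e`. Let `E` be the finite set of the `π (mo (i, j))`, `0 ≤ i < a`,
`0 ≤ j < b`, and `T = {m | ∃ n : ℤ, n ≠ 0 ∧ n • m ∈ closure E}`: an additive subgroup, and `c • m ∈ T`, `c ≠ 0`, imply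
`m ∈ T`. (1) For fixed `j` with `0 ≤ j < b` all `π (mo (i, j)) ∈ T`, `i ∈ ℤ`: by strong induction upwards from `i ≥ a`:
`0 = π (mo (i-a, j) * aeval (mo (1,0)) d) = ∑_{l ≤ a} d_l π (mo (i-a+l, j))`, so `d_a • π (mo (i,j)) ∈ T`; downwards
for `i < 0`: `0 = ∑_l d_l π (mo (i+l, j))`, so `d_0 • π (mo (i,j)) ∈ T`. (2) For fixed `i ∈ ℤ` the same argument in
`j` with `e`, starting from (1), gives `π (mo (i, j)) ∈ T` for all `i, j ∈ ℤ`. (If `a = 0` or `b = 0` the same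
argument works, `E = ∅`: `d_0 • π (mo (i,j)) = 0`.) (3) lam_ind.
It is convenient to prove first the general lemma: if `A : ℤ → Prop`, `A i` for `0 ≤ i < a`, and `A` of `a`
consecutive integers implies `A` of the next and of the previous integer, then `A i` for all `i`.
-/
import Pool.Agent.H28.IP.EvA

set_option autoImplicit false

namespace Pool.Agent.H28.IP

theorem fbA_x (i : ℤ) : ((XL ^ i : Lamˣ) : Lam) = mo (i, 0) := by
  induction i using Int.induction_on with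
  | zero =>
    rw [zpow_zero, Units.val_one]
    exact mo_zero.symm
  | succ n ih =>
    rw [zpow_add_one, Units.val_mul, ih]
    show mo ((n : ℤ), 0) * mo (1, 0) = mo ((n : ℤ) + 1, 0)
    rw [← mo_add]
    rfl
  | pred n ih =>
    rw [zpow_sub_one, Units.val_mul, ih]
    show mo (-(n : ℤ), 0) * mo (-1, 0) = mo (-(n : ℤ) - 1, 0)
    rw [← mo_add]
    rfl

theorem fbA_y (i : ℤ) : ((YL ^ i : Lamˣ) : Lam) = mo (0, i) := by
  induction i using Int.induction_on with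
  | zero =>
    rw [zpow_zero, Units.val_one]
    exact mo_zero.symm
  | succ n ih =>
    rw [zpow_add_one, Units.val_mul, ih]
    show mo (0, (n : ℤ)) * mo (0, 1) = mo (0, (n : ℤ) + 1)
    rw [← mo_add]
    rfl
  | pred n ih =>
    rw [zpow_sub_one, Units.val_mul, ih]
    show mo (0, -(n : ℤ)) * mo (0, -1) = mo (0, -(n : ℤ) - 1)
    rw [← mo_add]
    rfl

theorem fbA_xy (I : Ideal Lam) (i j : ℤ) :
    ((XJ I ^ i : (Lam ⧸ I)ˣ) : Lam ⧸ I) * ((YJ I ^ j : (Lam ⧸ I)ˣ) : Lam ⧸ I) =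
      Ideal.Quotient.mk I (mo (i, j)) := by
  have h1 : ((XJ I ^ i : (Lam ⧸ I)ˣ) : Lam ⧸ I) = Ideal.Quotient.mk I ((XL ^ i : Lamˣ) : Lam) := by
    rw [XJ, ← map_zpow]
    rfl
  have h2 : ((YJ I ^ j : (Lam ⧸ I)ˣ) : Lam ⧸ I) = Ideal.Quotient.mk I ((YL ^ j : Lamˣ) : Lam) := by
    rw [YJ, ← map_zpow]
    rfl
  rw [h1, h2, fbA_x, fbA_y, ← map_mul, ← mo_add]
  congr 2
  ext <;> simp

section gen

variable {R : Type} [CommRing R]

theorem fbA_red (u : Rˣ) {d : Polynomial ℤ} (hd : d ≠ 0) (h : Polynomial.aeval (u : R) d = 0) :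
    ∃ d' : Polynomial ℤ, d'.coeff 0 ≠ 0 ∧ Polynomial.aeval (u : R) d' = 0 := by
  obtain ⟨q, h1, h2⟩ := Polynomial.exists_eq_pow_rootMultiplicity_mul_and_not_dvd d hd 0
  rw [map_zero, sub_zero] at h1 h2
  refine ⟨q, fun h0 => h2 (Polynomial.X_dvd_iff.2 h0), ?_⟩
  rw [h1, map_mul, map_pow, Polynomial.aeval_X, ← Units.val_pow_eq_pow_val] at h
  exact (Units.mul_right_eq_zero _).1 h

theorem fbA_sum (u : Rˣ) {d : Polynomial ℤ} (h : Polynomial.aeval (u : R) d = 0) (c : R) (i : ℤ) :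
    ∑ l ∈ Finset.range (d.natDegree + 1), d.coeff l • (((u ^ (i + l) : Rˣ) : R) * c) = 0 := by
  have h1 : ((u ^ i : Rˣ) : R) * Polynomial.aeval (u : R) d * c = 0 := by
    rw [h, mul_zero, zero_mul]
  rw [Polynomial.aeval_eq_sum_range, Finset.mul_sum, Finset.sum_mul] at h1
  rw [← h1]
  refine Finset.sum_congr rfl fun l _ => ?_
  rw [zpow_add, Units.val_mul, zpow_natCast, Units.val_pow_eq_pow_val, mul_smul_comm,
    smul_mul_assoc]

theorem fbA_rec (u : Rˣ) {d : Polynomial ℤ} (h0 : d.coeff 0 ≠ 0)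
    (h : Polynomial.aeval (u : R) d = 0) (c : R) (T : AddSubgroup R)
    (hT : ∀ (n : ℤ) (m : R), n ≠ 0 → n • m ∈ T → m ∈ T)
    (hb : ∀ i : ℕ, i < d.natDegree → ((u ^ i : Rˣ) : R) * c ∈ T) (i : ℤ) :
    ((u ^ i : Rˣ) : R) * c ∈ T := by
  have hd : d ≠ 0 := fun e => h0 (by rw [e, Polynomial.coeff_zero])
  have hl : d.coeff d.natDegree ≠ 0 := by
    rw [Polynomial.coeff_natDegree]
    exact Polynomial.leadingCoeff_ne_zero.2 hd
  have up : ∀ n : ℕ, ∀ i : ℤ, 0 ≤ i → i < d.natDegree + n → ((u ^ i : Rˣ) : R) * c ∈ T := by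
    intro n
    induction n with
    | zero =>
      intro i hi hi'
      obtain ⟨k, rfl⟩ := Int.eq_ofNat_of_zero_le hi
      rw [zpow_natCast]
      exact hb k (by push_cast at hi'; omega)
    | succ n ih =>
      intro i hi hi'
      by_cases hc : i < d.natDegree + n
      · exact ih i hi hc
      have hi2 : i = d.natDegree + n := by push_cast at hi'; omega
      have hs := fbA_sum u h c (n : ℤ)
      rw [Finset.sum_range_succ] at hs
      refine hT _ _ hl ?_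
      have e : ((n : ℤ) + (d.natDegree : ℤ)) = i := by rw [hi2]; ring
      rw [e] at hs
      rw [eq_neg_of_add_eq_zero_right hs]
      refine T.neg_mem (T.sum_mem fun l hl => T.zsmul_mem (ih _ (by positivity) ?_) _)
      have := Finset.mem_range.1 hl
      omega
  have dn : ∀ n : ℕ, ∀ i : ℤ, -(n : ℤ) ≤ i → ((u ^ i : Rˣ) : R) * c ∈ T := by
    intro n
    induction n with
    | zero =>
      intro i hi
      exact up (i.toNat + 1) i (by simpa using hi) (by push_cast; omega)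
    | succ n ih =>
      intro i hi
      by_cases hc : -(n : ℤ) ≤ i
      · exact ih i hc
      have hi2 : i = -((n : ℤ) + 1) := by push_cast at hi; omega
      have hs := fbA_sum u h c i
      rw [Finset.sum_range_succ'] at hs
      refine hT _ _ h0 ?_
      have e : (i + ((0 : ℕ) : ℤ)) = i := by simp
      rw [e] at hs
      rw [eq_neg_of_add_eq_zero_right hs]
      refine T.neg_mem (T.sum_mem fun l _ => T.zsmul_mem (ih _ ?_) _)
      push_cast
      omega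
  exact dn i.natAbs i (by omega)

end gen

theorem rat_span {I : Ideal Lam} {d e : Polynomial ℤ} (hd : d ≠ 0) (he : e ≠ 0)
    (hdI : Polynomial.aeval (mo (1, 0)) d ∈ I) (heI : Polynomial.aeval (mo (0, 1)) e ∈ I) :
    ∃ E : Finset (Lam ⧸ I), ∀ m : Lam ⧸ I, ∃ n : ℤ, n ≠ 0 ∧
      n • m ∈ AddSubgroup.closure (E : Set (Lam ⧸ I)) := by
  classical
  have key : ∀ (f : Polynomial ℤ) (z : ℤ × ℤ), Polynomial.aeval (mo z) f ∈ I →
      Polynomial.aeval (Ideal.Quotient.mk I (mo z)) f = 0 := fun f z hf => by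
    have h1 : Polynomial.aeval (Ideal.Quotient.mk I (mo z)) f =
        Ideal.Quotient.mk I (Polynomial.aeval (mo z) f) := by
      rw [Polynomial.aeval_def, Polynomial.aeval_def, Polynomial.hom_eval₂]
      congr 1
    rw [h1]
    exact Ideal.Quotient.eq_zero_iff_mem.2 hf
  obtain ⟨d', hd0, hd'⟩ := fbA_red (XJ I) hd (key d _ hdI)
  obtain ⟨e', he0, he'⟩ := fbA_red (YJ I) he (key e _ heI)
  obtain ⟨E, hE⟩ : ∃ E : Finset (Lam ⧸ I), E = (Finset.range d'.natDegree ×ˢ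
      Finset.range e'.natDegree).image fun z : ℕ × ℕ =>
        ((XJ I ^ z.1 : (Lam ⧸ I)ˣ) : Lam ⧸ I) * ((YJ I ^ z.2 : (Lam ⧸ I)ˣ) : Lam ⧸ I) := ⟨_, rfl⟩
  obtain ⟨T, hT⟩ : ∃ T : AddSubgroup (Lam ⧸ I), ∀ m, m ∈ T ↔ ∃ n : ℤ, n ≠ 0 ∧
      n • m ∈ AddSubgroup.closure (E : Set (Lam ⧸ I)) := by
    refine ⟨{ carrier := {m | ∃ n : ℤ, n ≠ 0 ∧ n • m ∈ AddSubgroup.closure (E : Set (Lam ⧸ I))}
              add_mem' := ?_
              zero_mem' := ⟨1, one_ne_zero, by rw [smul_zero]; exact zero_mem _⟩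
              neg_mem' := ?_ }, fun m => Iff.rfl⟩
    · rintro m m' ⟨n, hn, h⟩ ⟨n', hn', h'⟩
      refine ⟨n * n', mul_ne_zero hn hn', ?_⟩
      have e1 : (n * n') • (m + m') = n' • (n • m) + n • (n' • m') := by
        rw [smul_add, smul_smul, smul_smul, mul_comm n' n]
      rw [e1]
      exact add_mem (zsmul_mem h _) (zsmul_mem h' _)
    · rintro m ⟨n, hn, h⟩
      exact ⟨n, hn, by rw [smul_neg]; exact neg_mem h⟩
  have hsat : ∀ (n : ℤ) (m : Lam ⧸ I), n ≠ 0 → n • m ∈ T → m ∈ T := by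
    intro n m hn hm
    obtain ⟨n', hn', h⟩ := (hT _).1 hm
    exact (hT _).2 ⟨n' * n, mul_ne_zero hn' hn, by rwa [mul_smul]⟩
  have s1 : ∀ j : ℕ, j < e'.natDegree → ∀ i : ℤ,
      ((XJ I ^ i : (Lam ⧸ I)ˣ) : Lam ⧸ I) * ((YJ I ^ j : (Lam ⧸ I)ˣ) : Lam ⧸ I) ∈ T := by
    intro j hj
    refine fbA_rec (XJ I) hd0 hd' _ T hsat fun i hi => (hT _).2 ⟨1, one_ne_zero, ?_⟩
    rw [one_smul]
    refine AddSubgroup.subset_closure ?_
    rw [hE]
    exact Finset.mem_coe.2 (Finset.mem_image.2 ⟨(i, j), Finset.mem_product.2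
      ⟨Finset.mem_range.2 hi, Finset.mem_range.2 hj⟩, rfl⟩)
  have s2 : ∀ i j : ℤ,
      ((YJ I ^ j : (Lam ⧸ I)ˣ) : Lam ⧸ I) * ((XJ I ^ i : (Lam ⧸ I)ˣ) : Lam ⧸ I) ∈ T := by
    intro i
    refine fbA_rec (YJ I) he0 he' _ T hsat fun j hj => ?_
    rw [mul_comm]
    exact s1 j hj i
  refine ⟨E, fun m => (hT m).1 ?_⟩
  obtain ⟨f, rfl⟩ := Ideal.Quotient.mk_surjective m
  refine lam_ind (p := fun f => Ideal.Quotient.mk I f ∈ T) ?_ ?_ ?_ ?_ f
  · rw [map_zero]; exact zero_mem _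
  · intro f g hf hg
    rw [map_add]; exact add_mem hf hg
  · intro f hf
    rw [map_neg]; exact neg_mem hf
  · rintro ⟨i, j⟩
    rw [← fbA_xy, mul_comm]
    exact s2 i j

end Pool.Agent.H28.IP
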