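/-
ROW FbB. Number of generators in abelian groups of finite rank with finite torsion (Mathlib only).
PROOF. `r = E.card + T.ncard` where `T` is the torsion set. Let `A` be finitely generated. `A ⧸ torsion` is a
finitely generated torsion-free `ℤ`-module, so free with a finite basis indexed by `Fin s`
(`Module.finite…`, `Module.free_of_finite_type_torsion_free'`); lift the basis to elements `m₁, …, m_s ∈ A`. They are
linearly independent over `ℤ`. Choose `n_l ≠ 0` with `n_l • m_l ∈ closure E` (as a submodule `span ℤ E`); the
`n_l • m_l` are still independent, so `s ≤ E.card` (`linearIndependent_le_span` / `LinearIndependent.…` in the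
`ℤ`-module `span ℤ E`, strong rank condition). `A` is generated by the `m_l` and by `A ∩ T` (every element
of `A` is a combination of the `m_l` plus a torsion element). So at most `s + T.ncard ≤ r` generators.
-/
import Mathlib

set_option autoImplicit false

namespace Pool.Agent.H28.IP

open Cardinal in
theorem rank_bound {M : Type} [AddCommGroup M] (E : Finset M)
    (hE : ∀ m : M, ∃ n : ℤ, n ≠ 0 ∧ n • m ∈ AddSubgroup.closure (E : Set M))
    (hT : {m : M | ∃ n : ℤ, n ≠ 0 ∧ n • m = 0}.Finite) :
    ∃ r : ℕ, ∀ A : AddSubgroup M, A.FG →
      ∃ S : Finset M, S.card ≤ r ∧ AddSubgroup.closure (S : Set M) = A := by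
  classical
  refine ⟨E.card + hT.toFinset.card, fun A hA => ?_⟩
  let A' : Submodule ℤ M := AddSubgroup.toIntSubmodule A
  have hA' : A'.FG := by
    rw [Submodule.fg_iff_addSubgroup_fg]
    exact hA
  have hfin : Module.Finite ℤ A' := Module.Finite.iff_fg.mpr hA'
  let Q := A' ⧸ Submodule.torsion ℤ A'
  have hfree : Module.Free ℤ Q := Module.free_of_finite_type_torsion_free'
  let b := Module.finBasis ℤ Q
  set s := Module.finrank ℤ Q with hs
  have hlift : ∀ i : Fin s, ∃ m : A', (Submodule.Quotient.mk m : Q) = b i :=
    fun i => Submodule.Quotient.mk_surjective _ _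
  choose m hm using hlift
  choose n hn0 hnE using fun i => hE (m i : M)
  -- the elements `n i • m i` are independent in the span of `E`
  have hmem : ∀ i, n i • (m i : M) ∈ Submodule.span ℤ (E : Set M) := by
    intro i
    have h1 : AddSubgroup.closure (E : Set M) ≤ (Submodule.span ℤ (E : Set M)).toAddSubgroup :=
      (AddSubgroup.closure_le _).mpr Submodule.subset_span
    exact h1 (hnE i)
  let v : Fin s → Submodule.span ℤ (E : Set M) := fun i => ⟨n i • (m i : M), hmem i⟩
  have hv : LinearIndependent ℤ v := by
    rw [Fintype.linearIndependent_iff]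
    intro g hg i
    have h1 : (∑ i, (g i * n i) • m i : A') = 0 := by
      apply Subtype.ext
      have h2 := congrArg Subtype.val hg
      simp only [v, Submodule.coe_sum, Submodule.coe_smul, Submodule.coe_zero] at h2
      simp only [Submodule.coe_sum, Submodule.coe_smul, Submodule.coe_zero, mul_smul]
      exact h2
    have h3 : ∑ i, (g i * n i) • b i = 0 := by
      have h4 := congrArg (Submodule.mkQ (Submodule.torsion ℤ A')) h1
      rw [map_sum, map_zero] at h4
      rw [← h4]
      refine Finset.sum_congr rfl fun i _ => ?_
      rw [map_smul, ← hm i]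
      rfl
    have h5 := (Fintype.linearIndependent_iff.mp b.linearIndependent) _ h3 i
    exact (mul_eq_zero.mp h5).resolve_right (hn0 i)
  have hcard : s ≤ E.card := by
    have h1 := hv.cardinal_le_rank.trans (rank_span_le (R := ℤ) (E : Set M))
    rw [Cardinal.mk_fin] at h1
    have h2 : #(E : Set M) = (E.card : Cardinal) := by simp
    rw [h2] at h1
    exact_mod_cast h1
  refine ⟨(Finset.univ.image fun i => (m i : M)) ∪ hT.toFinset.filter (· ∈ A), ?_, ?_⟩
  · refine (Finset.card_union_le _ _).trans ?_
    refine Nat.add_le_add ?_ (Finset.card_filter_le _ _)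
    refine Finset.card_image_le.trans ?_
    simpa using hcard
  · apply le_antisymm
    · rw [AddSubgroup.closure_le]
      intro x hx
      rw [Finset.mem_coe, Finset.mem_union, Finset.mem_image, Finset.mem_filter] at hx
      rcases hx with ⟨i, -, rfl⟩ | ⟨-, h⟩
      · exact (m i).2
      · exact h
    · intro a ha
      let a' : A' := ⟨a, ha⟩
      let q : Q := Submodule.Quotient.mk a'
      set c := fun i => b.repr q i with hc
      let t : A' := a' - ∑ i, c i • m i
      have ht : t ∈ Submodule.torsion ℤ A' := by
        rw [← Submodule.Quotient.mk_eq_zero]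
        have h1 : (Submodule.Quotient.mk t : Q) = q - ∑ i, c i • b i := by
          change Submodule.mkQ (Submodule.torsion ℤ A') t = _
          simp only [t, map_sub, map_sum, map_smul]
          congr 1
          refine Finset.sum_congr rfl fun i _ => ?_
          rw [← hm i]
          rfl
        rw [h1, hc, b.sum_repr, sub_self]
      obtain ⟨k, hk⟩ := (Submodule.mem_torsion_iff t).mp ht
      have hta : a = (t : M) + ∑ i, c i • (m i : M) := by
        simp only [t, Submodule.coe_sub, Submodule.coe_sum, Submodule.coe_smul]
        rw [sub_add_cancel]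
      rw [hta]
      refine AddSubgroup.add_mem _ (AddSubgroup.subset_closure ?_) (AddSubgroup.sum_mem _ fun i _ =>
        AddSubgroup.zsmul_mem _ (AddSubgroup.subset_closure ?_) _)
      · rw [Finset.mem_coe, Finset.mem_union, Finset.mem_filter, Set.Finite.mem_toFinset]
        right
        refine ⟨⟨(k : ℤ), nonZeroDivisors.coe_ne_zero k, ?_⟩, t.2⟩
        have := congrArg Subtype.val hk
        exact this
      · rw [Finset.mem_coe, Finset.mem_union, Finset.mem_image]
        exact Or.inl ⟨i, Finset.mem_univ _, rfl⟩

end Pool.Agent.H28.IP
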