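/-
ROW FbC. The torsion of `Lam ⧸ I` is finite.
PROOF. `R = Lam ⧸ I` is Noetherian (lam_noeth). The ideals `T_k = {m | (k ! : R) * m = 0}` form an increasing
chain (`k ! ∣ l !` for `k ≤ l`), so `T_k = T_{k₀}` for `k ≥ k₀` (`monotone_stabilizes_iff_noetherian`); every
torsion element lies in some `T_k` (`n ∣ |n| !`), so the torsion set is `T = T_{k₀}`, killed by `n = k₀ !`. `T` is
a finitely generated ideal, `t₁, …, t_s`. The map `R^s → T`, `(r_l) ↦ ∑ r_l t_l` is surjective and only depends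
on the classes of the `r_l` modulo `n R`; `R ⧸ n R` is finite since it is a quotient (isomorphic copy) of
`Lam ⧸ (I ⊔ span {n})` (`DoubleQuot.quotQuotEquivQuotSup` or a direct surjection). So `T` is finite.
-/
import Pool.Agent.H28.IP.MxF

set_option autoImplicit false

namespace Pool.Agent.H28.IP

theorem FbC_mem {R : Type} [CommRing R] {n : ℕ} {m : R} :
    m ∈ LinearMap.ker (LinearMap.mulLeft R (n : R)) ↔ (n : R) * m = 0 := by
  rw [LinearMap.mem_ker, LinearMap.mulLeft_apply]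

/-- the chain of annihilators -/
def FbC_T (R : Type) [CommRing R] : ℕ →o Ideal R where
  toFun k := LinearMap.ker (LinearMap.mulLeft R ((Nat.factorial k : ℕ) : R))
  monotone' := by
    intro k l hkl m hm
    rw [FbC_mem] at hm ⊢
    obtain ⟨c, hc⟩ := Nat.factorial_dvd_factorial hkl
    rw [hc, Nat.cast_mul, mul_comm ((Nat.factorial k : ℕ) : R) (c : R), mul_assoc, hm, mul_zero]

theorem FbC_memT {R : Type} [CommRing R] {k : ℕ} {m : R} :
    m ∈ FbC_T R k ↔ ((Nat.factorial k : ℕ) : R) * m = 0 := FbC_mem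

theorem FbC_z {R : Type} [CommRing R] {z : ℤ} (hz : z ≠ 0) {m : R} (h : z • m = 0) :
    m ∈ FbC_T R z.natAbs := by
  rw [FbC_memT]
  have h1 : z.natAbs ∣ Nat.factorial z.natAbs :=
    Nat.dvd_factorial (Int.natAbs_pos.2 hz) le_rfl
  obtain ⟨c, hc⟩ := h1
  have h2 : ((z.natAbs : ℕ) : R) * m = 0 := by
    rw [zsmul_eq_mul] at h
    rcases Int.natAbs_eq z with h3 | h3
    · rw [h3, Int.cast_natCast] at h
      exact h
    · rw [h3, Int.cast_neg, Int.cast_natCast, neg_mul, neg_eq_zero] at h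
      exact h
  rw [hc, Nat.cast_mul, mul_comm ((z.natAbs : ℕ) : R) (c : R), mul_assoc, h2, mul_zero]

theorem tors_fin {I : Ideal Lam}
    (hfin : ∀ n : ℕ, n ≠ 0 → Finite (Lam ⧸ (I ⊔ Ideal.span {(n : Lam)}))) :
    {m : Lam ⧸ I | ∃ n : ℤ, n ≠ 0 ∧ n • m = 0}.Finite := by
  classical
  obtain ⟨k, hk⟩ := (monotone_stabilizes_iff_noetherian.2
    (inferInstance : IsNoetherian (Lam ⧸ I) (Lam ⧸ I))) (FbC_T (Lam ⧸ I))
  have hn0 : Nat.factorial k ≠ 0 := Nat.factorial_ne_zero k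
  obtain ⟨S, hS⟩ := IsNoetherian.noetherian (FbC_T (Lam ⧸ I) k)
  have := hfin (Nat.factorial k) hn0
  have hout : ∀ q : Lam ⧸ (I ⊔ Ideal.span {((Nat.factorial k : ℕ) : Lam)}), ∃ a : Lam,
      Ideal.Quotient.mk _ a = q := Ideal.Quotient.mk_surjective
  choose out hout using hout
  have hsub : {m : Lam ⧸ I | ∃ n : ℤ, n ≠ 0 ∧ n • m = 0} ⊆ Set.range
      (fun c : S → Lam ⧸ (I ⊔ Ideal.span {((Nat.factorial k : ℕ) : Lam)}) =>
        ∑ t : S, Ideal.Quotient.mk I (out (c t)) * (t : Lam ⧸ I)) := by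
    rintro m ⟨z, hz, hm⟩
    have h1 : m ∈ FbC_T (Lam ⧸ I) k := by
      rw [hk (max z.natAbs k) (le_max_right _ _)]
      exact (FbC_T (Lam ⧸ I)).monotone (le_max_left z.natAbs k) (FbC_z hz hm)
    have h2 := h1
    rw [← hS, Submodule.mem_span_finset'] at h2
    obtain ⟨r, hr⟩ := h2
    have hrep : ∀ t : S, ∃ a : Lam, Ideal.Quotient.mk I a = r t := fun t =>
      Ideal.Quotient.mk_surjective _
    choose a ha using hrep
    refine ⟨fun t => Ideal.Quotient.mk _ (a t), ?_⟩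
    rw [← hr]
    refine Finset.sum_congr rfl fun t _ => ?_
    have h3 : a t - out (Ideal.Quotient.mk _ (a t)) ∈
        I ⊔ Ideal.span {((Nat.factorial k : ℕ) : Lam)} := by
      rw [← Ideal.Quotient.eq, hout]
    obtain ⟨i, hi, j, hj, hij⟩ := Submodule.mem_sup.1 h3
    obtain ⟨b, rfl⟩ := Ideal.mem_span_singleton'.1 hj
    have h4 : (t : Lam ⧸ I) ∈ FbC_T (Lam ⧸ I) k := by
      rw [← hS]
      exact Submodule.subset_span t.2
    rw [FbC_memT] at h4
    have h5 : Ideal.Quotient.mk I (a t) - Ideal.Quotient.mk I (out (Ideal.Quotient.mk _ (a t))) =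
        Ideal.Quotient.mk I b * ((Nat.factorial k : ℕ) : Lam ⧸ I) := by
      rw [← map_sub, ← hij, map_add, Ideal.Quotient.eq_zero_iff_mem.2 hi, zero_add, map_mul,
        map_natCast]
    rw [smul_eq_mul, ← ha t]
    have h6 : (Ideal.Quotient.mk I (a t) -
        Ideal.Quotient.mk I (out (Ideal.Quotient.mk _ (a t)))) * (t : Lam ⧸ I) = 0 := by
      rw [h5, mul_assoc, h4, mul_zero]
    rw [sub_mul, sub_eq_zero] at h6
    exact h6.symm
  exact (Set.finite_range _).subset hsub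

end Pool.Agent.H28.IP
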