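/-
ROW FbD. Finite rank of `G`.
PROOF. `A₀ = Lam ⧸ Ann a b`, `π` the projection. `ev a b f = ev a b f' ↔ π f = π f'` (mem_Ann, ev_sub). FinRank with
`r + 2`. Let `H = closure S`, `S` finite. The set `Z = {z : ℤ × ℤ | ∃ h ∈ H, h * (a^z.1 * b^z.2)⁻¹ ∈ commutator G}` is an
additive subgroup of `ℤ²` (work in `Abelianization G`), so it is generated by two elements `z₁, z₂` (a submodule of
the free module `ℤ²` of rank 2 over a PID is free of rank `≤ 2`: `Submodule.basisOfPid`, or the usual argument: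
generator of the first coordinates and generator of the elements with first coordinate `0`). Choose
`h₁, h₂ ∈ H` for `z₁, z₂`. For `s ∈ S` (nf gives its exponents `z = k₁ z₁ + k₂ z₂ ∈ Z`):
`c_s = s * (h₁^k₁ * h₂^k₂)⁻¹ ∈ commutator G ⊓ H`, `c_s = ev a b (f_s)` (ev_surj). Let `A` be the additive subgroup of
`A₀` generated by the `π (f_s)`; by `hr` it is generated by a finset `S'` with at most `r` elements; choose `f_σ` with
`π (f_σ) = σ` for `σ ∈ S'`. The set `{f | ev a b f ∈ H}` is an additive subgroup containing the `f_s`, and membership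
only depends on `π f`; so `ev a b (f_σ) ∈ H`. Conversely `c_s ∈ closure {ev a b (f_σ)}` since `π f_s` is in the
closure of `S'`. So `H` is generated by `h₁, h₂` and the `ev a b (f_σ)`.
-/
import Pool.Agent.H28.IP.EvB

set_option autoImplicit false

namespace Pool.Agent.H28.IP

theorem FbD_Z2 (Z : AddSubgroup (ℤ × ℤ)) : ∃ z₁ ∈ Z, ∃ z₂ ∈ Z, ∀ z ∈ Z, ∃ k l : ℤ,
    z = k • z₁ + l • z₂ := by
  obtain ⟨n, hn⟩ := Int.subgroup_cyclic (Z.map (AddMonoidHom.fst ℤ ℤ))
  obtain ⟨m, hm⟩ := Int.subgroup_cyclic (Z.comap (AddMonoidHom.inr ℤ ℤ))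
  have h1 : n ∈ Z.map (AddMonoidHom.fst ℤ ℤ) := by
    rw [hn]
    exact AddSubgroup.subset_closure (Set.mem_singleton n)
  have h2 : m ∈ Z.comap (AddMonoidHom.inr ℤ ℤ) := by
    rw [hm]
    exact AddSubgroup.subset_closure (Set.mem_singleton m)
  obtain ⟨z₁, hz₁, e₁⟩ := h1
  refine ⟨z₁, hz₁, (0, m), h2, fun z hz => ?_⟩
  have h3 : z.1 ∈ Z.map (AddMonoidHom.fst ℤ ℤ) := ⟨z, hz, rfl⟩
  rw [hn] at h3
  obtain ⟨k, hk⟩ := AddSubgroup.mem_closure_singleton.1 h3
  have h4 : z - k • z₁ ∈ Z := Z.sub_mem hz (Z.zsmul_mem hz₁ k)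
  have h5 : (z - k • z₁).1 = 0 := by
    have : z₁.1 = n := e₁
    simp only [Prod.fst_sub, Prod.smul_fst, this, hk, sub_self]
  have h6 : (z - k • z₁).2 ∈ Z.comap (AddMonoidHom.inr ℤ ℤ) := by
    show (0, (z - k • z₁).2) ∈ Z
    rw [← h5]
    exact h4
  rw [hm] at h6
  obtain ⟨l, hl⟩ := AddSubgroup.mem_closure_singleton.1 h6
  refine ⟨k, l, ?_⟩
  have h7 : z - k • z₁ = l • ((0, m) : ℤ × ℤ) := by
    ext
    · rw [h5]
      simp
    · rw [← hl]
      rfl
  rw [← h7]
  abel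

theorem FbD_ker {G : Type} [Group G] {g : G} : g ∈ commutator G ↔ Abelianization.of g = 1 := by
  rw [← Abelianization.ker_of, MonoidHom.mem_ker]

/-- classes of Laurent polynomials evaluating into `H` -/
def FbD_P {G : Type} [Group G] [Metab G] (a b : G) (H : Subgroup G) :
    AddSubgroup (Lam ⧸ Ann a b) where
  carrier := {q | ∃ f, Ideal.Quotient.mk (Ann a b) f = q ∧ ev a b f ∈ H}
  zero_mem' := ⟨0, map_zero _, by rw [ev_zero]; exact H.one_mem⟩
  add_mem' := by
    rintro q q' ⟨f, e, hf⟩ ⟨f', e', hf'⟩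
    exact ⟨f + f', by rw [map_add, e, e'], by rw [ev_add]; exact H.mul_mem hf hf'⟩
  neg_mem' := by
    rintro q ⟨f, e, hf⟩
    exact ⟨-f, by rw [map_neg, e], by rw [ev_neg]; exact H.inv_mem hf⟩

theorem FbD_mem {G : Type} [Group G] [Metab G] {a b : G} {H : Subgroup G} {f : Lam} :
    Ideal.Quotient.mk (Ann a b) f ∈ FbD_P a b H ↔ ev a b f ∈ H := by
  constructor
  · rintro ⟨f', e, hf'⟩
    have h1 : f' - f ∈ Ann a b := Ideal.Quotient.eq.1 e
    rw [mem_Ann, ev_sub, mul_inv_eq_one] at h1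
    rwa [← h1]
  · intro h
    exact ⟨f, rfl, h⟩

/-- exponents of the elements of `H` -/
def FbD_E {G : Type} [Group G] (a b : G) (H : Subgroup G) : AddSubgroup (ℤ × ℤ) where
  carrier := {z | ∃ h ∈ H, Abelianization.of h = Abelianization.of a ^ z.1 * Abelianization.of b ^ z.2}
  zero_mem' := ⟨1, H.one_mem, by simp⟩
  add_mem' := by
    rintro z w ⟨g, hg, e⟩ ⟨h, hh, e'⟩
    refine ⟨g * h, H.mul_mem hg hh, ?_⟩
    rw [map_mul, e, e', Prod.fst_add, Prod.snd_add, zpow_add, zpow_add]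
    exact mul_mul_mul_comm _ _ _ _
  neg_mem' := by
    rintro z ⟨g, hg, e⟩
    refine ⟨g⁻¹, H.inv_mem hg, ?_⟩
    rw [map_inv, e, Prod.fst_neg, Prod.snd_neg, zpow_neg, zpow_neg, mul_inv]

theorem fin_rank {G : Type} [Group G] [Metab G] {a b : G} (hg : Gen2 a b) {r : ℕ}
    (hr : ∀ A : AddSubgroup (Lam ⧸ Ann a b), A.FG →
      ∃ S : Finset (Lam ⧸ Ann a b), S.card ≤ r ∧
        AddSubgroup.closure (S : Set (Lam ⧸ Ann a b)) = A) : FinRank G := by
  classical
  refine ⟨r + 2, fun H hH => ?_⟩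
  obtain ⟨S, hS⟩ := hH
  obtain ⟨z₁, hz₁, z₂, hz₂, hZ⟩ := FbD_Z2 (FbD_E a b H)
  obtain ⟨h₁, hh₁, e₁⟩ := hz₁
  obtain ⟨h₂, hh₂, e₂⟩ := hz₂
  have key : ∀ s : G, ∃ (k l : ℤ) (f : Lam), s ∈ H → s = ev a b f * (h₁ ^ k * h₂ ^ l) := by
    intro s
    by_cases hs : s ∈ H
    · obtain ⟨f, i, j, hf⟩ := nf hg s
      have h1 : Abelianization.of s = Abelianization.of a ^ i * Abelianization.of b ^ j := by
        rw [hf, map_mul, FbD_ker.1 (ev_mem a b f), one_mul, map_mul, map_zpow, map_zpow]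
      have h2 : (i, j) ∈ FbD_E a b H := ⟨s, hs, h1⟩
      obtain ⟨k, l, hkl⟩ := hZ _ h2
      have h3 : Abelianization.of (s * (h₁ ^ k * h₂ ^ l)⁻¹) = 1 := by
        have hi : i = z₁.1 * k + z₂.1 * l := by
          have := congrArg Prod.fst hkl
          simp only [Prod.fst_add, Prod.smul_fst, smul_eq_mul] at this
          rw [this]
          ring
        have hj : j = z₁.2 * k + z₂.2 * l := by
          have := congrArg Prod.snd hkl
          simp only [Prod.snd_add, Prod.smul_snd, smul_eq_mul] at this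
          rw [this]
          ring
        rw [map_mul, map_inv, mul_inv_eq_one, h1, map_mul, map_zpow, map_zpow, e₁, e₂, mul_zpow,
          mul_zpow, ← zpow_mul, ← zpow_mul, ← zpow_mul, ← zpow_mul, hi, hj, zpow_add, zpow_add]
        exact mul_mul_mul_comm _ _ _ _
      obtain ⟨f', hf'⟩ := ev_surj hg (FbD_ker.2 h3)
      refine ⟨k, l, f', fun _ => ?_⟩
      rw [hf']
      group
    · exact ⟨0, 0, 0, fun h => absurd h hs⟩
  choose k l f hf using key
  have hSH : ∀ s ∈ S, s ∈ H := fun s hs => by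
    rw [← hS]
    exact Subgroup.subset_closure hs
  obtain ⟨S', hc, hS'⟩ := hr (AddSubgroup.closure
    ((S.image fun s => Ideal.Quotient.mk (Ann a b) (f s) : Finset (Lam ⧸ Ann a b)) :
      Set (Lam ⧸ Ann a b))) ⟨_, rfl⟩
  have hmk : Function.Surjective (Ideal.Quotient.mk (Ann a b)) := Ideal.Quotient.mk_surjective
  choose g hgg using hmk
  have hfH : ∀ s ∈ S, ev a b (f s) ∈ H := by
    intro s hs
    have h1 := hf s (hSH s hs)
    have h2 : ev a b (f s) = s * (h₁ ^ (k s) * h₂ ^ (l s))⁻¹ := by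
      rw [eq_mul_inv_iff_mul_eq]
      exact h1.symm
    rw [h2]
    exact H.mul_mem (hSH s hs) (H.inv_mem (H.mul_mem (H.zpow_mem hh₁ _) (H.zpow_mem hh₂ _)))
  have hgH : ∀ σ ∈ S', ev a b (g σ) ∈ H := by
    intro σ hσ
    have h1 : σ ∈ AddSubgroup.closure (S' : Set (Lam ⧸ Ann a b)) :=
      AddSubgroup.subset_closure hσ
    rw [hS'] at h1
    have h2 : AddSubgroup.closure
        ((S.image fun s => Ideal.Quotient.mk (Ann a b) (f s) : Finset (Lam ⧸ Ann a b)) :
          Set (Lam ⧸ Ann a b)) ≤ FbD_P a b H := by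
      rw [AddSubgroup.closure_le]
      intro q hq
      obtain ⟨s, hs, rfl⟩ := Finset.mem_image.1 (Finset.mem_coe.1 hq)
      exact FbD_mem.2 (hfH s hs)
    have h3 := h2 h1
    rw [← hgg σ] at h3
    exact FbD_mem.1 h3
  refine ⟨insert h₁ (insert h₂ (S'.image fun σ => ev a b (g σ))), ?_, le_antisymm ?_ ?_⟩
  · have c1 := Finset.card_insert_le h₁ (insert h₂ (S'.image fun σ => ev a b (g σ)))
    have c2 := Finset.card_insert_le h₂ (S'.image fun σ => ev a b (g σ))
    have c3 : (S'.image fun σ => ev a b (g σ)).card ≤ S'.card := Finset.card_image_le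
    omega
  · rw [Subgroup.closure_le]
    intro x hx
    rw [Finset.mem_coe, Finset.mem_insert, Finset.mem_insert, Finset.mem_image] at hx
    rcases hx with rfl | rfl | ⟨σ, hσ, rfl⟩
    · exact hh₁
    · exact hh₂
    · exact hgH σ hσ
  · have hmem : ∀ x ∈ insert h₁ (insert h₂ (S'.image fun σ => ev a b (g σ))),
        x ∈ Subgroup.closure ((insert h₁ (insert h₂ (S'.image fun σ => ev a b (g σ))) :
          Finset G) : Set G) := fun x hx => Subgroup.subset_closure (Finset.mem_coe.2 hx)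
    set H' : Subgroup G := Subgroup.closure ((insert h₁ (insert h₂
      (S'.image fun σ => ev a b (g σ))) : Finset G) : Set G) with hH'
    have m1 : h₁ ∈ H' := hmem _ (Finset.mem_insert_self _ _)
    have m2 : h₂ ∈ H' := hmem _ (Finset.mem_insert_of_mem (Finset.mem_insert_self _ _))
    have m3 : ∀ σ ∈ S', ev a b (g σ) ∈ H' := fun σ hσ =>
      hmem _ (Finset.mem_insert_of_mem (Finset.mem_insert_of_mem (Finset.mem_image_of_mem _ hσ)))
    have m4 : AddSubgroup.closure (S' : Set (Lam ⧸ Ann a b)) ≤ FbD_P a b H' := by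
      rw [AddSubgroup.closure_le]
      intro σ hσ
      have h1 := FbD_mem.2 (m3 σ (Finset.mem_coe.1 hσ))
      rw [hgg σ] at h1
      exact h1
    rw [hS'] at m4
    rw [← hS, Subgroup.closure_le]
    intro s hs
    have hs' : s ∈ S := Finset.mem_coe.1 hs
    have h1 : Ideal.Quotient.mk (Ann a b) (f s) ∈ AddSubgroup.closure
        ((S.image fun s => Ideal.Quotient.mk (Ann a b) (f s) : Finset (Lam ⧸ Ann a b)) :
          Set (Lam ⧸ Ann a b)) :=
      AddSubgroup.subset_closure (Finset.mem_coe.2 (Finset.mem_image_of_mem _ hs'))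
    have h2 := FbD_mem.1 (m4 h1)
    show s ∈ H'
    rw [hf s (hSH s hs')]
    exact H'.mul_mem h2 (H'.mul_mem (H'.zpow_mem m1 _) (H'.zpow_mem m2 _))

end Pool.Agent.H28.IP
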