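/-
ROW GmA. The groups `Gam x y` are metabelian. Elements `⟨i, j, r⟩`.
PROOFS.
* gam_comm: `(g, h) ↦ (i, j)` is a homomorphism to a commutative group: `πi : Gam x y →* Multiplicative ℤ`
  with `g ↦ Multiplicative.ofAdd g.i` and similarly `πj`; a homomorphism to a commutative group kills the
  commutator subgroup (`Abelianization.commutator_subset_ker`).
* gam_metab: for `g, h` with `i = j = 0`: `(g * h).r = g.r + h.r` (`mul_r`, geo_zero, zpow_zero), so they
  commute.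
* gam_conj: `g * ⟨0, 0, s⟩ = ⟨i, j, r + x^i y^j s⟩` (geo x 0 = 0) `= ⟨0, 0, x^i y^j s⟩ * g` (geo y 0 = 0), then
  `mul_inv_eq_iff_eq_mul`.
* gam_c: `al * be = ⟨1, 1, 0⟩`, `⟨0,0,1⟩ * (be * al) = ⟨0,0,1⟩ * ⟨1, 1, -1⟩ = ⟨1, 1, 0⟩` (geo_one), and
  `al * be * al⁻¹ * be⁻¹ = (al * be) * (be * al)⁻¹`.
* gam_pow: `al ^ i = ⟨i, 0, 0⟩`, `be ^ j = ⟨0, j, 0⟩` (integer induction, `zpow_add_one`, ...), so
  `al ^ i * be ^ j = ⟨i, j, 0⟩`.
* evr_mo: `AddMonoidAlgebra.liftNCRingHom_single`, `mon`.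
* gam_ev: lam_ind; for `mo z`: ev_mo, `cz`, gam_c, gam_pow, gam_conj, evr_mo; additivity: `mul_r` with
  `i = j = 0`, ev_add, ev_neg (the inverse of `⟨0,0,r⟩` is `⟨0,0,-r⟩`).
-/
import Pool.Agent.H28.IP.EvA

set_option autoImplicit false

namespace Pool.Agent.H28.IP

variable {R : Type} [CommRing R] {x y : Rˣ}

/-- first coordinate -/
def GmA_i : Gam x y →* Multiplicative ℤ where
  toFun g := Multiplicative.ofAdd g.i
  map_one' := rfl
  map_mul' _ _ := rfl

/-- second coordinate -/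
def GmA_j : Gam x y →* Multiplicative ℤ where
  toFun g := Multiplicative.ofAdd g.j
  map_one' := rfl
  map_mul' _ _ := rfl

theorem gam_comm {g : Gam x y} (h : g ∈ commutator (Gam x y)) : g.i = 0 ∧ g.j = 0 := by
  have h1 := Abelianization.commutator_subset_ker (GmA_i (x := x) (y := y)) h
  have h2 := Abelianization.commutator_subset_ker (GmA_j (x := x) (y := y)) h
  rw [MonoidHom.mem_ker] at h1 h2
  exact ⟨congrArg Multiplicative.toAdd h1, congrArg Multiplicative.toAdd h2⟩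

instance gam_metab : Metab (Gam x y) where
  comm := by
    intro g hg h hh
    obtain ⟨a1, a2⟩ := gam_comm hg
    obtain ⟨b1, b2⟩ := gam_comm hh
    ext
    · rw [mul_i, mul_i, a1, b1]
    · rw [mul_j, mul_j, a2, b2]
    · rw [mul_r, mul_r, a1, a2, b1, b2, geo_zero, zpow_zero, zpow_zero]
      simp only [mul_one, Units.val_one, one_mul, geo_zero, mul_zero, sub_zero]
      ring

theorem gam_conj (g : Gam x y) (s : R) :
    g * ⟨0, 0, s⟩ * g⁻¹ = ⟨0, 0, ((x ^ g.i * y ^ g.j : Rˣ) : R) * s⟩ := by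
  rw [mul_inv_eq_iff_eq_mul]
  ext
  · rw [mul_i, mul_i]; ring
  · rw [mul_j, mul_j]; ring
  · rw [mul_r, mul_r]
    simp only [geo_zero, zpow_zero, mul_one, Units.val_one, one_mul, mul_zero, zero_mul, sub_zero]
    ring

theorem gam_c : (al : Gam x y) * be * al⁻¹ * be⁻¹ = ⟨0, 0, 1⟩ := by
  rw [mul_inv_eq_iff_eq_mul, mul_inv_eq_iff_eq_mul]
  ext
  · simp only [mul_i, al, be]; norm_num
  · simp only [mul_j, al, be]; norm_num
  · simp only [mul_r, mul_i, mul_j, al, be, geo_zero, geo_one, zpow_zero, mul_one, Units.val_one,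
      one_mul, mul_zero, zero_mul, sub_zero, add_zero, zero_add]
    ring

/-- powers of `al` -/
def GmA_al : Multiplicative ℤ →* Gam x y where
  toFun n := ⟨Multiplicative.toAdd n, 0, 0⟩
  map_one' := rfl
  map_mul' m n := by
    ext
    · rfl
    · simp [mul_j]
    · simp [mul_r, geo_zero]

/-- powers of `be` -/
def GmA_be : Multiplicative ℤ →* Gam x y where
  toFun n := ⟨0, Multiplicative.toAdd n, 0⟩
  map_one' := rfl
  map_mul' m n := by
    ext
    · simp [mul_i]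
    · rfl
    · simp [mul_r, geo_zero]

theorem GmA_pow {G : Type} [Group G] (f : Multiplicative ℤ →* G) (i : ℤ) :
    f (Multiplicative.ofAdd 1) ^ i = f (Multiplicative.ofAdd i) := by
  rw [← map_zpow, ← ofAdd_zsmul, smul_eq_mul, mul_one]

theorem gam_pow (i j : ℤ) : (al : Gam x y) ^ i * be ^ j = ⟨i, j, 0⟩ := by
  have h1 : (al : Gam x y) ^ i = ⟨i, 0, 0⟩ := GmA_pow (GmA_al (x := x) (y := y)) i
  have h2 : (be : Gam x y) ^ j = ⟨0, j, 0⟩ := GmA_pow (GmA_be (x := x) (y := y)) j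
  rw [h1, h2]
  ext
  · simp [mul_i]
  · simp [mul_j]
  · simp [mul_r, geo_zero]

theorem evr_mo (z : ℤ × ℤ) : evr x y (mo z) = ((x ^ z.1 * y ^ z.2 : Rˣ) : R) := by
  rw [evr, mo, AddMonoidAlgebra.liftNCRingHom_single]
  simp [mon]

theorem gam_ev (f : Lam) : ev (al : Gam x y) be f = ⟨0, 0, evr x y f⟩ := by
  refine lam_ind (p := fun f => ev (al : Gam x y) be f = ⟨0, 0, evr x y f⟩) ?_ ?_ ?_ ?_ f
  · rw [ev_zero, map_zero]; rfl
  · intro f g hf hg
    rw [ev_add, hf, hg, map_add]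
    ext
    · simp [mul_i]
    · simp [mul_j]
    · simp [mul_r, geo_zero]
  · intro f hf
    rw [ev_neg, hf, map_neg, inv_eq_iff_mul_eq_one]
    ext
    · simp [mul_i, one_i]
    · simp [mul_j, one_j]
    · simp [mul_r, one_r, geo_zero]
  · intro z
    rw [ev_mo, cz, gam_c, gam_pow, gam_conj, evr_mo, mul_one]

end Pool.Agent.H28.IP
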