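/-
ROW GmB. The groups `GJ J`.
PROOFS.
* gam_abfree: gam_pow and gam_comm.
* evr_mk: two ring homomorphisms `Lam →+* Lam ⧸ J` which agree on every `mo z` (lam_ind):
  `evr (XJ J) (YJ J) (mo z) = XJ^z.1 * YJ^z.2 = mk (XL ^ z.1 * YL ^ z.2) = mk (mo z)` (evr_mo, pow_XL, pow_YL,
  `Units.map`, `map_zpow`, mo_add).
* gj_ann: mem_Ann, gam_ev, evr_mk: `ev al be f = ⟨0, 0, mk f⟩ = 1 ↔ mk f = 0 ↔ f ∈ J`.
* gj_gen: the closure contains `al ^ i * be ^ j = ⟨i, j, 0⟩` and `ev al be f = ⟨0, 0, mk f⟩` (the closure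
  contains every `cz al be z`, hence by lam_ind every `ev al be f`), and
  `⟨0, 0, mk f⟩ * ⟨i, j, 0⟩ = ⟨i, j, mk f⟩`; `Ideal.Quotient.mk_surjective`.
* geo_map: `geo (Units.map φ x) k = φ (geo x k)`: both sides satisfy geo_zero, geo_succ (integer
  induction).
* gjMap_exists: for `J ≤ K` the map `⟨i, j, r⟩ ↦ ⟨i, j, Ideal.Quotient.factor h r⟩` is a homomorphism (`mul_r`,
  geo_map; `factor` maps `XJ J` to `XJ K`).
-/
import Pool.Agent.H28.IP.GmA
import Pool.Agent.H28.IP.CmF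

set_option autoImplicit false

namespace Pool.Agent.H28.IP

theorem gam_abfree {R : Type} [CommRing R] {x y : Rˣ} : AbFree (al : Gam x y) be := by
  intro i j h
  rw [gam_pow] at h
  exact gam_comm h

theorem geo_map {R S : Type} [CommRing R] [CommRing S] (φ : R →+* S) (x : Rˣ) (k : ℤ) :
    geo (Units.map (φ : R →* S) x) k = φ (geo x k) := by
  have hc : ∀ l : ℤ, (((Units.map (φ : R →* S) x) ^ l : Sˣ) : S) = φ ((x ^ l : Rˣ) : R) := by
    intro l
    rw [← map_zpow, Units.coe_map]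
    rfl
  induction k using Int.induction_on with
  | zero => rw [geo_zero, geo_zero, map_zero]
  | succ i ih => rw [geo_succ, geo_succ, map_add, ih, hc]
  | pred i ih =>
    have h1 := geo_succ (Units.map (φ : R →* S) x) (-(i : ℤ) - 1)
    have h2 := geo_succ x (-(i : ℤ) - 1)
    rw [sub_add_cancel] at h1 h2
    rw [ih, h2, map_add, hc] at h1
    exact (add_right_cancel h1).symm

theorem GmB_XJ (J : Ideal Lam) (k : ℤ) :
    ((XJ J ^ k : (Lam ⧸ J)ˣ) : Lam ⧸ J) = Ideal.Quotient.mk J (mo (k, 0)) := by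
  rw [XJ, ← map_zpow, Units.coe_map, pow_XL]
  rfl

theorem GmB_YJ (J : Ideal Lam) (k : ℤ) :
    ((YJ J ^ k : (Lam ⧸ J)ˣ) : Lam ⧸ J) = Ideal.Quotient.mk J (mo (0, k)) := by
  rw [YJ, ← map_zpow, Units.coe_map, pow_YL]
  rfl

theorem GmB_mo (z : ℤ × ℤ) : mo z = mo (z.1, 0) * mo (0, z.2) := by
  rw [← mo_add]
  simp

theorem evr_mk (J : Ideal Lam) (f : Lam) : evr (XJ J) (YJ J) f = Ideal.Quotient.mk J f := by
  refine lam_ind (p := fun f => evr (XJ J) (YJ J) f = Ideal.Quotient.mk J f) ?_ ?_ ?_ ?_ f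
  · rw [map_zero, map_zero]
  · intro f g hf hg
    rw [map_add, map_add, hf, hg]
  · intro f hf
    rw [map_neg, map_neg, hf]
  · intro z
    show evr (XJ J) (YJ J) (mo z) = Ideal.Quotient.mk J (mo z)
    rw [evr_mo, Units.val_mul, GmB_XJ, GmB_YJ, ← map_mul, ← GmB_mo]

theorem gj_ann (J : Ideal Lam) : Ann (al : GJ J) be = J := by
  ext f
  rw [mem_Ann, gam_ev, evr_mk]
  constructor
  · intro h
    have h1 : Ideal.Quotient.mk J f = 0 := by
      have := congrArg Gam.r h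
      exact this
    exact Ideal.Quotient.eq_zero_iff_mem.1 h1
  · intro h
    rw [Ideal.Quotient.eq_zero_iff_mem.2 h]
    rfl

theorem gj_gen (J : Ideal Lam) : Gen2 (al : GJ J) be := by
  rw [Gen2, eq_top_iff]
  have ha : (al : GJ J) ∈ Subgroup.closure {(al : GJ J), be} :=
    Subgroup.subset_closure (Set.mem_insert _ _)
  have hb : (be : GJ J) ∈ Subgroup.closure {(al : GJ J), be} :=
    Subgroup.subset_closure (Set.mem_insert_of_mem _ rfl)
  have hab : ∀ i j : ℤ, (al : GJ J) ^ i * be ^ j ∈ Subgroup.closure {(al : GJ J), be} := fun i j =>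
    mul_mem (zpow_mem ha i) (zpow_mem hb j)
  have hev : ∀ f : Lam, ev (al : GJ J) be f ∈ Subgroup.closure {(al : GJ J), be} := by
    intro f
    refine lam_ind (p := fun f => ev (al : GJ J) be f ∈ Subgroup.closure {(al : GJ J), be})
      ?_ ?_ ?_ ?_ f
    · rw [ev_zero]
      exact one_mem _
    · intro f g hf hg
      rw [ev_add]
      exact mul_mem hf hg
    · intro f hf
      rw [ev_neg]
      exact inv_mem hf
    · intro z
      rw [ev_mo, cz]
      exact mul_mem (mul_mem (hab _ _) (mul_mem (mul_mem (mul_mem ha hb) (inv_mem ha)) (inv_mem hb)))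
        (inv_mem (hab _ _))
  rintro ⟨i, j, r⟩ -
  obtain ⟨f, rfl⟩ := Ideal.Quotient.mk_surjective r
  have h1 : (⟨i, j, Ideal.Quotient.mk J f⟩ : GJ J) = ev (al : GJ J) be f * (al ^ i * be ^ j) := by
    rw [gam_ev, gam_pow, evr_mk]
    ext
    · rw [mul_i]
      simp
    · rw [mul_j]
      simp
    · rw [mul_r]
      simp [geo_zero]
  rw [h1]
  exact mul_mem (hev f) (hab i j)

theorem gjMap_exists {J K : Ideal Lam} (h : J ≤ K) : ∃ θ : GJ J →* GJ K,
    ∀ g : GJ J, (θ g).i = g.i ∧ (θ g).j = g.j ∧ (θ g).r = Ideal.Quotient.factor h g.r := by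
  have hX : ∀ k : ℤ, Ideal.Quotient.factor h ((XJ J ^ k : (Lam ⧸ J)ˣ) : Lam ⧸ J) =
      ((XJ K ^ k : (Lam ⧸ K)ˣ) : Lam ⧸ K) := by
    intro k
    rw [GmB_XJ, GmB_XJ, Ideal.Quotient.factor_mk]
  have hY : ∀ k : ℤ, Ideal.Quotient.factor h ((YJ J ^ k : (Lam ⧸ J)ˣ) : Lam ⧸ J) =
      ((YJ K ^ k : (Lam ⧸ K)ˣ) : Lam ⧸ K) := by
    intro k
    rw [GmB_YJ, GmB_YJ, Ideal.Quotient.factor_mk]
  have gX : ∀ k : ℤ, Ideal.Quotient.factor h (geo (XJ J) k) = geo (XJ K) k := by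
    intro k
    have e1 : geo (XJ J) k = Ideal.Quotient.mk J (geo XL k) := geo_map (Ideal.Quotient.mk J) XL k
    have e2 : geo (XJ K) k = Ideal.Quotient.mk K (geo XL k) := geo_map (Ideal.Quotient.mk K) XL k
    rw [e1, e2, Ideal.Quotient.factor_mk]
  have gY : ∀ k : ℤ, Ideal.Quotient.factor h (geo (YJ J) k) = geo (YJ K) k := by
    intro k
    have e1 : geo (YJ J) k = Ideal.Quotient.mk J (geo YL k) := geo_map (Ideal.Quotient.mk J) YL k
    have e2 : geo (YJ K) k = Ideal.Quotient.mk K (geo YL k) := geo_map (Ideal.Quotient.mk K) YL k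
    rw [e1, e2, Ideal.Quotient.factor_mk]
  refine ⟨MonoidHom.mk' (fun g : GJ J => (⟨g.i, g.j, Ideal.Quotient.factor h g.r⟩ : GJ K)) ?_, ?_⟩
  · intro g k
    ext
    · rfl
    · rfl
    · show Ideal.Quotient.factor h (g * k).r = _
      rw [mul_r, map_sub, map_add, map_mul, map_mul, map_mul, Units.val_mul, map_mul, hX, hY, gY, gX, mul_r,
        Units.val_mul]
  · intro g
    exact ⟨rfl, rfl, rfl⟩

end Pool.Agent.H28.IP
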