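/-
ROW Gri. The two descriptions of the group of a presentation.
PROOF. `F : FreeGroup (Fin P.1) →* FreeGroup ℕ` the map of generators `i ↦ (i : ℕ)`;
`F' : FreeGroup ℕ →* FreeGroup (Fin P.1)` with `x_i ↦ of ⟨i, h⟩` for `i < P.1` and `x_i ↦ 1` otherwise. For a word
`w : Word`: `F' (mk w) = mk (toFin P.1 w)` (induction on `w`, `FreeGroup.lift_mk`, `List.filterMap_cons`).
`F'` induces `GN P →* Grp P` (`PresentedGroup.toGroup`: relators `mk w ↦ mk (toFin P.1 w)`, `of i ↦ 1`).
`F` induces `Grp P →* GN P`: need `PresentedGroup.mk (relN P) (F (mk (toFin P.1 w))) = 1` for `w ∈ P.2`: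
`cl P w = PresentedGroup.mk (F (F' (mk w)))` because `PresentedGroup.mk ∘ F ∘ F'` and `PresentedGroup.mk`
agree on the generators (`x_i ↦ 1` in `GN P` for `i ≥ P.1`). The two maps are inverse to each other
(check on generators, `PresentedGroup.ext`).
-/
import Pool.Agent.H28.IP.Defs

set_option autoImplicit false

namespace Pool.Agent.H28.IP

/-- Auxiliary map. -/
noncomputable def Gri.Fp (n : ℕ) : FreeGroup ℕ →* FreeGroup (Fin n) :=
  FreeGroup.lift fun i => if h : i < n then FreeGroup.of ⟨i, h⟩ else 1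

theorem Gri.Fp_mk (n : ℕ) (w : Word) : Gri.Fp n (FreeGroup.mk w) = FreeGroup.mk (toFin n w) := by
  induction w with
  | nil =>
    show Gri.Fp n 1 = 1
    exact map_one _
  | cons l w ih =>
    have h1 : (FreeGroup.mk (l :: w) : FreeGroup ℕ) = FreeGroup.mk [l] * FreeGroup.mk w := by
      rw [FreeGroup.mul_mk]; rfl
    have h2 : (FreeGroup.mk (toFin n (l :: w)) : FreeGroup (Fin n)) =
        FreeGroup.mk (toFin n [l]) * FreeGroup.mk (toFin n w) := by
      rw [FreeGroup.mul_mk]
      congr 1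
      unfold toFin
      rw [← List.filterMap_append]
      rfl
    rw [h1, h2, map_mul, ih]
    congr 1
    obtain ⟨i, b⟩ := l
    unfold toFin Gri.Fp
    by_cases h : i < n
    · cases b
      · simp [h, FreeGroup.lift_mk, FreeGroup.of, FreeGroup.inv_mk, FreeGroup.invRev]
      · simp [h, FreeGroup.lift_mk, FreeGroup.of]
    · cases b
      · simp [h, FreeGroup.lift_mk, FreeGroup.one_eq_mk]
      · simp [h, FreeGroup.lift_mk, FreeGroup.one_eq_mk]

theorem grp_iso (P : Pres) : Nonempty (Grp P ≃* GN P) := by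
  classical
  -- generators of GN with large index are trivial
  have hbig : ∀ i, P.1 ≤ i → (PresentedGroup.mk (relN P) (FreeGroup.of i)) = 1 := by
    intro i hi
    rw [PresentedGroup.mk_eq_one_iff]
    exact Subgroup.subset_normalClosure (Or.inr ⟨i, hi, rfl⟩)
  have hrel : ∀ w ∈ P.2, (PresentedGroup.mk (relN P) (FreeGroup.mk w)) = 1 := by
    intro w hw
    rw [PresentedGroup.mk_eq_one_iff]
    exact Subgroup.subset_normalClosure (Or.inl ⟨w, hw, rfl⟩)
  -- the inclusion
  let F : FreeGroup (Fin P.1) →* GN P :=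
    FreeGroup.lift fun i => PresentedGroup.mk (relN P) (FreeGroup.of (i : ℕ))
  have hcomp : ∀ u : FreeGroup ℕ, F (Gri.Fp P.1 u) = PresentedGroup.mk (relN P) u := by
    intro u
    have : (F.comp (Gri.Fp P.1)) = PresentedGroup.mk (relN P) := by
      apply FreeGroup.ext_hom
      intro i
      by_cases h : i < P.1
      · simp [F, Gri.Fp, h]
      · simp [F, Gri.Fp, h, hbig i (not_lt.mp h)]
    exact DFunLike.congr_fun this u
  have hF : ∀ r ∈ {r : FreeGroup (Fin P.1) | ∃ w ∈ P.2, r = FreeGroup.mk (toFin P.1 w)},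
      FreeGroup.lift (fun i : Fin P.1 => PresentedGroup.mk (relN P) (FreeGroup.of (i : ℕ))) r = 1 := by
    rintro r ⟨w, hw, rfl⟩
    have := hcomp (FreeGroup.mk w)
    rw [Gri.Fp_mk, hrel w hw] at this
    exact this
  let Φ : Grp P →* GN P := PresentedGroup.toGroup hF
  have hG : ∀ r ∈ relN P, FreeGroup.lift (fun i : ℕ =>
      (PresentedGroup.mk {r : FreeGroup (Fin P.1) | ∃ w ∈ P.2, r = FreeGroup.mk (toFin P.1 w)})
        (Gri.Fp P.1 (FreeGroup.of i))) r = 1 := by
    have hl : FreeGroup.lift (fun i : ℕ =>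
      (PresentedGroup.mk {r : FreeGroup (Fin P.1) | ∃ w ∈ P.2, r = FreeGroup.mk (toFin P.1 w)})
        (Gri.Fp P.1 (FreeGroup.of i))) =
      (PresentedGroup.mk {r : FreeGroup (Fin P.1) | ∃ w ∈ P.2, r = FreeGroup.mk (toFin P.1 w)}).comp
        (Gri.Fp P.1) := by
      apply FreeGroup.ext_hom
      intro i
      simp
    rw [hl]
    rintro r (⟨w, hw, rfl⟩ | ⟨i, hi, rfl⟩)
    · rw [MonoidHom.comp_apply, Gri.Fp_mk, PresentedGroup.mk_eq_one_iff]
      exact Subgroup.subset_normalClosure ⟨w, hw, rfl⟩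
    · have : Gri.Fp P.1 (FreeGroup.of i) = 1 := by simp [Gri.Fp, not_lt.mpr hi]
      rw [MonoidHom.comp_apply, this, map_one]
  let Ψ : GN P →* Grp P := PresentedGroup.toGroup hG
  refine ⟨MonoidHom.toMulEquiv Φ Ψ ?_ ?_⟩
  · apply PresentedGroup.ext
    intro i
    have h1 : Φ (PresentedGroup.of i) = PresentedGroup.mk (relN P) (FreeGroup.of (i : ℕ)) := by
      exact PresentedGroup.toGroup.of hF
    have h2 : Ψ (PresentedGroup.of (i : ℕ)) = _ := PresentedGroup.toGroup.of hG
    rw [MonoidHom.comp_apply, h1]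
    show Ψ (PresentedGroup.of (i : ℕ)) = _
    rw [h2]
    simp [Gri.Fp]
    rfl
  · apply PresentedGroup.ext
    intro i
    have h2 : Ψ (PresentedGroup.of i) = _ := PresentedGroup.toGroup.of hG
    rw [MonoidHom.comp_apply, h2]
    have h3 : ∀ u : FreeGroup (Fin P.1), Φ (PresentedGroup.mk _ u) = F u := fun u => rfl
    rw [h3, hcomp]
    rfl

end Pool.Agent.H28.IP
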