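/-
ROW Re1. Closure properties of `Re` (Mathlib only).
PROOFS.
* re_prim: `R (a, n) := p a` (`PrimrecPred.comp h Primrec.fst`).
* re_of_eq: same `R`.
* re_comp: `R' (a, n) := R (f a, n)`: `PrimrecPred.comp hR ((hf.comp .fst).pair .snd)`.
* re_and: `R' (a, n) := R₁ (a, n.unpair.1) ∧ R₂ (a, n.unpair.2)` (`Primrec.unpair`, `PrimrecPred.and`,
  `Nat.unpair_pair`).
* re_or: `R' (a, n) := R₁ (a, n) ∨ R₂ (a, n)`.
* re_ex: `R' (a, n) := ∃ b, Encodable.decode n.unpair.1 = some b ∧ R ((a, b), n.unpair.2)`. It is a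
  `PrimrecPred`: with `⟨inst, hR⟩ := hR` its Boolean function is
  `(a, n) ↦ Option.casesOn (decode n.unpair.1 : Option β) false (fun b => decide (R ((a, b), n.unpair.2)))`
  (`Primrec.option_casesOn`, `Primrec.decode`), then `Primrec.primrecPred` / `PrimrecPred.of_eq`
  (classical decidability is fine: a `PrimrecPred` carries its own instance). For the direction `→` use
  `n = Nat.pair (Encodable.encode b) k` and `Encodable.encodek`.
-/
import Pool.Agent.H28.IP.Defs

set_option autoImplicit false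

namespace Pool.Agent.H28.IP

variable {α β : Type} [Primcodable α] [Primcodable β]

theorem re_prim {p : α → Prop} (h : PrimrecPred p) : Re p :=
  ⟨fun a => p a.1, h.comp Primrec.fst, fun a => ⟨fun ha => ⟨0, ha⟩, fun ⟨_, ha⟩ => ha⟩⟩

theorem re_of_eq {p q : α → Prop} (hp : Re p) (h : ∀ a, p a ↔ q a) : Re q := by
  obtain ⟨R, hR, hRp⟩ := hp
  exact ⟨R, hR, fun a => (h a).symm.trans (hRp a)⟩

theorem re_comp {p : β → Prop} (hp : Re p) {f : α → β} (hf : Primrec f) : Re fun a => p (f a) := by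
  obtain ⟨R, hR, hRp⟩ := hp
  exact ⟨fun a => R (f a.1, a.2), hR.comp ((hf.comp Primrec.fst).pair Primrec.snd),
    fun a => hRp (f a)⟩

theorem re_and {p q : α → Prop} (hp : Re p) (hq : Re q) : Re fun a => p a ∧ q a := by
  obtain ⟨R₁, hR₁, h₁⟩ := hp
  obtain ⟨R₂, hR₂, h₂⟩ := hq
  refine ⟨fun a => R₁ (a.1, a.2.unpair.1) ∧ R₂ (a.1, a.2.unpair.2), ?_, fun a => ?_⟩
  · exact PrimrecPred.and
      (hR₁.comp (Primrec.fst.pair (Primrec.fst.comp (Primrec.unpair.comp Primrec.snd))))
      (hR₂.comp (Primrec.fst.pair (Primrec.snd.comp (Primrec.unpair.comp Primrec.snd))))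
  · show p a ∧ q a ↔ _
    rw [h₁, h₂]
    constructor
    · rintro ⟨⟨m, hm⟩, ⟨n, hn⟩⟩
      exact ⟨Nat.pair m n, by simpa [Nat.unpair_pair] using ⟨hm, hn⟩⟩
    · rintro ⟨n, hn⟩
      exact ⟨⟨_, hn.1⟩, ⟨_, hn.2⟩⟩

theorem re_or {p q : α → Prop} (hp : Re p) (hq : Re q) : Re fun a => p a ∨ q a := by
  obtain ⟨R₁, hR₁, h₁⟩ := hp
  obtain ⟨R₂, hR₂, h₂⟩ := hq
  refine ⟨fun a => R₁ a ∨ R₂ a, PrimrecPred.or hR₁ hR₂, fun a => ?_⟩
  show p a ∨ q a ↔ _
  rw [h₁, h₂]
  exact exists_or.symm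

theorem re_ex {p : α × β → Prop} (hp : Re p) : Re fun a => ∃ b, p (a, b) := by
  classical
  obtain ⟨R, ⟨inst, hR⟩, hRp⟩ := hp
  refine ⟨fun a => ∃ b : β, (Encodable.decode a.2.unpair.1 : Option β) = some b ∧
    R ((a.1, b), a.2.unpair.2), ?_, fun a => ?_⟩
  · have h1 : Primrec fun a : α × ℕ => Option.casesOn (motive := fun _ => Bool)
        (Encodable.decode a.2.unpair.1 : Option β) false
        (fun b => decide (R ((a.1, b), a.2.unpair.2))) := by
      refine Primrec.option_casesOn (Primrec.decode.comp (Primrec.fst.comp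
        (Primrec.unpair.comp Primrec.snd))) (Primrec.const false) ?_
      refine Primrec.comp (f := fun x : (α × β) × ℕ => decide (R x))
        (g := fun z : (α × ℕ) × β => (((z.1.1, z.2), z.1.2.unpair.2) : (α × β) × ℕ)) hR ?_
      exact ((Primrec.fst.comp Primrec.fst).pair Primrec.snd).pair
        (Primrec.snd.comp (Primrec.unpair.comp (Primrec.snd.comp Primrec.fst)))
    refine PrimrecPred.of_eq (p := fun a : α × ℕ => Option.casesOn (motive := fun _ => Bool)
        (Encodable.decode a.2.unpair.1 : Option β) false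
        (fun b => decide (R ((a.1, b), a.2.unpair.2))) = true) ?_ ?_
    · exact ⟨inferInstance, h1.of_eq fun a => by simp only [Bool.decide_eq_true]⟩
    · intro a
      dsimp only
      cases h : (Encodable.decode a.2.unpair.1 : Option β) with
      | none => simp
      | some b => simp
  · constructor
    · rintro ⟨b, hb⟩
      obtain ⟨k, hk⟩ := (hRp (a, b)).1 hb
      refine ⟨Nat.pair (Encodable.encode b) k, b, ?_, ?_⟩
      · simp [Nat.unpair_pair]
      · simpa [Nat.unpair_pair] using hk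
    · rintro ⟨n, b, _, hb⟩
      exact ⟨b, (hRp (a, b)).2 ⟨_, hb⟩⟩

end Pool.Agent.H28.IP
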