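/-
ROW Re2. Bounded universal quantifier and decision from two enumerations (Mathlib only).
PROOFS.
* re_all: let `R` be the relation of `hp`. Put `R' (a, N) := ∀ b ∈ f a, ∃ k ∈ List.range N, R ((a, b), k)`.
  It is a `PrimrecPred`: `PrimrecRel.exists_mem_list`, `PrimrecRel.forall_mem_list` (Computability/Primrec/
  List.lean, `PrimrecRel fun (L : List α) b ↦ ∃ a ∈ L, R a b`) composed with `Primrec.list_range`, `hf`.
  `(∀ b ∈ f a, p (a, b)) ↔ ∃ N, R' (a, N)`: `←` clear; `→` by induction on the list `f a` (take the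
  maximum of the `k + 1`; `R'` is monotone in `N`).
* re_decide: let `R₁, R₂` be the relations of `p, q` (with their decidability instances). Let
  `g a n := if R₁ (a, n) then some true else if R₂ (a, n) then some false else none`, which is primitive
  recursive (`Primrec.ite`), and `D a := Nat.rfindOpt (g a)`; `Partrec.rfindOpt` (needs `Computable₂ g`).
  If `p a ∨ q a` then some `g a n ≠ none`, so `(D a).Dom` (`Nat.rfindOpt_dom`). If `b ∈ D a` then
  `b ∈ g a n` for some `n` (`Nat.rfindOpt_spec`), so `b = true → p a`, `b = false → q a`, and with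
  `¬ (p a ∧ q a)`: `b = true ↔ p a`.
-/
import Pool.Agent.H28.IP.Defs

set_option autoImplicit false

namespace Pool.Agent.H28.IP

variable {α β : Type} [Primcodable α] [Primcodable β]

theorem re_all {p : α × β → Prop} (hp : Re p) {f : α → List β} (hf : Primrec f) :
    Re fun a => ∀ b ∈ f a, p (a, b) := by
  obtain ⟨R, hR, hpR⟩ := hp
  have h1 : PrimrecRel fun (k : ℕ) (x : α × β) => R (x, k) :=
    PrimrecPred.comp (p := R) hR (Primrec.pair Primrec.snd Primrec.fst)
  have h2 : PrimrecRel fun (L : List ℕ) (x : α × β) => ∃ k ∈ L, R (x, k) :=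
    PrimrecRel.exists_mem_list h1
  have h3 : PrimrecRel fun (b : β) (x : α × ℕ) => ∃ k ∈ List.range x.2, R ((x.1, b), k) :=
    PrimrecPred.comp (p := fun q : List ℕ × (α × β) => ∃ k ∈ q.1, R (q.2, k)) h2
      (f := fun q : β × (α × ℕ) => (List.range q.2.2, (q.2.1, q.1)))
      (Primrec.pair (Primrec.list_range.comp (Primrec.snd.comp Primrec.snd))
        (Primrec.pair (Primrec.fst.comp Primrec.snd) Primrec.fst))
  have h4 : PrimrecRel fun (L : List β) (x : α × ℕ) =>
      ∀ b ∈ L, ∃ k ∈ List.range x.2, R ((x.1, b), k) := PrimrecRel.forall_mem_list h3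
  refine ⟨fun x : α × ℕ => ∀ b ∈ f x.1, ∃ k ∈ List.range x.2, R ((x.1, b), k), ?_, ?_⟩
  · exact PrimrecPred.comp
      (p := fun q : List β × (α × ℕ) => ∀ b ∈ q.1, ∃ k ∈ List.range q.2.2, R ((q.2.1, b), k)) h4
      (f := fun q : α × ℕ => (f q.1, q)) (Primrec.pair (hf.comp Primrec.fst) Primrec.id)
  · intro a
    constructor
    · intro h
      have key : ∀ L : List β, (∀ b ∈ L, p (a, b)) →
          ∃ N, ∀ b ∈ L, ∃ k ∈ List.range N, R ((a, b), k) := by
        intro L
        induction L with
        | nil => intro _; exact ⟨0, by simp⟩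
        | cons c L ih =>
          intro hL
          obtain ⟨N, hN⟩ := ih (fun b hb => hL b (List.mem_cons_of_mem _ hb))
          obtain ⟨k, hk⟩ := (hpR (a, c)).1 (hL c (List.mem_cons_self))
          refine ⟨max N (k + 1), ?_⟩
          intro b hb
          rcases List.mem_cons.1 hb with rfl | hb
          · exact ⟨k, List.mem_range.2 (by omega), hk⟩
          · obtain ⟨j, hj, hj'⟩ := hN b hb
            exact ⟨j, List.mem_range.2 (lt_of_lt_of_le (List.mem_range.1 hj) (le_max_left _ _)), hj'⟩
      exact key (f a) h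
    · rintro ⟨N, hN⟩ b hb
      obtain ⟨k, _, hk⟩ := hN b hb
      exact (hpR (a, b)).2 ⟨k, hk⟩

theorem re_decide {p q : α → Prop} (hp : Re p) (hq : Re q) :
    ∃ D : α →. Bool, Partrec D ∧
      ∀ a, (p a ∨ q a) → ¬ (p a ∧ q a) → ∃ b ∈ D a, (b = true ↔ p a) := by
  classical
  obtain ⟨R, hR, hpR⟩ := hp
  obtain ⟨S, hS, hqS⟩ := hq
  have hg : Primrec₂ (fun (a : α) (n : ℕ) =>
      if R (a, n) then some true else if S (a, n) then some false else (none : Option Bool)) := by
    have h0 : Primrec (fun x : α × ℕ =>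
        if R x then some true else if S x then some false else (none : Option Bool)) :=
      Primrec.ite hR (Primrec.const _) (Primrec.ite hS (Primrec.const _) (Primrec.const _))
    exact h0
  refine ⟨fun a => Nat.rfindOpt fun n =>
      if R (a, n) then some true else if S (a, n) then some false else (none : Option Bool),
      Partrec.rfindOpt hg.to_comp, ?_⟩
  intro a h1 h2
  have hdom : (Nat.rfindOpt fun n =>
      if R (a, n) then some true else if S (a, n) then some false else (none : Option Bool)).Dom := by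
    rw [Nat.rfindOpt_dom]
    rcases h1 with h1 | h1
    · obtain ⟨n, hn⟩ := (hpR a).1 h1
      exact ⟨n, true, by simp [hn]⟩
    · obtain ⟨n, hn⟩ := (hqS a).1 h1
      by_cases hr : R (a, n)
      · exact ⟨n, true, by simp [hr]⟩
      · exact ⟨n, false, by simp [hn, hr]⟩
  obtain ⟨b, hb⟩ := Part.dom_iff_mem.1 hdom
  refine ⟨b, hb, ?_⟩
  obtain ⟨n, hn⟩ := Nat.rfindOpt_spec hb
  by_cases hr : R (a, n)
  · have hbt : b = true := by simpa [hr, eq_comm] using hn
    have hpa : p a := (hpR a).2 ⟨n, hr⟩
    simp [hbt, hpa]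
  · by_cases hs : S (a, n)
    · have hbf : b = false := by simpa [hr, hs, eq_comm] using hn
      have hqa : q a := (hqS a).2 ⟨n, hs⟩
      have hnp : ¬ p a := fun h => h2 ⟨h, hqa⟩
      simp [hbf, hnp]
    · simp [hr, hs] at hn

end Pool.Agent.H28.IP
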