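/-
ROW WdA. Primitive recursive operations on words (Mathlib only).
PROOFS.
* prim_reduce: `FreeGroup.reduce` (Mathlib, FreeGroup/Reduce.lean) is a `List.rec`; show
  `FreeGroup.reduce w = w.foldr (fun hd ih => step hd ih) []` where
  `step hd ih = match ih with | [] => [hd] | hd2 :: tl => if hd.1 = hd2.1 ∧ hd.2 = !hd2.2 then tl else
  hd :: hd2 :: tl` (induction on `w`, `FreeGroup.reduce.cons`), and use `Primrec.list_foldr` (or directly
  `Primrec.list_rec`), `Primrec.list_casesOn`, `Primrec.ite`, `Primrec.eq`, `Primrec.not`. State it with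
  the `DecidableEq (ℕ)` instance found by unification.
* prim_invRev: `FreeGroup.invRev w = (w.map fun g => (g.1, !g.2)).reverse`; `Primrec.list_map`,
  `Primrec.list_reverse`.
* prim_subst: `Primrec.list_flatMap`, `Primrec.cond`, `Primrec.list_getD`, prim_invRev.
* subst_mk: induction on `w`: `FreeGroup.mk (u ++ v) = mk u * mk v` (`FreeGroup.mul_mk`),
  `FreeGroup.inv_mk`, `FreeGroup.lift_mk`.
* lift_subst: apply `FreeGroup.lift f` to subst_mk (two homomorphisms equal on generators, or by the
  same induction).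
-/
import Pool.Agent.H28.IP.Defs

set_option autoImplicit false

namespace Pool.Agent.H28.IP

theorem prim_reduce : Primrec (FreeGroup.reduce : Word → Word) := by
  have hstep : Primrec₂ fun (_ : Word) (b : (ℕ × Bool) × Word × Word) =>
      (List.casesOn (motive := fun _ => Word) b.2.2 [b.1] fun hd2 tl2 =>
        if b.1.1 = hd2.1 ∧ b.1.2 = !hd2.2 then tl2 else b.1 :: hd2 :: tl2) := by
    refine Primrec.list_casesOn (f := fun a : Word × ((ℕ × Bool) × Word × Word) => a.2.2.2)
      (g := fun a => [a.2.1])
      (h := fun a u => if a.2.1.1 = u.1.1 ∧ a.2.1.2 = !u.1.2 then u.2 else a.2.1 :: u.1 :: u.2)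
      ?_ ?_ ?_
    · exact Primrec.snd.comp (Primrec.snd.comp Primrec.snd)
    · exact Primrec.list_cons.comp (Primrec.fst.comp Primrec.snd) (Primrec.const [])
    · have h1 : Primrec fun z : (Word × ((ℕ × Bool) × Word × Word)) × ((ℕ × Bool) × Word) =>
          z.1.2.1 := Primrec.fst.comp (Primrec.snd.comp Primrec.fst)
      have h2 : Primrec fun z : (Word × ((ℕ × Bool) × Word × Word)) × ((ℕ × Bool) × Word) =>
          z.2.1 := Primrec.fst.comp Primrec.snd
      have h3 : Primrec fun z : (Word × ((ℕ × Bool) × Word × Word)) × ((ℕ × Bool) × Word) =>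
          z.2.2 := Primrec.snd.comp Primrec.snd
      refine Primrec.ite ?_ h3 (Primrec.list_cons.comp h1 (Primrec.list_cons.comp h2 h3))
      exact PrimrecPred.and (Primrec.eq.comp (Primrec.fst.comp h1) (Primrec.fst.comp h2))
        (Primrec.eq.comp (Primrec.snd.comp h1) (Primrec.not.comp (Primrec.snd.comp h2)))
  refine (Primrec.list_rec (f := fun w : Word => w) (g := fun _ => ([] : Word))
    (h := fun (_ : Word) (b : (ℕ × Bool) × Word × Word) =>
      (List.casesOn (motive := fun _ => Word) b.2.2 [b.1] fun hd2 tl2 =>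
        if b.1.1 = hd2.1 ∧ b.1.2 = !hd2.2 then tl2 else b.1 :: hd2 :: tl2))
    Primrec.id (Primrec.const []) hstep).of_eq fun w => ?_
  induction w with
  | nil => rfl
  | cons hd tl ih =>
    rw [FreeGroup.reduce.cons, ← ih]

theorem prim_invRev : Primrec (FreeGroup.invRev : Word → Word) := by
  refine Primrec.list_reverse.comp (Primrec.list_map Primrec.id ?_)
  exact (Primrec.fst.comp Primrec.snd).pair (Primrec.not.comp (Primrec.snd.comp Primrec.snd))

theorem prim_subst : Primrec₂ subst := by
  refine Primrec.list_flatMap (f := fun a : List Word × Word => a.2)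
    (g := fun a l => cond l.2 (a.1.getD l.1 []) (FreeGroup.invRev (a.1.getD l.1 [])))
    Primrec.snd ?_
  have h1 : Primrec fun z : (List Word × Word) × (ℕ × Bool) => z.1.1.getD z.2.1 [] :=
    (Primrec.list_getD ([] : Word)).comp (Primrec.fst.comp Primrec.fst)
      (Primrec.fst.comp Primrec.snd)
  exact Primrec.cond (Primrec.snd.comp Primrec.snd) h1 (prim_invRev.comp h1)

theorem subst_mk (W : List Word) (w : Word) : (FreeGroup.mk (subst W w) : FreeGroup ℕ) =
    FreeGroup.lift (fun i => (FreeGroup.mk (W.getD i []) : FreeGroup ℕ)) (FreeGroup.mk w) := by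
  induction w with
  | nil => simp [subst, FreeGroup.one_eq_mk]
  | cons l w ih =>
    have h1 : subst W (l :: w) =
        cond l.2 (W.getD l.1 []) (FreeGroup.invRev (W.getD l.1 [])) ++ subst W w := rfl
    have h2 : (FreeGroup.mk (l :: w) : FreeGroup ℕ) = FreeGroup.mk [l] * FreeGroup.mk w := by
      rw [FreeGroup.mul_mk]; rfl
    rw [h1, h2, ← FreeGroup.mul_mk, ih, map_mul]
    congr 1
    obtain ⟨i, b⟩ := l
    cases b
    · simp [FreeGroup.inv_mk]
    · simp

theorem lift_subst {G : Type} [Group G] (f : ℕ → G) (W : List Word) (w : Word) :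
    FreeGroup.lift f (FreeGroup.mk (subst W w)) =
      FreeGroup.lift (fun i => FreeGroup.lift f (FreeGroup.mk (W.getD i []))) (FreeGroup.mk w) := by
  rw [subst_mk]
  have h : (FreeGroup.lift f).comp
      (FreeGroup.lift (fun i => (FreeGroup.mk (W.getD i []) : FreeGroup ℕ))) =
      FreeGroup.lift (fun i => FreeGroup.lift f (FreeGroup.mk (W.getD i []))) := by
    ext i
    simp
  rw [← h]
  rfl

end Pool.Agent.H28.IP
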