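/-
ROW NcA. Membership in the normal closure of an enumerable set of words is enumerable.
PROOF. (1) For `S : Set (FreeGroup ℕ)`: `g ∈ normalClosure S` iff there is a list
`T : List (FreeGroup ℕ × FreeGroup ℕ × Bool)` with `e.2.1 ∈ S` for all `e ∈ T` and
`g = (T.map fun e => e.1 * (cond e.2.2 e.2.1 e.2.1⁻¹) * e.1⁻¹).prod` (`→`: `Subgroup.normalClosure S =
closure (Group.conjugatesOfSet S)`; `Subgroup.closure_induction` or `Subgroup.exists_list_of_mem_closure`:
every element of the closure is a product of a list of elements which are conjugates or inverses of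
conjugates of elements of `S`, `Group.mem_conjugatesOfSet_iff`, `isConj_iff`; `←`: `list_prod_mem`).
(2) Hence with words: `mk w ∈ normalClosure {r | ∃ v, Rel a v ∧ r = mk v}` iff there is
`T : List (Word × Word × Bool)` with `Rel a e.2.1` for all `e ∈ T` and
`FreeGroup.reduce w = FreeGroup.reduce (T.flatMap fun e => e.1 ++ cond e.2.2 e.2.1 (invRev e.2.1) ++
invRev e.1)` (`FreeGroup.reduce.exact`, `FreeGroup.reduce.self`/`reduce.sound`: equality of reduced
words iff `mk` equal; every element of the free group is `mk` of a word; `FreeGroup.inv_mk`,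
`FreeGroup.mul_mk`).
(3) The condition in (2) is `Re` in `(a, w)`: re_ex over `T`, re_and of re_all (the relation `h` composed
with `((a, w), T), e ↦ (a, e.2.1)`) and of a primitive recursive equation (prim_reduce, prim_invRev,
`Primrec.list_flatMap`, `Primrec.eq`).
-/
import Pool.Agent.H28.IP.Re1
import Pool.Agent.H28.IP.Re2
import Pool.Agent.H28.IP.WdA

set_option autoImplicit false

namespace Pool.Agent.H28.IP

/-- The product of conjugates coded by a list. -/
def NcA_wd (T : List (Word × Word × Bool)) : Word :=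
  T.flatMap fun e => e.1 ++ cond e.2.2 e.2.1 (FreeGroup.invRev e.2.1) ++ FreeGroup.invRev e.1

theorem NcA_cons (e : Word × Word × Bool) (T : List (Word × Word × Bool)) :
    (FreeGroup.mk (NcA_wd (e :: T)) : FreeGroup ℕ) =
      FreeGroup.mk e.1 * (cond e.2.2 (FreeGroup.mk e.2.1) (FreeGroup.mk e.2.1)⁻¹) *
        (FreeGroup.mk e.1)⁻¹ * FreeGroup.mk (NcA_wd T) := by
  have h : NcA_wd (e :: T) = e.1 ++ cond e.2.2 e.2.1 (FreeGroup.invRev e.2.1) ++
      FreeGroup.invRev e.1 ++ NcA_wd T := by
    simp only [NcA_wd, List.flatMap_cons]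
  rw [h, ← FreeGroup.mul_mk, ← FreeGroup.mul_mk, ← FreeGroup.mul_mk, FreeGroup.inv_mk]
  rcases e with ⟨u, v, b⟩
  cases b <;> simp only [cond_true, cond_false, FreeGroup.inv_mk]

theorem NcA_append (S T : List (Word × Word × Bool)) :
    (FreeGroup.mk (NcA_wd (S ++ T)) : FreeGroup ℕ) =
      FreeGroup.mk (NcA_wd S) * FreeGroup.mk (NcA_wd T) := by
  rw [FreeGroup.mul_mk]
  simp only [NcA_wd, List.flatMap_append]

theorem NcA_one : (FreeGroup.mk (NcA_wd []) : FreeGroup ℕ) = 1 := rfl

/-- The list for the inverse. -/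
def NcA_flip (T : List (Word × Word × Bool)) : List (Word × Word × Bool) :=
  (T.map fun e => (e.1, e.2.1, !e.2.2)).reverse

theorem NcA_flip_cons (e : Word × Word × Bool) (T : List (Word × Word × Bool)) :
    NcA_flip (e :: T) = NcA_flip T ++ [(e.1, e.2.1, !e.2.2)] := by
  simp only [NcA_flip, List.map_cons, List.reverse_cons]

theorem NcA_inv (T : List (Word × Word × Bool)) :
    (FreeGroup.mk (NcA_wd (NcA_flip T)) : FreeGroup ℕ) = (FreeGroup.mk (NcA_wd T))⁻¹ := by
  induction T with
  | nil => rw [NcA_one]; exact inv_one.symm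
  | cons e T ih =>
    rw [NcA_flip_cons, NcA_append, ih, NcA_cons, NcA_cons, NcA_one]
    rcases e with ⟨u, v, b⟩
    cases b
    · simp only [Bool.not_false, cond_true, cond_false]
      group
    · simp only [Bool.not_true, cond_true, cond_false]
      group

theorem NcA_mem_flip {T : List (Word × Word × Bool)} {P : Word → Prop}
    (h : ∀ e ∈ T, P e.2.1) : ∀ e ∈ NcA_flip T, P e.2.1 := by
  intro e he
  simp only [NcA_flip, List.mem_reverse, List.mem_map] at he
  obtain ⟨e', he', rfl⟩ := he
  exact h e' he'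

theorem NcA_iff (P : Word → Prop) (g : FreeGroup ℕ) :
    g ∈ Subgroup.normalClosure {r : FreeGroup ℕ | ∃ w, P w ∧ r = FreeGroup.mk w} ↔
      ∃ T : List (Word × Word × Bool), (∀ e ∈ T, P e.2.1) ∧ g = FreeGroup.mk (NcA_wd T) := by
  constructor
  · intro hg
    unfold Subgroup.normalClosure at hg
    induction hg using Subgroup.closure_induction with
    | mem x hx =>
      rw [Group.mem_conjugatesOfSet_iff] at hx
      obtain ⟨s, ⟨w, hw, rfl⟩, hx⟩ := hx
      rw [isConj_iff] at hx
      obtain ⟨c, rfl⟩ := hx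
      refine ⟨[(c.toWord, w, true)], ?_, ?_⟩
      · intro e he
        rw [List.mem_singleton] at he
        subst he
        exact hw
      · rw [NcA_cons, NcA_one, mul_one]
        simp only [cond_true, FreeGroup.mk_toWord]
    | one => exact ⟨[], by simp, NcA_one.symm⟩
    | mul x y _ _ hx hy =>
      obtain ⟨S, hS, rfl⟩ := hx
      obtain ⟨T, hT, rfl⟩ := hy
      refine ⟨S ++ T, ?_, (NcA_append S T).symm⟩
      intro e he
      rcases List.mem_append.1 he with he | he
      · exact hS e he
      · exact hT e he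
    | inv x _ hx =>
      obtain ⟨T, hT, rfl⟩ := hx
      exact ⟨NcA_flip T, NcA_mem_flip hT, (NcA_inv T).symm⟩
  · rintro ⟨T, hT, rfl⟩
    induction T with
    | nil => rw [NcA_one]; exact Subgroup.one_mem _
    | cons e T ih =>
      rw [NcA_cons]
      refine Subgroup.mul_mem _ ?_ (ih fun e' he' => hT e' (List.mem_cons_of_mem _ he'))
      refine Subgroup.Normal.conj_mem inferInstance _ ?_ _
      have h1 : (FreeGroup.mk e.2.1 : FreeGroup ℕ) ∈
          Subgroup.normalClosure {r : FreeGroup ℕ | ∃ w, P w ∧ r = FreeGroup.mk w} :=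
        Subgroup.subset_normalClosure ⟨e.2.1, hT e List.mem_cons_self, rfl⟩
      cases e.2.2
      · exact Subgroup.inv_mem _ h1
      · exact h1

theorem NcA_prim : Primrec NcA_wd := by
  refine Primrec.list_flatMap (g := fun (_ : List (Word × Word × Bool)) (e : Word × Word × Bool) =>
    e.1 ++ cond e.2.2 e.2.1 (FreeGroup.invRev e.2.1) ++ FreeGroup.invRev e.1) Primrec.id ?_
  have h1 : Primrec fun x : List (Word × Word × Bool) × (Word × Word × Bool) => x.2.1 :=
    Primrec.fst.comp Primrec.snd
  have h2 : Primrec fun x : List (Word × Word × Bool) × (Word × Word × Bool) => x.2.2.1 :=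
    Primrec.fst.comp (Primrec.snd.comp Primrec.snd)
  have h3 : Primrec fun x : List (Word × Word × Bool) × (Word × Word × Bool) => x.2.2.2 :=
    Primrec.snd.comp (Primrec.snd.comp Primrec.snd)
  exact Primrec.list_append.comp
    (Primrec.list_append.comp h1 (Primrec.cond h3 h2 (prim_invRev.comp h2))) (prim_invRev.comp h1)

theorem re_ncl {α : Type} [Primcodable α] {Rel : α → Word → Prop}
    (h : Re fun x : α × Word => Rel x.1 x.2) :
    Re fun x : α × Word => (FreeGroup.mk x.2 : FreeGroup ℕ) ∈
      Subgroup.normalClosure {r : FreeGroup ℕ | ∃ w, Rel x.1 w ∧ r = FreeGroup.mk w} := by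
  have h1 : Re fun z : ((α × Word) × List (Word × Word × Bool)) × (Word × Word × Bool) =>
      Rel z.1.1.1 z.2.2.1 :=
    re_comp h (f := fun z : ((α × Word) × List (Word × Word × Bool)) × (Word × Word × Bool) =>
      (z.1.1.1, z.2.2.1))
      ((Primrec.fst.comp (Primrec.fst.comp Primrec.fst)).pair
        (Primrec.fst.comp (Primrec.snd.comp Primrec.snd)))
  have h2 : Re fun y : (α × Word) × List (Word × Word × Bool) => ∀ e ∈ y.2, Rel y.1.1 e.2.1 :=
    re_all (p := fun z : ((α × Word) × List (Word × Word × Bool)) × (Word × Word × Bool) =>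
      Rel z.1.1.1 z.2.2.1) h1 (f := fun y => y.2) Primrec.snd
  have h3 : Re fun y : (α × Word) × List (Word × Word × Bool) =>
      FreeGroup.reduce y.1.2 = FreeGroup.reduce (NcA_wd y.2) :=
    re_prim (Primrec.eq.comp (prim_reduce.comp (Primrec.snd.comp Primrec.fst))
      (prim_reduce.comp (NcA_prim.comp Primrec.snd)))
  refine re_of_eq (re_ex (re_and h2 h3)) ?_
  intro x
  rw [NcA_iff]
  constructor
  · rintro ⟨T, hT, hr⟩
    exact ⟨T, hT, FreeGroup.reduce.exact hr⟩
  · rintro ⟨T, hT, hr⟩
    exact ⟨T, hT, FreeGroup.reduce.sound hr⟩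

end Pool.Agent.H28.IP
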