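/-
ROW WdB. Primitive recursive operations on lists of monomials (Mathlib only; prim_invRev from WdA).
PROOFS. All by unfolding and the lemmas of Mathlib/Computability/Primrec: `Primrec.list_flatMap`,
`Primrec.list_map`, `Primrec.list_append`, `Primrec.list_range`, `Primrec.nat_add`, `Primrec.nat_mul`,
`Primrec.cond`, `Primrec.const`, `Primrec.fst`, `Primrec.snd`, `Primrec.pair`.
* replicate: `List.replicate n a = (List.range n).map (fun _ => a)` (`List.map_const'`,
  `List.length_range`) so `fun u => List.replicate u.1 (k, true)` is primitive recursive.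
* prim_mx: `List.sum` is a foldr: `Primrec.list_foldr` (`List.sum_eq_foldr`).
* prim_box: three nested `list_flatMap` and one `list_map`; the inner functions depend on the outer
  variables through pairs.
-/
import Pool.Agent.H28.IP.WdA

set_option autoImplicit false

namespace Pool.Agent.H28.IP

theorem WdB_repl {α β : Type} [Primcodable α] [Primcodable β] {f : α → ℕ} (hf : Primrec f) (b : β) :
    Primrec (fun a => List.replicate (f a) b) := by
  have h : (fun a => List.replicate (f a) b) = fun a => (List.range (f a)).map (fun _ => b) := by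
    funext a
    rw [List.map_const', List.length_range]
  rw [h]
  exact Primrec.list_map (Primrec.list_range.comp hf) (Primrec.const b).to₂

theorem prim_zp (k : ℕ) : Primrec (zp k) := by
  unfold zp
  exact Primrec.list_append.comp (WdB_repl Primrec.fst (k, true)) (WdB_repl Primrec.snd (k, false))

theorem WdB_wz : Primrec wz := by
  unfold wz
  have hz0 : Primrec (fun e : (ℕ × ℕ) × (ℕ × ℕ) × Bool => zp 0 e.1) := (prim_zp 0).comp Primrec.fst
  have hz1 : Primrec (fun e : (ℕ × ℕ) × (ℕ × ℕ) × Bool => zp 1 e.2.1) :=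
    (prim_zp 1).comp (Primrec.fst.comp Primrec.snd)
  have hz := Primrec.list_append.comp hz0 hz1
  refine Primrec.list_append.comp hz (Primrec.list_append.comp ?_ (prim_invRev.comp hz))
  exact Primrec.cond (Primrec.snd.comp Primrec.snd) (Primrec.const cw) (Primrec.const (FreeGroup.invRev cw))

theorem prim_wl : Primrec wl := by
  unfold wl
  exact Primrec.list_flatMap Primrec.id (WdB_wz.comp Primrec.snd).to₂

theorem WdB_addp : Primrec₂ addp := by
  unfold addp
  exact Primrec.pair
    (Primrec.nat_add.comp (Primrec.fst.comp Primrec.fst) (Primrec.fst.comp Primrec.snd))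
    (Primrec.nat_add.comp (Primrec.snd.comp Primrec.fst) (Primrec.snd.comp Primrec.snd))

theorem WdB_mulp : Primrec₂ mulp := by
  unfold mulp
  have u1 : Primrec (fun p : (ℕ × ℕ) × (ℕ × ℕ) => p.1.1) := Primrec.fst.comp Primrec.fst
  have u2 : Primrec (fun p : (ℕ × ℕ) × (ℕ × ℕ) => p.1.2) := Primrec.snd.comp Primrec.fst
  have v1 : Primrec (fun p : (ℕ × ℕ) × (ℕ × ℕ) => p.2.1) := Primrec.fst.comp Primrec.snd
  have v2 : Primrec (fun p : (ℕ × ℕ) × (ℕ × ℕ) => p.2.2) := Primrec.snd.comp Primrec.snd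
  exact Primrec.pair
    (Primrec.nat_add.comp (Primrec.nat_mul.comp u1 v1) (Primrec.nat_mul.comp u2 v2))
    (Primrec.nat_add.comp (Primrec.nat_mul.comp u1 v2) (Primrec.nat_mul.comp u2 v1))

theorem prim_actl : Primrec₂ actl := by
  unfold actl
  have m1 : Primrec (fun q : (MP × NL) × ((ℕ × ℕ) × (ℕ × ℕ) × Bool) => q.1.1.1) :=
    Primrec.fst.comp (Primrec.fst.comp Primrec.fst)
  have m2 : Primrec (fun q : (MP × NL) × ((ℕ × ℕ) × (ℕ × ℕ) × Bool) => q.1.1.2.1) :=
    Primrec.fst.comp (Primrec.snd.comp (Primrec.fst.comp Primrec.fst))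
  have m3 : Primrec (fun q : (MP × NL) × ((ℕ × ℕ) × (ℕ × ℕ) × Bool) => q.1.1.2.2.1) :=
    Primrec.fst.comp (Primrec.snd.comp (Primrec.snd.comp (Primrec.fst.comp Primrec.fst)))
  have m4 : Primrec (fun q : (MP × NL) × ((ℕ × ℕ) × (ℕ × ℕ) × Bool) => q.1.1.2.2.2) :=
    Primrec.snd.comp (Primrec.snd.comp (Primrec.snd.comp (Primrec.fst.comp Primrec.fst)))
  have e1 : Primrec (fun q : (MP × NL) × ((ℕ × ℕ) × (ℕ × ℕ) × Bool) => q.2.1) :=
    Primrec.fst.comp Primrec.snd
  have e2 : Primrec (fun q : (MP × NL) × ((ℕ × ℕ) × (ℕ × ℕ) × Bool) => q.2.2.1) :=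
    Primrec.fst.comp (Primrec.snd.comp Primrec.snd)
  have e3 : Primrec (fun q : (MP × NL) × ((ℕ × ℕ) × (ℕ × ℕ) × Bool) => q.2.2.2) :=
    Primrec.snd.comp (Primrec.snd.comp Primrec.snd)
  refine Primrec.list_map Primrec.snd ?_
  exact Primrec.pair (WdB_addp.comp (WdB_mulp.comp m1 e1) (WdB_mulp.comp m3 e2))
    (Primrec.pair (WdB_addp.comp (WdB_mulp.comp m2 e1) (WdB_mulp.comp m4 e2)) e3)

theorem WdB_sum : Primrec (List.sum : List ℕ → ℕ) := by
  have h : (List.sum : List ℕ → ℕ) = fun l => l.foldr (fun b s => b + s) 0 := by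
    funext l
    rw [List.sum_eq_foldr]
  rw [h]
  exact Primrec.list_foldr Primrec.id (Primrec.const 0)
    (Primrec.nat_add.comp (Primrec.fst.comp Primrec.snd) (Primrec.snd.comp Primrec.snd)).to₂

theorem prim_mx : Primrec mx := by
  unfold mx
  refine WdB_sum.comp (Primrec.list_map Primrec.id ?_)
  have a1 : Primrec (fun q : NL × ((ℕ × ℕ) × (ℕ × ℕ) × Bool) => q.2.1.1) :=
    Primrec.fst.comp (Primrec.fst.comp Primrec.snd)
  have a2 : Primrec (fun q : NL × ((ℕ × ℕ) × (ℕ × ℕ) × Bool) => q.2.1.2) :=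
    Primrec.snd.comp (Primrec.fst.comp Primrec.snd)
  have a3 : Primrec (fun q : NL × ((ℕ × ℕ) × (ℕ × ℕ) × Bool) => q.2.2.1.1) :=
    Primrec.fst.comp (Primrec.fst.comp (Primrec.snd.comp Primrec.snd))
  have a4 : Primrec (fun q : NL × ((ℕ × ℕ) × (ℕ × ℕ) × Bool) => q.2.2.1.2) :=
    Primrec.snd.comp (Primrec.fst.comp (Primrec.snd.comp Primrec.snd))
  exact (Primrec.nat_add.comp (Primrec.nat_add.comp (Primrec.nat_add.comp a1 a2) a3) a4).to₂

theorem WdB_ints : Primrec ints := by
  unfold ints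
  refine Primrec.list_flatMap (Primrec.list_range.comp (Primrec.succ)) ?_
  have h1 : Primrec (fun q : ℕ × ℕ => ((q.2, 0) : ℕ × ℕ)) := Primrec.pair Primrec.snd (Primrec.const 0)
  have h2 : Primrec (fun q : ℕ × ℕ => ((0, q.2) : ℕ × ℕ)) := Primrec.pair (Primrec.const 0) Primrec.snd
  exact (Primrec.list_cons.comp h1 (Primrec.list_cons.comp h2 (Primrec.const []))).to₂

theorem prim_box : Primrec box := by
  unfold box
  refine Primrec.list_flatMap WdB_ints ?_
  refine Primrec.list_flatMap (WdB_ints.comp Primrec.fst) ?_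
  refine Primrec.list_flatMap (WdB_ints.comp (Primrec.fst.comp Primrec.fst)) ?_
  refine Primrec.list_map (WdB_ints.comp (Primrec.fst.comp (Primrec.fst.comp Primrec.fst))) ?_
  exact Primrec.pair (Primrec.snd.comp (Primrec.fst.comp (Primrec.fst.comp Primrec.fst)))
    (Primrec.pair (Primrec.snd.comp (Primrec.fst.comp Primrec.fst))
      (Primrec.pair (Primrec.snd.comp Primrec.fst) Primrec.snd))

theorem prim_cst : Primrec cst := by
  unfold cst
  exact WdB_repl Primrec.id _

end Pool.Agent.H28.IP
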