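/-
ROW NcB. Enumerability of triviality of words.
PROOFS. Each time: describe the set of relators as `{r | ∃ w, Rel x w ∧ r = mk w}` with `Rel` enumerable
and apply re_ncl (row NcA) and re_of_eq.
* cl_one: `cl P w = 1 ↔ InN P w`: `PresentedGroup.mk` is `QuotientGroup.mk'` of the normal closure
  (`PresentedGroup.mk_eq_one_iff` or `QuotientGroup.eq_one_iff`).
* re_InN: `Rel P w := w ∈ P.2 ∨ ∃ i, P.1 ≤ i ∧ w = [(i, true)]` (`FreeGroup.of i = mk [(i, true)]` is
  rfl); `w ∈ P.2` is `∃ v ∈ P.2, v = w`: `PrimrecRel.exists_mem_list` with `Primrec.eq`.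
* re_InJ: `Rel Js w := (∃ u : Word × Word × Word × Word, w = lawW u) ∨ (∃ L, L ∈ Js ∧ w = wl L) ∨
  ∃ i, 2 ≤ i ∧ w = [(i, true)]` where `lawW u` is the concatenation (with `invRev`) representing
  `law (mk u₁) (mk u₂) (mk u₃) (mk u₄)`; every element of `FreeGroup ℕ` is `mk` of a word
  (`Quot.exists_rep`, `FreeGroup.mk_toWord`).
* re_ab: `cl P w ∈ commutator (GN P)` iff `mk w ∈ normalClosure (relN P ∪ {r | ∃ u v, r = u v u⁻¹ v⁻¹})`:
  `commutator (GN P)` is the image of `commutator (FreeGroup ℕ)` under the surjection `PresentedGroup.mk`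
  (`Subgroup.map_commutator`, `PresentedGroup.mk_surjective`), so `cl P w ∈ commutator` iff
  `mk w ∈ normalClosure (relN P) ⊔ commutator (FreeGroup ℕ)` (`Subgroup.mem_map`,
  `Subgroup.mem_sup` for normal subgroups / `comap_map_eq`), and this join is the normal closure of the
  union (`commutator_eq_normalClosure`, `Subgroup.normalClosure_union`-type lemma or two inclusions).
-/
import Pool.Agent.H28.IP.NcA
import Pool.Agent.H28.IP.WdB

set_option autoImplicit false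

namespace Pool.Agent.H28.IP

theorem NcB_mem : PrimrecRel fun (L : List Word) (w : Word) => ∃ a ∈ L, a = w :=
  PrimrecRel.exists_mem_list Primrec.eq

theorem NcB_single : Primrec fun i : ℕ => ([(i, true)] : Word) :=
  Primrec.list_cons.comp (Primrec.id.pair (Primrec.const true)) (Primrec.const [])

theorem NcB_of {α : Type} [Primcodable α] {n : α → ℕ} (hn : Primrec n) :
    Re fun x : α × Word => ∃ i, n x.1 ≤ i ∧ x.2 = [(i, true)] := by
  refine re_ex (p := fun y : (α × Word) × ℕ => n y.1.1 ≤ y.2 ∧ y.1.2 = [(y.2, true)]) (re_prim ?_)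
  refine PrimrecPred.and ?_ ?_
  · exact Primrec.nat_le.comp (hn.comp (Primrec.fst.comp Primrec.fst)) Primrec.snd
  · exact Primrec.eq.comp (Primrec.snd.comp Primrec.fst) (NcB_single.comp Primrec.snd)

theorem NcB_rel : Re fun x : Pres × Word => x.2 ∈ x.1.2 ∨ ∃ i, x.1.1 ≤ i ∧ x.2 = [(i, true)] := by
  refine re_or ?_ (NcB_of Primrec.fst)
  refine re_of_eq (p := fun x : Pres × Word => ∃ a ∈ x.1.2, a = x.2) (re_prim ?_) ?_
  · exact NcB_mem.comp (Primrec.snd.comp Primrec.fst) Primrec.snd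
  · intro x
    constructor
    · rintro ⟨a, ha, h⟩
      exact h ▸ ha
    · intro h
      exact ⟨x.2, h, rfl⟩

theorem NcB_set (P : Pres) :
    {r : FreeGroup ℕ | ∃ w, (w ∈ P.2 ∨ ∃ i, P.1 ≤ i ∧ w = [(i, true)]) ∧ r = FreeGroup.mk w} = relN P := by
  ext r
  constructor
  · rintro ⟨w, h | ⟨i, hi, h⟩, hr⟩
    · exact Or.inl ⟨w, h, hr⟩
    · refine Or.inr ⟨i, hi, ?_⟩
      rw [hr, h]
      rfl
  · rintro (⟨w, hw, hr⟩ | ⟨i, hi, hr⟩)
    · exact ⟨w, Or.inl hw, hr⟩
    · exact ⟨[(i, true)], Or.inr ⟨i, hi, rfl⟩, hr⟩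

/-- the word of a commutator -/
def NcB_c (u v : Word) : Word := u ++ v ++ FreeGroup.invRev u ++ FreeGroup.invRev v

theorem NcB_c_mk (u v : Word) : (FreeGroup.mk (NcB_c u v) : FreeGroup ℕ) =
    FreeGroup.mk u * FreeGroup.mk v * (FreeGroup.mk u)⁻¹ * (FreeGroup.mk v)⁻¹ := by
  simp only [NcB_c, FreeGroup.inv_mk, FreeGroup.mul_mk]

theorem NcB_c_prim : Primrec₂ NcB_c := by
  have h1 : Primrec fun x : Word × Word => x.1 := Primrec.fst
  have h2 : Primrec fun x : Word × Word => x.2 := Primrec.snd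
  exact Primrec.list_append.comp (Primrec.list_append.comp (Primrec.list_append.comp h1 h2)
    (prim_invRev.comp h1)) (prim_invRev.comp h2)

theorem NcB_law_mk (u : Word × Word × Word × Word) :
    (FreeGroup.mk (NcB_c (NcB_c u.1 u.2.1) (NcB_c u.2.2.1 u.2.2.2)) : FreeGroup ℕ) =
      law (FreeGroup.mk u.1) (FreeGroup.mk u.2.1) (FreeGroup.mk u.2.2.1) (FreeGroup.mk u.2.2.2) := by
  rw [NcB_c_mk, NcB_c_mk, NcB_c_mk]
  rfl

theorem NcB_law_prim : Primrec fun u : Word × Word × Word × Word =>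
    NcB_c (NcB_c u.1 u.2.1) (NcB_c u.2.2.1 u.2.2.2) := by
  have h1 : Primrec fun u : Word × Word × Word × Word => u.1 := Primrec.fst
  have h2 : Primrec fun u : Word × Word × Word × Word => u.2.1 := Primrec.fst.comp Primrec.snd
  have h3 : Primrec fun u : Word × Word × Word × Word => u.2.2.1 :=
    Primrec.fst.comp (Primrec.snd.comp Primrec.snd)
  have h4 : Primrec fun u : Word × Word × Word × Word => u.2.2.2 :=
    Primrec.snd.comp (Primrec.snd.comp Primrec.snd)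
  exact NcB_c_prim.comp (NcB_c_prim.comp h1 h2) (NcB_c_prim.comp h3 h4)

theorem NcB_mk_surj (g : FreeGroup ℕ) : ∃ w : Word, g = FreeGroup.mk w :=
  ⟨g.toWord, FreeGroup.mk_toWord.symm⟩

theorem NcB_setJ (Js : List NL) :
    {r : FreeGroup ℕ | ∃ w, ((∃ u : Word × Word × Word × Word,
        w = NcB_c (NcB_c u.1 u.2.1) (NcB_c u.2.2.1 u.2.2.2)) ∨
        (∃ L ∈ Js, wl L = w) ∨ ∃ i, 2 ≤ i ∧ w = [(i, true)]) ∧ r = FreeGroup.mk w} = relJ Js := by
  ext r
  constructor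
  · rintro ⟨w, ⟨u, h⟩ | ⟨L, hL, h⟩ | ⟨i, hi, h⟩, hr⟩
    · refine Or.inl ⟨FreeGroup.mk u.1, FreeGroup.mk u.2.1, FreeGroup.mk u.2.2.1, FreeGroup.mk u.2.2.2, ?_⟩
      rw [hr, h, NcB_law_mk]
    · refine Or.inr (Or.inl ⟨L, hL, ?_⟩)
      rw [hr, h]
    · refine Or.inr (Or.inr ⟨i, hi, ?_⟩)
      rw [hr, h]
      rfl
  · rintro (⟨u1, u2, u3, u4, hr⟩ | ⟨L, hL, hr⟩ | ⟨i, hi, hr⟩)
    · obtain ⟨w1, rfl⟩ := NcB_mk_surj u1
      obtain ⟨w2, rfl⟩ := NcB_mk_surj u2
      obtain ⟨w3, rfl⟩ := NcB_mk_surj u3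
      obtain ⟨w4, rfl⟩ := NcB_mk_surj u4
      refine ⟨_, Or.inl ⟨(w1, w2, w3, w4), rfl⟩, ?_⟩
      rw [hr, NcB_law_mk]
    · exact ⟨wl L, Or.inr (Or.inl ⟨L, hL, rfl⟩), hr⟩
    · exact ⟨[(i, true)], Or.inr (Or.inr ⟨i, hi, rfl⟩), hr⟩

theorem NcB_comm (P : Pres) (w : Word) : cl P w ∈ commutator (GN P) ↔
    (FreeGroup.mk w : FreeGroup ℕ) ∈ Subgroup.normalClosure
      {r : FreeGroup ℕ | ∃ w, ((w ∈ P.2 ∨ ∃ i, P.1 ≤ i ∧ w = [(i, true)]) ∨
        ∃ u : Word × Word, w = NcB_c u.1 u.2) ∧ r = FreeGroup.mk w} := by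
  have hker : (PresentedGroup.mk (relN P)).ker = Subgroup.normalClosure (relN P) := by
    ext g
    rw [MonoidHom.mem_ker, PresentedGroup.mk_eq_one_iff]
  have hcomm : commutator (GN P) =
      (commutator (FreeGroup ℕ)).map (PresentedGroup.mk (relN P)) := by
    rw [commutator_def, commutator_def, Subgroup.map_commutator,
      Subgroup.map_top_of_surjective _ (PresentedGroup.mk_surjective (relN P))]
  have hset : Subgroup.normalClosure {r : FreeGroup ℕ | ∃ w, ((w ∈ P.2 ∨ ∃ i, P.1 ≤ i ∧ w = [(i, true)]) ∨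
        ∃ u : Word × Word, w = NcB_c u.1 u.2) ∧ r = FreeGroup.mk w}
      = commutator (FreeGroup ℕ) ⊔ Subgroup.normalClosure (relN P) := by
    apply le_antisymm
    · refine Subgroup.normalClosure_le_normal ?_
      rintro r ⟨w, h | ⟨u, h⟩, hr⟩
      · refine Subgroup.mem_sup_right (Subgroup.subset_normalClosure ?_)
        rw [← NcB_set]
        exact ⟨w, h, hr⟩
      · refine Subgroup.mem_sup_left ?_
        rw [hr, h, NcB_c_mk, ← commutatorElement_def, commutator_def]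
        exact Subgroup.commutator_mem_commutator (Subgroup.mem_top _) (Subgroup.mem_top _)
    · refine sup_le ?_ ?_
      · rw [commutator_def, Subgroup.commutator_le]
        intro g1 _ g2 _
        obtain ⟨u, rfl⟩ := NcB_mk_surj g1
        obtain ⟨v, rfl⟩ := NcB_mk_surj g2
        refine Subgroup.subset_normalClosure ⟨NcB_c u v, Or.inr ⟨(u, v), rfl⟩, ?_⟩
        rw [NcB_c_mk, commutatorElement_def]
      · refine Subgroup.normalClosure_mono ?_
        rw [← NcB_set]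
        rintro r ⟨w, h, hr⟩
        exact ⟨w, Or.inl h, hr⟩
  rw [hset, ← hker, ← Subgroup.comap_map_eq, Subgroup.mem_comap, ← hcomm]
  rfl

theorem cl_one {P : Pres} {w : Word} : cl P w = 1 ↔ InN P w := by
  unfold cl InN
  exact PresentedGroup.mk_eq_one_iff

theorem re_InN : Re fun x : Pres × Word => InN x.1 x.2 := by
  refine re_of_eq (re_ncl (Rel := fun (P : Pres) w => w ∈ P.2 ∨ ∃ i, P.1 ≤ i ∧ w = [(i, true)]) NcB_rel) ?_
  intro x
  rw [NcB_set]
  rfl

theorem re_InJ : Re fun x : List NL × Word => InJ x.1 x.2 := by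
  have h1 : Re fun x : List NL × Word => ∃ u : Word × Word × Word × Word,
      x.2 = NcB_c (NcB_c u.1 u.2.1) (NcB_c u.2.2.1 u.2.2.2) := by
    refine re_ex (p := fun y : (List NL × Word) × (Word × Word × Word × Word) =>
      y.1.2 = NcB_c (NcB_c y.2.1 y.2.2.1) (NcB_c y.2.2.2.1 y.2.2.2.2)) (re_prim ?_)
    exact Primrec.eq.comp (Primrec.snd.comp Primrec.fst) (NcB_law_prim.comp Primrec.snd)
  have h2 : Re fun x : List NL × Word => ∃ L ∈ x.1, wl L = x.2 := by
    refine re_prim ?_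
    have h3 : PrimrecRel fun (L : NL) (w : Word) => wl L = w :=
      Primrec.eq.comp (prim_wl.comp Primrec.fst) Primrec.snd
    exact (PrimrecRel.exists_mem_list h3).comp Primrec.fst Primrec.snd
  have h3 : Re fun x : List NL × Word => ∃ i, 2 ≤ i ∧ x.2 = [(i, true)] :=
    NcB_of (n := fun _ => 2) (Primrec.const 2)
  refine re_of_eq (re_ncl (Rel := fun Js w => (∃ u : Word × Word × Word × Word,
        w = NcB_c (NcB_c u.1 u.2.1) (NcB_c u.2.2.1 u.2.2.2)) ∨
        (∃ L ∈ Js, wl L = w) ∨ ∃ i, 2 ≤ i ∧ w = [(i, true)]) (re_or h1 (re_or h2 h3))) ?_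
  intro x
  rw [NcB_setJ]
  rfl

theorem re_ab : Re fun x : Pres × Word => cl x.1 x.2 ∈ commutator (GN x.1) := by
  have h1 : Re fun x : Pres × Word => ∃ u : Word × Word, x.2 = NcB_c u.1 u.2 := by
    refine re_ex (p := fun y : (Pres × Word) × (Word × Word) => y.1.2 = NcB_c y.2.1 y.2.2) (re_prim ?_)
    exact Primrec.eq.comp (Primrec.snd.comp Primrec.fst)
      (NcB_c_prim.comp (Primrec.fst.comp Primrec.snd) (Primrec.snd.comp Primrec.snd))
  refine re_of_eq (re_ncl (Rel := fun (P : Pres) w => (w ∈ P.2 ∨ ∃ i, P.1 ≤ i ∧ w = [(i, true)]) ∨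
        ∃ u : Word × Word, w = NcB_c u.1 u.2) (re_or NcB_rel h1)) ?_
  intro x
  exact (NcB_comm x.1 x.2).symm

end Pool.Agent.H28.IP
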