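/-
ROW GwA. Generating pairs and words.
PROOFS. `cl P (u ++ v) = cl P u * cl P v`, `cl P (invRev u) = (cl P u)⁻¹`,
`cl P w = FreeGroup.lift (fun i => cl P [(i, true)]) (mk w)` (two homomorphisms agreeing on generators),
`cl P [(i, true)] = 1` for `i ≥ P.1` (a relator).
* cl_subst: lift_subst / subst_mk (row WdA): apply the homomorphism `PresentedGroup.mk (relN P)`.
* cl_sub2: from cl_subst with `W = [A, B]`; the values at `i ≥ 2` are `cl P [] = 1`, so
  the function `i ↦ cl P ([A,B].getD i [])` is `fab (cl P A) (cl P B)`.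
* genW_gen: by GenW and cl_one every `cl P [(i, true)] = cl P (subst [A, B] (W.getD i []))` lies in
  `closure {cl P A, cl P B}` (cl_sub2, a value of a word in `fab` lies in the closure), and the
  `cl P [(i, true)]` generate `GN P`.
* genW_exists: choose words `A, B` with `cl P A = a`, `cl P B = b` (surjectivity of `PresentedGroup.mk` and
  `FreeGroup.mk`); as `closure {a, b} = ⊤` the homomorphism `FreeGroup.lift (fab a b)` is surjective
  (`FreeGroup.range_lift`/`closure_le`), so for every `i < P.1` there is a word `W_i` with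
  `FreeGroup.lift (fab a b) (mk W_i) = cl P [(i, true)]`; let `W` be their list (length `P.1`).
-/
import Pool.Agent.H28.IP.NcB

set_option autoImplicit false

namespace Pool.Agent.H28.IP

theorem GwA_app (P : Pres) (u v : Word) : cl P (u ++ v) = cl P u * cl P v := by
  simp only [cl, ← map_mul, FreeGroup.mul_mk]

theorem GwA_inv (P : Pres) (u : Word) : cl P (FreeGroup.invRev u) = (cl P u)⁻¹ := by
  simp only [cl, ← map_inv, FreeGroup.inv_mk]

theorem GwA_hom (P : Pres) (y : FreeGroup ℕ) :
    PresentedGroup.mk (relN P) y = FreeGroup.lift (fun i => cl P [(i, true)]) y := by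
  have h : PresentedGroup.mk (relN P) = FreeGroup.lift (fun i => cl P [(i, true)]) := by
    apply FreeGroup.ext_hom
    intro i
    rw [FreeGroup.lift_apply_of]
    rfl
  rw [h]

theorem GwA_ge (P : Pres) {i : ℕ} (h : P.1 ≤ i) : cl P [(i, true)] = 1 := by
  have h1 : (FreeGroup.mk [(i, true)] : FreeGroup ℕ) ∈ relN P := Or.inr ⟨i, h, rfl⟩
  exact PresentedGroup.one_of_mem h1

theorem cl_subst (P : Pres) (W : List Word) (w : Word) :
    cl P (subst W w) = FreeGroup.lift (fun i => cl P (W.getD i [])) (FreeGroup.mk w) := by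
  have h : (PresentedGroup.mk (relN P)).comp
      (FreeGroup.lift (fun i => (FreeGroup.mk (W.getD i []) : FreeGroup ℕ))) =
      FreeGroup.lift (fun i => cl P (W.getD i [])) := by
    apply FreeGroup.ext_hom
    intro i
    simp only [MonoidHom.comp_apply, FreeGroup.lift_apply_of]
    rfl
  rw [← h, MonoidHom.comp_apply, ← subst_mk]
  rfl

theorem GwA_fab (P : Pres) (A B : Word) :
    (fun i => cl P ([A, B].getD i [])) = fab (cl P A) (cl P B) := by
  funext i
  rcases i with _ | _ | i
  · rfl
  · rfl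
  · have h1 : ([A, B].getD (i + 1 + 1) [] : Word) = [] := rfl
    rw [h1]
    have h2 : cl P [] = 1 := map_one (PresentedGroup.mk (relN P))
    rw [h2, fab, if_neg (by omega), if_neg (by omega)]

theorem cl_sub2 (P : Pres) (A B : Word) (w : Word) :
    cl P (subst [A, B] w) = FreeGroup.lift (fab (cl P A) (cl P B)) (FreeGroup.mk w) := by
  rw [cl_subst, GwA_fab]

theorem GwA_lift_mem {G : Type} [Group G] (H : Subgroup G) (f : ℕ → G) (hf : ∀ i, f i ∈ H)
    (y : FreeGroup ℕ) : FreeGroup.lift f y ∈ H := by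
  have h : (FreeGroup.lift f).range ≤ H := by
    rw [FreeGroup.range_lift_eq_closure, Subgroup.closure_le]
    rintro _ ⟨i, rfl⟩
    exact hf i
  exact h ⟨y, rfl⟩

theorem GwA_top (P : Pres) (H : Subgroup (GN P)) (h : ∀ i, cl P [(i, true)] ∈ H) : H = ⊤ := by
  rw [eq_top_iff]
  intro x _
  obtain ⟨y, rfl⟩ := PresentedGroup.mk_surjective (relN P) x
  rw [GwA_hom]
  exact GwA_lift_mem H _ h y

theorem genW_gen {P : Pres} {A B : Word} {W : List Word} (h : GenW P A B W) :
    Gen2 (cl P A) (cl P B) := by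
  apply GwA_top
  intro i
  by_cases hi : i < P.1
  · have h1 := h.2 i hi
    rw [← cl_one, GwA_app, GwA_inv, inv_mul_eq_one] at h1
    rw [h1, cl_sub2]
    apply GwA_lift_mem
    intro j
    unfold fab
    split_ifs
    · exact Subgroup.subset_closure (by simp)
    · exact Subgroup.subset_closure (by simp)
    · exact Subgroup.one_mem _
  · rw [GwA_ge P (not_lt.1 hi)]
    exact Subgroup.one_mem _

theorem GwA_surj (P : Pres) (a : GN P) : ∃ A : Word, cl P A = a := by
  obtain ⟨y, rfl⟩ := PresentedGroup.mk_surjective (relN P) a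
  refine ⟨y.toWord, ?_⟩
  rw [cl, FreeGroup.mk_toWord]

theorem genW_exists {P : Pres} {a b : GN P} (h : Gen2 a b) :
    ∃ (A B : Word) (W : List Word), GenW P A B W ∧ cl P A = a ∧ cl P B = b := by
  classical
  obtain ⟨A, rfl⟩ := GwA_surj P a
  obtain ⟨B, rfl⟩ := GwA_surj P b
  have hs : (FreeGroup.lift (fab (cl P A) (cl P B))).range = ⊤ := by
    rw [FreeGroup.range_lift_eq_closure, eq_top_iff, ← h, Subgroup.closure_le]
    rintro x (rfl | rfl)
    · exact Subgroup.subset_closure ⟨0, rfl⟩
    · exact Subgroup.subset_closure ⟨1, rfl⟩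
  have hw : ∀ i : ℕ, ∃ w : Word, cl P (subst [A, B] w) = cl P [(i, true)] := by
    intro i
    have h1 : cl P [(i, true)] ∈ (FreeGroup.lift (fab (cl P A) (cl P B))).range := by
      rw [hs]; trivial
    obtain ⟨y, hy⟩ := h1
    refine ⟨y.toWord, ?_⟩
    rw [cl_sub2, FreeGroup.mk_toWord, hy]
  choose w hw using hw
  refine ⟨A, B, (List.range P.1).map w, ⟨by simp, ?_⟩, rfl, rfl⟩
  intro i hi
  have h1 : ((List.range P.1).map w).getD i [] = w i := by
    simp [List.getD, hi]
  rw [h1, ← cl_one, GwA_app, GwA_inv, hw, inv_mul_cancel]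

end Pool.Agent.H28.IP
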