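/-
ROW Psi. The universal property of `GJ J`.
PROOFS.
* psi_exists: define `ψ ⟨i, j, r⟩ = ev a b f * (a^i * b^j)` for any `f` with `mk f = r` (use
  `Quotient.out`/`Function.surjInv Ideal.Quotient.mk_surjective`; independent of `f` because
  `J ≤ Ann a b` (mem_Ann, ev_sub)). `ψ (g * h) = ψ g * ψ h`: with `g = ⟨i, j, mk f⟩`, `h = ⟨k, l, mk f'⟩`:
  `ev f (a^i b^j) ev f' (a^k b^l) = ev f · ev (mo (i,j) f') · (a^i b^j)(a^k b^l)` (ev_conj)
  `= ev (f + mo (i,j) f' - mo (i,0) geo YL j geo XL k) (a^(i+k) b^(j+l))` (comm_formula), and this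
  polynomial represents `(g * h).r` (mul_r, geo_map, pow_XL, pow_YL, mo_add; the coefficients
  `((XJ J ^ i * YJ J ^ j : _ˣ) : _) = mk (mo (i,j))`, `geo (XJ J) k = mk (geo XL k)`). `ψ al = a`,
  `ψ be = b` (`mk 0 = 0`, ev_zero).
* psi_iso: `J = Ann a b`. `ψ` of psi_exists is surjective since its range contains `a` and `b` (Gen2) and
  injective: if `ψ ⟨i, j, mk f⟩ = 1` then `a^i b^j = (ev f)⁻¹ ∈ commutator G`, so `i = j = 0` (AbFree),
  `ev f = 1`, `f ∈ Ann a b`, `mk f = 0`. Here one needs the formula for `ψ`, so prove first the stronger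
  statement psi_formula.
-/
import Pool.Agent.H28.IP.GmB

set_option autoImplicit false

namespace Pool.Agent.H28.IP

variable {G : Type} [Group G] [Metab G]

theorem Psi_XJ (J : Ideal Lam) (k : ℤ) :
    ((XJ J ^ k : (Lam ⧸ J)ˣ) : Lam ⧸ J) = Ideal.Quotient.mk J (mo (k, 0)) := by
  rw [XJ, ← map_zpow, Units.coe_map, pow_XL]
  rfl

theorem Psi_YJ (J : Ideal Lam) (k : ℤ) :
    ((YJ J ^ k : (Lam ⧸ J)ˣ) : Lam ⧸ J) = Ideal.Quotient.mk J (mo (0, k)) := by
  rw [YJ, ← map_zpow, Units.coe_map, pow_YL]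
  rfl

theorem Psi_geoX (J : Ideal Lam) (k : ℤ) :
    geo (XJ J) k = Ideal.Quotient.mk J (geo XL k) :=
  geo_map (Ideal.Quotient.mk J) XL k

theorem Psi_geoY (J : Ideal Lam) (k : ℤ) :
    geo (YJ J) k = Ideal.Quotient.mk J (geo YL k) :=
  geo_map (Ideal.Quotient.mk J) YL k

theorem Psi_mo (i j : ℤ) : mo (i, j) = mo (i, 0) * mo (0, j) := by
  rw [← mo_add]
  simp

theorem Psi_prod (a b : G) (i j k l : ℤ) (f f' : Lam) :
    ev a b (f + mo (i, j) * f' - mo (i, 0) * geo YL j * geo XL k) * (a ^ (i + k) * b ^ (j + l)) =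
      (ev a b f * (a ^ i * b ^ j)) * (ev a b f' * (a ^ k * b ^ l)) := by
  have h1 := comm_formula a b i j k l
  have h2 := ev_conj a b i j f'
  rw [sub_eq_add_neg, ev_add, ev_add, ← h2]
  have h3 : ev a b (-(mo (i, 0) * geo YL j * geo XL k)) * (a ^ (i + k) * b ^ (j + l)) =
      (a ^ i * b ^ j) * (a ^ k * b ^ l) := h1.symm
  calc ev a b f * ((a ^ i * b ^ j) * ev a b f' * (a ^ i * b ^ j)⁻¹) *
        ev a b (-(mo (i, 0) * geo YL j * geo XL k)) * (a ^ (i + k) * b ^ (j + l))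
      = ev a b f * ((a ^ i * b ^ j) * ev a b f' * (a ^ i * b ^ j)⁻¹) *
        (ev a b (-(mo (i, 0) * geo YL j * geo XL k)) * (a ^ (i + k) * b ^ (j + l))) := by
        rw [mul_assoc]
    _ = ev a b f * ((a ^ i * b ^ j) * ev a b f' * (a ^ i * b ^ j)⁻¹) *
        ((a ^ i * b ^ j) * (a ^ k * b ^ l)) := by rw [h3]
    _ = (ev a b f * (a ^ i * b ^ j)) * (ev a b f' * (a ^ k * b ^ l)) := by group

theorem psi_formula (a b : G) {J : Ideal Lam} (hJ : J ≤ Ann a b) : ∃ ψ : GJ J →* G,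
    ∀ (i j : ℤ) (f : Lam), ψ ⟨i, j, Ideal.Quotient.mk J f⟩ = ev a b f * (a ^ i * b ^ j) := by
  obtain ⟨s, hs⟩ : ∃ s : Lam ⧸ J → Lam, ∀ r, Ideal.Quotient.mk J (s r) = r :=
    ⟨Function.surjInv Ideal.Quotient.mk_surjective, Function.surjInv_eq _⟩
  have hev : ∀ f g : Lam, Ideal.Quotient.mk J f = Ideal.Quotient.mk J g → ev a b f = ev a b g := by
    intro f g h
    have h1 : f - g ∈ J := Ideal.Quotient.eq.1 h
    have h2 : ev a b (f - g) = 1 := mem_Ann.1 (hJ h1)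
    rw [ev_sub] at h2
    exact mul_inv_eq_one.1 h2
  refine ⟨MonoidHom.mk' (fun g : GJ J => ev a b (s g.r) * (a ^ g.i * b ^ g.j)) ?_, ?_⟩
  · intro g h
    show ev a b (s (g * h).r) * (a ^ (g * h).i * b ^ (g * h).j) = _
    rw [mul_i, mul_j]
    have h1 : Ideal.Quotient.mk J (s (g * h).r) = Ideal.Quotient.mk J
        (s g.r + mo (g.i, g.j) * s h.r - mo (g.i, 0) * geo YL g.j * geo XL h.i) := by
      rw [hs, mul_r, Units.val_mul, Psi_XJ, Psi_YJ, Psi_geoX, Psi_geoY, map_sub, map_add, map_mul,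
        map_mul, map_mul, Psi_mo g.i g.j, map_mul, hs, hs]
    rw [hev _ _ h1]
    exact Psi_prod a b g.i g.j h.i h.j (s g.r) (s h.r)
  · intro i j f
    show ev a b (s (Ideal.Quotient.mk J f)) * (a ^ i * b ^ j) = _
    rw [hev _ _ (hs (Ideal.Quotient.mk J f))]

theorem Psi_al {a b : G} {J : Ideal Lam} {ψ : GJ J →* G}
    (h : ∀ (i j : ℤ) (f : Lam), ψ ⟨i, j, Ideal.Quotient.mk J f⟩ = ev a b f * (a ^ i * b ^ j)) :
    ψ al = a := by
  have h1 := h 1 0 0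
  rw [map_zero, ev_zero, one_mul, zpow_one, zpow_zero, mul_one] at h1
  exact h1

theorem Psi_be {a b : G} {J : Ideal Lam} {ψ : GJ J →* G}
    (h : ∀ (i j : ℤ) (f : Lam), ψ ⟨i, j, Ideal.Quotient.mk J f⟩ = ev a b f * (a ^ i * b ^ j)) :
    ψ be = b := by
  have h1 := h 0 1 0
  rw [map_zero, ev_zero, one_mul, zpow_one, zpow_zero, one_mul] at h1
  exact h1

theorem psi_exists (a b : G) {J : Ideal Lam} (hJ : J ≤ Ann a b) :
    ∃ ψ : GJ J →* G, ψ al = a ∧ ψ be = b := by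
  obtain ⟨ψ, hψ⟩ := psi_formula a b hJ
  exact ⟨ψ, Psi_al hψ, Psi_be hψ⟩

theorem psi_iso {a b : G} (hg : Gen2 a b) (hf : AbFree a b) :
    ∃ ψ : GJ (Ann a b) ≃* G, ψ al = a ∧ ψ be = b := by
  obtain ⟨ψ, hψ⟩ := psi_formula a b (le_refl (Ann a b))
  have hsurj : Function.Surjective ψ := by
    rw [← MonoidHom.range_eq_top, eq_top_iff, ← hg, Subgroup.closure_le]
    intro x hx
    rcases hx with hx | hx
    · exact ⟨al, by rw [hx]; exact Psi_al hψ⟩
    · have hx' : x = b := hx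
      exact ⟨be, by rw [hx']; exact Psi_be hψ⟩
  have hinj : Function.Injective ψ := by
    rw [injective_iff_map_eq_one]
    rintro ⟨i, j, r⟩ h
    obtain ⟨f, rfl⟩ := Ideal.Quotient.mk_surjective r
    rw [hψ] at h
    have h1 : a ^ i * b ^ j = (ev a b f)⁻¹ := (inv_eq_of_mul_eq_one_right h).symm
    have h2 : a ^ i * b ^ j ∈ commutator G := by
      rw [h1]
      exact inv_mem (ev_mem a b f)
    obtain ⟨hi, hj⟩ := hf i j h2
    subst hi hj
    rw [zpow_zero, zpow_zero, mul_one, mul_one] at h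
    have h3 : f ∈ Ann a b := mem_Ann.2 h
    have h4 : Ideal.Quotient.mk (Ann a b) f = 0 := Ideal.Quotient.eq_zero_iff_mem.2 h3
    rw [h4]
    rfl
  exact ⟨MulEquiv.ofBijective ψ ⟨hinj, hsurj⟩, Psi_al hψ, Psi_be hψ⟩

end Pool.Agent.H28.IP
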