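/-
ROW WlA. Words and polynomials of lists.
PROOFS. `FreeGroup.mk (u ++ v) = mk u * mk v`, `mk (invRev u) = (mk u)⁻¹`.
* lift_zp: `lift c (mk (zp k u)) = (c k) ^ u.1 * ((c k)⁻¹) ^ u.2 = (c k) ^ (vz u)` (`List.replicate`:
  `FreeGroup.lift_mk`, `List.prod_replicate`; zpow_sub).
* wl_ev: induction on `L`: `lift c (mk (wz e)) = (a^i b^j) (c₀^{±1}) (a^i b^j)⁻¹` with `c₀ = a b a⁻¹ b⁻¹`,
  `i = vz e.1`, `j = vz e.2.1`, which is `(cz a b (i,j))^{±1} = ev a b (± mo (i,j))` (ev_mo, ev_neg), and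
  `pol (e :: L) = ± mo + pol L` (ev_add).
* pol_app: `List.map_append`, `List.sum_append`.
* pol_surj: lam_ind: `0 = pol []`; sum: `++`; negative: flip the signs; `mo z = pol [(u, v, true)]` with
  `u = (z.1.toNat, (-z.1).toNat)`.
* pol_actl: induction; `vz (addp u v) = vz u + vz v`, `vz (mulp u v) = vz u * vz v`; act_mo (row ChB).
* pol_cst: `List.replicate`, `mo (0, 0) = 1` (mo_zero), `nsmul_eq_mul`.
-/
import Pool.Agent.H28.IP.ChB

set_option autoImplicit false

namespace Pool.Agent.H28.IP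

theorem vz_addp (u v : ℕ × ℕ) : vz (addp u v) = vz u + vz v := by
  simp only [vz, addp]
  push_cast
  ring

theorem vz_mulp (u v : ℕ × ℕ) : vz (mulp u v) = vz u * vz v := by
  simp only [vz, mulp]
  push_cast
  ring

theorem lift_zp {G : Type} [Group G] (c : ℕ → G) (k : ℕ) (u : ℕ × ℕ) :
    FreeGroup.lift c (FreeGroup.mk (zp k u)) = c k ^ vz u := by
  unfold zp vz
  rw [FreeGroup.lift_mk, List.map_append, List.prod_append, List.map_replicate, List.map_replicate,
    List.prod_replicate, List.prod_replicate]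
  simp [zpow_sub]

theorem WlA_pol_cons (e : (ℕ × ℕ) × (ℕ × ℕ) × Bool) (L : NL) :
    pol (e :: L) = cond e.2.2 (mo (vz e.1, vz e.2.1)) (-mo (vz e.1, vz e.2.1)) + pol L := by
  unfold pol
  rw [List.map_cons, List.sum_cons]

theorem WlA_pol_app (L M : NL) : pol (L ++ M) = pol L + pol M := by
  unfold pol
  rw [List.map_append, List.sum_append]

theorem WlA_cw {G : Type} [Group G] (c : ℕ → G) :
    FreeGroup.lift c (FreeGroup.mk cw) = c 0 * c 1 * (c 0)⁻¹ * (c 1)⁻¹ := by
  unfold cw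
  rw [FreeGroup.lift_mk]
  simp [mul_assoc]

theorem WlA_wz {G : Type} [Group G] [Metab G] (c : ℕ → G) (e : (ℕ × ℕ) × (ℕ × ℕ) × Bool) :
    FreeGroup.lift c (FreeGroup.mk (wz e)) =
      ev (c 0) (c 1) (cond e.2.2 (mo (vz e.1, vz e.2.1)) (-mo (vz e.1, vz e.2.1))) := by
  have happ : ∀ u v : Word, FreeGroup.mk (u ++ v) = FreeGroup.mk u * FreeGroup.mk v :=
    fun u v => FreeGroup.mul_mk.symm
  have hinv : ∀ u : Word, FreeGroup.mk (FreeGroup.invRev u) = (FreeGroup.mk u)⁻¹ :=
    fun u => FreeGroup.inv_mk.symm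
  unfold wz
  rw [happ, happ, happ, hinv, happ, map_mul, map_mul, map_mul, map_inv, map_mul, lift_zp, lift_zp]
  cases e.2.2
  · rw [cond_false, cond_false, hinv, map_inv, WlA_cw, ev_neg, ev_mo]
    unfold cz
    simp only
    group
  · rw [cond_true, cond_true, WlA_cw, ev_mo]
    unfold cz
    simp only
    group

theorem wl_ev {G : Type} [Group G] [Metab G] (c : ℕ → G) (L : NL) :
    FreeGroup.lift c (FreeGroup.mk (wl L)) = ev (c 0) (c 1) (pol L) := by
  have happ : ∀ u v : Word, FreeGroup.mk (u ++ v) = FreeGroup.mk u * FreeGroup.mk v :=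
    fun u v => FreeGroup.mul_mk.symm
  induction L with
  | nil =>
    have h1 : wl [] = [] := rfl
    have h2 : pol [] = 0 := rfl
    rw [h1, h2, ev_zero]
    exact map_one _
  | cons e L ih =>
    have h1 : wl (e :: L) = wz e ++ wl L := by
      unfold wl
      rw [List.flatMap_cons]
    rw [h1, happ, map_mul, ih, WlA_wz, WlA_pol_cons, ev_add]

theorem pol_surj (f : Lam) : ∃ L : NL, pol L = f := by
  refine lam_ind (p := fun f => ∃ L : NL, pol L = f) ⟨[], rfl⟩ ?_ ?_ ?_ f
  · rintro f g ⟨L, rfl⟩ ⟨M, rfl⟩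
    exact ⟨L ++ M, WlA_pol_app L M⟩
  · rintro f ⟨L, rfl⟩
    refine ⟨L.map fun e => (e.1, e.2.1, !e.2.2), ?_⟩
    induction L with
    | nil => simp [pol]
    | cons e L ih =>
      rw [List.map_cons, WlA_pol_cons, WlA_pol_cons, ih]
      cases e.2.2 <;> simp <;> ring
  · intro z
    refine ⟨[((z.1.toNat, (-z.1).toNat), (z.2.toNat, (-z.2).toNat), true)], ?_⟩
    have h1 : vz (z.1.toNat, (-z.1).toNat) = z.1 := by
      simp only [vz]; omega
    have h2 : vz (z.2.toNat, (-z.2).toNat) = z.2 := by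
      simp only [vz]; omega
    rw [WlA_pol_cons]
    simp only [cond_true, h1, h2]
    have h3 : pol [] = 0 := rfl
    rw [h3, add_zero]

theorem pol_actl (m : MP) (L : NL) : pol (actl m L) = act (vm m) (pol L) := by
  induction L with
  | nil =>
    have h2 : pol [] = 0 := rfl
    have h1 : actl m [] = [] := rfl
    rw [h1, h2, map_zero]
  | cons e L ih =>
    have h1 : actl m (e :: L) = (addp (mulp m.1 e.1) (mulp m.2.2.1 e.2.1),
      addp (mulp m.2.1 e.1) (mulp m.2.2.2 e.2.1), e.2.2) :: actl m L := rfl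
    rw [h1, WlA_pol_cons, WlA_pol_cons, map_add, ih]
    congr 1
    simp only [vz_addp, vz_mulp]
    cases e.2.2
    · simp only [cond_false, map_neg, act_mo, actz, vm]
    · simp only [cond_true, act_mo, actz, vm]

theorem pol_cst (p : ℕ) : pol (cst p) = (p : Lam) := by
  induction p with
  | zero =>
    have h2 : pol [] = 0 := rfl
    have h1 : cst 0 = [] := rfl
    rw [h1, h2, Nat.cast_zero]
  | succ p ih =>
    have h1 : cst (p + 1) = ((0, 0), (0, 0), true) :: cst p := rfl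
    rw [h1, WlA_pol_cons, ih]
    have h2 : vz (0, 0) = 0 := rfl
    simp only [h2, cond_true]
    have h3 : mo ((0 : ℤ), (0 : ℤ)) = 1 := mo_zero
    rw [h3]
    push_cast
    ring

end Pool.Agent.H28.IP
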