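/-
ROW InJ. Words in the group `GJ (idl Js)`.
PROOF. `J = idl Js`. `→`: `FreeGroup.lift (fab al be) : FreeGroup ℕ →* GJ J` kills `relJ Js`
(`Subgroup.normalClosure_le_normal` with the kernel): `law`: commutators commute (Metab.comm);
`wl L`, `L ∈ Js`: wl_ev gives `ev al be (pol L)` (`fab al be 0 = al`, `fab al be 1 = be`), which is `1` by
mem_Ann and gj_ann (`pol L ∈ J`); `FreeGroup.of i`, `i ≥ 2`: `fab al be i = 1`.
`←`: let `M = PresentedGroup (relJ Js)`, `κ = PresentedGroup.mk (relJ Js)`. `Metab M`: by the laws any two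
commutators of elements of `M` commute (`κ` surjective), `commutator M` is the closure of the set of
commutators (`commutator_eq_closure`), and a subgroup generated by commuting elements is commutative
(`Subgroup.closure_induction₂`, or `Subgroup.isMulCommutative_closure`/`closureCommGroupOfComm`). Let
`a = κ (of 0)`, `b = κ (of 1)`. `J ≤ Ann a b`: `Ideal.span_le`; for `L ∈ Js`: `ev a b (pol L) = κ (mk (wl L)) = 1`
(wl_ev with `c i = κ (of i)`). By psi_exists there is `ψ : GJ J →* M`, `al ↦ a`, `be ↦ b`. The homomorphisms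
`ψ ∘ FreeGroup.lift (fab al be)` and `κ` agree on generators (for `i ≥ 2` both give `1`), so if
`FreeGroup.lift (fab al be) (mk w) = 1` then `κ (mk w) = 1`, i.e. `mk w ∈ normalClosure (relJ Js)`.
-/
import Pool.Agent.H28.IP.Psi
import Pool.Agent.H28.IP.WlA

set_option autoImplicit false

namespace Pool.Agent.H28.IP

theorem InJ_law {G : Type} [Group G] [Metab G] (f : FreeGroup ℕ →* G) (u₁ u₂ u₃ u₄ : FreeGroup ℕ) :
    f (law u₁ u₂ u₃ u₄) = 1 := by
  have h1 : ∀ g h : G, g * h * g⁻¹ * h⁻¹ ∈ commutator G := fun g h =>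
    Subgroup.commutator_mem_commutator (Subgroup.mem_top g) (Subgroup.mem_top h)
  have h2 := Metab.comm _ (h1 (f u₁) (f u₂)) _ (h1 (f u₃) (f u₄))
  simp only [law, map_mul, map_inv]
  rw [h2]
  group

theorem InJ_metab {G : Type} [Group G] (h : ∀ a b c d : G, (a * b * a⁻¹ * b⁻¹) * (c * d * c⁻¹ * d⁻¹) =
    (c * d * c⁻¹ * d⁻¹) * (a * b * a⁻¹ * b⁻¹)) : Metab G := by
  have h1 : ∀ x ∈ commutatorSet G, ∀ y ∈ commutator G, x * y = y * x := by
    intro x hx y hy
    have h2 : commutator G ≤ Subgroup.centralizer {x} := by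
      rw [commutator_eq_closure, Subgroup.closure_le]
      rintro _ ⟨c, d, rfl⟩
      obtain ⟨a, b, rfl⟩ := hx
      rw [SetLike.mem_coe, Subgroup.mem_centralizer_iff]
      intro z hz
      rw [Set.mem_singleton_iff.1 hz]
      exact h a b c d
    exact Subgroup.mem_centralizer_iff.1 (h2 hy) x (Set.mem_singleton x)
  refine ⟨fun x hx y hy => ?_⟩
  have h2 : commutator G ≤ Subgroup.centralizer {y} := by
    conv_lhs => rw [commutator_eq_closure]
    rw [Subgroup.closure_le]
    intro z hz
    rw [SetLike.mem_coe, Subgroup.mem_centralizer_iff]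
    intro t ht
    rw [Set.mem_singleton_iff.1 ht]
    exact (h1 z hz y hy).symm
  exact (Subgroup.mem_centralizer_iff.1 (h2 hx) y (Set.mem_singleton y)).symm

theorem inJ_iff {Js : List NL} {w : Word} :
    InJ Js w ↔ FreeGroup.lift (fab (al : GJ (idl Js)) be) (FreeGroup.mk w) = 1 := by
  constructor
  · intro h
    refine PresentedGroup.to_group_eq_one_of_mem_closure (f := fab (al : GJ (idl Js)) be) ?_ _ h
    rintro r (⟨u₁, u₂, u₃, u₄, rfl⟩ | ⟨L, hL, rfl⟩ | ⟨i, hi, rfl⟩)
    · exact InJ_law _ _ _ _ _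
    · have h1 := wl_ev (fab (al : GJ (idl Js)) be) L
      have h2 : fab (al : GJ (idl Js)) be 0 = al := rfl
      have h3 : fab (al : GJ (idl Js)) be 1 = be := rfl
      rw [h1, h2, h3, ← mem_Ann, gj_ann]
      exact Ideal.subset_span ⟨L, hL, rfl⟩
    · rw [FreeGroup.lift_apply_of]
      have h1 : i ≠ 0 := by omega
      have h2 : i ≠ 1 := by omega
      simp only [fab, h1, h2, if_false]
  · intro h
    have hM : Metab (PresentedGroup (relJ Js)) := by
      refine InJ_metab fun a b c d => ?_
      obtain ⟨u₁, rfl⟩ := PresentedGroup.mk_surjective _ a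
      obtain ⟨u₂, rfl⟩ := PresentedGroup.mk_surjective _ b
      obtain ⟨u₃, rfl⟩ := PresentedGroup.mk_surjective _ c
      obtain ⟨u₄, rfl⟩ := PresentedGroup.mk_surjective _ d
      have h1 : PresentedGroup.mk (relJ Js) (law u₁ u₂ u₃ u₄) = 1 :=
        PresentedGroup.one_of_mem (Or.inl ⟨u₁, u₂, u₃, u₄, rfl⟩)
      simp only [law, map_mul, map_inv] at h1
      rw [mul_inv_eq_one, mul_inv_eq_iff_eq_mul] at h1
      exact h1
    set a : PresentedGroup (relJ Js) := PresentedGroup.of 0 with ha
    set b : PresentedGroup (relJ Js) := PresentedGroup.of 1 with hb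
    have hκ : ∀ u : FreeGroup ℕ, FreeGroup.lift (fun i => (PresentedGroup.of i :
        PresentedGroup (relJ Js))) u = PresentedGroup.mk (relJ Js) u := by
      intro u
      have : FreeGroup.lift (fun i => (PresentedGroup.of i : PresentedGroup (relJ Js))) =
          PresentedGroup.mk (relJ Js) := by
        ext i
        simp [PresentedGroup.of]
      rw [this]
    have hJ : idl Js ≤ Ann a b := by
      refine Ideal.span_le.2 ?_
      rintro _ ⟨L, hL, rfl⟩
      rw [SetLike.mem_coe, mem_Ann]
      have h1 := wl_ev (fun i => (PresentedGroup.of i : PresentedGroup (relJ Js))) L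
      rw [hκ, PresentedGroup.one_of_mem (Or.inr (Or.inl ⟨L, hL, rfl⟩))] at h1
      exact h1.symm
    obtain ⟨ψ, hψa, hψb⟩ := psi_exists a b hJ
    have hcomp : ψ.comp (FreeGroup.lift (fab (al : GJ (idl Js)) be)) = PresentedGroup.mk (relJ Js) := by
      ext i
      rw [MonoidHom.comp_apply, FreeGroup.lift_apply_of]
      by_cases h0 : i = 0
      · subst h0
        exact hψa
      · by_cases h1 : i = 1
        · subst h1
          exact hψb
        · simp only [fab, h0, h1, if_false, map_one]
          exact (PresentedGroup.one_of_mem (Or.inr (Or.inr ⟨i, by omega, rfl⟩))).symm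
    have h1 := DFunLike.congr_fun hcomp (FreeGroup.mk w)
    rw [MonoidHom.comp_apply, h, map_one] at h1
    exact PresentedGroup.mk_eq_one_iff.1 h1.symm

end Pool.Agent.H28.IP
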