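/-
ROW HmM. Homomorphisms to `GJ (idl Js)` described by words. Write `τ w = FreeGroup.lift (fab al be) (mk w)`.
PROOFS.
* homM_sound: the homomorphism `FreeGroup ℕ →* GJ (idl Js)`, `x_i ↦ τ (W.getD i [])`, sends `mk w` to
  `τ (subst W w)` (lift_subst, row WdA), so it kills the relators `r ∈ P.2` (HomM, inJ_iff) and `x_i` for
  `i ≥ P.1 = W.length` (`W.getD i [] = []`). So it induces `θ : GN P →* GJ (idl Js)` (`PresentedGroup.toGroup`)
  with `θ (cl P w) = τ (subst W w)`. The first two parts of HomM say `τ (subst W A) = τ [(0, true)] = al`,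
  `τ (subst W B) = be`.
* homM_complete: by GenW, cl_one and cl_sub2 `cl P [(i, true)] = FreeGroup.lift (fab (cl P A) (cl P B)) (mk (W.getD i []))`
  for `i < P.1`, so `θ (cl P [(i, true)]) = τ (W.getD i [])` for `i < P.1`, and also for `i ≥ P.1` (both `1`). Hence
  `θ (cl P w) = τ (subst W w)` for every `w`. So `τ (subst W r) = θ 1 = 1` for `r ∈ P.2`,
  `τ (subst W A) = θ (cl P A) = al = τ [(0, true)]`, similarly `B`; conclude by inJ_iff.
-/
import Pool.Agent.H28.IP.InJ
import Pool.Agent.H28.IP.GwA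

set_option autoImplicit false

namespace Pool.Agent.H28.IP

theorem HmM_inv {Js : List NL} {u v : Word} :
    InJ Js (FreeGroup.invRev u ++ v) ↔ FreeGroup.lift (fab (al : GJ (idl Js)) be) (FreeGroup.mk v) =
      FreeGroup.lift (fab (al : GJ (idl Js)) be) (FreeGroup.mk u) := by
  rw [inJ_iff]
  have h : (FreeGroup.mk (FreeGroup.invRev u ++ v) : FreeGroup ℕ) =
      (FreeGroup.mk u)⁻¹ * FreeGroup.mk v := by
    rw [FreeGroup.inv_mk, FreeGroup.mul_mk]
  rw [h, map_mul, map_inv, inv_mul_eq_one]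
  exact eq_comm

theorem HmM_getD {W : List Word} {i : ℕ} (h : W.length ≤ i) : W.getD i [] = [] :=
  List.getD_eq_default _ _ h

theorem HmM_nil {G : Type} [Group G] (f : ℕ → G) :
    FreeGroup.lift f (FreeGroup.mk ([] : Word)) = 1 := by
  rw [← FreeGroup.one_eq_mk, map_one]

theorem HmM_al {Js : List NL} :
    FreeGroup.lift (fab (al : GJ (idl Js)) be) (FreeGroup.mk [(0, true)]) = al := by
  show FreeGroup.lift (fab (al : GJ (idl Js)) be) (FreeGroup.of 0) = al
  rw [FreeGroup.lift_apply_of]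
  rfl

theorem HmM_be {Js : List NL} :
    FreeGroup.lift (fab (al : GJ (idl Js)) be) (FreeGroup.mk [(1, true)]) = be := by
  show FreeGroup.lift (fab (al : GJ (idl Js)) be) (FreeGroup.of 1) = be
  rw [FreeGroup.lift_apply_of]
  rfl

theorem HmM_fab {G H : Type} [Group G] [Group H] (θ : G →* H) (a b : G) (x : FreeGroup ℕ) :
    θ (FreeGroup.lift (fab a b) x) = FreeGroup.lift (fab (θ a) (θ b)) x := by
  have h : θ.comp (FreeGroup.lift (fab a b)) = FreeGroup.lift (fab (θ a) (θ b)) := by
    ext i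
    simp only [MonoidHom.comp_apply, FreeGroup.lift_apply_of]
    unfold fab
    split_ifs <;> simp
  rw [← h]
  rfl

theorem homM_sound {P : Pres} {Js : List NL} {A B : Word} {W : List Word} (hW : W.length = P.1)
    (h : HomM P Js A B W) : ∃ θ : GN P →* GJ (idl Js), θ (cl P A) = al ∧ θ (cl P B) = be := by
  have hφ : ∀ w : Word, FreeGroup.lift
      (fun i => FreeGroup.lift (fab (al : GJ (idl Js)) be) (FreeGroup.mk (W.getD i [])))
      (FreeGroup.mk w) = FreeGroup.lift (fab (al : GJ (idl Js)) be) (FreeGroup.mk (subst W w)) :=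
    fun w => (lift_subst _ W w).symm
  have hk : ∀ r ∈ relN P, FreeGroup.lift
      (fun i => FreeGroup.lift (fab (al : GJ (idl Js)) be) (FreeGroup.mk (W.getD i []))) r = 1 := by
    rintro r (⟨w, hw, rfl⟩ | ⟨i, hi, rfl⟩)
    · rw [hφ]
      exact inJ_iff.mp (h.2.2 w hw)
    · rw [FreeGroup.lift_apply_of, HmM_getD (hW ▸ hi), HmM_nil]
  refine ⟨PresentedGroup.toGroup hk, ?_, ?_⟩
  · have h1 := HmM_inv.mp h.1
    rw [HmM_al, ← hφ] at h1
    exact h1
  · have h1 := HmM_inv.mp h.2.1
    rw [HmM_be, ← hφ] at h1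
    exact h1

theorem homM_complete {P : Pres} {Js : List NL} {A B : Word} {W : List Word} (hG : GenW P A B W)
    (θ : GN P →* GJ (idl Js)) (hA : θ (cl P A) = al) (hB : θ (cl P B) = be) :
    HomM P Js A B W := by
  have h1 : ∀ i, θ (cl P [(i, true)]) =
      FreeGroup.lift (fab (al : GJ (idl Js)) be) (FreeGroup.mk (W.getD i [])) := by
    intro i
    rcases lt_or_ge i P.1 with hi | hi
    · have h2 := hG.2 i hi
      rw [← cl_one] at h2
      have h3 : cl P (FreeGroup.invRev [(i, true)] ++ subst [A, B] (W.getD i [])) =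
          (cl P [(i, true)])⁻¹ * cl P (subst [A, B] (W.getD i [])) := by
        unfold cl
        rw [← map_inv, ← map_mul, FreeGroup.inv_mk, FreeGroup.mul_mk]
      rw [h3, inv_mul_eq_one] at h2
      rw [h2, cl_sub2, HmM_fab, hA, hB]
    · have h2 : cl P [(i, true)] = 1 := by
        rw [cl_one]
        exact Subgroup.subset_normalClosure (Or.inr ⟨i, hi, rfl⟩)
      rw [h2, map_one, HmM_getD (hG.1.le.trans hi), HmM_nil]
  have h2 : ∀ w : Word, θ (cl P w) =
      FreeGroup.lift (fab (al : GJ (idl Js)) be) (FreeGroup.mk (subst W w)) := by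
    intro w
    rw [lift_subst]
    have h3 : θ.comp (PresentedGroup.mk (relN P)) = FreeGroup.lift
        (fun i => FreeGroup.lift (fab (al : GJ (idl Js)) be) (FreeGroup.mk (W.getD i []))) := by
      ext i
      · exact congrArg _ (by
          rw [FreeGroup.lift_apply_of, ← h1]
          rfl)
      · exact congrArg _ (by
          rw [FreeGroup.lift_apply_of, ← h1]
          rfl)
      · exact congrArg _ (by
          rw [FreeGroup.lift_apply_of, ← h1]
          rfl)
    rw [← h3]
    rfl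
  refine ⟨HmM_inv.mpr ?_, HmM_inv.mpr ?_, fun r hr => inJ_iff.mpr ?_⟩
  · rw [HmM_al, ← h2, hA]
  · rw [HmM_be, ← h2, hB]
  · rw [← h2]
    have h4 : cl P r = 1 := by
      rw [cl_one]
      exact Subgroup.subset_normalClosure (Or.inl ⟨r, hr, rfl⟩)
    rw [h4, map_one]

end Pool.Agent.H28.IP
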