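/-
ROW IsA. Isomorphism in terms of words.
PROOF. `→`: let `σ : GN P ≃* GN Q`. For `i < P.1` choose a word `U_i` with `cl Q U_i = σ (cl P [(i, true)])`
(`PresentedGroup.mk_surjective`, every element of `FreeGroup ℕ` is `mk` of a word), `U` the list of these
words (length `P.1`), similarly `V` with `σ.symm`. For every `i : ℕ` (also `i ≥ P.1`, where
`U.getD i [] = []` and `cl P [(i, true)] = 1`): `cl Q (U.getD i []) = σ (cl P [(i, true)])`. Hence for every
word `w`: `cl Q (subst U w) = σ (cl P w)` (induction on `w`, or both sides are homomorphisms of `mk w`: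
lift_subst with `f i = cl Q [(i, true)]`), similarly for `V`. All four conditions follow with cl_one.
`←`: by the conditions the homomorphism `FreeGroup ℕ →* GN Q`, `x_i ↦ cl Q (U.getD i [])` kills `relN P`
(for `i ≥ P.1` the word is empty), so it induces `θ : GN P →* GN Q` (`PresentedGroup.toGroup`), similarly
`θ' : GN Q →* GN P`; `θ' ∘ θ` fixes the generators `cl P [(i, true)]` (for `i ≥ P.1` they are `1`), so it
is the identity (`PresentedGroup.ext`), similarly `θ ∘ θ'`; `MonoidHom.toMulEquiv`.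
-/
import Pool.Agent.H28.IP.NcB

set_option autoImplicit false

namespace Pool.Agent.H28.IP

theorem IsA_nil (P : Pres) : cl P [] = 1 := by
  unfold cl
  rw [← FreeGroup.one_eq_mk, map_one]

theorem IsA_append (P : Pres) (a b : Word) : cl P (a ++ b) = cl P a * cl P b := by
  unfold cl
  rw [← FreeGroup.mul_mk, map_mul]

theorem IsA_inv (P : Pres) (a : Word) : cl P (FreeGroup.invRev a) = (cl P a)⁻¹ := by
  unfold cl
  rw [← FreeGroup.inv_mk, map_inv]

theorem IsA_big {P : Pres} {i : ℕ} (h : P.1 ≤ i) : cl P [(i, true)] = 1 := by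
  rw [cl_one]
  exact Subgroup.subset_normalClosure (Or.inr ⟨i, h, rfl⟩)

theorem IsA_rel {P : Pres} {r : Word} (h : r ∈ P.2) : cl P r = 1 := by
  rw [cl_one]
  exact Subgroup.subset_normalClosure (Or.inl ⟨r, h, rfl⟩)

theorem IsA_subst (Q : Pres) (U : List Word) (w : Word) :
    cl Q (subst U w) = FreeGroup.lift (fun i => cl Q (U.getD i [])) (FreeGroup.mk w) := by
  have h : (PresentedGroup.mk (relN Q)).comp
      (FreeGroup.lift (fun i => (FreeGroup.mk (U.getD i []) : FreeGroup ℕ))) =
      FreeGroup.lift (fun i => cl Q (U.getD i [])) := by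
    ext i
    simp [cl]
  rw [← h]
  unfold cl
  rw [subst_mk]
  rfl

theorem IsA_hom {P : Pres} {G : Type} [Group G] (f : GN P →* G) (w : Word) :
    f (cl P w) = FreeGroup.lift (fun i => f (cl P [(i, true)])) (FreeGroup.mk w) := by
  have h : f.comp (PresentedGroup.mk (relN P)) =
      FreeGroup.lift (fun i => f (cl P [(i, true)])) := by
    ext i
    simp only [MonoidHom.coe_comp, Function.comp_apply, FreeGroup.lift_apply_of]
    rfl
  rw [← h]
  rfl

theorem IsA_word {P : Pres} (g : GN P) : ∃ w : Word, cl P w = g := by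
  obtain ⟨x, rfl⟩ := PresentedGroup.mk_surjective (relN P) g
  obtain ⟨w, rfl⟩ := Quot.exists_rep x
  exact ⟨w, rfl⟩

theorem IsA_choose {P Q : Pres} (f : GN P →* GN Q) : ∃ U : List Word, U.length = P.1 ∧
    ∀ w, cl Q (subst U w) = f (cl P w) := by
  choose u hu using fun i : ℕ => IsA_word (f (cl P [(i, true)]))
  refine ⟨(List.range P.1).map u, by simp, fun w => ?_⟩
  rw [IsA_subst, IsA_hom f w]
  congr 2
  funext i
  by_cases hi : i < P.1
  · have : ((List.range P.1).map u).getD i [] = u i := by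
      simp [List.getD_eq_getElem?_getD, hi]
    rw [this, hu]
  · have : ((List.range P.1).map u).getD i [] = [] := by
      simp [List.getD_eq_getElem?_getD, hi]
    rw [this, IsA_nil, IsA_big (not_lt.mp hi), map_one]

/-- the homomorphism given by a list of words -/
theorem IsA_exists {P Q : Pres} {U : List Word} (hl : U.length = P.1)
    (h : ∀ r ∈ P.2, InN Q (subst U r)) : ∃ f : GN P →* GN Q,
    ∀ w, f (cl P w) = cl Q (subst U w) := by
  have hr : ∀ r ∈ relN P, FreeGroup.lift (fun i => cl Q (U.getD i [])) r = 1 := by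
    rintro r (⟨w, hw, rfl⟩ | ⟨i, hi, rfl⟩)
    · rw [← IsA_subst, cl_one]
      exact h w hw
    · rw [FreeGroup.lift_apply_of]
      have : U.getD i [] = [] := by
        simp [List.getD_eq_getElem?_getD, hl, hi]
      rw [this, IsA_nil]
  refine ⟨PresentedGroup.toGroup hr, fun w => ?_⟩
  rw [IsA_subst]
  have h2 := IsA_hom (PresentedGroup.toGroup hr) w
  rw [h2]
  congr 2
  funext i
  exact PresentedGroup.toGroup.of hr

theorem IsA_comp {P Q : Pres} {U V : List Word} (hl : U.length = P.1) {f : GN P →* GN Q}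
    {g : GN Q →* GN P} (hf : ∀ w, f (cl P w) = cl Q (subst U w))
    (hg : ∀ w, g (cl Q w) = cl P (subst V w))
    (h : ∀ i ∈ List.range P.1, InN P (FreeGroup.invRev [(i, true)] ++ subst V (U.getD i []))) :
    g.comp f = MonoidHom.id _ := by
  apply PresentedGroup.ext
  intro i
  change g (f (cl P [(i, true)])) = cl P [(i, true)]
  have e1 : subst U [(i, true)] = U.getD i [] := by simp [subst]
  rw [hf, e1, hg]
  by_cases hi : i < P.1
  · have := h i (List.mem_range.mpr hi)
    rw [← cl_one, IsA_append, IsA_inv, inv_mul_eq_one] at this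
    exact this.symm
  · have e2 : U.getD i [] = [] := by
      simp [List.getD_eq_getElem?_getD, hl, not_lt.mp hi]
    rw [e2, IsA_big (not_lt.mp hi)]
    exact IsA_nil P

theorem iso_words {P Q : Pres} : Nonempty (GN P ≃* GN Q) ↔ ∃ U V : List Word,
    (U.length = P.1 ∧ V.length = Q.1) ∧
    ((∀ r ∈ P.2, InN Q (subst U r)) ∧ (∀ r ∈ Q.2, InN P (subst V r))) ∧
    (∀ i ∈ List.range P.1, InN P (FreeGroup.invRev [(i, true)] ++ subst V (U.getD i []))) ∧
    (∀ i ∈ List.range Q.1, InN Q (FreeGroup.invRev [(i, true)] ++ subst U (V.getD i []))) := by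
  constructor
  · rintro ⟨σ⟩
    obtain ⟨U, hU, hU2⟩ := IsA_choose σ.toMonoidHom
    obtain ⟨V, hV, hV2⟩ := IsA_choose σ.symm.toMonoidHom
    have e1 : ∀ i, subst U [(i, true)] = U.getD i [] := fun i => by simp [subst]
    have e2 : ∀ i, subst V [(i, true)] = V.getD i [] := fun i => by simp [subst]
    refine ⟨U, V, ⟨hU, hV⟩, ⟨fun r hr => ?_, fun r hr => ?_⟩, fun i _ => ?_, fun i _ => ?_⟩
    · rw [← cl_one, hU2, IsA_rel hr, map_one]
    · rw [← cl_one, hV2, IsA_rel hr, map_one]
    · rw [← cl_one, IsA_append, IsA_inv, hV2, ← e1, hU2]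
      simp
    · rw [← cl_one, IsA_append, IsA_inv, hU2, ← e2, hV2]
      simp
  · rintro ⟨U, V, ⟨hU, hV⟩, ⟨h1, h2⟩, h3, h4⟩
    obtain ⟨f, hf⟩ := IsA_exists hU h1
    obtain ⟨g, hg⟩ := IsA_exists hV h2
    exact ⟨f.toMulEquiv g (IsA_comp hU hf hg h3) (IsA_comp hV hg hf h4)⟩

end Pool.Agent.H28.IP
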