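/-
ROW IsB. Isomorphism is enumerable.
PROOF. re_of_eq with iso_words (row IsA): re_ex twice (over `U` and `V`), re_and, re_prim for the
equations of lengths, re_all with re_InN composed with primitive recursive functions (prim_subst,
prim_invRev, `Primrec.list_append`, `Primrec.list_getD`, `Primrec.list_range`).
-/
import Pool.Agent.H28.IP.IsA

set_option autoImplicit false

namespace Pool.Agent.H28.IP

private abbrev Y4 : Type := ((Pres × Pres) × List Word) × List Word

private theorem y1 : Primrec fun y : Y4 => y.1.1.1 :=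
  Primrec.fst.comp (Primrec.fst.comp Primrec.fst)

private theorem y2 : Primrec fun y : Y4 => y.1.1.2 :=
  Primrec.snd.comp (Primrec.fst.comp Primrec.fst)

private theorem y3 : Primrec fun y : Y4 => y.1.2 := Primrec.snd.comp Primrec.fst

private theorem y4 : Primrec fun y : Y4 => y.2 := Primrec.snd

/-- The relators of `P` are killed. -/
private theorem re_rel {P Q : Y4 → Pres} {U : Y4 → List Word} (hP : Primrec P) (hQ : Primrec Q)
    (hU : Primrec U) : Re fun y : Y4 => ∀ r ∈ (P y).2, InN (Q y) (subst (U y) r) := by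
  have h : Re fun z : Y4 × Word => InN (Q z.1) (subst (U z.1) z.2) :=
    re_comp (f := fun z : Y4 × Word => (Q z.1, subst (U z.1) z.2)) re_InN
      ((hQ.comp Primrec.fst).pair (prim_subst.comp (hU.comp Primrec.fst) Primrec.snd))
  exact re_all h (Primrec.snd.comp hP)

/-- The composition fixes the generators. -/
private theorem re_fix {P : Y4 → Pres} {U V : Y4 → List Word} (hP : Primrec P)
    (hU : Primrec U) (hV : Primrec V) : Re fun y : Y4 => ∀ i ∈ List.range (P y).1,
      InN (P y) (FreeGroup.invRev [(i, true)] ++ subst (V y) ((U y).getD i [])) := by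
  have h1 : Primrec fun z : Y4 × ℕ => FreeGroup.invRev [(z.2, true)] :=
    prim_invRev.comp (Primrec.list_cons.comp (Primrec.snd.pair (Primrec.const true))
      (Primrec.const []))
  have h2 : Primrec fun z : Y4 × ℕ => subst (V z.1) ((U z.1).getD z.2 []) :=
    prim_subst.comp (hV.comp Primrec.fst)
      ((Primrec.list_getD ([] : Word)).comp (hU.comp Primrec.fst) Primrec.snd)
  have h : Re fun z : Y4 × ℕ =>
      InN (P z.1) (FreeGroup.invRev [(z.2, true)] ++ subst (V z.1) ((U z.1).getD z.2 [])) :=
    re_comp (f := fun z : Y4 × ℕ =>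
      (P z.1, FreeGroup.invRev [(z.2, true)] ++ subst (V z.1) ((U z.1).getD z.2 []))) re_InN
      ((hP.comp Primrec.fst).pair (Primrec.list_append.comp h1 h2))
  exact re_all h (Primrec.list_range.comp (Primrec.fst.comp hP))

theorem re_iso : Re fun x : Pres × Pres => Nonempty (GN x.1 ≃* GN x.2) := by
  refine re_of_eq (re_ex (re_ex (p := fun y : Y4 =>
    (y.1.2.length = y.1.1.1.1 ∧ y.2.length = y.1.1.2.1) ∧
    ((∀ r ∈ y.1.1.1.2, InN y.1.1.2 (subst y.1.2 r)) ∧
      (∀ r ∈ y.1.1.2.2, InN y.1.1.1 (subst y.2 r))) ∧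
    (∀ i ∈ List.range y.1.1.1.1,
      InN y.1.1.1 (FreeGroup.invRev [(i, true)] ++ subst y.2 (y.1.2.getD i []))) ∧
    (∀ i ∈ List.range y.1.1.2.1,
      InN y.1.1.2 (FreeGroup.invRev [(i, true)] ++ subst y.1.2 (y.2.getD i [])))) ?_))
    (fun x => (iso_words (P := x.1) (Q := x.2)).symm)
  refine re_and (re_prim ?_) (re_and (re_and (re_rel y1 y2 y3) (re_rel y2 y1 y4))
    (re_and (re_fix y1 y3 y4) (re_fix y2 y4 y3)))
  exact PrimrecPred.and (Primrec.eq.comp (Primrec.list_length.comp y3) (Primrec.fst.comp y1))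
    (Primrec.eq.comp (Primrec.list_length.comp y4) (Primrec.fst.comp y2))

end Pool.Agent.H28.IP
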