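/-
ROW Lif. `GL₂(ℤ)` lifts to automorphisms of the free group. `x ≡ y` means equality in `Abelianization G`.
PROOF. Let `Q m` be the statement for all groups `G : Type` and all generating pairs `a, b`. Identify `m`
with the matrix `M = !![m₁, m₃; m₂, m₄]` (determinant `dt m`). (1) `Q 1`: `(a, b)`. (2) If `Q m`, `Q n` then
`Q (M N)`: take `(a', b')` for `m` and then `(a'', b'')` for `n` applied to the pair `(a', b')`:
`a'' ≡ a'^n₁ b'^n₂ ≡ a^(m₁n₁+m₃n₂) b^(m₂n₁+m₄n₂)`, the first column of `M N`, similarly `b''`. (3) `Q` holds for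
`!![1, 1; 0, 1]` (pair `(a, a * b)`) and its inverse (`(a, a⁻¹ * b)`), for `!![0, -1; 1, 0]` (`(b, a⁻¹)`) and its
inverse (`(b⁻¹, a)`), for `!![-1, 0; 0, 1]` (`(a⁻¹, b)`). These pairs generate. (4) `SpecialLinearGroup.SL2Z_generators`
(LinearAlgebra/Matrix/FixedDetMatrices.lean; `S = !![0, -1; 1, 0]`, `T = !![1, 1; 0, 1]`): by
`Subgroup.closure_induction` `Q` holds for every matrix of determinant 1; a matrix of determinant `-1` is a
matrix of determinant 1 times `!![-1, 0; 0, 1]`.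
-/
import Pool.Agent.H28.IP.Defs

set_option autoImplicit false

namespace Pool.Agent.H28.IP

/-- Auxiliary predicate: the matrix lifts. -/
def Lif_Q (G : Type) [Group G] (M : Matrix (Fin 2) (Fin 2) ℤ) : Prop :=
  ∀ a b : G, Gen2 a b → ∃ a' b' : G, Gen2 a' b' ∧
    Abelianization.of a' = Abelianization.of a ^ (M 0 0) * Abelianization.of b ^ (M 1 0) ∧
    Abelianization.of b' = Abelianization.of a ^ (M 0 1) * Abelianization.of b ^ (M 1 1)

theorem Lif_gen {G : Type} [Group G] {a b a' b' : G} (h : Gen2 a b)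
    (ha : a ∈ Subgroup.closure {a', b'}) (hb : b ∈ Subgroup.closure {a', b'}) : Gen2 a' b' := by
  unfold Gen2 at *
  rw [eq_top_iff, ← h, Subgroup.closure_le]
  rintro x (rfl | rfl)
  · exact ha
  · exact hb

theorem Lif_mul {G : Type} [Group G] {M N : Matrix (Fin 2) (Fin 2) ℤ} (hM : Lif_Q G M)
    (hN : Lif_Q G N) : Lif_Q G (M * N) := by
  intro a b hab
  obtain ⟨a', b', h1, h2, h3⟩ := hM a b hab
  obtain ⟨a'', b'', k1, k2, k3⟩ := hN a' b' h1
  refine ⟨a'', b'', k1, ?_, ?_⟩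
  · rw [k2, h2, h3, mul_zpow, mul_zpow, ← zpow_mul, ← zpow_mul, ← zpow_mul, ← zpow_mul,
      Matrix.mul_apply, Matrix.mul_apply, Fin.sum_univ_two, Fin.sum_univ_two, zpow_add, zpow_add]
    exact mul_mul_mul_comm _ _ _ _
  · rw [k3, h2, h3, mul_zpow, mul_zpow, ← zpow_mul, ← zpow_mul, ← zpow_mul, ← zpow_mul,
      Matrix.mul_apply, Matrix.mul_apply, Fin.sum_univ_two, Fin.sum_univ_two, zpow_add, zpow_add]
    exact mul_mul_mul_comm _ _ _ _

theorem Lif_one {G : Type} [Group G] : Lif_Q G 1 := by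
  intro a b hab
  exact ⟨a, b, hab, by simp, by simp⟩

theorem Lif_S {G : Type} [Group G] : Lif_Q G !![0, -1; 1, 0] := by
  intro a b hab
  refine ⟨b, a⁻¹, Lif_gen hab ?_ ?_, by simp, by simp⟩
  · rw [← inv_inv a]
    exact Subgroup.inv_mem _ (Subgroup.subset_closure (by simp))
  · exact Subgroup.subset_closure (by simp)

theorem Lif_S' {G : Type} [Group G] : Lif_Q G !![0, 1; -1, 0] := by
  intro a b hab
  refine ⟨b⁻¹, a, Lif_gen hab ?_ ?_, by simp, by simp⟩
  · exact Subgroup.subset_closure (by simp)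
  · rw [← inv_inv b]
    exact Subgroup.inv_mem _ (Subgroup.subset_closure (by simp))

theorem Lif_T {G : Type} [Group G] : Lif_Q G !![1, 1; 0, 1] := by
  intro a b hab
  have h1 : a ∈ Subgroup.closure {a, a * b} := Subgroup.subset_closure (by simp)
  have h2 : a * b ∈ Subgroup.closure {a, a * b} := Subgroup.subset_closure (by simp)
  refine ⟨a, a * b, Lif_gen hab h1 ?_, by simp, by simp⟩
  have h3 := Subgroup.mul_mem _ (Subgroup.inv_mem _ h1) h2
  rwa [inv_mul_cancel_left] at h3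

theorem Lif_T' {G : Type} [Group G] : Lif_Q G !![1, -1; 0, 1] := by
  intro a b hab
  have h1 : a ∈ Subgroup.closure {a, a⁻¹ * b} := Subgroup.subset_closure (by simp)
  have h2 : a⁻¹ * b ∈ Subgroup.closure {a, a⁻¹ * b} := Subgroup.subset_closure (by simp)
  refine ⟨a, a⁻¹ * b, Lif_gen hab h1 ?_, by simp, by simp⟩
  have h3 := Subgroup.mul_mem _ h1 h2
  rwa [mul_inv_cancel_left] at h3

theorem Lif_D {G : Type} [Group G] : Lif_Q G !![-1, 0; 0, 1] := by
  intro a b hab
  refine ⟨a⁻¹, b, Lif_gen hab ?_ ?_, by simp, by simp⟩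
  · rw [← inv_inv a]
    exact Subgroup.inv_mem _ (Subgroup.subset_closure (by simp))
  · exact Subgroup.subset_closure (by simp)

open Matrix in
theorem Lif_SL {G : Type} [Group G] (A : SpecialLinearGroup (Fin 2) ℤ) : Lif_Q G A.1 := by
  have hA : A ∈ Subgroup.closure {ModularGroup.S, ModularGroup.T} := by
    rw [SpecialLinearGroup.SL2Z_generators]
    exact Subgroup.mem_top A
  have key : Lif_Q G A.1 ∧ Lif_Q G (A⁻¹).1 := by
    refine Subgroup.closure_induction
      (p := fun A _ => Lif_Q G A.1 ∧ Lif_Q G (A⁻¹).1) ?_ ?_ ?_ ?_ hA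
    · rintro x (rfl | rfl)
      · refine ⟨Lif_S, ?_⟩
        have : (ModularGroup.S⁻¹).1 = !![0, 1; -1, 0] := by
          show Matrix.adjugate (ModularGroup.S).1 = _
          rw [Matrix.adjugate_fin_two]
          ext i j
          fin_cases i <;> fin_cases j <;> simp [ModularGroup.S]
        rw [this]
        exact Lif_S'
      · refine ⟨Lif_T, ?_⟩
        have : (ModularGroup.T⁻¹).1 = !![1, -1; 0, 1] := by
          show Matrix.adjugate (ModularGroup.T).1 = _
          rw [Matrix.adjugate_fin_two]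
          ext i j
          fin_cases i <;> fin_cases j <;> simp [ModularGroup.T]
        rw [this]
        exact Lif_T'
    · rw [inv_one]
      exact ⟨Lif_one, Lif_one⟩
    · rintro x y _ _ ⟨h1, h2⟩ ⟨h3, h4⟩
      refine ⟨Lif_mul h1 h3, ?_⟩
      rw [_root_.mul_inv_rev]
      exact Lif_mul h4 h2
    · rintro x _ ⟨h1, h2⟩
      rw [inv_inv]
      exact ⟨h2, h1⟩
  exact key.1

theorem Lif_all {G : Type} [Group G] (M : Matrix (Fin 2) (Fin 2) ℤ)
    (hM : M.det = 1 ∨ M.det = -1) : Lif_Q G M := by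
  rcases hM with h | h
  · exact Lif_SL ⟨M, h⟩
  · have h1 : (M * !![-1, 0; 0, 1]).det = 1 := by
      rw [Matrix.det_mul, h, Matrix.det_fin_two_of]
      norm_num
    have h2 : M = (M * !![-1, 0; 0, 1]) * !![-1, 0; 0, 1] := by
      have h3 : (!![-1, 0; 0, 1] : Matrix (Fin 2) (Fin 2) ℤ) * !![-1, 0; 0, 1] = 1 := by
        ext i j
        fin_cases i <;> fin_cases j <;> simp [Matrix.mul_apply]
      rw [mul_assoc, h3, mul_one]
    rw [h2]
    exact Lif_mul (Lif_SL ⟨_, h1⟩) Lif_D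

theorem lift_gl2 {G : Type} [Group G] {a b : G} (hg : Gen2 a b) {m : ℤ × ℤ × ℤ × ℤ}
    (hm : dt m = 1 ∨ dt m = -1) : ∃ a' b' : G, Gen2 a' b' ∧
      a' * (a ^ m.1 * b ^ m.2.1)⁻¹ ∈ commutator G ∧
      b' * (a ^ m.2.2.1 * b ^ m.2.2.2)⁻¹ ∈ commutator G := by
  have hd : (!![m.1, m.2.2.1; m.2.1, m.2.2.2] : Matrix (Fin 2) (Fin 2) ℤ).det = dt m := by
    rw [Matrix.det_fin_two_of]
    unfold dt
    ring
  obtain ⟨a', b', h1, h2, h3⟩ := Lif_all (G := G) !![m.1, m.2.2.1; m.2.1, m.2.2.2]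
    (by rw [hd]; exact hm) a b hg
  refine ⟨a', b', h1, ?_, ?_⟩
  · rw [← Abelianization.ker_of, MonoidHom.mem_ker, map_mul, map_inv, map_mul, map_zpow,
      map_zpow, h2]
    simp
  · rw [← Abelianization.ker_of, MonoidHom.mem_ker, map_mul, map_inv, map_mul, map_zpow,
      map_zpow, h3]
    simp

end Pool.Agent.H28.IP
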