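/-
ROW IsI. The isomorphism criterion (only the direction needed for completeness).
PROOF. By lift_gl2 there are `a', b'` in `G` generating with the congruences; by change_ev
`ev a' b' f = 1 ↔ ev a b (act m f) = 1 ↔ ev a₂ b₂ f = 1` for all `f`, so `Ann a' b' = Ann a₂ b₂` (mem_Ann);
`AbFree a' b'` by `change` (first part). By psi_iso `G ≃* GJ (Ann a' b') = GJ (Ann a₂ b₂) ≃* G₂`.
-/
import Pool.Agent.H28.IP.Psi
import Pool.Agent.H28.IP.ChA
import Pool.Agent.H28.IP.ChB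
import Pool.Agent.H28.IP.Lif

set_option autoImplicit false

namespace Pool.Agent.H28.IP

theorem iso_of {G G₂ : Type} [Group G] [Metab G] [Group G₂] [Metab G₂] {a b : G} {a₂ b₂ : G₂}
    (hg : Gen2 a b) (hf : AbFree a b) (hg₂ : Gen2 a₂ b₂) (hf₂ : AbFree a₂ b₂)
    {m : ℤ × ℤ × ℤ × ℤ} (hm : dt m = 1 ∨ dt m = -1)
    (h : ∀ f, ev a₂ b₂ f = 1 ↔ ev a b (act m f) = 1) : Nonempty (G ≃* G₂) := by
  obtain ⟨a', b', hg', ha, hb⟩ := lift_gl2 hg hm
  have hf' : AbFree a' b' := (change hg hg' hf).1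
  have hAnn : Ann a' b' = Ann a₂ b₂ := by
    ext f
    rw [mem_Ann, mem_Ann, h f]
    exact change_ev hg hg' ha hb f
  obtain ⟨ψ, -, -⟩ := psi_iso hg' hf'
  obtain ⟨ψ₂, -, -⟩ := psi_iso hg₂ hf₂
  rw [hAnn] at ψ
  exact ⟨ψ.symm.trans ψ₂⟩

end Pool.Agent.H28.IP
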