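/-
ROW PrA. A prime `P ∋ p` of `Lam` in which `x, y` are independent is generated by `p` and one element.
PROOF. `D = Lam ⧸ P` (a domain). As `red p` is surjective (red_surj) with kernel `p Lam ≤ P` (red_zero), there is
`φ : AddMonoidAlgebra (ZMod p) (ℤ × ℤ) →+* D` with `φ (red p f) = mk f` (`RingHom.liftOfRightInverse` or
`Ideal.Quotient.lift` with `RingHom.quotientKerEquivOfSurjective`). Let `Q = RingHom.ker (φ.comp (emb (ZMod p)))`,
a prime ideal of `(ZMod p)[X][Y]` (`RingHom.ker_isPrime`).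
(1) `C d ∈ Q → d = 0`: otherwise by emb_C and `φ (single (i,0) c) = c * x^i` the unit `x` (class of
`mo (1,0)`) of `D` satisfies `∑ d_i x^i = 0`; alg_tor (row AlT; `s` = the image of `d.support` in `ℤ`, `c` the
lifts `ZMod.val`/`cast` of the coefficients) gives `x^N = 1`, `N ≥ 1`, i.e. `mo (N, 0) - 1 ∈ P`, contradicting `hz`.
(2) `Q ≠ ⊥`: for `g ∈ P` with `red p g ≠ 0`: by emb_exists `single (s,t) 1 * red p g = emb G`; `G ≠ 0` (units) and
`φ (emb G) = mk (mo (s,t) * g) = 0`.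
(3) `(ZMod p)[X][Y]` is a UFD: `Q` contains a prime element `F` (`Ideal.IsPrime.exists_mem_prime_of_ne_bot`).
`natDegree F > 0` (otherwise `F = C d`, `d = 0` by (1)). Every `G ∈ Q` is divisible by `F` (otherwise `bez`
(row Bez, `R = (ZMod p)[X]`) gives `C d ∈ Q`, `d ≠ 0`).
(4) Let `f` with `red p f = emb F` (red_surj). `mk f = φ (emb F) = 0`, so `f ∈ P`; `red p f ≠ 0` (emb_inj).
For `g ∈ P`: `single (s,t) 1 * red p g = emb G` with `G ∈ Q`, `G = F * H'`, so
`red p g = red p f * (single (-s,-t) 1 * emb H')` and `g ∈ span {f, p}` by red_span.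
-/
import Pool.Agent.H28.IP.RdA
import Pool.Agent.H28.IP.AlT
import Pool.Agent.H28.IP.Bez
import Pool.Agent.H28.IP.Emb
import Pool.Agent.H28.IP.EvA

set_option autoImplicit false

namespace Pool.Agent.H28.IP

open Polynomial

private theorem PrA_xpow (P : Ideal Lam) (n : ℕ) :
    (((XJ P ^ (n : ℤ) : (Lam ⧸ P)ˣ)) : Lam ⧸ P) = Ideal.Quotient.mk P (mo ((n : ℤ), 0)) := by
  have h1 : (mo (1, 0)) ^ n = mo ((n : ℤ), 0) := by
    rw [mo, AddMonoidAlgebra.single_pow, mo]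
    simp
  rw [zpow_natCast, Units.val_pow_eq_pow_val]
  have h2 : ((XJ P : (Lam ⧸ P)ˣ) : Lam ⧸ P) = Ideal.Quotient.mk P (mo (1, 0)) := rfl
  rw [h2, ← map_pow, h1]

private theorem PrA_single (p : ℕ) [NeZero p] (z : ℤ × ℤ) (c : ZMod p) :
    AddMonoidAlgebra.single z c = red p (((c.val : ℤ) : Lam) * mo z) := by
  rw [map_mul, map_intCast, red_mo]
  have h1 : ((c.val : ℤ) : AddMonoidAlgebra (ZMod p) (ℤ × ℤ)) = AddMonoidAlgebra.single 0 c := by
    have h2 : (AddMonoidAlgebra.singleZeroRingHom :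
        ZMod p →+* AddMonoidAlgebra (ZMod p) (ℤ × ℤ)) c = AddMonoidAlgebra.single 0 c := rfl
    rw [← h2]
    conv_rhs => rw [← ZMod.natCast_zmod_val c]
    rw [map_natCast]
    simp
  rw [h1, AddMonoidAlgebra.single_mul_single, zero_add, mul_one]

theorem prime_gen {p : ℕ} (hp : p.Prime) {P : Ideal Lam} (hP : P.IsPrime) (hpP : (p : Lam) ∈ P)
    (hz : ∀ z : ℤ × ℤ, z ≠ 0 → mo z - 1 ∉ P) (hne : ∃ g ∈ P, red p g ≠ 0) :
    ∃ f ∈ P, red p f ≠ 0 ∧ P ≤ Ideal.span {f, (p : Lam)} := by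
  have : Fact p.Prime := ⟨hp⟩
  have : IsDomain (Lam ⧸ P) := Ideal.Quotient.isDomain P
  -- the homomorphism
  obtain ⟨φ, hφ⟩ : ∃ φ : AddMonoidAlgebra (ZMod p) (ℤ × ℤ) →+* Lam ⧸ P,
      ∀ f, φ (red p f) = Ideal.Quotient.mk P f := by
    have hker : RingHom.ker (red p) ≤ RingHom.ker (Ideal.Quotient.mk P) := by
      intro f hf
      obtain ⟨g, rfl⟩ := red_zero.1 ((RingHom.mem_ker).1 hf)
      rw [RingHom.mem_ker, Ideal.Quotient.eq_zero_iff_mem]
      exact P.mul_mem_right _ hpP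
    refine ⟨RingHom.liftOfRightInverse (red p) (Function.surjInv (red_surj p))
      (Function.rightInverse_surjInv (red_surj p)) ⟨Ideal.Quotient.mk P, hker⟩, fun f => ?_⟩
    exact RingHom.liftOfRightInverse_comp_apply (red p) (Function.surjInv (red_surj p))
      (Function.rightInverse_surjInv (red_surj p)) ⟨Ideal.Quotient.mk P, hker⟩ f
  set ψ : (ZMod p)[X][X] →+* Lam ⧸ P := φ.comp (emb (ZMod p)) with hψ
  have hψa : ∀ G, ψ G = φ (emb (ZMod p) G) := fun G => rfl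
  have hQ : (RingHom.ker ψ).IsPrime := RingHom.ker_isPrime ψ
  -- (1)
  have h1 : ∀ d : (ZMod p)[X], C d ∈ RingHom.ker ψ → d = 0 := by
    intro d hd
    by_contra hd0
    rw [RingHom.mem_ker, hψa, emb_C, Polynomial.sum_def, map_sum] at hd
    have h2 : ∀ i ∈ d.support, φ (AddMonoidAlgebra.single ((i : ℤ), (0 : ℤ)) (d.coeff i)) =
        ((((d.coeff i).val : ℤ)) : Lam ⧸ P) * ((XJ P ^ (i : ℤ) : (Lam ⧸ P)ˣ) : Lam ⧸ P) := by
      intro i _
      rw [PrA_single, hφ, map_mul, map_intCast, PrA_xpow]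
    rw [Finset.sum_congr rfl h2] at hd
    have h3 : ∑ k ∈ d.support.map Nat.castEmbedding,
        (((fun k : ℤ => ((d.coeff k.toNat).val : ℤ)) k : ℤ) : Lam ⧸ P) *
          ((XJ P ^ k : (Lam ⧸ P)ˣ) : Lam ⧸ P) = 0 := by
      rw [Finset.sum_map]
      exact hd
    have hpD : ((p : ℕ) : Lam ⧸ P) = 0 := by
      have := (Ideal.Quotient.eq_zero_iff_mem (I := P)).2 hpP
      rwa [map_natCast] at this
    obtain ⟨N, hN, hN1⟩ := alg_tor hp hpD (XJ P) _ _ (by
      obtain ⟨i, hi⟩ := Polynomial.support_nonempty.2 hd0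
      refine ⟨(i : ℤ), Finset.mem_map.2 ⟨i, hi, rfl⟩, ?_⟩
      have h4 : d.coeff i ≠ 0 := Polynomial.mem_support_iff.1 hi
      intro h5
      apply h4
      have h6 := (ZMod.intCast_zmod_eq_zero_iff_dvd _ p).2 h5
      simpa using h6) h3
    have h7 := PrA_xpow P N
    rw [zpow_natCast, Units.val_pow_eq_pow_val, hN1] at h7
    refine hz ((N : ℤ), 0) ?_ ?_
    · intro h8
      have := congrArg Prod.fst h8
      simp only [Prod.fst_zero] at this
      omega
    · rw [← Ideal.Quotient.eq, ← h7, map_one]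
  -- multiplication by a monomial
  have hun : ∀ s t : ℕ, (AddMonoidAlgebra.single ((-(s : ℤ)), (-(t : ℤ))) (1 : ZMod p)) *
      AddMonoidAlgebra.single ((s : ℤ), (t : ℤ)) (1 : ZMod p) = 1 := by
    intro s t
    rw [AddMonoidAlgebra.single_mul_single, AddMonoidAlgebra.one_def]
    simp only [Prod.mk_add_mk, neg_add_cancel, mul_one]
    rfl
  have hker' : ∀ g ∈ P, ∀ (s t : ℕ) (G : (ZMod p)[X][X]),
      AddMonoidAlgebra.single ((s : ℤ), (t : ℤ)) 1 * red p g = emb (ZMod p) G →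
      G ∈ RingHom.ker ψ := by
    intro g hg s t G hG
    rw [RingHom.mem_ker, hψa, ← hG, map_mul, hφ, (Ideal.Quotient.eq_zero_iff_mem).2 hg, mul_zero]
  -- (2)
  have h2 : RingHom.ker ψ ≠ ⊥ := by
    obtain ⟨g, hg, hg0⟩ := hne
    obtain ⟨s, t, G, hG⟩ := emb_exists (red p g)
    intro hbot
    have h3 := hker' g hg s t G hG
    rw [hbot, Ideal.mem_bot] at h3
    apply hg0
    rw [h3, map_zero] at hG
    calc red p g = (AddMonoidAlgebra.single ((-(s : ℤ)), (-(t : ℤ))) (1 : ZMod p) *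
        AddMonoidAlgebra.single ((s : ℤ), (t : ℤ)) (1 : ZMod p)) * red p g := by
          rw [hun, one_mul]
      _ = 0 := by rw [mul_assoc, hG, mul_zero]
  -- (3)
  obtain ⟨F, hFQ, hF⟩ := Ideal.IsPrime.exists_mem_prime_of_ne_bot hQ h2
  have hFdeg : 0 < F.natDegree := by
    rcases Nat.eq_zero_or_pos F.natDegree with h0 | h0
    · exfalso
      have h3 := Polynomial.eq_C_of_natDegree_eq_zero h0
      rw [h3] at hFQ
      have h4 := h1 _ hFQ
      rw [h4, map_zero] at h3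
      exact hF.ne_zero h3
    · exact h0
  have hdvd : ∀ G ∈ RingHom.ker ψ, F ∣ G := by
    intro G hG
    by_contra hcon
    obtain ⟨u, v, d, hd, he⟩ := bez hF hFdeg hcon
    apply hd
    apply h1
    rw [← he]
    exact Ideal.add_mem _ (Ideal.mul_mem_left _ _ hFQ) (Ideal.mul_mem_left _ _ hG)
  -- (4)
  obtain ⟨f, hf⟩ := red_surj p (emb (ZMod p) F)
  refine ⟨f, ?_, ?_, ?_⟩
  · rw [← Ideal.Quotient.eq_zero_iff_mem, ← hφ, hf]
    exact (RingHom.mem_ker).1 hFQ
  · rw [hf]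
    intro h0
    exact hF.ne_zero (emb_inj (h0.trans (map_zero _).symm))
  · intro g hg
    obtain ⟨s, t, G, hG⟩ := emb_exists (red p g)
    obtain ⟨H, rfl⟩ := hdvd G (hker' g hg s t G hG)
    rw [red_span]
    refine ⟨AddMonoidAlgebra.single ((-(s : ℤ)), (-(t : ℤ))) (1 : ZMod p) * emb (ZMod p) H, ?_⟩
    calc red p g = (AddMonoidAlgebra.single ((-(s : ℤ)), (-(t : ℤ))) (1 : ZMod p) *
        AddMonoidAlgebra.single ((s : ℤ), (t : ℤ)) (1 : ZMod p)) * red p g := by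
          rw [hun, one_mul]
      _ = AddMonoidAlgebra.single ((-(s : ℤ)), (-(t : ℤ))) (1 : ZMod p) *
          (emb (ZMod p) F * emb (ZMod p) H) := by
          rw [mul_assoc, hG, map_mul]
      _ = red p f * (AddMonoidAlgebra.single ((-(s : ℤ)), (-(t : ℤ))) (1 : ZMod p) *
          emb (ZMod p) H) := by
          rw [hf]
          ring

end Pool.Agent.H28.IP
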