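/-
ROW PrB. Three non-collinear exponents.
PROOF. `D = Lam ⧸ P`, `π` the projection. Let `s` be the finite set of the `z ∈ f.coeff.support` with
`¬ p ∣ f.coeff z`; nonempty by red_ne. `f - ∑ z ∈ s, f.coeff z • mo z ∈ p Lam ≤ P` (all coefficients divisible by `p`,
red_zero/red_ne), so `∑ z ∈ s, (f.coeff z : D) * π (mo z) = 0` (∗). Suppose NC3 fails. Let `z₀ ∈ s`.
If `s = {z₀}`: `(c : D) * π (mo z₀) = 0` with `π (mo z₀)` a unit, so `(c : D) = 0`, and with `u c + v p = 1`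
(`p` prime, `¬ p ∣ c`) `1 = 0` in `D`: contradiction. Otherwise let `z₁ ∈ s`, `z₁ ≠ z₀`, `w = z₁ - z₀ ≠ 0`, and
`d, u, v, …` from prim_vec for `w`. For `z ∈ s` the failure of NC3 (for `z₀, z₁, z`) says
`d (u (z.2 - z₀.2) - v (z.1 - z₀.1)) = 0`, so `z = z₀ + k_z (u, v)`; the `k_z` are distinct for distinct `z`
(`(u, v) ≠ 0`). With `β = π (mo (u, v))` (a unit) (∗) becomes `π (mo z₀) * ∑ f.coeff z * β^(k_z) = 0`; reindex the
sum over the image of `s` under `z ↦ k_z` and apply alg_tor: `β^N = 1`, `N ≥ 1`, i.e. `mo (N u, N v) - 1 ∈ P`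
with `(N u, N v) ≠ 0`, contradicting `hz`.
-/
import Pool.Agent.H28.IP.RdA
import Pool.Agent.H28.IP.AlT
import Pool.Agent.H28.IP.DfB
import Pool.Agent.H28.IP.EvA

set_option autoImplicit false

namespace Pool.Agent.H28.IP

/-- monomials as units -/
noncomputable def PrB_um : Multiplicative (ℤ × ℤ) →* Lamˣ where
  toFun w := ⟨mo (Multiplicative.toAdd w), mo (-Multiplicative.toAdd w),
    by rw [← mo_add, add_neg_cancel, mo_zero], by rw [← mo_add, neg_add_cancel, mo_zero]⟩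
  map_one' := by
    apply Units.ext
    show mo (Multiplicative.toAdd 1) = 1
    rw [toAdd_one, mo_zero]
  map_mul' := fun w w' => by
    apply Units.ext
    show mo (Multiplicative.toAdd (w * w')) = mo (Multiplicative.toAdd w) * mo (Multiplicative.toAdd w')
    rw [toAdd_mul, mo_add]

theorem PrB_um_val (z : ℤ × ℤ) : ((PrB_um (Multiplicative.ofAdd z) : Lamˣ) : Lam) = mo z := rfl

theorem PrB_single (z : ℤ × ℤ) (c : ℤ) : (AddMonoidAlgebra.single z c : Lam) = (c : Lam) * mo z := by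
  rw [AddMonoidAlgebra.intCast_def, mo, AddMonoidAlgebra.single_mul_single, zero_add, mul_one]
  rfl

theorem nc3_of {p : ℕ} (hp : p.Prime) {P : Ideal Lam} (hP : P.IsPrime) (hpP : (p : Lam) ∈ P)
    (hz : ∀ z : ℤ × ℤ, z ≠ 0 → mo z - 1 ∉ P) {f : Lam} (hfP : f ∈ P) (hf : red p f ≠ 0) :
    NC3 p f := by
  classical
  have := hP
  have : IsDomain (Lam ⧸ P) := Ideal.Quotient.isDomain P
  let π : Lam →+* Lam ⧸ P := Ideal.Quotient.mk P
  have hpD : (p : Lam ⧸ P) = 0 := by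
    have h1 : π (p : Lam) = 0 := Ideal.Quotient.eq_zero_iff_mem.2 hpP
    rwa [map_natCast] at h1
  have hdvd : ∀ c : ℤ, (p : ℤ) ∣ c → (c : Lam ⧸ P) = 0 := by
    rintro c ⟨e, rfl⟩
    push_cast
    rw [hpD, zero_mul]
  let s : Finset (ℤ × ℤ) := f.coeff.support.filter (fun z => ¬ (p : ℤ) ∣ f.coeff z)
  have hs : ∀ z, z ∈ s ↔ ¬ (p : ℤ) ∣ f.coeff z := by
    intro z
    rw [Finset.mem_filter, Finsupp.mem_support_iff]
    constructor
    · exact fun h => h.2
    · intro h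
      refine ⟨fun h0 => h ?_, h⟩
      rw [h0]
      exact dvd_zero _
  have hsum : ∑ z ∈ s, (f.coeff z : Lam ⧸ P) * π (mo z) = 0 := by
    have h1 : π f = ∑ z ∈ f.coeff.support, (f.coeff z : Lam ⧸ P) * π (mo z) := by
      conv_lhs => rw [← AddMonoidAlgebra.sum_coeff_single f]
      rw [Finsupp.sum, map_sum]
      refine Finset.sum_congr rfl fun z _ => ?_
      rw [PrB_single, map_mul, map_intCast]
    have h2 : π f = 0 := Ideal.Quotient.eq_zero_iff_mem.2 hfP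
    rw [h2] at h1
    rw [h1, Finset.sum_filter]
    refine Finset.sum_congr rfl fun z _ => ?_
    by_cases hd : (p : ℤ) ∣ f.coeff z
    · rw [if_neg (not_not.2 hd), hdvd _ hd, zero_mul]
    · rw [if_pos hd]
  obtain ⟨z₀, hz₀⟩ := red_ne.1 hf
  have hz₀s : z₀ ∈ s := (hs z₀).2 hz₀
  have hu0 : ∀ z, π (mo z) ≠ 0 := by
    intro z h0
    have h1 : π (mo z) * π (mo (-z)) = 1 := by
      rw [← map_mul, ← mo_add, add_neg_cancel, mo_zero, map_one]
    rw [h0, zero_mul] at h1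
    exact zero_ne_one h1
  by_contra hN
  have hNC : ∀ z₁ z₂ z₃ : ℤ × ℤ, z₁ ∈ s → z₂ ∈ s → z₃ ∈ s →
      (z₂.1 - z₁.1) * (z₃.2 - z₁.2) = (z₂.2 - z₁.2) * (z₃.1 - z₁.1) := by
    intro z₁ z₂ z₃ h1 h2 h3
    by_contra hne
    exact hN ⟨z₁, z₂, z₃, (hs _).1 h1, (hs _).1 h2, (hs _).1 h3, hne⟩
  by_cases hex : ∃ z₁ ∈ s, z₁ ≠ z₀
  · obtain ⟨z₁, hz₁s, hz₁⟩ := hex
    obtain ⟨d, u, v, r, t, hd, hw1, hw2, hrt, hline⟩ := prim_vec (sub_ne_zero.2 hz₁)
    have hd0 : (d : ℤ) ≠ 0 := by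
      have : (1 : ℤ) ≤ d := by exact_mod_cast hd
      omega
    let κ : ℤ × ℤ → ℤ := fun z => r * (z.1 - z₀.1) + t * (z.2 - z₀.2)
    let g : ℤ → ℤ × ℤ := fun k => z₀ + k • ((u, v) : ℤ × ℤ)
    have hκ : ∀ z ∈ s, g (κ z) = z := by
      intro z hzs
      have h1 := hNC z₀ z₁ z hz₀s hz₁s hzs
      have e1 : z₁.1 - z₀.1 = d * u := by rw [← hw1]; rfl
      have e2 : z₁.2 - z₀.2 = d * v := by rw [← hw2]; rfl
      rw [e1, e2] at h1
      have h2 : v * (z.1 - z₀.1) - u * (z.2 - z₀.2) = 0 := by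
        have h3 : (d : ℤ) * (v * (z.1 - z₀.1) - u * (z.2 - z₀.2)) = 0 := by linear_combination -h1
        exact (mul_eq_zero.1 h3).resolve_left hd0
      obtain ⟨k, hk1, hk2⟩ := hline _ _ h2
      have hk : κ z = k := by
        show r * (z.1 - z₀.1) + t * (z.2 - z₀.2) = k
        rw [hk1, hk2]
        linear_combination k * hrt
      rw [hk]
      ext
      · show z₀.1 + k * u = z.1
        linarith
      · show z₀.2 + k * v = z.2
        linarith
    let β : (Lam ⧸ P)ˣ := Units.map π.toMonoidHom (PrB_um (Multiplicative.ofAdd ((u, v) : ℤ × ℤ)))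
    have hβ : ∀ k : ℤ, ((β ^ k : (Lam ⧸ P)ˣ) : Lam ⧸ P) = π (mo (k • ((u, v) : ℤ × ℤ))) := by
      intro k
      have h1 : β ^ k = Units.map π.toMonoidHom
          (PrB_um (Multiplicative.ofAdd (k • ((u, v) : ℤ × ℤ)))) := by
        rw [ofAdd_zsmul, map_zpow, map_zpow]
      rw [h1]
      rfl
    have hsum2 : ∑ z ∈ s, (f.coeff z : Lam ⧸ P) * ((β ^ κ z : (Lam ⧸ P)ˣ) : Lam ⧸ P) = 0 := by
      have h1 : π (mo z₀) * ∑ z ∈ s, (f.coeff z : Lam ⧸ P) * ((β ^ κ z : (Lam ⧸ P)ˣ) : Lam ⧸ P) = 0 := by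
        rw [← hsum, Finset.mul_sum]
        refine Finset.sum_congr rfl fun z hzs => ?_
        have h2 : mo z = mo z₀ * mo (κ z • ((u, v) : ℤ × ℤ)) := by
          rw [← mo_add]
          exact congrArg mo (hκ z hzs).symm
        rw [hβ, h2, map_mul]
        ring
      exact (mul_eq_zero.1 h1).resolve_left (hu0 z₀)
    have hinj : Set.InjOn κ (s : Set (ℤ × ℤ)) := by
      intro z hzs z' hzs' h
      rw [← hκ z (Finset.mem_coe.1 hzs), ← hκ z' (Finset.mem_coe.1 hzs'), h]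
    have hsum3 : ∑ k ∈ s.image κ, (f.coeff (g k) : Lam ⧸ P) * ((β ^ k : (Lam ⧸ P)ˣ) : Lam ⧸ P) = 0 := by
      rw [Finset.sum_image hinj, ← hsum2]
      refine Finset.sum_congr rfl fun z hzs => ?_
      rw [hκ z hzs]
    obtain ⟨N, hN1, hN2⟩ := alg_tor hp hpD β (s.image κ) (fun k => f.coeff (g k))
      ⟨κ z₀, Finset.mem_image_of_mem κ hz₀s, by rw [hκ z₀ hz₀s]; exact hz₀⟩ hsum3
    have hNz : ((N : ℤ) • ((u, v) : ℤ × ℤ)) ≠ 0 := by
      intro h0
      have h1 : (N : ℤ) * u = 0 := congrArg Prod.fst h0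
      have h2 : (N : ℤ) * v = 0 := congrArg Prod.snd h0
      have hN0 : (N : ℤ) ≠ 0 := by
        have : (1 : ℤ) ≤ N := by exact_mod_cast hN1
        omega
      have hu := (mul_eq_zero.1 h1).resolve_left hN0
      have hv := (mul_eq_zero.1 h2).resolve_left hN0
      rw [hu, hv] at hrt
      simp at hrt
    apply hz _ hNz
    have h3 := hβ (N : ℤ)
    rw [zpow_natCast, Units.val_pow_eq_pow_val, hN2] at h3
    have h4 : π (mo ((N : ℤ) • ((u, v) : ℤ × ℤ)) - 1) = 0 := by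
      rw [map_sub, ← h3, map_one, sub_self]
    exact Ideal.Quotient.eq_zero_iff_mem.1 h4
  · have hs1 : s = {z₀} := by
      ext z
      rw [Finset.mem_singleton]
      constructor
      · intro h
        by_contra hne
        exact hex ⟨z, h, hne⟩
      · rintro rfl
        exact hz₀s
    rw [hs1, Finset.sum_singleton] at hsum
    have h1 : ((f.coeff z₀ : ℤ) : Lam ⧸ P) = 0 := (mul_eq_zero.1 hsum).resolve_right (hu0 z₀)
    have hcop : IsCoprime (p : ℤ) (f.coeff z₀) :=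
      (Nat.prime_iff_prime_int.1 hp).coprime_iff_not_dvd.2 hz₀
    obtain ⟨a, b, hab⟩ := hcop
    have h2 : ((a * p + b * f.coeff z₀ : ℤ) : Lam ⧸ P) = 1 := by rw [hab, Int.cast_one]
    push_cast at h2
    rw [hpD, h1, mul_zero, mul_zero, add_zero] at h2
    exact zero_ne_one h2

end Pool.Agent.H28.IP
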