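import Pool.Agent.H28.IP.DfC
import Pool.Agent.H28.IP.AnP
import Pool.Agent.H28.IP.ExP
import Pool.Agent.H28.IP.PrA
import Pool.Agent.H28.IP.PrB
import Pool.Agent.H28.IP.FaD
import Pool.Agent.H28.IP.FbA
import Pool.Agent.H28.IP.FbB
import Pool.Agent.H28.IP.FbC
import Pool.Agent.H28.IP.FbD

set_option autoImplicit false

namespace Pool.Agent.H28.IP

variable {G : Type} [Group G] [Metab G]

/-- Infinite Prüfer rank is detected modulo a prime. -/
theorem inf_rank {a b : G} (hg : Gen2 a b) (hr : ¬ FinRank G) :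
    ∃ p : ℕ, p.Prime ∧ Infinite (Lam ⧸ (Ann a b ⊔ Ideal.span {(p : Lam)})) := by
  by_contra hcon
  have hfin : ∀ p : ℕ, p.Prime → Finite (Lam ⧸ (Ann a b ⊔ Ideal.span {(p : Lam)})) := by
    intro p hp
    by_contra h
    exact hcon ⟨p, hp, not_finite_iff_infinite.1 h⟩
  obtain ⟨d, hd, hdI⟩ := elim_x hfin
  obtain ⟨e, he, heI⟩ := elim_y hfin
  obtain ⟨E, hE⟩ := rat_span hd he hdI heI
  have hT := tors_fin (I := Ann a b) (fun n hn => fin_nat hfin hn)
  obtain ⟨r, hr'⟩ := rank_bound E hE hT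
  exact hr (fin_rank hg hr')

theorem fix_mem {a b : G} {i j : ℤ} (h : a ^ i * b ^ j ∈ commutator G) : mo (i, j) - 1 ∈ Ann a b := by
  rw [mem_Ann, ev_sub]
  have h1 := ev_conj a b i j 1
  rw [mul_one] at h1
  rw [← h1, Metab.comm _ h _ (ev_mem a b 1)]
  group

/-- A finitely presented 2-generator metabelian group of infinite rank: the annihilator is contained
in an ideal `(f, p)` with `f` having three non-collinear exponents modulo `p`. -/
theorem main_f [Group.IsFinitelyPresented G] {a b : G} (hg : Gen2 a b) (hr : ¬ FinRank G) :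
    AbFree a b ∧ ∃ (p : ℕ) (f : Lam), p.Prime ∧ NC3 p f ∧ Ann a b ≤ Ideal.span {f, (p : Lam)} := by
  obtain ⟨p, hp, hinf⟩ := inf_rank hg hr
  obtain ⟨P, hP, hIP, hinfP⟩ := exists_prime hinf
  have hAP : Ann a b ≤ P := le_sup_left.trans hIP
  have hpP : (p : Lam) ∈ P := hIP (Ideal.mem_sup_right (Ideal.mem_span_singleton_self _))
  have hz : ∀ z : ℤ × ℤ, z ≠ 0 → mo z - 1 ∉ P := fun z hz =>
    tame_prime hg hAP hp.one_lt.le hpP hinfP hz
  have hab : AbFree a b := by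
    intro i j h
    by_contra hne
    have hne' : ((i, j) : ℤ × ℤ) ≠ 0 := fun h0 => hne ⟨congrArg Prod.fst h0, congrArg Prod.snd h0⟩
    exact hz _ hne' (hAP (fix_mem h))
  obtain ⟨g, hg1, hg2⟩ := ann_not_p hg hab hp
  obtain ⟨f, hf1, hf2, hf3⟩ := prime_gen hp hP hpP hz
    ⟨g, hAP (mem_Ann.2 hg1), red_ne.2 hg2⟩
  exact ⟨hab, p, f, hp, nc3_of hp hP hpP hz hf1 hf2, hAP.trans hf3⟩

end Pool.Agent.H28.IP
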