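/-
ROW RfA. `FQ` is enumerable.
PROOF. `FQ P w ↔ ∃ kT : ℕ × List (List ℕ × List ℕ), IsRep P kT.1 kT.2 ∧ ∃ s < kT.1, actw kT.2 w s ≠ s`:
re_ex, re_prim. Primitive recursiveness: `stp` as a function of `(T, l, s)`: `Primrec.cond`,
`Primrec.list_getD` (twice; the second one with default `s`: `List.getD l s s = (l[s]?).getD s`,
`Primrec.option_getD`, `Primrec.list_getElem?`); `actw`: `Primrec.list_foldr`; the bounded quantifiers
`∀ i < P.1`, `∀ s < k`, `∀ r ∈ P.2`, `∃ s < k` are quantifiers over `List.range` or over a list: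
`PrimrecRel.forall_mem_list`, `PrimrecRel.exists_mem_list` with parameters in the second argument (there
may also be `PrimrecRel.forall_lt` / `exists_lt`). It may be convenient to use re_all and re_ex instead
of primitive recursive predicates.
-/
import Pool.Agent.H28.IP.Re1
import Pool.Agent.H28.IP.Re2

set_option autoImplicit false

namespace Pool.Agent.H28.IP

theorem pr_stp_aux {γ : Type} [Primcodable γ] {T : γ → List (List ℕ × List ℕ)} {l : γ → ℕ × Bool}
    {s : γ → ℕ} (hT : Primrec T) (hl : Primrec l) (hs : Primrec s) :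
    Primrec fun x => stp (T x) (l x) (s x) := by
  have h1 : Primrec fun x => (T x).getD (l x).1 ([], []) :=
    (Primrec.list_getD (([], []) : List ℕ × List ℕ)).comp hT (Primrec.fst.comp hl)
  have hg : ∀ {u : γ → List ℕ}, Primrec u → Primrec fun x => (u x).getD (s x) (s x) := by
    intro u hu
    have h2 : Primrec fun x => (u x)[s x]? := Primrec.list_getElem?.comp hu hs
    exact (Primrec.option_getD.comp h2 hs).of_eq fun x => by simp [List.getD_eq_getElem?_getD]
  exact Primrec.cond (Primrec.snd.comp hl) (hg (Primrec.fst.comp h1)) (hg (Primrec.snd.comp h1))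

theorem pr_actw_aux {γ : Type} [Primcodable γ] {T : γ → List (List ℕ × List ℕ)} {w : γ → Word}
    {s : γ → ℕ} (hT : Primrec T) (hw : Primrec w) (hs : Primrec s) :
    Primrec fun x => actw (T x) (w x) (s x) := by
  have h : Primrec₂ fun (x : γ) (p : (ℕ × Bool) × ℕ) => stp (T x) p.1 p.2 :=
    pr_stp_aux (hT.comp Primrec.fst) (Primrec.fst.comp Primrec.snd) (Primrec.snd.comp Primrec.snd)
  exact (Primrec.list_foldr hw hs h).of_eq fun x => rfl

theorem re_FQ : Re fun x : Pres × Word => FQ x.1 x.2 := by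
  -- parameters
  have hA : Re fun x : (Pres × Word) × ((ℕ × List (List ℕ × List ℕ)) × ℕ) =>
      x.2.1.2.length = x.1.1.1 := by
    refine re_prim ?_
    exact Primrec.eq.comp (Primrec.list_length.comp (Primrec.snd.comp (Primrec.fst.comp Primrec.snd)))
      (Primrec.fst.comp (Primrec.fst.comp Primrec.fst))
  have hD : Re fun x : (Pres × Word) × ((ℕ × List (List ℕ × List ℕ)) × ℕ) => x.2.2 < x.2.1.1 := by
    refine re_prim ?_
    exact Primrec.nat_lt.comp (Primrec.snd.comp Primrec.snd)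
      (Primrec.fst.comp (Primrec.fst.comp Primrec.snd))
  have hE : Re fun x : (Pres × Word) × ((ℕ × List (List ℕ × List ℕ)) × ℕ) =>
      ¬ (actw x.2.1.2 x.1.2 x.2.2 = x.2.2) := by
    refine re_prim ?_
    exact PrimrecPred.not (Primrec.eq.comp (pr_actw_aux (Primrec.snd.comp (Primrec.fst.comp Primrec.snd))
      (Primrec.snd.comp Primrec.fst) (Primrec.snd.comp Primrec.snd)) (Primrec.snd.comp Primrec.snd))
  have hB : Re fun x : (Pres × Word) × ((ℕ × List (List ℕ × List ℕ)) × ℕ) =>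
      ∀ i ∈ List.range x.1.1.1, ∀ s ∈ List.range x.2.1.1,
        ((stp x.2.1.2 (i, true) s < x.2.1.1 ∧ stp x.2.1.2 (i, false) s < x.2.1.1) ∧
        (stp x.2.1.2 (i, false) (stp x.2.1.2 (i, true) s) = s ∧
          stp x.2.1.2 (i, true) (stp x.2.1.2 (i, false) s) = s)) := by
    have h2 : Re fun y : (((Pres × Word) × ((ℕ × List (List ℕ × List ℕ)) × ℕ)) × ℕ) × ℕ =>
        ((stp y.1.1.2.1.2 (y.1.2, true) y.2 < y.1.1.2.1.1 ∧
          stp y.1.1.2.1.2 (y.1.2, false) y.2 < y.1.1.2.1.1) ∧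
        (stp y.1.1.2.1.2 (y.1.2, false) (stp y.1.1.2.1.2 (y.1.2, true) y.2) = y.2 ∧
          stp y.1.1.2.1.2 (y.1.2, true) (stp y.1.1.2.1.2 (y.1.2, false) y.2) = y.2)) := by
      have pT : Primrec fun y : (((Pres × Word) × ((ℕ × List (List ℕ × List ℕ)) × ℕ)) × ℕ) × ℕ =>
          y.1.1.2.1.2 :=
        Primrec.snd.comp (Primrec.fst.comp (Primrec.snd.comp (Primrec.fst.comp Primrec.fst)))
      have pk : Primrec fun y : (((Pres × Word) × ((ℕ × List (List ℕ × List ℕ)) × ℕ)) × ℕ) × ℕ =>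
          y.1.1.2.1.1 :=
        Primrec.fst.comp (Primrec.fst.comp (Primrec.snd.comp (Primrec.fst.comp Primrec.fst)))
      have pi : ∀ b : Bool, Primrec fun y : (((Pres × Word) ×
          ((ℕ × List (List ℕ × List ℕ)) × ℕ)) × ℕ) × ℕ => (y.1.2, b) := fun b =>
        Primrec.pair (Primrec.snd.comp Primrec.fst) (Primrec.const b)
      have ps : ∀ b : Bool, Primrec fun y : (((Pres × Word) ×
          ((ℕ × List (List ℕ × List ℕ)) × ℕ)) × ℕ) × ℕ => stp y.1.1.2.1.2 (y.1.2, b) y.2 := fun b =>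
        pr_stp_aux pT (pi b) Primrec.snd
      have ps2 : ∀ b c : Bool, Primrec fun y : (((Pres × Word) ×
          ((ℕ × List (List ℕ × List ℕ)) × ℕ)) × ℕ) × ℕ =>
          stp y.1.1.2.1.2 (y.1.2, b) (stp y.1.1.2.1.2 (y.1.2, c) y.2) := fun b c =>
        pr_stp_aux pT (pi b) (ps c)
      refine re_and (re_and (re_prim ?_) (re_prim ?_)) (re_and (re_prim ?_) (re_prim ?_))
      · exact Primrec.nat_lt.comp (ps true) pk
      · exact Primrec.nat_lt.comp (ps false) pk
      · exact Primrec.eq.comp (ps2 false true) Primrec.snd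
      · exact Primrec.eq.comp (ps2 true false) Primrec.snd
    have h1 := re_all h2 (f := fun y : ((Pres × Word) × ((ℕ × List (List ℕ × List ℕ)) × ℕ)) × ℕ =>
      List.range y.1.2.1.1) (Primrec.list_range.comp
        (Primrec.fst.comp (Primrec.fst.comp (Primrec.snd.comp Primrec.fst))))
    exact re_all h1 (f := fun x : (Pres × Word) × ((ℕ × List (List ℕ × List ℕ)) × ℕ) =>
      List.range x.1.1.1) (Primrec.list_range.comp
        (Primrec.fst.comp (Primrec.fst.comp Primrec.fst)))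
  have hC : Re fun x : (Pres × Word) × ((ℕ × List (List ℕ × List ℕ)) × ℕ) =>
      ∀ r ∈ x.1.1.2, ∀ s ∈ List.range x.2.1.1, actw x.2.1.2 r s = s := by
    have h2 : Re fun y : (((Pres × Word) × ((ℕ × List (List ℕ × List ℕ)) × ℕ)) × Word) × ℕ =>
        actw y.1.1.2.1.2 y.1.2 y.2 = y.2 := by
      refine re_prim ?_
      exact Primrec.eq.comp (pr_actw_aux
        (Primrec.snd.comp (Primrec.fst.comp (Primrec.snd.comp (Primrec.fst.comp Primrec.fst))))
        (Primrec.snd.comp Primrec.fst) Primrec.snd) Primrec.snd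
    have h1 := re_all h2 (f := fun y : ((Pres × Word) × ((ℕ × List (List ℕ × List ℕ)) × ℕ)) × Word =>
      List.range y.1.2.1.1) (Primrec.list_range.comp
        (Primrec.fst.comp (Primrec.fst.comp (Primrec.snd.comp Primrec.fst))))
    exact re_all h1 (f := fun x : (Pres × Word) × ((ℕ × List (List ℕ × List ℕ)) × ℕ) =>
      x.1.1.2) (Primrec.snd.comp (Primrec.fst.comp Primrec.fst))
  have hall := re_ex (re_and (re_and hA (re_and hB hC)) (re_and hD hE))
  refine re_of_eq hall ?_
  intro a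
  constructor
  · rintro ⟨b, ⟨h1, h2, h3⟩, h4, h5⟩
    refine ⟨b.1.1, b.1.2, ⟨h1, ?_, ?_⟩, b.2, h4, h5⟩
    · intro i hi s hs
      obtain ⟨⟨p, q⟩, r, t⟩ := h2 i (List.mem_range.2 hi) s (List.mem_range.2 hs)
      exact ⟨p, q, r, t⟩
    · intro r hr s hs
      exact h3 r hr s (List.mem_range.2 hs)
  · rintro ⟨k, T, ⟨h1, h2, h3⟩, s, h4, h5⟩
    refine ⟨((k, T), s), ⟨h1, ?_, ?_⟩, h4, h5⟩
    · intro i hi s hs
      obtain ⟨p, q, r, t⟩ := h2 i (List.mem_range.1 hi) s (List.mem_range.1 hs)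
      exact ⟨⟨p, q⟩, r, t⟩
    · intro r hr s hs
      exact h3 r hr s (List.mem_range.1 hs)

end Pool.Agent.H28.IP
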