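/-
ROW NiA. Enumerability of the ingredients of `NI`.
PROOFS. re_and, re_or, re_ex, re_all, re_comp with re_InN, re_InJ, re_FQ and the primitive recursive
functions prim_subst, prim_invRev, prim_wl, prim_actl (`∀ i < P.1` is `∀ i ∈ List.range P.1`).
-/
import Pool.Agent.H28.IP.NcB
import Pool.Agent.H28.IP.RfA
import Pool.Agent.H28.IP.WdB

set_option autoImplicit false

namespace Pool.Agent.H28.IP

theorem NiA_single : Primrec fun i : ℕ => ([(i, true)] : Word) :=
  Primrec.list_cons.comp (Primrec.id.pair (Primrec.const true)) (Primrec.const [])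

theorem NiA_two {α : Type} [Primcodable α] {A B : α → Word} (hA : Primrec A) (hB : Primrec B) :
    Primrec fun x => ([A x, B x] : List Word) :=
  Primrec.list_cons.comp hA (Primrec.list_cons.comp hB (Primrec.const []))

theorem re_GenW : Re fun x : Pres × Word × Word × List Word => GenW x.1 x.2.1 x.2.2.1 x.2.2.2 := by
  have hP : Primrec fun x : Pres × Word × Word × List Word => x.1.1 := Primrec.fst.comp Primrec.fst
  have hW : Primrec fun x : Pres × Word × Word × List Word => x.2.2.2 :=
    Primrec.snd.comp (Primrec.snd.comp Primrec.snd)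
  refine re_and (re_prim (Primrec.eq.comp (Primrec.list_length.comp hW) hP)) ?_
  refine re_of_eq (re_all (p := fun y : (Pres × Word × Word × List Word) × ℕ =>
    InN y.1.1 (FreeGroup.invRev [(y.2, true)] ++ subst [y.1.2.1, y.1.2.2.1] (y.1.2.2.2.getD y.2 [])))
    ?_ (f := fun x => List.range x.1.1) (Primrec.list_range.comp hP)) ?_
  · refine re_comp (p := fun z : Pres × Word => InN z.1 z.2) re_InN
      (f := fun y : (Pres × Word × Word × List Word) × ℕ => (y.1.1,
        FreeGroup.invRev [(y.2, true)] ++ subst [y.1.2.1, y.1.2.2.1] (y.1.2.2.2.getD y.2 []))) ?_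
    have h1 : Primrec fun y : (Pres × Word × Word × List Word) × ℕ =>
        ([y.1.2.1, y.1.2.2.1] : List Word) :=
      NiA_two (Primrec.fst.comp (Primrec.snd.comp Primrec.fst))
        (Primrec.fst.comp (Primrec.snd.comp (Primrec.snd.comp Primrec.fst)))
    have h2 : Primrec fun y : (Pres × Word × Word × List Word) × ℕ => y.1.2.2.2.getD y.2 [] :=
      (Primrec.list_getD ([] : Word)).comp (hW.comp Primrec.fst) Primrec.snd
    exact (Primrec.fst.comp Primrec.fst).pair (Primrec.list_append.comp
      (prim_invRev.comp (NiA_single.comp Primrec.snd)) (prim_subst.comp h1 h2))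
  · intro x
    simp only [List.mem_range]

theorem re_HomM : Re fun x : Pres × List NL × Word × Word × List Word =>
    HomM x.1 x.2.1 x.2.2.1 x.2.2.2.1 x.2.2.2.2 := by
  have hJ : Primrec fun x : Pres × List NL × Word × Word × List Word => x.2.1 :=
    Primrec.fst.comp Primrec.snd
  have hA : Primrec fun x : Pres × List NL × Word × Word × List Word => x.2.2.1 :=
    Primrec.fst.comp (Primrec.snd.comp Primrec.snd)
  have hB : Primrec fun x : Pres × List NL × Word × Word × List Word => x.2.2.2.1 :=
    Primrec.fst.comp (Primrec.snd.comp (Primrec.snd.comp Primrec.snd))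
  have hW : Primrec fun x : Pres × List NL × Word × Word × List Word => x.2.2.2.2 :=
    Primrec.snd.comp (Primrec.snd.comp (Primrec.snd.comp Primrec.snd))
  have hR : Primrec fun x : Pres × List NL × Word × Word × List Word => x.1.2 :=
    Primrec.snd.comp Primrec.fst
  refine re_and ?_ (re_and ?_ ?_)
  · refine re_comp (p := fun z : List NL × Word => InJ z.1 z.2) re_InJ
      (f := fun x : Pres × List NL × Word × Word × List Word => (x.2.1,
        FreeGroup.invRev [(0, true)] ++ subst x.2.2.2.2 x.2.2.1)) ?_
    exact hJ.pair (Primrec.list_append.comp (Primrec.const _) (prim_subst.comp hW hA))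
  · refine re_comp (p := fun z : List NL × Word => InJ z.1 z.2) re_InJ
      (f := fun x : Pres × List NL × Word × Word × List Word => (x.2.1,
        FreeGroup.invRev [(1, true)] ++ subst x.2.2.2.2 x.2.2.2.1)) ?_
    exact hJ.pair (Primrec.list_append.comp (Primrec.const _) (prim_subst.comp hW hB))
  · refine re_all (p := fun y : (Pres × List NL × Word × Word × List Word) × Word =>
      InJ y.1.2.1 (subst y.1.2.2.2.2 y.2)) ?_ hR
    refine re_comp (p := fun z : List NL × Word => InJ z.1 z.2) re_InJ
      (f := fun y : (Pres × List NL × Word × Word × List Word) × Word =>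
        (y.1.2.1, subst y.1.2.2.2.2 y.2)) ?_
    exact (hJ.comp Primrec.fst).pair (prim_subst.comp (hW.comp Primrec.fst) Primrec.snd)

theorem NiA_inn {X : Type} [Primcodable X] {P : X → Pres} {u : X → Word} (hP : Primrec P)
    (hu : Primrec u) : Re fun x => InN (P x) (u x) := by
  have h1 : Primrec fun x => ((P x, u x) : Pres × Word) := hP.pair hu
  have h2 := re_comp re_InN h1
  exact h2

theorem NiA_fq {X : Type} [Primcodable X] {P : X → Pres} {u : X → Word} (hP : Primrec P)
    (hu : Primrec u) : Re fun x => FQ (P x) (u x) := by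
  have h1 : Primrec fun x => ((P x, u x) : Pres × Word) := hP.pair hu
  have h2 := re_comp re_FQ h1
  exact h2

theorem NiA_core {X : Type} [Primcodable X] {P1 P2 : X → Pres} {u v : X → Word} (hP1 : Primrec P1)
    (hP2 : Primrec P2) (hu : Primrec u) (hv : Primrec v) :
    Re fun x => (InN (P2 x) (u x) ∧ FQ (P1 x) (v x)) ∨ (FQ (P2 x) (u x) ∧ InN (P1 x) (v x)) := by
  have a1 := NiA_inn hP2 hu
  have a2 := NiA_fq hP1 hv
  have a3 := NiA_fq hP2 hu
  have a4 := NiA_inn hP1 hv
  exact re_or (re_and a1 a2) (re_and a3 a4)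

theorem re_NIm : Re fun x : (Pres × Word × Word) × (Pres × Word × Word) × MP =>
    NIm x.1.1 x.1.2.1 x.1.2.2 x.2.1.1 x.2.1.2.1 x.2.1.2.2 x.2.2 := by
  have hP1 : Primrec fun y : ((Pres × Word × Word) × (Pres × Word × Word) × MP) × NL => y.1.1.1 :=
    Primrec.fst.comp (Primrec.fst.comp Primrec.fst)
  have hP2 : Primrec fun y : ((Pres × Word × Word) × (Pres × Word × Word) × MP) × NL => y.1.2.1.1 :=
    Primrec.fst.comp (Primrec.fst.comp (Primrec.snd.comp Primrec.fst))
  have hT1 : Primrec fun y : ((Pres × Word × Word) × (Pres × Word × Word) × MP) × NL =>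
      ([y.1.1.2.1, y.1.1.2.2] : List Word) :=
    NiA_two (Primrec.fst.comp (Primrec.snd.comp (Primrec.fst.comp Primrec.fst)))
      (Primrec.snd.comp (Primrec.snd.comp (Primrec.fst.comp Primrec.fst)))
  have hT2 : Primrec fun y : ((Pres × Word × Word) × (Pres × Word × Word) × MP) × NL =>
      ([y.1.2.1.2.1, y.1.2.1.2.2] : List Word) :=
    NiA_two (Primrec.fst.comp (Primrec.snd.comp (Primrec.fst.comp (Primrec.snd.comp Primrec.fst))))
      (Primrec.snd.comp (Primrec.snd.comp (Primrec.fst.comp (Primrec.snd.comp Primrec.fst))))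
  have hm : Primrec fun y : ((Pres × Word × Word) × (Pres × Word × Word) × MP) × NL => y.1.2.2 :=
    Primrec.snd.comp (Primrec.snd.comp Primrec.fst)
  have hw2 : Primrec fun y : ((Pres × Word × Word) × (Pres × Word × Word) × MP) × NL =>
      subst [y.1.2.1.2.1, y.1.2.1.2.2] (wl y.2) :=
    prim_subst.comp hT2 (prim_wl.comp Primrec.snd)
  have hw1 : Primrec fun y : ((Pres × Word × Word) × (Pres × Word × Word) × MP) × NL =>
      subst [y.1.1.2.1, y.1.1.2.2] (wl (actl y.1.2.2 y.2)) :=
    prim_subst.comp hT1 (prim_wl.comp (prim_actl.comp hm Primrec.snd))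
  have key := NiA_core hP1 hP2 hw2 hw1
  have key2 := re_ex key
  exact re_of_eq key2 (fun x => Iff.rfl)

end Pool.Agent.H28.IP
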