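/-
ROW WdC. Enumerability of arithmetical conditions on lists.
PROOFS. Let `cnt L u v s := (L.filter fun e => e.2.2 = s ∧ vz e.1 = vz u ∧ vz e.2.1 = vz v).length` for
`u v : ℕ × ℕ`. Here `vz e.1 = vz u ↔ e.1.1 + u.2 = u.1 + e.1.2` (omega), so `cnt` is primitive recursive
(`PrimrecRel.listFilter`-type lemmas in Computability/Primrec/List.lean, or a `foldr` with `Primrec.ite`).
`(pol L).coeff (vz u, vz v) = (cnt L u v true : ℤ) - cnt L u v false` (induction on `L`; `pol`, `mo`,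
`AddMonoidAlgebra.coeff_add`, `coeff_single`, `Finsupp.single_apply`). For `p : ℕ`:
`(p : ℤ) ∣ (c₁ : ℤ) - c₂ ↔ c₁ % p = c₂ % p` (`Int.emod_emod_of_dvd`, `Nat.modEq_iff_dvd`, also for `p = 0`).
* re_coef: `∃ z : ℤ × ℤ, ...` is `∃ u v : ℕ × ℕ, cnt … true % p ≠ cnt … false % p` (every integer is `vz`
  of a pair: `vz (n.toNat, (-n).toNat) = n`), use re_ex, re_prim, re_of_eq.
* re_NC3: `∃ u₁ v₁ u₂ v₂ u₃ v₃` with three such conditions and
  `mulp (subp u₂ u₁) (subp v₃ v₁)`, `mulp (subp v₂ v₁) (subp u₃ u₁)` having different `vz`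
  (`vz (mulp a b) = vz a * vz b`, `vz (subp a b) = vz a - vz b`: ring); primitive recursive.
* re_dt: `dt (vm m) = vz (subp (mulp m.1 m.2.2.2) (mulp m.2.1 m.2.2.1))`, a pair `(c, d)` has `vz = 1`
  iff `c = d + 1`, `vz = -1` iff `d = c + 1`.
* re_prime: `Nat.Prime p` is a primitive recursive predicate: `p.Prime ↔ 2 ≤ p ∧ ∀ m < p, 2 ≤ m → ¬ m ∣ p`
  (`Nat.prime_def_lt'`), `m ∣ p ↔ p % m = 0`; bounded quantifier over `List.range p`
  (`PrimrecRel.forall_mem_list` or `PrimrecPred.forall_lt`-type lemma), then re_prim.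
-/
import Pool.Agent.H28.IP.Re1

set_option autoImplicit false

namespace Pool.Agent.H28.IP

theorem WdC_eq {α : Type} [Primcodable α] {f g : α → ℕ} (hf : Primrec f) (hg : Primrec g) :
    PrimrecPred fun a => f a = g a :=
  PrimrecRel.comp Primrec.eq hf hg

theorem WdC_eqb {α : Type} [Primcodable α] {f g : α → Bool} (hf : Primrec f) (hg : Primrec g) :
    PrimrecPred fun a => f a = g a :=
  PrimrecRel.comp Primrec.eq hf hg

theorem WdC_add {α : Type} [Primcodable α] {f g : α → ℕ} (hf : Primrec f) (hg : Primrec g) :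
    Primrec fun a => f a + g a := Primrec.nat_add.comp hf hg

theorem WdC_mul {α : Type} [Primcodable α] {f g : α → ℕ} (hf : Primrec f) (hg : Primrec g) :
    Primrec fun a => f a * g a := Primrec.nat_mul.comp hf hg

/-- the number of signed monomials with given exponents and sign -/
def WdC_cnt (s : Bool) (L : NL) (u v : ℕ × ℕ) : ℕ :=
  L.foldr (fun e acc => acc + if e.2.2 = s ∧ e.1.1 + u.2 = u.1 + e.1.2 ∧ e.2.1.1 + v.2 = v.1 + e.2.1.2
    then 1 else 0) 0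

theorem WdC_prim {α : Type} [Primcodable α] (s : Bool) {f : α → NL} {g h : α → ℕ × ℕ}
    (hf : Primrec f) (hg : Primrec g) (hh : Primrec h) :
    Primrec fun a => WdC_cnt s (f a) (g a) (h a) := by
  have he : Primrec fun x : α × ((ℕ × ℕ) × (ℕ × ℕ) × Bool) × ℕ => x.2.1 :=
    Primrec.fst.comp Primrec.snd
  have hE1 := Primrec.fst.comp he
  have hE2 := Primrec.fst.comp (Primrec.snd.comp he)
  have hs := Primrec.snd.comp (Primrec.snd.comp he)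
  have hu := hg.comp (Primrec.fst (α := α) (β := ((ℕ × ℕ) × (ℕ × ℕ) × Bool) × ℕ))
  have hv := hh.comp (Primrec.fst (α := α) (β := ((ℕ × ℕ) × (ℕ × ℕ) × Bool) × ℕ))
  have c1 := WdC_eqb hs (Primrec.const s)
  have c2 := WdC_eq (WdC_add (Primrec.fst.comp hE1) (Primrec.snd.comp hu))
    (WdC_add (Primrec.fst.comp hu) (Primrec.snd.comp hE1))
  have c3 := WdC_eq (WdC_add (Primrec.fst.comp hE2) (Primrec.snd.comp hv))
    (WdC_add (Primrec.fst.comp hv) (Primrec.snd.comp hE2))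
  have c := c1.and (c2.and c3)
  have h1 : Primrec₂ fun (a : α) (x : ((ℕ × ℕ) × (ℕ × ℕ) × Bool) × ℕ) =>
      x.2 + if x.1.2.2 = s ∧ x.1.1.1 + (g a).2 = (g a).1 + x.1.1.2 ∧
        x.1.2.1.1 + (h a).2 = (h a).1 + x.1.2.1.2 then 1 else 0 :=
    WdC_add (Primrec.snd.comp Primrec.snd) (Primrec.ite c (Primrec.const 1) (Primrec.const 0))
  exact Primrec.list_foldr hf (Primrec.const 0) h1

theorem WdC_vz (u v : ℕ × ℕ) : vz u = vz v ↔ u.1 + v.2 = v.1 + u.2 := by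
  unfold vz
  omega

theorem WdC_coeff (L : NL) (u v : ℕ × ℕ) :
    (pol L).coeff (vz u, vz v) = (WdC_cnt true L u v : ℤ) - WdC_cnt false L u v := by
  induction L with
  | nil => simp [pol, WdC_cnt]
  | cons e L ih =>
    have h1 : pol (e :: L) = cond e.2.2 (mo (vz e.1, vz e.2.1)) (-mo (vz e.1, vz e.2.1)) + pol L := by
      simp [pol]
    rw [h1, AddMonoidAlgebra.coeff_add, Finsupp.add_apply, ih]
    have h2 : ∀ s, WdC_cnt s (e :: L) u v = WdC_cnt s L u v +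
        if e.2.2 = s ∧ e.1.1 + u.2 = u.1 + e.1.2 ∧ e.2.1.1 + v.2 = v.1 + e.2.1.2 then 1 else 0 :=
      fun s => rfl
    rw [h2, h2]
    have h3 : (mo (vz e.1, vz e.2.1)).coeff (vz u, vz v) =
        if e.1.1 + u.2 = u.1 + e.1.2 ∧ e.2.1.1 + v.2 = v.1 + e.2.1.2 then 1 else 0 := by
      rw [mo, AddMonoidAlgebra.coeff_single, Finsupp.single_apply]
      congr 1
      rw [Prod.mk.injEq, WdC_vz, WdC_vz]
    rcases hb : e.2.2 with _ | _
    · simp only [cond_false, AddMonoidAlgebra.coeff_neg, Finsupp.neg_apply, h3, Bool.false_eq_true,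
        false_and, if_false, true_and]
      push_cast
      ring
    · simp only [cond_true, h3, Bool.true_eq_false, false_and, if_false, true_and]
      push_cast
      ring

theorem WdC_surj (n : ℤ) : ∃ u : ℕ × ℕ, vz u = n := ⟨(n.toNat, (-n).toNat), by unfold vz; simp⟩

theorem WdC_dvd (p c d : ℕ) : ¬ ((p : ℤ) ∣ (c : ℤ) - d) ↔ c % p ≠ d % p := by
  rw [not_iff_not, ← Nat.ModEq, Nat.ModEq.comm, Nat.modEq_iff_dvd]

theorem WdC_pred {α : Type} [Primcodable α] {p : α → ℕ} {f : α → NL} {g h : α → ℕ × ℕ}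
    (hp : Primrec p) (hf : Primrec f) (hg : Primrec g) (hh : Primrec h) :
    PrimrecPred fun a => ¬ (p a : ℤ) ∣ (pol (f a)).coeff (vz (g a), vz (h a)) := by
  have h1 := WdC_prim true hf hg hh
  have h2 := WdC_prim false hf hg hh
  have h3 := (WdC_eq (Primrec.nat_mod.comp h1 hp) (Primrec.nat_mod.comp h2 hp)).not
  refine h3.of_eq fun a => ?_
  rw [WdC_coeff, WdC_dvd]

theorem re_coef : Re fun x : ℕ × NL => ∃ z : ℤ × ℤ, ¬ (x.1 : ℤ) ∣ (pol x.2).coeff z := by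
  have h1 : PrimrecPred fun y : (ℕ × NL) × (ℕ × ℕ) × (ℕ × ℕ) =>
      ¬ (y.1.1 : ℤ) ∣ (pol y.1.2).coeff (vz y.2.1, vz y.2.2) :=
    WdC_pred (Primrec.fst.comp Primrec.fst) (Primrec.snd.comp Primrec.fst)
      (Primrec.fst.comp Primrec.snd) (Primrec.snd.comp Primrec.snd)
  refine re_of_eq (re_ex (re_prim h1)) fun x => ⟨?_, ?_⟩
  · rintro ⟨b, hb⟩
    exact ⟨_, hb⟩
  · rintro ⟨⟨i, j⟩, hz⟩
    obtain ⟨u, rfl⟩ := WdC_surj i
    obtain ⟨v, rfl⟩ := WdC_surj j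
    exact ⟨(u, v), hz⟩

theorem WdC_sub (u v : ℕ × ℕ) : vz (subp u v) = vz u - vz v := by
  simp only [vz, subp]; push_cast; ring

theorem WdC_mulv (u v : ℕ × ℕ) : vz (mulp u v) = vz u * vz v := by
  simp only [vz, mulp]; push_cast; ring

theorem WdC_subp {α : Type} [Primcodable α] {f g : α → ℕ × ℕ} (hf : Primrec f) (hg : Primrec g) :
    Primrec fun a => subp (f a) (g a) :=
  (WdC_add (Primrec.fst.comp hf) (Primrec.snd.comp hg)).pair
    (WdC_add (Primrec.snd.comp hf) (Primrec.fst.comp hg))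

theorem WdC_mulp {α : Type} [Primcodable α] {f g : α → ℕ × ℕ} (hf : Primrec f) (hg : Primrec g) :
    Primrec fun a => mulp (f a) (g a) :=
  (WdC_add (WdC_mul (Primrec.fst.comp hf) (Primrec.fst.comp hg))
    (WdC_mul (Primrec.snd.comp hf) (Primrec.snd.comp hg))).pair
    (WdC_add (WdC_mul (Primrec.fst.comp hf) (Primrec.snd.comp hg))
      (WdC_mul (Primrec.snd.comp hf) (Primrec.fst.comp hg)))

theorem WdC_vzeq {α : Type} [Primcodable α] {f g : α → ℕ × ℕ} (hf : Primrec f) (hg : Primrec g) :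
    PrimrecPred fun a => vz (f a) = vz (g a) :=
  (WdC_eq (WdC_add (Primrec.fst.comp hf) (Primrec.snd.comp hg))
    (WdC_add (Primrec.fst.comp hg) (Primrec.snd.comp hf))).of_eq fun a => (WdC_vz _ _).symm

theorem re_NC3 : Re fun x : ℕ × NL => NC3 x.1 (pol x.2) := by
  have i1 : Primrec fun y : (ℕ × NL) × ((ℕ × ℕ) × (ℕ × ℕ)) × ((ℕ × ℕ) × (ℕ × ℕ)) ×
      ((ℕ × ℕ) × (ℕ × ℕ)) => y.2.1.1 := Primrec.fst.comp (Primrec.fst.comp Primrec.snd)
  have j1 : Primrec fun y : (ℕ × NL) × ((ℕ × ℕ) × (ℕ × ℕ)) × ((ℕ × ℕ) × (ℕ × ℕ)) ×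
      ((ℕ × ℕ) × (ℕ × ℕ)) => y.2.1.2 := Primrec.snd.comp (Primrec.fst.comp Primrec.snd)
  have i2 : Primrec fun y : (ℕ × NL) × ((ℕ × ℕ) × (ℕ × ℕ)) × ((ℕ × ℕ) × (ℕ × ℕ)) ×
      ((ℕ × ℕ) × (ℕ × ℕ)) => y.2.2.1.1 :=
    Primrec.fst.comp (Primrec.fst.comp (Primrec.snd.comp Primrec.snd))
  have j2 : Primrec fun y : (ℕ × NL) × ((ℕ × ℕ) × (ℕ × ℕ)) × ((ℕ × ℕ) × (ℕ × ℕ)) ×
      ((ℕ × ℕ) × (ℕ × ℕ)) => y.2.2.1.2 :=
    Primrec.snd.comp (Primrec.fst.comp (Primrec.snd.comp Primrec.snd))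
  have i3 : Primrec fun y : (ℕ × NL) × ((ℕ × ℕ) × (ℕ × ℕ)) × ((ℕ × ℕ) × (ℕ × ℕ)) ×
      ((ℕ × ℕ) × (ℕ × ℕ)) => y.2.2.2.1 :=
    Primrec.fst.comp (Primrec.snd.comp (Primrec.snd.comp Primrec.snd))
  have j3 : Primrec fun y : (ℕ × NL) × ((ℕ × ℕ) × (ℕ × ℕ)) × ((ℕ × ℕ) × (ℕ × ℕ)) ×
      ((ℕ × ℕ) × (ℕ × ℕ)) => y.2.2.2.2 :=
    Primrec.snd.comp (Primrec.snd.comp (Primrec.snd.comp Primrec.snd))
  have hp : Primrec fun y : (ℕ × NL) × ((ℕ × ℕ) × (ℕ × ℕ)) × ((ℕ × ℕ) × (ℕ × ℕ)) ×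
      ((ℕ × ℕ) × (ℕ × ℕ)) => y.1.1 := Primrec.fst.comp Primrec.fst
  have hL : Primrec fun y : (ℕ × NL) × ((ℕ × ℕ) × (ℕ × ℕ)) × ((ℕ × ℕ) × (ℕ × ℕ)) ×
      ((ℕ × ℕ) × (ℕ × ℕ)) => y.1.2 := Primrec.snd.comp Primrec.fst
  have h := (WdC_pred hp hL i1 j1).and ((WdC_pred hp hL i2 j2).and ((WdC_pred hp hL i3 j3).and
    (WdC_vzeq (WdC_mulp (WdC_subp i2 i1) (WdC_subp j3 j1))
      (WdC_mulp (WdC_subp j2 j1) (WdC_subp i3 i1))).not))
  refine re_of_eq (re_ex (re_prim h)) fun x => ⟨?_, ?_⟩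
  · rintro ⟨⟨⟨u1, v1⟩, ⟨u2, v2⟩, ⟨u3, v3⟩⟩, h1, h2, h3, h4⟩
    refine ⟨(vz u1, vz v1), (vz u2, vz v2), (vz u3, vz v3), h1, h2, h3, ?_⟩
    simpa only [WdC_mulv, WdC_sub] using h4
  · rintro ⟨⟨a1, b1⟩, ⟨a2, b2⟩, ⟨a3, b3⟩, h1, h2, h3, h4⟩
    obtain ⟨u1, rfl⟩ := WdC_surj a1
    obtain ⟨v1, rfl⟩ := WdC_surj b1
    obtain ⟨u2, rfl⟩ := WdC_surj a2
    obtain ⟨v2, rfl⟩ := WdC_surj b2
    obtain ⟨u3, rfl⟩ := WdC_surj a3
    obtain ⟨v3, rfl⟩ := WdC_surj b3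
    refine ⟨((u1, v1), (u2, v2), (u3, v3)), h1, h2, h3, ?_⟩
    simpa only [WdC_mulv, WdC_sub] using h4

theorem re_dt : Re fun m : MP => dt (vm m) = 1 ∨ dt (vm m) = -1 := by
  have a1 : Primrec fun m : MP => m.1 := Primrec.fst
  have a2 : Primrec fun m : MP => m.2.1 := Primrec.fst.comp Primrec.snd
  have a3 : Primrec fun m : MP => m.2.2.1 := Primrec.fst.comp (Primrec.snd.comp Primrec.snd)
  have a4 : Primrec fun m : MP => m.2.2.2 := Primrec.snd.comp (Primrec.snd.comp Primrec.snd)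
  have hd := WdC_subp (WdC_mulp a1 a4) (WdC_mulp a2 a3)
  have h1 := (WdC_vzeq hd (Primrec.const ((1, 0) : ℕ × ℕ))).or
    (WdC_vzeq hd (Primrec.const ((0, 1) : ℕ × ℕ)))
  refine re_prim (h1.of_eq fun m => ?_)
  rw [WdC_sub, WdC_mulv, WdC_mulv]
  have e1 : vz (1, 0) = 1 := by simp [vz]
  have e2 : vz (0, 1) = -1 := by simp [vz]
  rw [e1, e2]
  exact Iff.rfl

theorem re_prime : Re fun p : ℕ => p.Prime := by
  have h1 : PrimrecRel fun m p : ℕ => ¬ (2 ≤ m ∧ p % m = 0) := by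
    have c1 : PrimrecPred fun x : ℕ × ℕ => 2 ≤ x.1 :=
      PrimrecRel.comp Primrec.nat_le (Primrec.const 2) Primrec.fst
    have c2 : PrimrecPred fun x : ℕ × ℕ => x.2 % x.1 = 0 :=
      WdC_eq (Primrec.nat_mod.comp Primrec.snd Primrec.fst) (Primrec.const 0)
    exact (c1.and c2).not
  have h2 := PrimrecRel.forall_lt h1
  have h3 : PrimrecPred fun p : ℕ => ∀ m < p, ¬ (2 ≤ m ∧ p % m = 0) :=
    PrimrecRel.comp h2 Primrec.id Primrec.id
  have h4 : PrimrecPred fun p : ℕ => 2 ≤ p :=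
    PrimrecRel.comp Primrec.nat_le (Primrec.const 2) Primrec.id
  refine re_prim ((h4.and h3).of_eq fun p => ?_)
  rw [Nat.prime_def_lt']
  refine and_congr_right fun _ => ⟨fun h m hm hmp hd => ?_, fun h m hmp hc => ?_⟩
  · exact h m hmp ⟨hm, Nat.mod_eq_zero_of_dvd hd⟩
  · exact h m hc.1 hmp (Nat.dvd_of_mod_eq_zero hc.2)

end Pool.Agent.H28.IP
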