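/-
ROW NiB. `NI` is enumerable.
PROOF. `NI P₁ P₂` is an existential statement over the tuple
`y : Word × Word × List Word × Word × Word × List Word × ℕ × NL` (use re_ex once, then re_of_eq to split
the quantifiers) of a conjunction of: re_GenW (twice), re_prime, re_NC3, re_HomM (with
`[L, cst p]`, prim_cst), and a disjunction: first part re_ex over `(u, v) : (ℕ × ℕ) × (ℕ × ℕ)`, the condition
`vz u ≠ 0 ∨ vz v ≠ 0` is `u.1 ≠ u.2 ∨ v.1 ≠ v.2` (primitive recursive), re_ab composed with prim_subst,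
prim_zp; second part re_ex over `M : NL`, re_InN, re_coef, re_all over the list
`box (8 * mx L * mx M)` (prim_box, prim_mx, `Primrec.nat_mul`) of the statement
`(dt = 1 ∨ dt = -1) → NIm …`: an implication whose hypothesis is decidable: it is equivalent to
`(¬ (dt (vm m) = 1 ∨ dt (vm m) = -1)) ∨ NIm …`, and the negation is also enumerable
(`dt (vm m)` is `vz` of a pair `(c, d)` computed by `mulp`, `subp`; `¬ (c = d + 1 ∨ d = c + 1)` is
primitive recursive).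
-/
import Pool.Agent.H28.IP.NiA
import Pool.Agent.H28.IP.WdC

set_option autoImplicit false

namespace Pool.Agent.H28.IP

/-- the list of two words -/
theorem NiB_two {α β : Type} [Primcodable α] [Primcodable β] {f g : α → β} (hf : Primrec f)
    (hg : Primrec g) : Primrec fun a => ([f a, g a] : List β) :=
  Primrec.list_cons.comp hf (Primrec.list_cons.comp hg (Primrec.const []))

theorem NiB_nz : PrimrecPred fun x : (ℕ × ℕ) × (ℕ × ℕ) => vz x.1 ≠ 0 ∨ vz x.2 ≠ 0 := by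
  have h0 : vz (0, 0) = 0 := rfl
  have h1 : PrimrecPred fun x : (ℕ × ℕ) × (ℕ × ℕ) => vz x.1 = vz (0, 0) :=
    WdC_vzeq Primrec.fst (Primrec.const (0, 0))
  have h2 : PrimrecPred fun x : (ℕ × ℕ) × (ℕ × ℕ) => vz x.2 = vz (0, 0) :=
    WdC_vzeq Primrec.snd (Primrec.const (0, 0))
  refine (h1.not.or h2.not).of_eq fun x => ?_
  rw [h0]

theorem NiB_ndt : PrimrecPred fun m : MP => ¬ (dt (vm m) = 1 ∨ dt (vm m) = -1) := by
  have a1 : Primrec fun m : MP => m.1 := Primrec.fst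
  have a2 : Primrec fun m : MP => m.2.1 := Primrec.fst.comp Primrec.snd
  have a3 : Primrec fun m : MP => m.2.2.1 := Primrec.fst.comp (Primrec.snd.comp Primrec.snd)
  have a4 : Primrec fun m : MP => m.2.2.2 := Primrec.snd.comp (Primrec.snd.comp Primrec.snd)
  have hd := WdC_subp (WdC_mulp a1 a4) (WdC_mulp a2 a3)
  have h1 := WdC_vzeq hd (Primrec.const (1, 0))
  have h2 := WdC_vzeq hd (Primrec.const (0, 1))
  have e1 : vz (1, 0) = 1 := rfl
  have e2 : vz (0, 1) = -1 := rfl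
  refine (h1.or h2).not.of_eq fun m => ?_
  rw [WdC_sub, WdC_mulv, WdC_mulv, e1, e2]
  rfl

/-- first alternative -/
theorem NiB_first : Re fun x : Pres × Word × Word => ∃ u v : ℕ × ℕ, (vz u ≠ 0 ∨ vz v ≠ 0) ∧
    cl x.1 (subst [x.2.1, x.2.2] (zp 0 u ++ zp 1 v)) ∈ commutator (GN x.1) := by
  have h1 : Re fun y : (Pres × Word × Word) × (ℕ × ℕ) × (ℕ × ℕ) =>
      (vz y.2.1 ≠ 0 ∨ vz y.2.2 ≠ 0) ∧
      cl y.1.1 (subst [y.1.2.1, y.1.2.2] (zp 0 y.2.1 ++ zp 1 y.2.2)) ∈ commutator (GN y.1.1) := by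
    refine re_and (re_prim (NiB_nz.comp Primrec.snd)) ?_
    refine re_comp re_ab (f := fun y : (Pres × Word × Word) × (ℕ × ℕ) × (ℕ × ℕ) =>
      (y.1.1, subst [y.1.2.1, y.1.2.2] (zp 0 y.2.1 ++ zp 1 y.2.2))) ?_
    refine (Primrec.fst.comp Primrec.fst).pair (prim_subst.comp
      (NiB_two (Primrec.fst.comp (Primrec.snd.comp Primrec.fst))
        (Primrec.snd.comp (Primrec.snd.comp Primrec.fst)))
      (Primrec.list_append.comp ((prim_zp 0).comp (Primrec.fst.comp Primrec.snd))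
        ((prim_zp 1).comp (Primrec.snd.comp Primrec.snd))))
  refine re_of_eq (re_ex h1) fun x => ?_
  constructor
  · rintro ⟨b, hb⟩
    exact ⟨b.1, b.2, hb⟩
  · rintro ⟨u, v, hb⟩
    exact ⟨(u, v), hb⟩

/-- the body of the second alternative -/
theorem NiB_body : Re fun x : ((Pres × Word × Word) × (Pres × Word × Word)) × (ℕ × NL) × NL =>
    InN x.1.2.1 (subst [x.1.2.2.1, x.1.2.2.2] (wl x.2.2)) ∧
      (∃ z : ℤ × ℤ, ¬ (x.2.1.1 : ℤ) ∣ (pol x.2.2).coeff z) ∧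
      ∀ m ∈ box (8 * mx x.2.1.2 * mx x.2.2), (dt (vm m) = 1 ∨ dt (vm m) = -1) →
          NIm x.1.1.1 x.1.1.2.1 x.1.1.2.2 x.1.2.1 x.1.2.2.1 x.1.2.2.2 m := by
  have a1 : Primrec fun x : ((Pres × Word × Word) × (Pres × Word × Word)) × (ℕ × NL) × NL => x.1.1 :=
    Primrec.fst.comp Primrec.fst
  have a2 : Primrec fun x : ((Pres × Word × Word) × (Pres × Word × Word)) × (ℕ × NL) × NL => x.1.2 :=
    Primrec.snd.comp Primrec.fst
  have b1 : Primrec fun x : ((Pres × Word × Word) × (Pres × Word × Word)) × (ℕ × NL) × NL =>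
    x.2.1.1 := Primrec.fst.comp (Primrec.fst.comp Primrec.snd)
  have b2 : Primrec fun x : ((Pres × Word × Word) × (Pres × Word × Word)) × (ℕ × NL) × NL =>
    x.2.1.2 := Primrec.snd.comp (Primrec.fst.comp Primrec.snd)
  have b3 : Primrec fun x : ((Pres × Word × Word) × (Pres × Word × Word)) × (ℕ × NL) × NL =>
    x.2.2 := Primrec.snd.comp Primrec.snd
  refine re_and ?_ (re_and ?_ ?_)
  · refine re_comp re_InN (f := fun x : ((Pres × Word × Word) × (Pres × Word × Word)) ×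
      (ℕ × NL) × NL => (x.1.2.1, subst [x.1.2.2.1, x.1.2.2.2] (wl x.2.2))) ?_
    exact (Primrec.fst.comp a2).pair (prim_subst.comp
      (NiB_two (Primrec.fst.comp (Primrec.snd.comp a2)) (Primrec.snd.comp (Primrec.snd.comp a2)))
      (prim_wl.comp b3))
  · exact re_comp re_coef (f := fun x : ((Pres × Word × Word) × (Pres × Word × Word)) ×
      (ℕ × NL) × NL => (x.2.1.1, x.2.2)) (b1.pair b3)
  · refine re_all (p := fun y : (((Pres × Word × Word) × (Pres × Word × Word)) × (ℕ × NL) × NL) × MP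
      => (dt (vm y.2) = 1 ∨ dt (vm y.2) = -1) →
          NIm y.1.1.1.1 y.1.1.1.2.1 y.1.1.1.2.2 y.1.1.2.1 y.1.1.2.2.1 y.1.1.2.2.2 y.2)
      (f := fun x : ((Pres × Word × Word) × (Pres × Word × Word)) × (ℕ × NL) × NL =>
        box (8 * mx x.2.1.2 * mx x.2.2)) ?_ ?_
    · have h1 : Re fun y : (((Pres × Word × Word) × (Pres × Word × Word)) × (ℕ × NL) × NL) × MP =>
          (¬ (dt (vm y.2) = 1 ∨ dt (vm y.2) = -1)) ∨
          NIm y.1.1.1.1 y.1.1.1.2.1 y.1.1.1.2.2 y.1.1.2.1 y.1.1.2.2.1 y.1.1.2.2.2 y.2 := by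
        refine re_or (re_prim (NiB_ndt.comp Primrec.snd)) ?_
        exact re_comp re_NIm (f := fun y : (((Pres × Word × Word) × (Pres × Word × Word)) ×
          (ℕ × NL) × NL) × MP => (y.1.1.1, y.1.1.2, y.2))
          ((a1.comp Primrec.fst).pair ((a2.comp Primrec.fst).pair Primrec.snd))
      refine re_of_eq h1 fun y => ?_
      rw [imp_iff_not_or]
    · exact prim_box.comp (Primrec.nat_mul.comp (Primrec.nat_mul.comp (Primrec.const 8)
        (prim_mx.comp b2)) (prim_mx.comp b3))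

/-- second alternative -/
theorem NiB_second : Re fun x : ((Pres × Word × Word) × (Pres × Word × Word)) × (ℕ × NL) =>
    ∃ M : NL, InN x.1.2.1 (subst [x.1.2.2.1, x.1.2.2.2] (wl M)) ∧
      (∃ z : ℤ × ℤ, ¬ (x.2.1 : ℤ) ∣ (pol M).coeff z) ∧
      ∀ m ∈ box (8 * mx x.2.2 * mx M), (dt (vm m) = 1 ∨ dt (vm m) = -1) →
          NIm x.1.1.1 x.1.1.2.1 x.1.1.2.2 x.1.2.1 x.1.2.2.1 x.1.2.2.2 m := by
  refine re_ex (p := fun y : (((Pres × Word × Word) × (Pres × Word × Word)) × (ℕ × NL)) × NL =>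
    InN y.1.1.2.1 (subst [y.1.1.2.2.1, y.1.1.2.2.2] (wl y.2)) ∧
      (∃ z : ℤ × ℤ, ¬ (y.1.2.1 : ℤ) ∣ (pol y.2).coeff z) ∧
      ∀ m ∈ box (8 * mx y.1.2.2 * mx y.2), (dt (vm m) = 1 ∨ dt (vm m) = -1) →
          NIm y.1.1.1.1 y.1.1.1.2.1 y.1.1.1.2.2 y.1.1.2.1 y.1.1.2.2.1 y.1.1.2.2.2 m) ?_
  exact re_comp NiB_body (f := fun y : (((Pres × Word × Word) × (Pres × Word × Word)) × (ℕ × NL)) ×
    NL => (y.1.1, y.1.2, y.2))
    ((Primrec.fst.comp Primrec.fst).pair ((Primrec.snd.comp Primrec.fst).pair Primrec.snd))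

/-- the type of the certificates -/
abbrev NiB_Y : Type := Word × Word × List Word × Word × Word × List Word × ℕ × NL

theorem NiB_last : Re fun z : (Pres × Pres) × NiB_Y => ((∃ u v : ℕ × ℕ, (vz u ≠ 0 ∨ vz v ≠ 0) ∧
        cl z.1.2 (subst [z.2.2.2.2.1, z.2.2.2.2.2.1] (zp 0 u ++ zp 1 v)) ∈
          commutator (GN z.1.2)) ∨
      ∃ M : NL, InN z.1.2 (subst [z.2.2.2.2.1, z.2.2.2.2.2.1] (wl M)) ∧
        (∃ w : ℤ × ℤ, ¬ (z.2.2.2.2.2.2.2.1 : ℤ) ∣ (pol M).coeff w) ∧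
        ∀ m ∈ box (8 * mx z.2.2.2.2.2.2.2.2 * mx M), (dt (vm m) = 1 ∨ dt (vm m) = -1) →
          NIm z.1.1 z.2.1 z.2.2.1 z.1.2 z.2.2.2.2.1 z.2.2.2.2.2.1 m) := by
  have z1 : Primrec fun z : (Pres × Pres) × NiB_Y => z.1.1 := Primrec.fst.comp Primrec.fst
  have z2 : Primrec fun z : (Pres × Pres) × NiB_Y => z.1.2 := Primrec.snd.comp Primrec.fst
  have y1 : Primrec fun z : (Pres × Pres) × NiB_Y => z.2.1 := Primrec.fst.comp Primrec.snd
  have r1 : Primrec fun z : (Pres × Pres) × NiB_Y => z.2.2 := Primrec.snd.comp Primrec.snd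
  have y2 : Primrec fun z : (Pres × Pres) × NiB_Y => z.2.2.1 := Primrec.fst.comp r1
  have r2 : Primrec fun z : (Pres × Pres) × NiB_Y => z.2.2.2 := Primrec.snd.comp r1
  have r3 : Primrec fun z : (Pres × Pres) × NiB_Y => z.2.2.2.2 := Primrec.snd.comp r2
  have y4 : Primrec fun z : (Pres × Pres) × NiB_Y => z.2.2.2.2.1 := Primrec.fst.comp r3
  have r4 : Primrec fun z : (Pres × Pres) × NiB_Y => z.2.2.2.2.2 := Primrec.snd.comp r3
  have y5 : Primrec fun z : (Pres × Pres) × NiB_Y => z.2.2.2.2.2.1 := Primrec.fst.comp r4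
  have r5 : Primrec fun z : (Pres × Pres) × NiB_Y => z.2.2.2.2.2.2 := Primrec.snd.comp r4
  have r6 : Primrec fun z : (Pres × Pres) × NiB_Y => z.2.2.2.2.2.2.2 := Primrec.snd.comp r5
  have y7 : Primrec fun z : (Pres × Pres) × NiB_Y => z.2.2.2.2.2.2.2.1 := Primrec.fst.comp r6
  have y8 : Primrec fun z : (Pres × Pres) × NiB_Y => z.2.2.2.2.2.2.2.2 := Primrec.snd.comp r6
  refine re_or ?_ ?_
  · exact re_comp NiB_first (f := fun z : (Pres × Pres) × NiB_Y => (z.1.2, z.2.2.2.2.1, z.2.2.2.2.2.1))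
      (z2.pair (y4.pair y5))
  · exact re_comp NiB_second (f := fun z : (Pres × Pres) × NiB_Y =>
      (((z.1.1, z.2.1, z.2.2.1), (z.1.2, z.2.2.2.2.1, z.2.2.2.2.2.1)),
        (z.2.2.2.2.2.2.2.1, z.2.2.2.2.2.2.2.2)))
      (((z1.pair (y1.pair y2)).pair (z2.pair (y4.pair y5))).pair (y7.pair y8))

theorem NiB_mid : Re fun z : (Pres × Pres) × NiB_Y => (z.2.2.2.2.2.2.2.1).Prime ∧
      NC3 z.2.2.2.2.2.2.2.1 (pol z.2.2.2.2.2.2.2.2) ∧
      HomM z.1.1 [z.2.2.2.2.2.2.2.2, cst z.2.2.2.2.2.2.2.1] z.2.1 z.2.2.1 z.2.2.2.1 := by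
  have z1 : Primrec fun z : (Pres × Pres) × NiB_Y => z.1.1 := Primrec.fst.comp Primrec.fst
  have y1 : Primrec fun z : (Pres × Pres) × NiB_Y => z.2.1 := Primrec.fst.comp Primrec.snd
  have r1 : Primrec fun z : (Pres × Pres) × NiB_Y => z.2.2 := Primrec.snd.comp Primrec.snd
  have y2 : Primrec fun z : (Pres × Pres) × NiB_Y => z.2.2.1 := Primrec.fst.comp r1
  have r2 : Primrec fun z : (Pres × Pres) × NiB_Y => z.2.2.2 := Primrec.snd.comp r1
  have y3 : Primrec fun z : (Pres × Pres) × NiB_Y => z.2.2.2.1 := Primrec.fst.comp r2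
  have r3 : Primrec fun z : (Pres × Pres) × NiB_Y => z.2.2.2.2 := Primrec.snd.comp r2
  have r4 : Primrec fun z : (Pres × Pres) × NiB_Y => z.2.2.2.2.2 := Primrec.snd.comp r3
  have r5 : Primrec fun z : (Pres × Pres) × NiB_Y => z.2.2.2.2.2.2 := Primrec.snd.comp r4
  have r6 : Primrec fun z : (Pres × Pres) × NiB_Y => z.2.2.2.2.2.2.2 := Primrec.snd.comp r5
  have y7 : Primrec fun z : (Pres × Pres) × NiB_Y => z.2.2.2.2.2.2.2.1 := Primrec.fst.comp r6
  have y8 : Primrec fun z : (Pres × Pres) × NiB_Y => z.2.2.2.2.2.2.2.2 := Primrec.snd.comp r6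
  refine re_and ?_ (re_and ?_ ?_)
  · exact re_comp re_prime (f := fun z : (Pres × Pres) × NiB_Y => z.2.2.2.2.2.2.2.1) y7
  · exact re_comp re_NC3 (f := fun z : (Pres × Pres) × NiB_Y =>
      (z.2.2.2.2.2.2.2.1, z.2.2.2.2.2.2.2.2)) (y7.pair y8)
  · exact re_comp re_HomM (f := fun z : (Pres × Pres) × NiB_Y =>
      (z.1.1, [z.2.2.2.2.2.2.2.2, cst z.2.2.2.2.2.2.2.1], z.2.1, z.2.2.1, z.2.2.2.1))
      (z1.pair ((NiB_two y8 (prim_cst.comp y7)).pair (y1.pair (y2.pair y3))))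

theorem NiB_gen : Re fun z : (Pres × Pres) × NiB_Y => GenW z.1.1 z.2.1 z.2.2.1 z.2.2.2.1 ∧
      GenW z.1.2 z.2.2.2.2.1 z.2.2.2.2.2.1 z.2.2.2.2.2.2.1 := by
  have z1 : Primrec fun z : (Pres × Pres) × NiB_Y => z.1.1 := Primrec.fst.comp Primrec.fst
  have z2 : Primrec fun z : (Pres × Pres) × NiB_Y => z.1.2 := Primrec.snd.comp Primrec.fst
  have y1 : Primrec fun z : (Pres × Pres) × NiB_Y => z.2.1 := Primrec.fst.comp Primrec.snd
  have r1 : Primrec fun z : (Pres × Pres) × NiB_Y => z.2.2 := Primrec.snd.comp Primrec.snd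
  have y2 : Primrec fun z : (Pres × Pres) × NiB_Y => z.2.2.1 := Primrec.fst.comp r1
  have r2 : Primrec fun z : (Pres × Pres) × NiB_Y => z.2.2.2 := Primrec.snd.comp r1
  have y3 : Primrec fun z : (Pres × Pres) × NiB_Y => z.2.2.2.1 := Primrec.fst.comp r2
  have r3 : Primrec fun z : (Pres × Pres) × NiB_Y => z.2.2.2.2 := Primrec.snd.comp r2
  have y4 : Primrec fun z : (Pres × Pres) × NiB_Y => z.2.2.2.2.1 := Primrec.fst.comp r3
  have r4 : Primrec fun z : (Pres × Pres) × NiB_Y => z.2.2.2.2.2 := Primrec.snd.comp r3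
  have y5 : Primrec fun z : (Pres × Pres) × NiB_Y => z.2.2.2.2.2.1 := Primrec.fst.comp r4
  have r5 : Primrec fun z : (Pres × Pres) × NiB_Y => z.2.2.2.2.2.2 := Primrec.snd.comp r4
  have y6 : Primrec fun z : (Pres × Pres) × NiB_Y => z.2.2.2.2.2.2.1 := Primrec.fst.comp r5
  refine re_and ?_ ?_
  · exact re_comp re_GenW (f := fun z : (Pres × Pres) × NiB_Y => (z.1.1, z.2.1, z.2.2.1, z.2.2.2.1))
      (z1.pair (y1.pair (y2.pair y3)))
  · exact re_comp re_GenW (f := fun z : (Pres × Pres) × NiB_Y =>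
      (z.1.2, z.2.2.2.2.1, z.2.2.2.2.2.1, z.2.2.2.2.2.2.1)) (z2.pair (y4.pair (y5.pair y6)))

theorem re_NI : Re fun x : Pres × Pres => NI x.1 x.2 := by
  refine re_of_eq (re_ex (re_and NiB_gen (re_and NiB_mid NiB_last))) fun x => ?_
  constructor
  · rintro ⟨⟨A₁, B₁, W₁, A₂, B₂, W₂, p, L⟩, ⟨h1, h2⟩, ⟨h3, h4, h5⟩, h6⟩
    exact ⟨A₁, B₁, W₁, A₂, B₂, W₂, p, L, h1, h2, h3, h4, h5, h6⟩
  · rintro ⟨A₁, B₁, W₁, A₂, B₂, W₂, p, L, h1, h2, h3, h4, h5, h6⟩
    exact ⟨(A₁, B₁, W₁, A₂, B₂, W₂, p, L), ⟨h1, h2⟩, ⟨h3, h4, h5⟩, h6⟩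

end Pool.Agent.H28.IP
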