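/-
ROW RfB. Soundness of `FQ`.
PROOF. Let `IsRep P k T`. For `i : ℕ` define `σ i : Equiv.Perm (Fin k)`: for `i < P.1` with
`toFun s = ⟨stp T (i, true) s, _⟩`, `invFun s = ⟨stp T (i, false) s, _⟩`; for `i ≥ P.1` the identity.
For `i ≥ P.1 = T.length` also `stp T (i, b) s = s` (`List.getD` beyond the length is the default
`([], [])`, `[].getD s s = s`). So for every letter `l = (i, b)` and `s < k`:
`stp T l s = (cond b (σ i) (σ i)⁻¹) s`. By induction on `w`: `actw T w s = FreeGroup.lift σ (mk w) s` for
`s < k` (`FreeGroup.lift_mk`: product of the list; `List.foldr` acts from the left like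
`Equiv.Perm.mul_apply`). The relators act trivially, so `FreeGroup.lift σ` kills `relN P`
(`FreeGroup.of i`, `P.1 ≤ i`, too) and hence its normal closure (`Subgroup.normalClosure_le_normal`
with the kernel). If `InN P w` then `actw T w s = s` for all `s < k`, contradiction.
-/
import Pool.Agent.H28.IP.Defs

set_option autoImplicit false

namespace Pool.Agent.H28.IP

theorem fq_sound {P : Pres} {w : Word} (h : FQ P w) : ¬ InN P w := by
  obtain ⟨k, T, ⟨hlen, hst, hrel⟩, s, hs, hws⟩ := h
  intro hin
  have hdef : ∀ i, P.1 ≤ i → ∀ (b : Bool) (s : ℕ), stp T (i, b) s = s := by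
    intro i hi b s
    have h1 : T.getD i ([], []) = ([], []) := List.getD_eq_default _ _ (by omega)
    unfold stp
    show cond b ((T.getD i ([], [])).1.getD s s) ((T.getD i ([], [])).2.getD s s) = s
    rw [h1]
    cases b <;> simp
  let σ : ℕ → Equiv.Perm (Fin k) := fun i =>
    if hi : i < P.1 then
      { toFun := fun s => ⟨stp T (i, true) s, (hst i hi s s.2).1⟩
        invFun := fun s => ⟨stp T (i, false) s, (hst i hi s s.2).2.1⟩
        left_inv := fun s => Fin.ext (hst i hi s s.2).2.2.1
        right_inv := fun s => Fin.ext (hst i hi s s.2).2.2.2 }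
    else 1
  have hσt : ∀ (i : ℕ) (s : Fin k), ((σ i) s : ℕ) = stp T (i, true) s := by
    intro i s
    by_cases hi : i < P.1
    · simp only [σ, dif_pos hi]; rfl
    · simp only [σ, dif_neg hi]
      rw [hdef i (by omega)]; rfl
  have hσf : ∀ (i : ℕ) (s : Fin k), ((σ i)⁻¹ s : ℕ) = stp T (i, false) s := by
    intro i s
    by_cases hi : i < P.1
    · simp only [σ, dif_pos hi]; rfl
    · simp only [σ, dif_neg hi]
      rw [hdef i (by omega)]; rfl
  have hact : ∀ (w : Word) (s : Fin k),
      ((FreeGroup.lift σ (FreeGroup.mk w)) s : ℕ) = actw T w s := by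
    intro w
    induction w with
    | nil => intro s; simp [actw, FreeGroup.lift_mk]
    | cons l w ih =>
      intro s
      have h1 : FreeGroup.lift σ (FreeGroup.mk (l :: w))
          = cond l.2 (σ l.1) (σ l.1)⁻¹ * FreeGroup.lift σ (FreeGroup.mk w) := by
        simp [FreeGroup.lift_mk]
      rw [h1, Equiv.Perm.mul_apply]
      have h2 : actw T (l :: w) s = stp T l (actw T w s) := rfl
      rw [h2, ← ih s]
      obtain ⟨i, b⟩ := l
      cases b
      · exact hσf i _
      · exact hσt i _
  have hker : Subgroup.normalClosure (relN P) ≤ (FreeGroup.lift σ).ker := by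
    apply Subgroup.normalClosure_le_normal
    rintro r (⟨u, hu, rfl⟩ | ⟨i, hi, rfl⟩)
    · show FreeGroup.lift σ (FreeGroup.mk u) = 1
      ext s
      rw [hact, hrel u hu s s.2]; rfl
    · show FreeGroup.lift σ (FreeGroup.of i) = 1
      rw [FreeGroup.lift_apply_of]
      simp only [σ, dif_neg (show ¬ i < P.1 by omega)]
  have h3 : FreeGroup.lift σ (FreeGroup.mk w) = 1 := hker hin
  apply hws
  have h4 := hact w ⟨s, hs⟩
  rw [h3] at h4
  exact h4.symm

end Pool.Agent.H28.IP
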