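/-
ROW RfC. Completeness of `FQ`.
PROOF. Let `Q` be a finite group, `k = Nat.card Q`, `e : Q ≃ Fin k` (`Finite.equivFin`). For `i < P.1` let
`q i = π (cl P [(i, true)])`. Let `T` be the list of length `P.1` (`List.ofFn` or `(List.range P.1).map`)
whose `i`-th entry is the pair of lists of length `k` (over `List.range k` or `List.ofFn`) with `s`-th
entries `e (q i * e.symm s)` and `e ((q i)⁻¹ * e.symm s)`. Then for `i < P.1`, `s < k`:
`stp T (i, true) s = e (q i * e.symm s)`, `stp T (i, false) s = e ((q i)⁻¹ * e.symm s)`; for `i ≥ P.1` the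
letter acts trivially and also `π (cl P [(i, true)]) = 1` since `FreeGroup.of i` is a relator. By
induction on `w`: `actw T w s = e (π (cl P w) * e.symm s)` for `s < k`
(`cl P (l :: w) = cl P [l] * cl P w`). For a relator `r ∈ P.2`, `cl P r = 1`. Finally at `s = e 1`:
`actw T w s = e (π (cl P w)) ≠ e 1`. (`cl P r = 1` for relators: `PresentedGroup.mk` of an element of
`relN P ⊆ normalClosure`.)
-/
import Pool.Agent.H28.IP.Defs

set_option autoImplicit false

namespace Pool.Agent.H28.IP

theorem RfC_one {P : Pres} {r : FreeGroup ℕ} (h : r ∈ relN P) : PresentedGroup.mk (relN P) r = 1 :=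
  (QuotientGroup.eq_one_iff r).2 (Subgroup.subset_normalClosure h)

theorem RfC_cons (P : Pres) (l : ℕ × Bool) (w : Word) : cl P (l :: w) = cl P [l] * cl P w := by
  have : FreeGroup.mk (l :: w) = FreeGroup.mk [l] * FreeGroup.mk w := by
    rw [FreeGroup.mul_mk]
    rfl
  unfold cl
  rw [this, map_mul]

theorem RfC_false (P : Pres) (i : ℕ) : cl P [(i, false)] = (cl P [(i, true)])⁻¹ := by
  have : FreeGroup.mk [(i, false)] = (FreeGroup.mk [(i, true)])⁻¹ := by
    rw [FreeGroup.inv_mk]
    rfl
  unfold cl
  rw [this, map_inv]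

theorem fq_complete {P : Pres} {Q : Type} [Group Q] [Finite Q] (π : GN P →* Q) {w : Word}
    (h : π (cl P w) ≠ 1) : FQ P w := by
  classical
  obtain ⟨k, ⟨e⟩⟩ := Finite.exists_equiv_fin Q
  set q : ℕ → Q := fun i => π (cl P [(i, true)]) with hq
  set f : Q → List ℕ := fun x => List.ofFn fun s : Fin k => (e (x * e.symm s) : ℕ) with hf
  set T : List (List ℕ × List ℕ) :=
    (List.range P.1).map (fun i => (f (q i), f (q i)⁻¹)) with hT
  have hfx : ∀ (x : Q) (s : Fin k), (f x).getD (s : ℕ) (s : ℕ) = (e (x * e.symm s) : ℕ) := by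
    intro x s
    rw [hf]
    simp [List.getD_eq_getElem?_getD]
  have hq1 : ∀ i, P.1 ≤ i → q i = 1 := by
    intro i hi
    have h1 : cl P [(i, true)] = 1 := by
      unfold cl
      exact RfC_one (Or.inr ⟨i, hi, rfl⟩)
    rw [hq]
    show π (cl P [(i, true)]) = 1
    rw [h1, map_one]
  have hTlen : T.length = P.1 := by rw [hT]; simp
  have hstp : ∀ (l : ℕ × Bool) (s : Fin k), stp T l (s : ℕ) = (e (π (cl P [l]) * e.symm s) : ℕ) := by
    rintro ⟨i, b⟩ s
    have hb : π (cl P [(i, b)]) = cond b (q i) (q i)⁻¹ := by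
      cases b
      · rw [RfC_false, map_inv]; rfl
      · rfl
    rw [hb]
    unfold stp
    by_cases hi : i < P.1
    · have h1 : T.getD i ([], []) = (f (q i), f (q i)⁻¹) := by
        rw [List.getD_eq_getElem?_getD, hT, List.getElem?_map, List.getElem?_range hi]
        rfl
      simp only [h1]
      cases b
      · simp only [cond_false]
        exact hfx _ s
      · simp only [cond_true]
        exact hfx _ s
    · have h1 : T.getD i ([], []) = ([], []) := by
        rw [List.getD_eq_getElem?_getD, List.getElem?_eq_none (by omega)]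
        rfl
      simp only [h1]
      rw [hq1 i (by omega)]
      cases b <;> simp
  have hact : ∀ (w : Word) (s : Fin k), actw T w (s : ℕ) = (e (π (cl P w) * e.symm s) : ℕ) := by
    intro w s
    induction w with
    | nil =>
      have h1 : cl P [] = 1 := by
        unfold cl
        exact map_one _
      rw [h1, map_one, one_mul, Equiv.apply_symm_apply]
      rfl
    | cons l w ih =>
      have h1 : actw T (l :: w) (s : ℕ) = stp T l (actw T w s) := rfl
      rw [h1, ih, hstp, RfC_cons P l w, map_mul π, Equiv.symm_apply_apply, mul_assoc]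
  refine ⟨k, T, ⟨hTlen, ?_, ?_⟩, ?_⟩
  · intro i hi s hs
    have h1 := hstp (i, true) ⟨s, hs⟩
    have h2 := hstp (i, false) ⟨s, hs⟩
    simp only at h1 h2
    refine ⟨by rw [h1]; exact (e _).2, by rw [h2]; exact (e _).2, ?_, ?_⟩
    · rw [h1, hstp, RfC_false, map_inv, Equiv.symm_apply_apply, inv_mul_cancel_left,
        Equiv.apply_symm_apply]
    · rw [h2, hstp, RfC_false, map_inv, Equiv.symm_apply_apply, mul_inv_cancel_left,
        Equiv.apply_symm_apply]
  · intro r hr s hs
    have h1 := hact r ⟨s, hs⟩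
    have h2 : cl P r = 1 := by
      unfold cl
      exact RfC_one (Or.inl ⟨r, hr, rfl⟩)
    rw [h2, map_one, one_mul, Equiv.apply_symm_apply] at h1
    exact h1
  · refine ⟨(e 1 : ℕ), (e 1).2, ?_⟩
    rw [hact, Equiv.symm_apply_apply, mul_one]
    intro h1
    exact h (e.injective (Fin.ext h1))

end Pool.Agent.H28.IP
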