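/-
ROW RfD. `Lam ⧸ J` is residually finite.
PROOF. Let `J₀` be maximal among the ideals containing `J` and not containing `f` (`IsNoetherianRing Lam`:
`set_has_maximal_iff_noetherian`, or Zorn). Let `R = Lam ⧸ J₀` (Noetherian) and `g ≠ 0` the class of `f`. Every
nonzero ideal of `R` contains `g` (comap to `Lam`). Let `𝔪 = {r | r * g = 0}` (an ideal). `𝔪` is maximal:
`1 ∉ 𝔪`; if `r ∉ 𝔪` then `r * g ≠ 0`, so `g ∈ (r * g)`, `g = s * r * g`, `1 - s * r ∈ 𝔪`. So `R ⧸ 𝔪` is finite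
(max_fin for the comap of `𝔪`, `DoubleQuot` or `Ideal.quotientEquiv…`; or via the surjection
`Lam ⧸ comap → R ⧸ 𝔪`). There is `n` with `g ∉ 𝔪 ^ n`: otherwise `g ∈ ⨅ n, 𝔪 ^ n • ⊤` and by Krull's
intersection theorem (`Ideal.mem_iInf_smul_pow_eq_bot_iff : x ∈ ⨅ i, I ^ i • ⊤ ↔ ∃ r : I, r • x = x`, for a
finite module over a Noetherian ring) `r * g = g` for some `r ∈ 𝔪`, so `g = 0`. Hence `𝔪 ^ n = 0` (a nonzero
ideal would contain `g`). `R ⧸ 𝔪 ^ n` is finite (`Ideal.finite_quotient_pow`: RingTheory/Ideal/Quotient/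
Index.lean, for `I.FG` and `R ⧸ I` finite), so `R` is finite.
-/
import Pool.Agent.H28.IP.MxF

set_option autoImplicit false

namespace Pool.Agent.H28.IP

theorem lam_rf (J : Ideal Lam) {f : Lam} (hf : f ∉ J) :
    ∃ J₀ : Ideal Lam, J ≤ J₀ ∧ f ∉ J₀ ∧ Finite (Lam ⧸ J₀) := by
  obtain ⟨J₀, ⟨hJ, hfJ⟩, hmax⟩ := set_has_maximal_iff_noetherian.2 (lam_noeth : IsNoetherian Lam Lam)
    {I : Submodule Lam Lam | J ≤ I ∧ f ∉ I} ⟨J, le_rfl, hf⟩
  have hbig : ∀ I : Ideal Lam, J₀ ≤ I → f ∉ I → I ≤ J₀ := by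
    intro I h1 h2
    by_contra h3
    exact hmax I ⟨hJ.trans h1, h2⟩ (lt_of_le_of_ne h1 fun h => h3 h.symm.le)
  refine ⟨J₀, hJ, hfJ, ?_⟩
  let m : Ideal Lam :=
    { carrier := {r | r * f ∈ (J₀ : Ideal Lam)}
      zero_mem' := by
        show 0 * f ∈ J₀
        rw [zero_mul]
        exact Submodule.zero_mem J₀
      add_mem' := by
        intro a b ha hb
        show (a + b) * f ∈ J₀
        rw [add_mul]
        exact Submodule.add_mem J₀ ha hb
      smul_mem' := by
        intro c x hx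
        show c * x * f ∈ J₀
        rw [mul_assoc]
        exact Submodule.smul_mem J₀ c hx }
  have hm : ∀ r, r ∈ m ↔ r * f ∈ J₀ := fun r => Iff.rfl
  have hmM : m.IsMaximal := by
    rw [Ideal.isMaximal_iff]
    refine ⟨?_, ?_⟩
    · rw [hm, one_mul]
      exact hfJ
    · intro K x hK hx hxK
      have h1 : f ∈ J₀ ⊔ Ideal.span {x * f} := by
        by_contra h
        have h2 := hbig _ le_sup_left h
        exact hx ((hm x).2 (h2 (Submodule.mem_sup_right (Ideal.mem_span_singleton_self _))))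
      obtain ⟨j, hj, y, hy, hjy⟩ := Submodule.mem_sup.1 h1
      obtain ⟨t, rfl⟩ := Ideal.mem_span_singleton.1 hy
      have h3 : 1 - t * x ∈ m := by
        rw [hm]
        have h4 : (1 - t * x) * f = j := by linear_combination -hjy
        rw [h4]
        exact hj
      have h5 : 1 - t * x + t * x ∈ K := K.add_mem (hK h3) (K.mul_mem_left t hxK)
      rwa [sub_add_cancel] at h5
  have hfin : Finite (Lam ⧸ m) := max_fin m
  have hfg : m.FG := (isNoetherianRing_iff_ideal_fg Lam).1 lam_noeth m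
  by_cases hn : ∃ n : ℕ, f ∉ J₀ ⊔ m ^ n
  · obtain ⟨n, hn⟩ := hn
    have h1 : m ^ n ≤ J₀ := le_sup_right.trans (hbig _ le_sup_left hn)
    have h2 : Finite (Lam ⧸ m ^ n) := Ideal.finite_quotient_pow hfg n
    exact Finite.of_surjective (Ideal.Quotient.factor h1) (Ideal.Quotient.factor_surjective h1)
  · exfalso
    have h1 : (Submodule.Quotient.mk f : Lam ⧸ J₀) ∈
        (⨅ i : ℕ, m ^ i • ⊤ : Submodule Lam (Lam ⧸ J₀)) := by
      rw [Submodule.mem_iInf]
      intro n
      have h2 : f ∈ J₀ ⊔ m ^ n := by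
        by_contra h
        exact hn ⟨n, h⟩
      obtain ⟨j, hj, y, hy, hjy⟩ := Submodule.mem_sup.1 h2
      have h3 : (Submodule.Quotient.mk f : Lam ⧸ J₀) = y • (Submodule.Quotient.mk 1 : Lam ⧸ J₀) := by
        rw [← Submodule.Quotient.mk_smul, Submodule.Quotient.eq, smul_eq_mul, mul_one]
        have h4 : f - y = j := by linear_combination -hjy
        rw [h4]
        exact hj
      rw [h3]
      exact Submodule.smul_mem_smul hy Submodule.mem_top
    obtain ⟨r, hr⟩ := (Ideal.mem_iInf_smul_pow_eq_bot_iff m _).1 h1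
    rw [← Submodule.Quotient.mk_smul, Submodule.Quotient.eq, smul_eq_mul] at hr
    have h5 := (hm r).1 r.2
    apply hfJ
    have h6 : f = (r : Lam) * f - ((r : Lam) * f - f) := by ring
    rw [h6]
    exact Submodule.sub_mem J₀ h5 hr

end Pool.Agent.H28.IP
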