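/-
ROW RfE. `Gam x y` over a finite ring is residually finite.
PROOF. Let `n ≥ 1` with `x ^ n = 1`, `y ^ n = 1` (`Rˣ` is finite: `n = Nat.card Rˣ`), `q = Nat.card R` (so
`q • r = 0` for `r : R`, `card_nsmul_eq_zero'`). Let `N = n * q`. `geo x (n * l) = l • geo x n` for `l : ℕ`
(geo_add, `x ^ (n l) = 1`), so `geo x N = 0`, `geo y N = 0`, and `geo x (N * l) = 0`, `geo y (N * l) = 0` for
all `l : ℤ` (geo_add; integer induction). Given `g ≠ 1`, let `N' = N * (g.i.natAbs + g.j.natAbs + 1)`. Let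
`Z = {h | (N' : ℤ) ∣ h.i ∧ (N' : ℤ) ∣ h.j ∧ h.r = 0}`: it is a subgroup contained in the centre: for `z ∈ Z`,
`(h * z) = ⟨h.i + z.i, h.j + z.j, h.r⟩` (`geo x z.i = 0`) and `(z * h) = ⟨z.i + h.i, z.j + h.j, h.r⟩`
(`x ^ z.i = y ^ z.j = 1`, `geo y z.j = 0`). So `Z` is normal. `g ∉ Z`: if `N' ∣ g.i` then `g.i = 0`
(`|g.i| < N'`), similarly `g.j = 0`, and `g.r = 0`, so `g = 1`. `Q = Gam x y ⧸ Z` is finite: the map
`Q → ZMod N' × ZMod N' × R`, or: the elements `⟨i, j, r⟩` with `0 ≤ i, j < N'` represent all classes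
(`⟨i, j, r⟩ * ⟨N' k, N' l, 0⟩ = ⟨i + N' k, j + N' l, r⟩`), so `Fin N' × Fin N' × R → Q` is surjective
(`Finite.of_surjective`).
-/
import Pool.Agent.H28.IP.Defs

set_option autoImplicit false

namespace Pool.Agent.H28.IP

/-- the exponents which are trivial for `x` -/
private def RfE_D {R : Type} [CommRing R] (x : Rˣ) : AddSubgroup ℤ where
  carrier := {z | x ^ z = 1 ∧ geo x z = 0}
  zero_mem' := ⟨zpow_zero x, geo_zero x⟩
  add_mem' := by
    rintro a b ⟨h1, h2⟩ ⟨h3, h4⟩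
    refine ⟨by rw [zpow_add, h1, h3, one_mul], ?_⟩
    rw [geo_add, h2, h4, mul_zero, add_zero]
  neg_mem' := by
    rintro a ⟨h1, h2⟩
    refine ⟨by rw [zpow_neg, h1, inv_one], ?_⟩
    have h3 := geo_add x a (-a)
    rw [add_neg_cancel, geo_zero, h1, h2, Units.val_one, one_mul, zero_add] at h3
    exact h3.symm

private theorem RfE_mul {R : Type} [CommRing R] {x : Rˣ} {n : ℤ} (hn : x ^ n = 1) (l : ℕ) :
    geo x (n * l) = l • geo x n := by
  induction l with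
  | zero => simp [geo_zero]
  | succ l ih =>
    have h1 : n * ((l + 1 : ℕ) : ℤ) = n * l + n := by push_cast; ring
    rw [h1, geo_add, ih, zpow_mul, hn, one_zpow, Units.val_one, one_mul, succ_nsmul]

private theorem RfE_N {R : Type} [CommRing R] [Finite R] (x : Rˣ) (l : ℤ) :
    ((Nat.card Rˣ * Nat.card R : ℕ) : ℤ) * l ∈ RfE_D x := by
  have h1 : x ^ ((Nat.card Rˣ : ℕ) : ℤ) = 1 := by
    rw [zpow_natCast]
    exact pow_card_eq_one'
  have h2 : ((Nat.card Rˣ * Nat.card R : ℕ) : ℤ) ∈ RfE_D x := by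
    constructor
    · push_cast
      rw [zpow_mul, h1, one_zpow]
    · push_cast
      rw [RfE_mul h1]
      exact card_nsmul_eq_zero'
  have h3 := (RfE_D x).zsmul_mem h2 l
  rwa [smul_eq_mul, mul_comm] at h3

/-- the kernel -/
private def RfE_Z {R : Type} [CommRing R] (x y : Rˣ) (N : ℤ) (hx : ∀ l : ℤ, N * l ∈ RfE_D x)
    : Subgroup (Gam x y) where
  carrier := {h | N ∣ h.i ∧ N ∣ h.j ∧ h.r = 0}
  one_mem' := ⟨by rw [one_i]; exact dvd_zero _, by rw [one_j]; exact dvd_zero _, one_r⟩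
  mul_mem' := by
    rintro a b ⟨h1, h2, h3⟩ ⟨h4, h5, h6⟩
    refine ⟨by rw [mul_i]; exact dvd_add h1 h4, by rw [mul_j]; exact dvd_add h2 h5, ?_⟩
    obtain ⟨l, hl⟩ := h4
    rw [mul_r, h3, h6, hl, (hx l).2]
    simp
  inv_mem' := by
    rintro a ⟨h1, h2, h3⟩
    refine ⟨by rw [inv_i]; exact (dvd_neg).2 h1, by rw [inv_j]; exact (dvd_neg).2 h2, ?_⟩
    obtain ⟨l, hl⟩ := (dvd_neg).2 h1
    rw [inv_r, h3, hl, (hx l).2]
    simp

theorem gam_fin {R : Type} [CommRing R] [Finite R] {x y : Rˣ} {g : Gam x y} (hg : g ≠ 1) :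
    ∃ (Q : Type) (_ : Group Q) (_ : Finite Q) (π : Gam x y →* Q), π g ≠ 1 := by
  classical
  obtain ⟨N, hN⟩ : ∃ N : ℕ, N = (Nat.card Rˣ * Nat.card R) * (g.i.natAbs + g.j.natAbs + 1) :=
    ⟨_, rfl⟩
  have hNpos : 0 < N := by
    rw [hN]
    have h1 : 0 < Nat.card Rˣ := Nat.card_pos
    have h2 : 0 < Nat.card R := Nat.card_pos
    positivity
  have hNle : g.i.natAbs + g.j.natAbs + 1 ≤ N := by
    rw [hN]
    have h1 : 0 < Nat.card Rˣ := Nat.card_pos
    have h2 : 0 < Nat.card R := Nat.card_pos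
    exact Nat.le_mul_of_pos_left _ (Nat.mul_pos h1 h2)
  have hD : ∀ (u : Rˣ) (l : ℤ), (N : ℤ) * l ∈ RfE_D u := by
    intro u l
    have h1 := RfE_N u (((g.i.natAbs + g.j.natAbs + 1 : ℕ) : ℤ) * l)
    rw [← mul_assoc, ← Nat.cast_mul, ← hN] at h1
    exact h1
  let Z : Subgroup (Gam x y) := RfE_Z x y N (hD x)
  have hZ : ∀ h : Gam x y, h ∈ Z ↔ (N : ℤ) ∣ h.i ∧ (N : ℤ) ∣ h.j ∧ h.r = 0 := fun _ => Iff.rfl
  have hcomm : ∀ z ∈ Z, ∀ h : Gam x y, h * z = z * h := by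
    intro z hz h
    obtain ⟨⟨k, hk⟩, ⟨l, hl⟩, hr⟩ := (hZ z).1 hz
    ext
    · rw [mul_i, mul_i, add_comm]
    · rw [mul_j, mul_j, add_comm]
    · rw [mul_r, mul_r, hr, hk, hl, (hD x k).2, (hD y l).2, (hD x k).1, (hD y l).1]
      simp
  have hnorm : Z.Normal := ⟨fun z hz h => by
    rw [hcomm z hz h, mul_assoc, mul_inv_cancel, mul_one]
    exact hz⟩
  have hgZ : g ∉ Z := by
    intro h
    obtain ⟨h1, h2, h3⟩ := (hZ g).1 h
    apply hg
    have h4 : g.i = 0 := Int.eq_zero_of_dvd_of_natAbs_lt_natAbs h1 (by rw [Int.natAbs_natCast]; omega)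
    have h5 : g.j = 0 := Int.eq_zero_of_dvd_of_natAbs_lt_natAbs h2 (by rw [Int.natAbs_natCast]; omega)
    ext
    · exact h4
    · exact h5
    · exact h3
  have hfin : Finite (Gam x y ⧸ Z) := by
    have hs : Function.Surjective (fun t : Fin N × Fin N × R =>
        ((⟨(t.1 : ℕ), (t.2.1 : ℕ), t.2.2⟩ : Gam x y) : Gam x y ⧸ Z)) := by
      intro q
      obtain ⟨h, rfl⟩ := QuotientGroup.mk_surjective q
      have hN0 : (N : ℤ) ≠ 0 := by exact_mod_cast hNpos.ne'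
      have a1 := Int.emod_nonneg h.i hN0
      have a2 := Int.emod_lt_of_pos h.i (by exact_mod_cast hNpos : (0 : ℤ) < N)
      have b1 := Int.emod_nonneg h.j hN0
      have b2 := Int.emod_lt_of_pos h.j (by exact_mod_cast hNpos : (0 : ℤ) < N)
      refine ⟨(⟨(h.i % N).toNat, by omega⟩, ⟨(h.j % N).toNat, by omega⟩, h.r), ?_⟩
      show ((⟨(((h.i % N).toNat : ℕ) : ℤ), (((h.j % N).toNat : ℕ) : ℤ), h.r⟩ : Gam x y) :
        Gam x y ⧸ Z) = (h : Gam x y ⧸ Z)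
      rw [Int.toNat_of_nonneg a1, Int.toNat_of_nonneg b1]
      have hz : (⟨N * (h.i / N), N * (h.j / N), 0⟩ : Gam x y) ∈ Z :=
        (hZ _).2 ⟨dvd_mul_right _ _, dvd_mul_right _ _, rfl⟩
      have he : h = (⟨h.i % N, h.j % N, h.r⟩ : Gam x y) * ⟨N * (h.i / N), N * (h.j / N), 0⟩ := by
        ext
        · rw [mul_i]
          exact (Int.emod_add_mul_ediv h.i N).symm
        · rw [mul_j]
          exact (Int.emod_add_mul_ediv h.j N).symm
        · rw [mul_r]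
          simp only [(hD x _).2, mul_zero, add_zero, sub_zero]
      conv_rhs => rw [he]
      rw [QuotientGroup.mk_mul_of_mem _ hz]
    exact Finite.of_surjective _ hs
  refine ⟨Gam x y ⧸ Z, inferInstance, hfin, QuotientGroup.mk' Z, ?_⟩
  intro h
  exact hgZ ((QuotientGroup.eq_one_iff g).1 h)

end Pool.Agent.H28.IP
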