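/-
ROW RfF. Residual finiteness.
PROOF. By psi_iso it is enough to consider `G = GJ J`, `J = Ann a b`, `g = ⟨i, j, r⟩ ≠ 1`, `r = mk f`. If
`(i, j) ≠ (0, 0)` let `J₀ = ⊤` (`Lam ⧸ ⊤` is finite), if `i = j = 0` then `f ∉ J`, let `J₀` be given by lam_rf.
In both cases the image of `g` in `GJ J₀` under gjMap_exists is not `1` (`Ideal.Quotient.factor h (mk f) = mk f`),
and `Lam ⧸ J₀` is finite, so gam_fin applies; compose the homomorphisms.
-/
import Pool.Agent.H28.IP.Psi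
import Pool.Agent.H28.IP.RfD
import Pool.Agent.H28.IP.RfE

set_option autoImplicit false

namespace Pool.Agent.H28.IP

theorem RfF_aux {J : Ideal Lam} {g : GJ J} (hg : g ≠ 1) :
    ∃ (J₀ : Ideal Lam) (h : J ≤ J₀), Finite (Lam ⧸ J₀) ∧
      ∀ g₀ : GJ J₀, g₀.i = g.i → g₀.j = g.j → g₀.r = Ideal.Quotient.factor h g.r → g₀ ≠ 1 := by
  by_cases hij : g.i = 0 ∧ g.j = 0
  · obtain ⟨f, hf⟩ := Ideal.Quotient.mk_surjective g.r
    have hfJ : f ∉ J := by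
      intro hfJ
      apply hg
      have h0 : g.r = 0 := by
        rw [← hf]
        exact Ideal.Quotient.eq_zero_iff_mem.2 hfJ
      exact Gam.ext hij.1 hij.2 h0
    obtain ⟨J₀, h1, h2, h3⟩ := lam_rf J hfJ
    refine ⟨J₀, h1, h3, ?_⟩
    intro g₀ _ _ hr h4
    rw [← hf, Ideal.Quotient.factor_mk] at hr
    have h5 : g₀.r = 0 := by rw [h4]; rfl
    rw [h5] at hr
    exact h2 (Ideal.Quotient.eq_zero_iff_mem.1 hr.symm)
  · have hsub : Subsingleton (Lam ⧸ (⊤ : Ideal Lam)) := Ideal.Quotient.subsingleton_iff.2 rfl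
    refine ⟨⊤, le_top, Finite.of_subsingleton, ?_⟩
    intro g₀ hi hj _ h4
    apply hij
    rw [← hi, ← hj, h4]
    exact ⟨rfl, rfl⟩

theorem metab_rf {G : Type} [Group G] [Metab G] {a b : G} (hg : Gen2 a b) (hf : AbFree a b) {g : G}
    (h : g ≠ 1) : ∃ (Q : Type) (_ : Group Q) (_ : Finite Q) (π : G →* Q), π g ≠ 1 := by
  obtain ⟨ψ, _, _⟩ := psi_iso hg hf
  have hg' : ψ.symm g ≠ 1 := by
    intro h1
    apply h
    have h2 := congrArg ψ h1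
    rwa [MulEquiv.apply_symm_apply, map_one] at h2
  obtain ⟨J₀, hle, hfin, hne⟩ := RfF_aux hg'
  obtain ⟨θ, hθ⟩ := gjMap_exists hle
  have hne' : θ (ψ.symm g) ≠ 1 := hne _ (hθ _).1 (hθ _).2.1 (hθ _).2.2
  obtain ⟨Q, iQ, fQ, π, hπ⟩ := gam_fin hne'
  exact ⟨Q, iQ, fQ, (π.comp θ).comp ψ.symm.toMonoidHom, hπ⟩

end Pool.Agent.H28.IP
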