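/-
ROW WlB. Bounds (Mathlib only).
PROOFS.
* pol_supp: induction on `L`: the support of a sum is contained in the union, the support of `± mo z` is
  contained in `{z}`; `|vz u| ≤ u.1 + u.2`.
* box_mem: every integer `n` with `|n| ≤ K` is `vz u` for some `u ∈ ints K`: `u = (n.natAbs, 0)` or
  `(0, n.natAbs)`; `List.mem_flatMap`, `List.mem_map`, `List.mem_range`.
-/
import Pool.Agent.H28.IP.Defs

set_option autoImplicit false

namespace Pool.Agent.H28.IP

theorem WlB_mo (z z' : ℤ × ℤ) (h : z ∈ (mo z').coeff.support) : z = z' := by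
  unfold mo at h
  rw [AddMonoidAlgebra.coeff_single] at h
  simpa using Finsupp.support_single_subset h

theorem WlB_vz (u : ℕ × ℕ) : |vz u| ≤ ((u.1 + u.2 : ℕ) : ℤ) := by
  unfold vz
  rw [abs_le]
  constructor <;> omega

theorem pol_supp (L : NL) : ∀ z ∈ (pol L).coeff.support, |z.1| ≤ (mx L : ℤ) ∧ |z.2| ≤ (mx L : ℤ) := by
  induction L with
  | nil =>
    intro z hz
    simp [pol] at hz
  | cons e L ih =>
    intro z hz
    have hp : pol (e :: L) = cond e.2.2 (mo (vz e.1, vz e.2.1)) (-mo (vz e.1, vz e.2.1)) + pol L := by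
      simp [pol]
    have hm : mx (e :: L) = (e.1.1 + e.1.2 + e.2.1.1 + e.2.1.2) + mx L := by
      simp [mx]
    rw [hp, AddMonoidAlgebra.coeff_add] at hz
    have h1 := Finsupp.support_add hz
    rw [Finset.mem_union] at h1
    rcases h1 with h1 | h1
    · have h2 : z = (vz e.1, vz e.2.1) := by
        rcases hb : e.2.2 with _ | _
        · rw [hb] at h1
          simp only [cond_false, AddMonoidAlgebra.coeff_neg, Finsupp.support_neg] at h1
          exact WlB_mo _ _ h1
        · rw [hb] at h1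
          simp only [cond_true] at h1
          exact WlB_mo _ _ h1
      rw [h2, hm]
      have a1 := WlB_vz e.1
      have a2 := WlB_vz e.2.1
      constructor
      · refine a1.trans ?_
        push_cast
        omega
      · refine a2.trans ?_
        push_cast
        omega
    · obtain ⟨a1, a2⟩ := ih z h1
      rw [hm]
      constructor
      · refine a1.trans ?_
        push_cast
        omega
      · refine a2.trans ?_
        push_cast
        omega

theorem WlB_ints {K : ℕ} {n : ℤ} (h : |n| ≤ (K : ℤ)) : ∃ u ∈ ints K, vz u = n := by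
  rw [abs_le] at h
  rcases le_total 0 n with h0 | h0
  · refine ⟨(n.natAbs, 0), ?_, ?_⟩
    · unfold ints
      rw [List.mem_flatMap]
      exact ⟨n.natAbs, List.mem_range.2 (by omega), by simp⟩
    · unfold vz
      simp only
      omega
  · refine ⟨(0, n.natAbs), ?_, ?_⟩
    · unfold ints
      rw [List.mem_flatMap]
      exact ⟨n.natAbs, List.mem_range.2 (by omega), by simp⟩
    · unfold vz
      simp only
      omega

theorem box_mem {K : ℕ} {m : ℤ × ℤ × ℤ × ℤ} (h1 : |m.1| ≤ (K : ℤ)) (h2 : |m.2.1| ≤ (K : ℤ))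
    (h3 : |m.2.2.1| ≤ (K : ℤ)) (h4 : |m.2.2.2| ≤ (K : ℤ)) : ∃ m' ∈ box K, vm m' = m := by
  obtain ⟨a, ha, ha'⟩ := WlB_ints h1
  obtain ⟨b, hb, hb'⟩ := WlB_ints h2
  obtain ⟨c, hc, hc'⟩ := WlB_ints h3
  obtain ⟨d, hd, hd'⟩ := WlB_ints h4
  refine ⟨(a, b, c, d), ?_, ?_⟩
  · unfold box
    rw [List.mem_flatMap]
    refine ⟨a, ha, ?_⟩
    rw [List.mem_flatMap]
    refine ⟨b, hb, ?_⟩
    rw [List.mem_flatMap]
    refine ⟨c, hc, ?_⟩
    rw [List.mem_map]
    exact ⟨d, hd, rfl⟩
  · unfold vm
    simp only [ha', hb', hc', hd']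

end Pool.Agent.H28.IP
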