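import Pool.Agent.H28.IP.Main1
import Pool.Agent.H28.IP.HmM
import Pool.Agent.H28.IP.IsI
import Pool.Agent.H28.IP.RfF
import Pool.Agent.H28.IP.WlB
import Pool.Agent.H28.IP.BoxA
import Pool.Agent.H28.IP.RfB
import Pool.Agent.H28.IP.RfC
import Pool.Agent.H28.IP.NiB
import Pool.Agent.H28.IP.IsB
import Pool.Agent.H28.IP.Gri

set_option autoImplicit false

namespace Pool.Agent.H28.IP

theorem abfree_map {G H : Type} [Group G] [Group H] (θ : G →* H) {a b : G}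
    (h : AbFree (θ a) (θ b)) : AbFree a b := by
  intro i j hij
  apply h i j
  have h1 : θ (a ^ i * b ^ j) ∈ (commutator G).map θ := Subgroup.mem_map_of_mem θ hij
  rw [map_mul, map_zpow, map_zpow] at h1
  refine (?_ : (commutator G).map θ ≤ commutator H) h1
  rw [commutator_def, Subgroup.map_commutator, commutator_def]
  exact Subgroup.commutator_mono le_top le_top

theorem gen2_equiv {G H : Type} [Group G] [Group H] (σ : G ≃* H) {a b : G} (h : Gen2 a b) :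
    Gen2 (σ a) (σ b) := by
  unfold Gen2 at *
  have h1 : ({σ a, σ b} : Set H) = σ.toMonoidHom '' {a, b} := by
    rw [Set.image_pair]
    rfl
  rw [h1, ← MonoidHom.map_closure, h, ← MonoidHom.range_eq_map]
  exact MonoidHom.range_eq_top.2 σ.surjective

/-- value of the word of a list -/
theorem cl_wl {P : Pres} [Metab (GN P)] (A B : Word) (L : NL) :
    cl P (subst [A, B] (wl L)) = ev (cl P A) (cl P B) (pol L) := by
  rw [cl_sub2, wl_ev]
  rfl

theorem mem_idl2 {L M : NL} {f : Lam} : f ∈ idl [L, M] ↔ f ∈ Ideal.span {pol L, pol M} := by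
  unfold idl
  have : {f | ∃ L' ∈ [L, M], f = pol L'} = {pol L, pol M} := by
    ext g
    simp
  rw [this]

theorem ni_sound {P₁ P₂ : Pres} [Metab (GN P₁)] [Metab (GN P₂)] (h : NI P₁ P₂) :
    ¬ Nonempty (GN P₁ ≃* GN P₂) := by
  rintro ⟨σ⟩
  obtain ⟨A₁, B₁, W₁, A₂, B₂, W₂, p, L, hG₁, hG₂, hp, hnc, hM, hcase⟩ := h
  obtain ⟨θ, hA, hB⟩ := homM_sound hG₁.1 hM
  have hf₁ : AbFree (cl P₁ A₁) (cl P₁ B₁) := by
    apply abfree_map θ
    rw [hA, hB]
    exact gam_abfree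
  have hg₁ := genW_gen hG₁
  have hg₂ := genW_gen hG₂
  have hgσ : Gen2 (σ (cl P₁ A₁)) (σ (cl P₁ B₁)) := gen2_equiv σ hg₁
  have hfσ : AbFree (σ (cl P₁ A₁)) (σ (cl P₁ B₁)) := by
    apply abfree_map σ.symm.toMonoidHom
    show AbFree (σ.symm (σ (cl P₁ A₁))) (σ.symm (σ (cl P₁ B₁)))
    rw [σ.symm_apply_apply, σ.symm_apply_apply]
    exact hf₁
  obtain ⟨hf₂, m, hm, ha, hb⟩ := change hgσ hg₂ hfσ
  have hev : ∀ f : Lam, ev (cl P₂ A₂) (cl P₂ B₂) f = 1 ↔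
      ev (cl P₁ A₁) (cl P₁ B₁) (act m f) = 1 := by
    intro f
    rw [change_ev hgσ hg₂ ha hb]
    have h1 := ev_map σ.toMonoidHom (cl P₁ A₁) (cl P₁ B₁) (act m f)
    have h2 : ev (σ (cl P₁ A₁)) (σ (cl P₁ B₁)) (act m f) = σ (ev (cl P₁ A₁) (cl P₁ B₁) (act m f)) :=
      h1.symm
    rw [h2, map_eq_one_iff σ σ.injective]
  rcases hcase with ⟨u, v, huv, hmem⟩ | ⟨M, hM1, hM2, hM3⟩
  · rw [cl_sub2] at hmem
    have h1 : (FreeGroup.mk (zp 0 u ++ zp 1 v) : FreeGroup ℕ) =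
        FreeGroup.mk (zp 0 u) * FreeGroup.mk (zp 1 v) := FreeGroup.mul_mk.symm
    rw [h1, map_mul, lift_zp, lift_zp] at hmem
    have h2 := hf₂ _ _ hmem
    rcases huv with h3 | h3
    · exact h3 h2.1
    · exact h3 h2.2
  · have h1 : ev (cl P₂ A₂) (cl P₂ B₂) (pol M) = 1 := by
      rw [← cl_wl, cl_one]
      exact hM1
    have h2 : act m (pol M) ∈ Ideal.span {pol L, (p : Lam)} := by
      have h3 := (hev _).1 h1
      have h4 := ev_map θ (cl P₁ A₁) (cl P₁ B₁) (act m (pol M))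
      rw [h3, map_one, hA, hB] at h4
      have h5 := mem_Ann.2 h4.symm
      rw [gj_ann, mem_idl2, pol_cst] at h5
      exact h5
    obtain ⟨⟨b1, b2⟩, b3, b4⟩ := box_bound hp (pol_supp L) (pol_supp M) hnc hM2 hm h2
    obtain ⟨m', hm', hmm⟩ := box_mem b1 b2 b3 b4
    obtain ⟨N, hN⟩ := hM3 m' hm' (by rw [hmm]; exact hm)
    have h3 : cl P₂ (subst [A₂, B₂] (wl N)) = 1 ↔
        cl P₁ (subst [A₁, B₁] (wl (actl m' N))) = 1 := by
      rw [cl_wl, cl_wl, pol_actl, hmm]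
      exact hev _
    rw [cl_one, cl_one] at h3
    rcases hN with ⟨n1, n2⟩ | ⟨n1, n2⟩
    · exact fq_sound n2 (h3.1 n1)
    · exact fq_sound n1 (h3.2 n2)

theorem gn_fp (P : Pres) : Group.IsFinitelyPresented (GN P) := by
  have h : Group.IsFinitelyPresented (Grp P) := by
    refine ⟨P.1, PresentedGroup.mk _, PresentedGroup.mk_surjective _,
      {r : FreeGroup (Fin P.1) | ∃ w ∈ P.2, r = FreeGroup.mk (toFin P.1 w)}, ?_, ?_⟩
    · have h1 : {r : FreeGroup (Fin P.1) | ∃ w ∈ P.2, r = FreeGroup.mk (toFin P.1 w)} =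
          (fun w => FreeGroup.mk (toFin P.1 w)) '' {w | w ∈ P.2} := by
        ext r
        constructor
        · rintro ⟨w, h1, h2⟩
          exact ⟨w, h1, h2.symm⟩
        · rintro ⟨w, h1, h2⟩
          exact ⟨w, h1, h2.symm⟩
      rw [h1]
      exact (List.finite_toSet P.2).image _
    · exact (QuotientGroup.ker_mk' _).symm
  obtain ⟨e⟩ := grp_iso P
  exact Group.IsFinitelyPresented.equiv e

theorem ni_complete {P₁ P₂ : Pres} [Metab (GN P₁)] [Metab (GN P₂)] {a₁ b₁ : GN P₁} {a₂ b₂ : GN P₂}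
    (hg₁ : Gen2 a₁ b₁) (hg₂ : Gen2 a₂ b₂) (hr : ¬ FinRank (GN P₁))
    (hiso : ¬ Nonempty (GN P₁ ≃* GN P₂)) : NI P₁ P₂ := by
  have := gn_fp P₁
  have := gn_fp P₂
  obtain ⟨hf₁, p, f, hp, hnc, hAnn⟩ := main_f hg₁ hr
  obtain ⟨A₁, B₁, W₁, hG₁, rfl, rfl⟩ := genW_exists hg₁
  obtain ⟨A₂, B₂, W₂, hG₂, rfl, rfl⟩ := genW_exists hg₂
  obtain ⟨L, rfl⟩ := pol_surj f
  have hle : Ann (cl P₁ A₁) (cl P₁ B₁) ≤ idl [L, cst p] := by
    intro g hg
    rw [mem_idl2, pol_cst]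
    exact hAnn hg
  obtain ⟨ψ, hψa, hψb⟩ := psi_iso hg₁ hf₁
  obtain ⟨κ, hκ⟩ := gjMap_exists hle
  have hM : HomM P₁ [L, cst p] A₁ B₁ W₁ := by
    refine homM_complete hG₁ (κ.comp ψ.symm.toMonoidHom) ?_ ?_
    · show κ (ψ.symm (cl P₁ A₁)) = al
      have h1 : ψ.symm (cl P₁ A₁) = al := ψ.symm_apply_eq.2 hψa.symm
      rw [h1]
      obtain ⟨h2, h3, h4⟩ := hκ al
      ext
      · rw [h2]; rfl
      · rw [h3]; rfl
      · rw [h4]
        show Ideal.Quotient.factor hle 0 = 0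
        exact map_zero _
    · show κ (ψ.symm (cl P₁ B₁)) = be
      have h1 : ψ.symm (cl P₁ B₁) = be := ψ.symm_apply_eq.2 hψb.symm
      rw [h1]
      obtain ⟨h2, h3, h4⟩ := hκ be
      ext
      · rw [h2]; rfl
      · rw [h3]; rfl
      · rw [h4]
        show Ideal.Quotient.factor hle 0 = 0
        exact map_zero _
  refine ⟨A₁, B₁, W₁, A₂, B₂, W₂, p, L, hG₁, hG₂, hp, hnc, hM, ?_⟩
  by_cases hf₂ : AbFree (cl P₂ A₂) (cl P₂ B₂)
  · right
    obtain ⟨h, hh1, hh2⟩ := ann_not_p hg₂ hf₂ hp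
    obtain ⟨M, rfl⟩ := pol_surj h
    refine ⟨M, ?_, hh2, ?_⟩
    · rw [← cl_one, cl_wl]
      exact hh1
    · intro m _ hm
      have h1 : ¬ ∀ f, ev (cl P₂ A₂) (cl P₂ B₂) f = 1 ↔
          ev (cl P₁ A₁) (cl P₁ B₁) (act (vm m) f) = 1 := fun h2 =>
        hiso (iso_of hg₁ hf₁ hg₂ hf₂ hm h2)
      push Not at h1
      obtain ⟨g, hgg⟩ := h1
      obtain ⟨N, rfl⟩ := pol_surj g
      rw [← pol_actl, ← cl_wl, ← cl_wl] at hgg
      refine ⟨N, ?_⟩
      rcases hgg with ⟨g1, g2⟩ | ⟨g1, g2⟩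
      · left
        obtain ⟨Q, iQ, fQ, π, hπ⟩ := metab_rf hg₁ hf₁ g2
        exact ⟨cl_one.1 g1, fq_complete π hπ⟩
      · right
        obtain ⟨Q, iQ, fQ, π, hπ⟩ := metab_rf hg₂ hf₂ g1
        exact ⟨fq_complete π hπ, cl_one.1 g2⟩
  · left
    unfold AbFree at hf₂
    push Not at hf₂
    obtain ⟨i, j, hij, hne⟩ := hf₂
    refine ⟨(i.toNat, (-i).toNat), (j.toNat, (-j).toNat), ?_, ?_⟩
    · have e1 : vz (i.toNat, (-i).toNat) = i := by unfold vz; omega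
      have e2 : vz (j.toNat, (-j).toNat) = j := by unfold vz; omega
      rw [e1, e2]
      by_contra hcon
      push Not at hcon
      exact hne hcon.1 hcon.2
    · have e1 : vz (i.toNat, (-i).toNat) = i := by unfold vz; omega
      have e2 : vz (j.toNat, (-j).toNat) = j := by unfold vz; omega
      rw [cl_sub2]
      have h1 : (FreeGroup.mk (zp 0 (i.toNat, (-i).toNat) ++ zp 1 (j.toNat, (-j).toNat)) :
          FreeGroup ℕ) = FreeGroup.mk (zp 0 (i.toNat, (-i).toNat)) *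
            FreeGroup.mk (zp 1 (j.toNat, (-j).toNat)) := FreeGroup.mul_mk.symm
      rw [h1, map_mul, lift_zp, lift_zp, e1, e2]
      exact hij

end Pool.Agent.H28.IP
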