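import Pool.Agent.H28.IP.Main2

set_option autoImplicit false

namespace Pool.Agent.H28.IP

/-- The class of presentations: 2-generator metabelian groups. -/
def Cls (P : Pres) : Prop :=
  (∀ x ∈ commutator (Grp P), ∀ y ∈ commutator (Grp P), x * y = y * x) ∧
    ∃ a b : Grp P, Subgroup.closure {a, b} = ⊤

theorem finRank_equiv {G H : Type} [Group G] [Group H] (σ : G ≃* H) (h : FinRank G) :
    FinRank H := by
  classical
  obtain ⟨r, hr⟩ := h
  refine ⟨r, fun K hK => ?_⟩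
  have h1 : (K.comap σ.toMonoidHom).FG := by
    have h2 : K.comap σ.toMonoidHom = K.map σ.symm.toMonoidHom := by
      ext x
      rw [Subgroup.mem_comap, Subgroup.mem_map]
      constructor
      · intro hx
        exact ⟨σ x, hx, σ.symm_apply_apply x⟩
      · rintro ⟨y, hy, rfl⟩
        show σ (σ.symm y) ∈ K
        rwa [σ.apply_symm_apply]
    rw [h2]
    obtain ⟨S, hS⟩ := hK
    exact ⟨S.image σ.symm, by rw [Finset.coe_image, ← hS, MonoidHom.map_closure]; rfl⟩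
  obtain ⟨S, hS1, hS2⟩ := hr _ h1
  refine ⟨S.image σ, Finset.card_image_le.trans hS1, ?_⟩
  have h3 : ((S.image σ : Finset H) : Set H) = σ.toMonoidHom '' (S : Set G) := by
    rw [Finset.coe_image]
    rfl
  rw [h3, ← MonoidHom.map_closure, hS2]
  ext x
  rw [Subgroup.mem_map]
  constructor
  · rintro ⟨y, hy, rfl⟩
    exact hy
  · intro hx
    refine ⟨σ.symm x, ?_, σ.apply_symm_apply x⟩
    show σ (σ.symm x) ∈ K
    rwa [σ.apply_symm_apply]

theorem metab_equiv {G H : Type} [Group G] [Group H] (σ : G ≃* H)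
    (h : ∀ x ∈ commutator G, ∀ y ∈ commutator G, x * y = y * x) : Metab H := by
  constructor
  intro x hx y hy
  have hc : ∀ z ∈ commutator H, σ.symm z ∈ commutator G := by
    intro z hz
    have h1 := Subgroup.mem_map_of_mem σ.symm.toMonoidHom hz
    refine (?_ : (commutator H).map σ.symm.toMonoidHom ≤ commutator G) h1
    rw [commutator_def, Subgroup.map_commutator, commutator_def]
    exact Subgroup.commutator_mono le_top le_top
  have h1 := h _ (hc x hx) _ (hc y hy)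
  apply σ.symm.injective
  rw [map_mul, map_mul, h1]

theorem main_thm : ∃ D : Pres × Pres →. Bool, Partrec D ∧ ∀ P₁ P₂ : Pres, Cls P₁ → Cls P₂ →
    (¬ FinRank (Grp P₁) ∨ ¬ FinRank (Grp P₂)) →
      ∃ b ∈ D (P₁, P₂), (b = true ↔ Nonempty (Grp P₁ ≃* Grp P₂)) := by
  have hq : Re fun x : Pres × Pres => NI x.1 x.2 ∨ NI x.2 x.1 :=
    re_or re_NI (re_comp re_NI (Primrec.snd.pair Primrec.fst))
  obtain ⟨D, hD, hDs⟩ := re_decide re_iso hq
  refine ⟨D, hD, fun P₁ P₂ hP₁ hP₂ hr => ?_⟩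
  obtain ⟨e₁⟩ := grp_iso P₁
  obtain ⟨e₂⟩ := grp_iso P₂
  have m₁ : Metab (GN P₁) := metab_equiv e₁ hP₁.1
  have m₂ : Metab (GN P₂) := metab_equiv e₂ hP₂.1
  obtain ⟨a₁, b₁, g₁⟩ := hP₁.2
  obtain ⟨a₂, b₂, g₂⟩ := hP₂.2
  have hg₁ : Gen2 (e₁ a₁) (e₁ b₁) := gen2_equiv e₁ g₁
  have hg₂ : Gen2 (e₂ a₂) (e₂ b₂) := gen2_equiv e₂ g₂
  have hisoiff : Nonempty (GN P₁ ≃* GN P₂) ↔ Nonempty (Grp P₁ ≃* Grp P₂) :=
    ⟨fun ⟨σ⟩ => ⟨(e₁.trans σ).trans e₂.symm⟩, fun ⟨σ⟩ => ⟨(e₁.symm.trans σ).trans e₂⟩⟩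
  have hor : Nonempty (GN P₁ ≃* GN P₂) ∨ (NI P₁ P₂ ∨ NI P₂ P₁) := by
    by_cases hiso : Nonempty (GN P₁ ≃* GN P₂)
    · exact Or.inl hiso
    · right
      rcases hr with hr | hr
      · left
        exact ni_complete hg₁ hg₂ (fun h => hr (finRank_equiv e₁.symm h)) hiso
      · right
        exact ni_complete hg₂ hg₁ (fun h => hr (finRank_equiv e₂.symm h))
          (fun ⟨σ⟩ => hiso ⟨σ.symm⟩)
  have hand : ¬ (Nonempty (GN P₁ ≃* GN P₂) ∧ (NI P₁ P₂ ∨ NI P₂ P₁)) := by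
    rintro ⟨⟨σ⟩, h | h⟩
    · exact ni_sound h ⟨σ⟩
    · exact ni_sound h ⟨σ.symm⟩
  obtain ⟨b, hb, hbb⟩ := hDs (P₁, P₂) hor hand
  exact ⟨b, hb, hbb.trans hisoiff⟩

end Pool.Agent.H28.IP
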